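import Pool.Agent.H7.PQ.Defs

set_option autoImplicit false

/-!
# [H7 PQ BGA] forms over `ZMod M` vanishing at one or two unimodular vectors, 80-130 lines

* `big_one`: `f ↦ qv f x` is an additive homomorphism onto `ZMod M` (`∑ m_i x_i = 1`, `qv (lm m m) x = 1`, `qv_lm`; multiples), its kernel has `M^15/M` elements (`card_Idx5`; all fibres have the same size).
* `big_pair`: `φ f = (qv f x, qv f y)`. `d = dd M x y` divides `M`, and `(d : ZMod M)` is a combination `∑ c_(i,j) (x_i y_j - x_j y_i)` (`d` is the gcd of `M` and the representatives of the minors). Let `l = ∑ c_(i,j) (x_i e_j - x_j e_i)`: `∑ l_k x_k = 0`, `∑ l_k y_k = d`. With `∑ m_k y_k = 1`: the form `f2 = lm l m` has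
`φ f2 = (0, d)`. With `f1`, `qv f1 x = 1`: `φ (a f1 + t f2) = (a, a * qv f1 y + t d)`: the range of `φ` has at least `M * (M/d)` elements (`t d` takes `M/d` values). `#ker * #range = M^15`, so `#ker * M * (M/d) ≤ M^15`, `#ker ≤ M^13 d`.
-/

namespace Pool.Agent.H7.PQ

open Finset Pool.Agent.H7.HP

/-- the gcd of the minors and `M` -/
def dd (M : ℕ) (x y : Fin 5 → ZMod M) : ℕ :=
  Nat.gcd M ((univ : Finset (Fin 5 × Fin 5)).gcd fun p => (x p.1 * y p.2 - x p.2 * y p.1).val)

theorem bga_bez {ι : Type*} (s : Finset ι) (v : ι → ℕ) :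
    ∃ c : ι → ℤ, ∑ p ∈ s, c p * (v p : ℤ) = ((s.gcd v : ℕ) : ℤ) := by
  classical
  induction s using Finset.induction_on with
  | empty => exact ⟨fun _ => 0, by simp⟩
  | insert a s ha ih =>
    obtain ⟨c, hc⟩ := ih
    rw [Finset.gcd_insert]
    have h1 := Nat.gcd_eq_gcd_ab (v a) (s.gcd v)
    refine ⟨fun p => if p = a then Nat.gcdA (v a) (s.gcd v) else
      Nat.gcdB (v a) (s.gcd v) * c p, ?_⟩
    rw [Finset.sum_insert ha]
    beta_reduce
    rw [if_pos rfl]
    have h2 : ∑ p ∈ s, (if p = a then Nat.gcdA (v a) (s.gcd v) else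
        Nat.gcdB (v a) (s.gcd v) * c p) * (v p : ℤ) =
        Nat.gcdB (v a) (s.gcd v) * ∑ p ∈ s, c p * (v p : ℤ) := by
      rw [Finset.mul_sum]
      refine Finset.sum_congr rfl fun p hp => ?_
      have hpa : p ≠ a := by
        rintro rfl
        exact ha hp
      rw [if_neg hpa]
      ring
    rw [h2, hc]
    have h3 : GCDMonoid.gcd (v a) (s.gcd v) = Nat.gcd (v a) (s.gcd v) := rfl
    rw [h3, h1]
    ring

theorem bga_dd (M : ℕ) [NeZero M] (x y : Fin 5 → ZMod M) :
    ∃ c : Fin 5 × Fin 5 → ZMod M, ∑ p, c p * (x p.1 * y p.2 - x p.2 * y p.1) =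
      ((dd M x y : ℕ) : ZMod M) := by
  obtain ⟨c, hc⟩ := bga_bez (univ : Finset (Fin 5 × Fin 5))
    fun p => (x p.1 * y p.2 - x p.2 * y p.1).val
  have h1 := Nat.gcd_eq_gcd_ab M ((univ : Finset (Fin 5 × Fin 5)).gcd
    fun p => (x p.1 * y p.2 - x p.2 * y p.1).val)
  obtain ⟨A, hA⟩ : ∃ A, A = Nat.gcdA M ((univ : Finset (Fin 5 × Fin 5)).gcd
    fun p => (x p.1 * y p.2 - x p.2 * y p.1).val) := ⟨_, rfl⟩
  obtain ⟨B, hB⟩ : ∃ B, B = Nat.gcdB M ((univ : Finset (Fin 5 × Fin 5)).gcd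
    fun p => (x p.1 * y p.2 - x p.2 * y p.1).val) := ⟨_, rfl⟩
  rw [← hA, ← hB, ← hc] at h1
  refine ⟨fun p => (B : ZMod M) * (c p : ZMod M), ?_⟩
  have h2 : ((dd M x y : ℕ) : ZMod M) = (((dd M x y : ℕ) : ℤ) : ZMod M) := by
    rw [Int.cast_natCast]
  rw [h2]
  unfold dd
  rw [h1]
  push_cast
  rw [ZMod.natCast_self, zero_mul, zero_add, Finset.sum_mul]
  refine Finset.sum_congr rfl fun p _ => ?_
  rw [ZMod.natCast_zmod_val]
  ring

theorem dd_dvd (M : ℕ) (x y : Fin 5 → ZMod M) : dd M x y ∣ M := Nat.gcd_dvd_left _ _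

theorem dd_dvd_val (M : ℕ) (x y : Fin 5 → ZMod M) (i j : Fin 5) :
    dd M x y ∣ (x i * y j - x j * y i).val :=
  (Nat.gcd_dvd_right _ _).trans (Finset.gcd_dvd (f := fun p : Fin 5 × Fin 5 =>
    (x p.1 * y p.2 - x p.2 * y p.1).val) (mem_univ (i, j)))

private theorem bga_add {M : ℕ} (f g : Idx 5 → ZMod M) (x : Fin 5 → ZMod M) :
    qv (f + g) x = qv f x + qv g x := qv_addc f g x

private theorem bga_smul {M : ℕ} (t : ZMod M) (f : Idx 5 → ZMod M) (x : Fin 5 → ZMod M) :
    qv (t • f) x = t * qv f x := qv_smulc f t x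

theorem big_one (M : ℕ) [NeZero M] (x : Fin 5 → ZMod M) (hx : Um x) :
    ((univ : Finset (Idx 5 → ZMod M)).filter fun f => qv f x = 0).card = M ^ 14 := by
  have hM : 0 < M := Nat.pos_of_ne_zero (NeZero.ne M)
  obtain ⟨m, hm⟩ := hx
  have he : qv (lm m m) x = 1 := by rw [qv_lm, hm, one_mul]
  have h2 : (univ : Finset (Idx 5 → ZMod M)).card = M ^ 14 * M := by
    rw [card_univ, Fintype.card_fun, ZMod.card, card_Idx5]
    ring
  apply le_antisymm
  · have h1 : (((univ : Finset (Idx 5 → ZMod M)).filter fun g => qv g x = 0) ×ˢ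
        (univ : Finset (ZMod M))).card ≤ (univ : Finset (Idx 5 → ZMod M)).card := by
      refine Finset.card_le_card_of_injOn (fun q => q.1 + q.2 • lm m m) (fun _ _ => mem_univ _) ?_
      rintro ⟨g, c⟩ hg ⟨g', c'⟩ hg' h
      rw [Finset.mem_coe, mem_product, mem_filter] at hg hg'
      dsimp only at h hg hg'
      have e1 : qv (g + c • lm m m) x = qv (g' + c' • lm m m) x := by rw [h]
      rw [bga_add, bga_add, bga_smul, bga_smul, he, hg.1.2, hg'.1.2] at e1
      have e2 : c = c' := by linear_combination e1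
      subst e2
      have e3 : g = g' := add_right_cancel h
      rw [e3]
    rw [card_product, card_univ, ZMod.card, h2] at h1
    exact Nat.le_of_mul_le_mul_right h1 hM
  · have h1 : (univ : Finset (Idx 5 → ZMod M)).card ≤
        (((univ : Finset (Idx 5 → ZMod M)).filter fun g => qv g x = 0) ×ˢ
          (univ : Finset (ZMod M))).card := by
      refine Finset.card_le_card_of_injOn
        (fun g => (g + (-(qv g x)) • lm m m, qv g x)) ?_ ?_
      · intro g _
        rw [Finset.mem_coe, mem_product]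
        refine ⟨?_, mem_univ _⟩
        rw [mem_filter]
        refine ⟨mem_univ _, ?_⟩
        rw [bga_add, bga_smul, he]
        ring
      · intro g _ g' _ h
        rw [Prod.mk.injEq] at h
        obtain ⟨h2, h3⟩ := h
        rw [h3] at h2
        exact add_right_cancel h2
    rw [card_product, h2, card_univ, ZMod.card] at h1
    exact Nat.le_of_mul_le_mul_right h1 hM

theorem big_pair (M : ℕ) [NeZero M] (x y : Fin 5 → ZMod M) (hx : Um x) (hy : Um y) :
    ((univ : Finset (Idx 5 → ZMod M)).filter fun f => qv f x = 0 ∧ qv f y = 0).card ≤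
      M ^ 13 * dd M x y := by
  have hM : 0 < M := Nat.pos_of_ne_zero (NeZero.ne M)
  obtain ⟨m, hm⟩ := hx
  obtain ⟨n, hn⟩ := hy
  obtain ⟨c0, hc0⟩ := bga_dd M x y
  obtain ⟨d, hd⟩ : ∃ d, d = dd M x y := ⟨_, rfl⟩
  have hdM : d ∣ M := by
    rw [hd]
    exact dd_dvd M x y
  rw [← hd] at hc0 ⊢
  have hd0 : 0 < d := Nat.pos_of_dvd_of_pos hdM hM
  obtain ⟨l, hl⟩ : ∃ l : Fin 5 → ZMod M, ∀ k, l k = ∑ p : Fin 5 × Fin 5,
      c0 p * (x p.1 * (if p.2 = k then 1 else 0) - x p.2 * (if p.1 = k then 1 else 0)) :=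
    ⟨_, fun _ => rfl⟩
  have hlz : ∀ z : Fin 5 → ZMod M, ∑ k, l k * z k =
      ∑ p : Fin 5 × Fin 5, c0 p * (x p.1 * z p.2 - x p.2 * z p.1) := by
    intro z
    simp only [hl, Finset.sum_mul]
    rw [Finset.sum_comm]
    refine Finset.sum_congr rfl fun p _ => ?_
    have e1 : ∀ k : Fin 5, c0 p * (x p.1 * (if p.2 = k then 1 else 0) -
        x p.2 * (if p.1 = k then 1 else 0)) * z k =
        (if p.2 = k then c0 p * x p.1 * z k else 0) - (if p.1 = k then c0 p * x p.2 * z k else 0) := by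
      intro k
      by_cases k1 : p.2 = k
      · by_cases k2 : p.1 = k
        · simp only [k1, k2, if_true]
          ring
        · simp only [k1, k2, if_true, if_false]
          ring
      · by_cases k2 : p.1 = k
        · simp only [k1, k2, if_true, if_false]
          ring
        · simp only [k1, k2, if_false]
          ring
    rw [Finset.sum_congr rfl fun k _ => e1 k, Finset.sum_sub_distrib, Finset.sum_ite_eq,
      Finset.sum_ite_eq, if_pos (mem_univ _), if_pos (mem_univ _)]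
    ring
  have f1x : qv (lm m m) x = 1 := by rw [qv_lm, hm, one_mul]
  have f2x : qv (lm l n) x = 0 := by
    rw [qv_lm, hlz x]
    have : ∑ p : Fin 5 × Fin 5, c0 p * (x p.1 * x p.2 - x p.2 * x p.1) = 0 :=
      Finset.sum_eq_zero fun p _ => by ring
    rw [this, zero_mul]
  have f2y : qv (lm l n) y = d := by
    rw [qv_lm, hlz y, hn, mul_one, hc0]
  obtain ⟨F1, hF1⟩ : ∃ F1 : Idx 5 → ZMod M, F1 = lm m m := ⟨_, rfl⟩
  obtain ⟨F2, hF2⟩ : ∃ F2 : Idx 5 → ZMod M, F2 = lm l n := ⟨_, rfl⟩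
  rw [← hF1] at f1x
  rw [← hF2] at f2x f2y
  obtain ⟨S, hS⟩ : ∃ S, S = (univ : Finset (Idx 5 → ZMod M)).filter
    (fun f => qv f x = 0 ∧ qv f y = 0) := ⟨_, rfl⟩
  rw [← hS]
  have h1 : ((S ×ˢ (univ : Finset (ZMod M))) ×ˢ range (M / d)).card ≤
      (univ : Finset (Idx 5 → ZMod M)).card := by
    refine Finset.card_le_card_of_injOn
      (fun w => w.1.1 + ((w.2 : ZMod M) • F2 + w.1.2 • F1)) (fun _ _ => mem_univ _) ?_
    rintro ⟨⟨g, c⟩, j⟩ hx ⟨⟨g', c'⟩, j'⟩ hx' hxx
    rw [Finset.mem_coe, mem_product, mem_product, hS, mem_filter, mem_range] at hx hx'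
    obtain ⟨⟨⟨_, hg1, hg2⟩, _⟩, hj⟩ := hx
    obtain ⟨⟨⟨_, hg1', hg2'⟩, _⟩, hj'⟩ := hx'
    dsimp only at hxx hg1 hg2 hg1' hg2' hj hj'
    have e1 : ∀ v : Fin 5 → ZMod M, qv g v + ((j : ZMod M) * qv F2 v + c * qv F1 v) =
        qv g' v + ((j' : ZMod M) * qv F2 v + c' * qv F1 v) := by
      intro v
      have e2 : qv (g + ((j : ZMod M) • F2 + c • F1)) v =
          qv (g' + ((j' : ZMod M) • F2 + c' • F1)) v := by rw [hxx]
      rw [bga_add, bga_add, bga_smul, bga_smul, bga_add, bga_add, bga_smul, bga_smul] at e2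
      exact e2
    have e2 := e1 x
    have e3 := e1 y
    rw [hg1, hg1', f1x, f2x] at e2
    rw [hg2, hg2', f2y] at e3
    have e10 : c = c' := by linear_combination e2
    subst e10
    have e5 : ((j * d : ℕ) : ZMod M) = ((j' * d : ℕ) : ZMod M) := by
      push_cast
      linear_combination e3
    have e6 : j * d < M := by
      have := (Nat.lt_div_iff_mul_lt' hdM j).1 hj
      rwa [mul_comm]
    have e7 : j' * d < M := by
      have := (Nat.lt_div_iff_mul_lt' hdM j').1 hj'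
      rwa [mul_comm]
    have e8 : j * d = j' * d := by
      have e9 := (ZMod.natCast_eq_natCast_iff' _ _ M).1 e5
      rwa [Nat.mod_eq_of_lt e6, Nat.mod_eq_of_lt e7] at e9
    have e9 : j = j' := Nat.eq_of_mul_eq_mul_right hd0 e8
    subst e9
    have e11 : g = g' := add_right_cancel hxx
    rw [e11]
  rw [card_product, card_product, card_univ, ZMod.card, card_range, card_univ, Fintype.card_fun,
    ZMod.card, card_Idx5] at h1
  have hMd : M = d * (M / d) := (Nat.mul_div_cancel' hdM).symm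
  have hq0 : 0 < M / d := Nat.div_pos (Nat.le_of_dvd hM hdM) hd0
  have h3 : S.card * (M * (M / d)) ≤ (M ^ 13 * d) * (M * (M / d)) := by
    calc S.card * (M * (M / d)) = S.card * M * (M / d) := by ring
      _ ≤ M ^ 15 := h1
      _ = M ^ 14 * M := by ring
      _ = M ^ 14 * (d * (M / d)) := by rw [← hMd]
      _ = (M ^ 13 * d) * (M * (M / d)) := by ring
  exact Nat.le_of_mul_le_mul_right h3 (by positivity)

end Pool.Agent.H7.PQ
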