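import Pool.Agent.H7.PQ.Defs

set_option autoImplicit false

/-!
# [H7 PQ LSQ] local solutions as vectors over `ZMod M`, 60-100 lines

* `um_iff`: if `p ∣ M` and `p` divides all `x_i` then the identity `∑ m_i x_i = 1` modulo `p` is impossible. Conversely let `d = gcd(x_0, .., x_4, M)`: no prime divides it, `d = 1`, Bezout gives integers `m_i`, `t` with `∑ m_i x_i + t M = 1`. (E.g. the ideal of `ℤ` generated by the `x_i` and `M` is principal, `Ideal.span_pair`/`IsPrincipal`, its generator is `±1`.)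
* `ls_card`: the map `a ↦ (fun i => (a i : ZMod M))` is a bijection from the box `[0, M)^5` to `Fin 5 → ZMod M`; `M ∣ qv f a` iff `qv` of the reductions vanishes (`qv_map`, `ZMod.intCast_zmod_eq_zero_iff_dvd`), `um_iff`.
* `ls_mul`: over integers: for `a1 ∈ LS f g M1`, `a2 ∈ LS f g M2` the vector `a ∈ [0, M1 M2)^5`, `a ≡ a1 mod M1`, `a ≡ a2 mod M2`; a prime dividing `M1 M2` divides `M1` or `M2`. Injective.
* `ls_prod`: induction on the finset; `LS f g 1` has one element.
-/

namespace Pool.Agent.H7.PQ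

open Finset Pool.Agent.H7.HP

theorem um_iff (M : ℕ) [NeZero M] (x : Fin 5 → ℤ) :
    Um (fun i => (x i : ZMod M)) ↔ ∀ p : ℕ, p.Prime → p ∣ M → ¬ ∀ i, (p : ℤ) ∣ x i := by
  constructor
  · rintro ⟨m, hm⟩ p hp hpM hall
    haveI : Fact p.Prime := ⟨hp⟩
    have h1 := congrArg (ZMod.castHom hpM (ZMod p)) hm
    rw [map_sum, map_one] at h1
    have h2 : ∑ i, ZMod.castHom hpM (ZMod p) (m i * (x i : ZMod M)) = 0 := by
      refine sum_eq_zero fun i _ => ?_
      rw [map_mul, map_intCast, (ZMod.intCast_zmod_eq_zero_iff_dvd (x i) p).2 (hall i), mul_zero]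
    rw [h2] at h1
    exact zero_ne_one h1
  · intro hp
    set I : Ideal ℤ := Ideal.span (insert (M : ℤ) (Set.range x)) with hI
    obtain ⟨d, hd⟩ := (IsPrincipalIdealRing.principal I).principal
    have hd' : I = Ideal.span {d} := hd
    have hdM : d ∣ (M : ℤ) := by
      rw [← Ideal.mem_span_singleton, ← hd']
      exact Ideal.subset_span (Set.mem_insert _ _)
    have hdx : ∀ i, d ∣ x i := by
      intro i
      rw [← Ideal.mem_span_singleton, ← hd']
      exact Ideal.subset_span (Set.mem_insert_of_mem _ (Set.mem_range_self i))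
    have hd1 : d.natAbs = 1 := by
      by_contra hne
      have hq := Nat.minFac_prime hne
      have hqd : ((d.natAbs.minFac : ℕ) : ℤ) ∣ d := Int.natCast_dvd.2 (Nat.minFac_dvd _)
      refine hp _ hq ?_ fun i => hqd.trans (hdx i)
      exact_mod_cast hqd.trans hdM
    have h1 : (1 : ℤ) ∈ I := by
      rw [hd', Ideal.mem_span_singleton]
      exact (Int.isUnit_iff_natAbs_eq.2 hd1).dvd
    rw [hI, Ideal.mem_span_insert] at h1
    obtain ⟨a, z, hz, haz⟩ := h1
    obtain ⟨c, hc⟩ := (Ideal.mem_span_range_iff_exists_fun).1 hz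
    refine ⟨fun i => (c i : ZMod M), ?_⟩
    have h2 := congrArg (Int.cast : ℤ → ZMod M) haz
    rw [← hc] at h2
    push_cast at h2
    rw [ZMod.natCast_self, mul_zero, zero_add] at h2
    exact h2.symm

open scoped Classical in
theorem ls_card (f g : Idx 5 → ℤ) (M : ℕ) [NeZero M] : (LS f g M).card =
    ((univ : Finset (Fin 5 → ZMod M)).filter fun x => Um x ∧ qv (fun p => (f p : ZMod M)) x = 0 ∧
      qv (fun p => (g p : ZMod M)) x = 0).card := by
  have hq : ∀ (k : Idx 5 → ℤ) (a : Fin 5 → ℤ),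
      qv (fun p => (k p : ZMod M)) (fun i => (a i : ZMod M)) = 0 ↔ (M : ℤ) ∣ qv k a := by
    intro k a
    have h1 := qv_map (Int.castRingHom (ZMod M)) k a
    simp only [eq_intCast] at h1
    rw [← h1, ZMod.intCast_zmod_eq_zero_iff_dvd]
  unfold LS
  refine card_bij (fun a _ => fun i => (a i : ZMod M)) ?_ ?_ ?_
  · intro a ha
    obtain ⟨-, h1, h2, h3⟩ := mem_filter.1 ha
    refine mem_filter.2 ⟨mem_univ _, (um_iff M a).2 h3, (hq f a).2 h1, (hq g a).2 h2⟩
  · intro a ha b hb hab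
    have h1 := Fintype.mem_piFinset.1 (mem_filter.1 ha).1
    have h2 := Fintype.mem_piFinset.1 (mem_filter.1 hb).1
    funext i
    have h3 := congrFun hab i
    have h4 := (ZMod.intCast_eq_intCast_iff (a i) (b i) M).1 h3
    have h5 := mem_Ico.1 (h1 i)
    have h6 := mem_Ico.1 (h2 i)
    unfold Int.ModEq at h4
    rwa [Int.emod_eq_of_lt h5.1 h5.2, Int.emod_eq_of_lt h6.1 h6.2] at h4
  · intro x hx
    obtain ⟨-, h1, h2, h3⟩ := mem_filter.1 hx
    have hx' : (fun i => (((x i).val : ℤ) : ZMod M)) = x := by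
      funext i
      rw [Int.cast_natCast, ZMod.natCast_zmod_val]
    refine ⟨fun i => ((x i).val : ℤ), ?_, hx'⟩
    refine mem_filter.2 ⟨?_, ?_, ?_, ?_⟩
    · rw [Fintype.mem_piFinset]
      intro i
      rw [mem_Ico]
      exact ⟨Int.natCast_nonneg _, by exact_mod_cast ZMod.val_lt (x i)⟩
    · rw [← hq, hx']
      exact h2
    · rw [← hq, hx']
      exact h3
    · rw [← um_iff, hx']
      exact h1

theorem ls_mul (f g : Idx 5 → ℤ) (M1 M2 : ℕ) (h1 : 0 < M1) (h2 : 0 < M2)
    (h : Nat.Coprime M1 M2) : (LS f g M1).card * (LS f g M2).card ≤ (LS f g (M1 * M2)).card := by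
  classical
  haveI : NeZero M1 := ⟨h1.ne'⟩
  haveI : NeZero M2 := ⟨h2.ne'⟩
  haveI : NeZero (M1 * M2) := ⟨(Nat.mul_pos h1 h2).ne'⟩
  rw [ls_card f g M1, ls_card f g M2, ls_card f g (M1 * M2), ← card_product]
  set e := ZMod.chineseRemainder h with he
  have hqv : ∀ (k : Idx 5 → ℤ) (x1 : Fin 5 → ZMod M1) (x2 : Fin 5 → ZMod M2),
      qv (fun p => (k p : ZMod M1)) x1 = 0 → qv (fun p => (k p : ZMod M2)) x2 = 0 →
      qv (fun p => (k p : ZMod (M1 * M2))) (fun i => e.symm (x1 i, x2 i)) = 0 := by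
    intro k x1 x2 hx1 hx2
    have e1 := qv_map (e.symm : ZMod M1 × ZMod M2 ≃+* ZMod (M1 * M2)).toRingHom
      (fun p => (k p : ZMod M1 × ZMod M2)) (fun i => (x1 i, x2 i))
    have e2 : qv (fun p => (k p : ZMod M1 × ZMod M2)) (fun i => (x1 i, x2 i)) = 0 := by
      refine Prod.ext ?_ ?_
      · have e3 := qv_map (RingHom.fst (ZMod M1) (ZMod M2))
          (fun p => (k p : ZMod M1 × ZMod M2)) (fun i => (x1 i, x2 i))
        simp only [RingHom.coe_fst, Prod.fst_intCast] at e3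
        rw [e3]
        exact hx1
      · have e3 := qv_map (RingHom.snd (ZMod M1) (ZMod M2))
          (fun p => (k p : ZMod M1 × ZMod M2)) (fun i => (x1 i, x2 i))
        simp only [RingHom.coe_snd, Prod.snd_intCast] at e3
        rw [e3]
        exact hx2
    rw [e2, map_zero] at e1
    have e4 : ∀ p, (e.symm : ZMod M1 × ZMod M2 ≃+* ZMod (M1 * M2)).toRingHom
        ((k p : ℤ) : ZMod M1 × ZMod M2) = (k p : ZMod (M1 * M2)) := fun p => map_intCast _ _
    simp only [e4] at e1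
    exact e1.symm
  refine card_le_card_of_injOn (fun q => fun i => e.symm (q.1 i, q.2 i)) ?_ ?_
  · rintro ⟨x1, x2⟩ hx
    obtain ⟨hx1, hx2⟩ := mem_product.1 (mem_coe.1 hx)
    obtain ⟨-, ⟨m1, hm1⟩, hf1, hg1⟩ := mem_filter.1 hx1
    obtain ⟨-, ⟨m2, hm2⟩, hf2, hg2⟩ := mem_filter.1 hx2
    refine mem_coe.2 (mem_filter.2 ⟨mem_univ _, ⟨fun i => e.symm (m1 i, m2 i), ?_⟩,
      hqv f x1 x2 hf1 hf2, hqv g x1 x2 hg1 hg2⟩)
    have e1 : ∑ i, e.symm (m1 i, m2 i) * e.symm (x1 i, x2 i) =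
        e.symm (∑ i, (m1 i, m2 i) * (x1 i, x2 i)) := by
      rw [map_sum]
      exact sum_congr rfl fun i _ => (map_mul _ _ _).symm
    have e2 : ∑ i, ((m1 i, m2 i) : ZMod M1 × ZMod M2) * (x1 i, x2 i) = 1 := by
      refine Prod.ext ?_ ?_
      · rw [Prod.fst_sum]
        exact hm1
      · rw [Prod.snd_sum]
        exact hm2
    show ∑ i, e.symm (m1 i, m2 i) * e.symm (x1 i, x2 i) = 1
    rw [e1, e2, map_one]
  · rintro ⟨x1, x2⟩ _ ⟨y1, y2⟩ _ hxy
    have e1 : ∀ i, (x1 i, x2 i) = (y1 i, y2 i) := fun i => e.symm.injective (congrFun hxy i)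
    refine Prod.ext (funext fun i => ?_) (funext fun i => ?_)
    · exact congrArg Prod.fst (e1 i)
    · exact congrArg Prod.snd (e1 i)

theorem ls_prod (f g : Idx 5 → ℤ) (S : Finset ℕ) (hS : ∀ p ∈ S, p.Prime) (e : ℕ → ℕ) :
    ∏ p ∈ S, (LS f g (p ^ e p)).card ≤ (LS f g (∏ p ∈ S, p ^ e p)).card := by
  classical
  induction S using Finset.induction_on with
  | empty =>
    rw [prod_empty, prod_empty]
    refine card_pos.2 ⟨0, ?_⟩
    unfold LS
    refine mem_filter.2 ⟨?_, ?_, ?_, ?_⟩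
    · rw [Fintype.mem_piFinset]
      intro i
      rw [mem_Ico]
      constructor
      · exact le_refl _
      · show (0 : ℤ) < ((1 : ℕ) : ℤ)
        norm_num
    · rw [Nat.cast_one]
      exact one_dvd _
    · rw [Nat.cast_one]
      exact one_dvd _
    · intro p hp h1
      exact absurd (Nat.dvd_one.1 h1) hp.one_lt.ne'
  | insert p S hpS ih =>
    rw [prod_insert hpS, prod_insert hpS]
    have hp := hS p (mem_insert_self _ _)
    have hS' : ∀ q ∈ S, q.Prime := fun q hq => hS q (mem_insert_of_mem hq)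
    have h1 := ih hS'
    refine (Nat.mul_le_mul_left _ h1).trans ?_
    refine ls_mul f g _ _ (pow_pos hp.pos _) (prod_pos fun q hq => pow_pos (hS' q hq).pos _) ?_
    refine Nat.Coprime.prod_right fun q hq => ?_
    refine Nat.Coprime.pow _ _ ((Nat.coprime_primes hp (hS' q hq)).2 ?_)
    rintro rfl
    exact hpS hq

end Pool.Agent.H7.PQ
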