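import Pool.Agent.H7.PQ.Bga
import Pool.Agent.H7.PQ.Lsq

set_option autoImplicit false

/-!
# [H7 PQ BGB] sums over unimodular vectors, 100-150 lines

* `big_sum`: let `∑ m_i x_i = 1`. If `d = dd M x y` (a divisor of `M`) then `y_i - x_i c`, `c = ∑ m_j y_j`, equals `∑_j m_j (x_j y_i - x_i y_j)`, which is a multiple of `d` in `ZMod M`. So for a given divisor `d` of `M` the `y` with `dd M x y = d` are determined by `c` modulo `d` and the vector `(y_i - x_i c')` with entries in `d ZMod M`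
(`c'` a fixed representative of `c` modulo `d`; `y_i - x_i c' = (y_i - x_i c) + x_i (c - c')`): at most `d (M/d)^5` vectors. So `∑_y (dd M x y)^2 ≤ ∑_{d ∣ M} d^2 * d (M/d)^5 = M^5 ∑_{d ∣ M} 1/d^2 ≤ M^5 (1 + ∑_{d > P0} 1/d^2) ≤ M^5 (1 + 1/P0)`: a divisor `d > 1` of `M` has a prime factor `> P0`.
(See `HP/Big.lean` for the same computation with three coordinates.)
* `um_card`: not unimodular: by `um_iff` some prime `p ∣ M` divides all coordinates (`p > P0`): at most `∑_{p ∣ M} (M/p)^5 ≤ M^5 ∑_{d > P0} 1/d^5 ≤ M^5/P0`.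
-/

namespace Pool.Agent.H7.PQ

open Finset Pool.Agent.H7.HP

private theorem bgb_dvd {M d : ℕ} [NeZero M] (hd : d ∣ M) (t : ZMod M) :
    d ∣ ((d : ZMod M) * t).val := by
  rw [ZMod.val_mul, Nat.dvd_mod_iff hd, ZMod.val_natCast]
  exact ((Nat.dvd_mod_iff hd).2 dvd_rfl).mul_right _

private theorem bgb_of_val {M d : ℕ} [NeZero M] (a : ZMod M) (h : d ∣ a.val) :
    ∃ t : ZMod M, a = (d : ZMod M) * t := by
  obtain ⟨k, hk⟩ := h
  refine ⟨(k : ZMod M), ?_⟩
  rw [← ZMod.natCast_zmod_val a, hk, Nat.cast_mul]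

private theorem bgb_count (M : ℕ) [NeZero M] (x : Fin 5 → ZMod M) (hx : Um x) (d : ℕ)
    (hd : d ∣ M) :
    ((univ : Finset (Fin 5 → ZMod M)).filter fun y => dd M x y = d).card ≤ d * (M / d) ^ 5 := by
  have hM : 0 < M := Nat.pos_of_ne_zero (NeZero.ne M)
  have hd0 : 0 < d := Nat.pos_of_dvd_of_pos hd hM
  obtain ⟨m, hm⟩ := hx
  have h1 : ((range d) ×ˢ (Fintype.piFinset (fun _ : Fin 5 => range (M / d)))).card =
      d * (M / d) ^ 5 := by
    rw [card_product, Fintype.card_piFinset, card_range]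
    simp
  rw [← h1]
  obtain ⟨r, hr⟩ : ∃ r : (Fin 5 → ZMod M) → ℕ, ∀ y, r y = (∑ j, m j * y j).val % d :=
    ⟨_, fun _ => rfl⟩
  have key : ∀ y, dd M x y = d → ∀ i, d ∣ (y i - x i * (r y : ZMod M)).val := by
    intro y hy i
    obtain ⟨c, hc⟩ : ∃ c, c = ∑ j, m j * y j := ⟨_, rfl⟩
    have e1 : y i - x i * c = ∑ j, m j * (x j * y i - x i * y j) := by
      have e2 : ∑ j, m j * (x j * y i - x i * y j) =
          (∑ j, m j * x j) * y i - x i * ∑ j, m j * y j := by
        rw [Finset.sum_mul, Finset.mul_sum, ← Finset.sum_sub_distrib]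
        exact Finset.sum_congr rfl fun j _ => by ring
      rw [e2, hm, ← hc, one_mul]
    have e3 : ∀ j, ∃ t : ZMod M, x j * y i - x i * y j = (d : ZMod M) * t := by
      intro j
      refine bgb_of_val _ ?_
      have := dd_dvd_val M x y j i
      rwa [hy] at this
    choose t ht using e3
    have e4 : c - (r y : ZMod M) = (d : ZMod M) * ((c.val / d : ℕ) : ZMod M) := by
      have e5 : c.val = d * (c.val / d) + r y := by
        rw [hr, ← hc]
        exact (Nat.div_add_mod _ _).symm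
      have e6 : c = ((d * (c.val / d) + r y : ℕ) : ZMod M) := by
        rw [← e5, ZMod.natCast_zmod_val]
      conv_lhs => rw [e6]
      push_cast
      ring
    have e7 : y i - x i * (r y : ZMod M) = (d : ZMod M) *
        ((∑ j, m j * t j) + x i * ((c.val / d : ℕ) : ZMod M)) := by
      have e8 : y i - x i * (r y : ZMod M) = (y i - x i * c) + x i * (c - (r y : ZMod M)) := by
        ring
      rw [e8, e1, e4, Finset.sum_congr rfl fun j _ => by rw [ht j], mul_add, Finset.mul_sum]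
      congr 1
      · exact Finset.sum_congr rfl fun j _ => by ring
      · ring
    rw [e7]
    exact bgb_dvd hd _
  refine Finset.card_le_card_of_injOn
    (fun y => (r y, fun i => (y i - x i * (r y : ZMod M)).val / d)) ?_ ?_
  · intro y hy
    rw [Finset.mem_coe, mem_filter] at hy
    rw [Finset.mem_coe, mem_product]
    refine ⟨?_, ?_⟩
    · rw [mem_range]
      show r y < d
      rw [hr]
      exact Nat.mod_lt _ hd0
    · rw [Fintype.mem_piFinset]
      intro i
      rw [mem_range]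
      exact Nat.div_lt_div_of_lt_of_dvd hd (ZMod.val_lt _)
  · intro y hy y' hy' h
    rw [Finset.mem_coe, mem_filter] at hy hy'
    rw [Prod.mk.injEq] at h
    obtain ⟨h2, h3⟩ := h
    funext i
    have h4 := congrFun h3 i
    have h5 := key y hy.2 i
    have h6 := key y' hy'.2 i
    have h7 : (y i - x i * (r y : ZMod M)).val = (y' i - x i * (r y' : ZMod M)).val := by
      rw [← Nat.div_mul_cancel h5, ← Nat.div_mul_cancel h6, h4]
    have h8 := ZMod.val_injective M h7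
    rw [h2] at h8
    exact sub_left_injective h8

private theorem bgb_tail (M P0 : ℕ) (hM : 0 < M) (hP : 1 ≤ P0) (S : Finset ℕ)
    (hS : S ⊆ Ioc P0 M) : ∑ d ∈ S, ((d : ℝ) ^ 2)⁻¹ ≤ 1 / P0 := by
  refine (Finset.sum_le_sum_of_subset_of_nonneg hS fun d _ _ => by positivity).trans ?_
  rcases le_total P0 M with h6 | h6
  · have h7 := sum_Ioc_inv_sq_le_sub (α := ℝ) (by omega : P0 ≠ 0) h6
    have h8 : (0 : ℝ) ≤ (M : ℝ)⁻¹ := by positivity
    rw [one_div]
    linarith
  · rw [Finset.Ioc_eq_empty (by omega), Finset.sum_empty]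
    positivity

theorem big_sum (M P0 : ℕ) [NeZero M] (hP : 1 ≤ P0) (h : ∀ p : ℕ, p.Prime → p ∣ M → P0 < p)
    (x : Fin 5 → ZMod M) (hx : Um x) :
    P0 * ∑ y : Fin 5 → ZMod M, (dd M x y) ^ 2 ≤ (P0 + 1) * M ^ 5 := by
  have hM : 0 < M := Nat.pos_of_ne_zero (NeZero.ne M)
  have hM0 : (0 : ℝ) < M := by exact_mod_cast hM
  have hP0 : (0 : ℝ) < P0 := by exact_mod_cast hP
  have h1 : ∑ y : Fin 5 → ZMod M, ((dd M x y : ℕ) : ℝ) ^ 2 =
      ∑ d ∈ M.divisors, ∑ y ∈ (univ : Finset (Fin 5 → ZMod M)).filter (fun y => dd M x y = d),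
        ((dd M x y : ℕ) : ℝ) ^ 2 := by
    rw [Finset.sum_fiberwise_of_maps_to]
    intro y _
    rw [Nat.mem_divisors]
    exact ⟨dd_dvd M x y, hM.ne'⟩
  have h2 : ∀ d ∈ M.divisors,
      ∑ y ∈ (univ : Finset (Fin 5 → ZMod M)).filter (fun y => dd M x y = d),
        ((dd M x y : ℕ) : ℝ) ^ 2 ≤ (M : ℝ) ^ 5 * ((d : ℝ) ^ 2)⁻¹ := by
    intro d hd
    have hdM := (Nat.mem_divisors.1 hd).1
    have hd0 : (0 : ℝ) < d := by exact_mod_cast Nat.pos_of_dvd_of_pos hdM hM
    have h3 : ∑ y ∈ (univ : Finset (Fin 5 → ZMod M)).filter (fun y => dd M x y = d),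
        ((dd M x y : ℕ) : ℝ) ^ 2 = (((univ : Finset (Fin 5 → ZMod M)).filter
          (fun y => dd M x y = d)).card : ℝ) * (d : ℝ) ^ 2 := by
      rw [Finset.sum_congr rfl (g := fun _ => (d : ℝ) ^ 2) fun w hw => by
        rw [(mem_filter.1 hw).2], Finset.sum_const, nsmul_eq_mul]
    rw [h3]
    have h4 : (((univ : Finset (Fin 5 → ZMod M)).filter (fun y => dd M x y = d)).card : ℝ) ≤
        (d : ℝ) * ((M : ℝ) / d) ^ 5 := by
      have h5 := bgb_count M x hx d hdM
      calc (((univ : Finset (Fin 5 → ZMod M)).filter (fun y => dd M x y = d)).card : ℝ) ≤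
            ((d * (M / d) ^ 5 : ℕ) : ℝ) := by exact_mod_cast h5
        _ = (d : ℝ) * ((M : ℝ) / d) ^ 5 := by
            push_cast
            rw [Nat.cast_div hdM hd0.ne']
    calc _ ≤ ((d : ℝ) * ((M : ℝ) / d) ^ 5) * (d : ℝ) ^ 2 :=
          mul_le_mul_of_nonneg_right h4 (by positivity)
      _ = (M : ℝ) ^ 5 * ((d : ℝ) ^ 2)⁻¹ := by field_simp
  have h3 : M.divisors.erase 1 ⊆ Ioc P0 M := by
    intro d hd
    rw [Finset.mem_erase] at hd
    have hdM := (Nat.mem_divisors.1 hd.2).1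
    have hd0 := Nat.pos_of_dvd_of_pos hdM hM
    rw [mem_Ioc]
    obtain ⟨p, hp, hpd⟩ := Nat.exists_prime_and_dvd hd.1
    have h5 := h p hp (hpd.trans hdM)
    exact ⟨lt_of_lt_of_le h5 (Nat.le_of_dvd hd0 hpd), Nat.le_of_dvd hM hdM⟩
  have h4 : ∑ y : Fin 5 → ZMod M, ((dd M x y : ℕ) : ℝ) ^ 2 ≤ (M : ℝ) ^ 5 * (1 + 1 / P0) := by
    rw [h1]
    refine (Finset.sum_le_sum h2).trans ?_
    rw [← Finset.mul_sum]
    refine mul_le_mul_of_nonneg_left ?_ (by positivity)
    have e1 : (1 : ℕ) ∈ M.divisors := Nat.one_mem_divisors.2 hM.ne'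
    rw [← Finset.add_sum_erase _ _ e1]
    have e2 := bgb_tail M P0 hM hP _ h3
    simp only [Nat.cast_one, one_pow, inv_one]
    linarith
  have h5 : (P0 : ℝ) * ∑ y : Fin 5 → ZMod M, ((dd M x y : ℕ) : ℝ) ^ 2 ≤
      ((P0 : ℝ) + 1) * (M : ℝ) ^ 5 := by
    calc (P0 : ℝ) * ∑ y : Fin 5 → ZMod M, ((dd M x y : ℕ) : ℝ) ^ 2 ≤
          (P0 : ℝ) * ((M : ℝ) ^ 5 * (1 + 1 / P0)) := mul_le_mul_of_nonneg_left h4 hP0.le
      _ = ((P0 : ℝ) + 1) * (M : ℝ) ^ 5 := by field_simp
  exact_mod_cast h5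

open scoped Classical in
theorem um_card (M P0 : ℕ) [NeZero M] (hP : 1 ≤ P0) (h : ∀ p : ℕ, p.Prime → p ∣ M → P0 < p) :
    P0 * M ^ 5 ≤ P0 * ((univ : Finset (Fin 5 → ZMod M)).filter fun x => Um x).card + M ^ 5 := by
  have hM : 0 < M := Nat.pos_of_ne_zero (NeZero.ne M)
  have hM0 : (0 : ℝ) < M := by exact_mod_cast hM
  have hP0 : (0 : ℝ) < P0 := by exact_mod_cast hP
  have h0 : ((univ : Finset (Fin 5 → ZMod M)).filter fun x => Um x).card +
      ((univ : Finset (Fin 5 → ZMod M)).filter fun x => ¬ Um x).card = M ^ 5 := by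
    rw [Finset.card_filter_add_card_filter_not, card_univ, Fintype.card_fun, ZMod.card,
      Fintype.card_fin]
  have h1 : (univ : Finset (Fin 5 → ZMod M)).filter (fun x => ¬ Um x) ⊆
      M.primeFactors.biUnion fun p =>
        (univ : Finset (Fin 5 → ZMod M)).filter fun x => ∀ i, p ∣ (x i).val := by
    intro x hx
    rw [mem_filter] at hx
    have e1 : x = fun i => (((x i).val : ℤ) : ZMod M) := by
      funext i
      rw [Int.cast_natCast, ZMod.natCast_zmod_val]
    have e2 := hx.2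
    rw [e1, um_iff M fun i => ((x i).val : ℤ)] at e2
    push Not at e2
    obtain ⟨p, hp, hpM, hpx⟩ := e2
    rw [mem_biUnion]
    refine ⟨p, Nat.mem_primeFactors.2 ⟨hp, hpM, hM.ne'⟩, ?_⟩
    rw [mem_filter]
    exact ⟨mem_univ _, fun i => by exact_mod_cast hpx i⟩
  have h2 : ∀ p ∈ M.primeFactors, (((univ : Finset (Fin 5 → ZMod M)).filter
      fun x => ∀ i, p ∣ (x i).val).card : ℝ) ≤ (M : ℝ) ^ 5 * ((p : ℝ) ^ 2)⁻¹ := by
    intro p hp
    have hpM := (Nat.mem_primeFactors.1 hp).2.1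
    have hp1 : 1 ≤ p := (Nat.mem_primeFactors.1 hp).1.one_lt.le
    have hp1R : (1 : ℝ) ≤ p := by exact_mod_cast hp1
    have e1 : ((univ : Finset (Fin 5 → ZMod M)).filter
        fun x => ∀ i, p ∣ (x i).val).card ≤ (M / p) ^ 5 := by
      have e2 : (Fintype.piFinset (fun _ : Fin 5 => range (M / p))).card = (M / p) ^ 5 := by
        rw [Fintype.card_piFinset]
        simp
      rw [← e2]
      refine Finset.card_le_card_of_injOn (fun w i => (w i).val / p) ?_ ?_
      · intro w _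
        rw [Finset.mem_coe, Fintype.mem_piFinset]
        intro i
        rw [mem_range]
        exact Nat.div_lt_div_of_lt_of_dvd hpM (ZMod.val_lt (w i))
      · intro w hw w' hw' h
        rw [Finset.mem_coe, mem_filter] at hw hw'
        funext i
        have h2 := congrFun h i
        dsimp only at h2
        have h5 : (w i).val = (w' i).val := by
          rw [← Nat.div_mul_cancel (hw.2 i), ← Nat.div_mul_cancel (hw'.2 i), h2]
        exact ZMod.val_injective M h5
    calc (((univ : Finset (Fin 5 → ZMod M)).filter fun x => ∀ i, p ∣ (x i).val).card : ℝ) ≤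
          (((M / p) ^ 5 : ℕ) : ℝ) := by exact_mod_cast e1
      _ = ((M : ℝ) / p) ^ 5 := by
        push_cast
        rw [Nat.cast_div hpM (by positivity)]
      _ = (M : ℝ) ^ 5 * ((p : ℝ) ^ 5)⁻¹ := by rw [div_pow, div_eq_mul_inv]
      _ ≤ (M : ℝ) ^ 5 * ((p : ℝ) ^ 2)⁻¹ := by
        gcongr
        norm_num
  have h3 : M.primeFactors ⊆ Ioc P0 M := by
    intro p hp
    obtain ⟨hp1, hpM, _⟩ := Nat.mem_primeFactors.1 hp
    rw [mem_Ioc]
    exact ⟨h p hp1 hpM, Nat.le_of_dvd hM hpM⟩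
  have h4 : (((univ : Finset (Fin 5 → ZMod M)).filter fun x => ¬ Um x).card : ℝ) ≤
      (M : ℝ) ^ 5 * (1 / P0) := by
    calc (((univ : Finset (Fin 5 → ZMod M)).filter fun x => ¬ Um x).card : ℝ) ≤
          ((∑ p ∈ M.primeFactors, ((univ : Finset (Fin 5 → ZMod M)).filter
            fun x => ∀ i, p ∣ (x i).val).card : ℕ) : ℝ) := by
          exact_mod_cast (Finset.card_le_card h1).trans Finset.card_biUnion_le
      _ ≤ ∑ p ∈ M.primeFactors, (M : ℝ) ^ 5 * ((p : ℝ) ^ 2)⁻¹ := by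
          push_cast
          exact Finset.sum_le_sum h2
      _ ≤ (M : ℝ) ^ 5 * (1 / P0) := by
          rw [← Finset.mul_sum]
          exact mul_le_mul_of_nonneg_left (bgb_tail M P0 hM hP _ h3) (by positivity)
  have h5 : (P0 : ℝ) * (((univ : Finset (Fin 5 → ZMod M)).filter fun x => ¬ Um x).card : ℝ) ≤
      (M : ℝ) ^ 5 := by
    calc (P0 : ℝ) * (((univ : Finset (Fin 5 → ZMod M)).filter fun x => ¬ Um x).card : ℝ) ≤
          (P0 : ℝ) * ((M : ℝ) ^ 5 * (1 / P0)) := mul_le_mul_of_nonneg_left h4 hP0.le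
      _ = (M : ℝ) ^ 5 := by field_simp
  have h6 : P0 * ((univ : Finset (Fin 5 → ZMod M)).filter fun x => ¬ Um x).card ≤ M ^ 5 := by
    exact_mod_cast h5
  calc P0 * M ^ 5 = P0 * ((univ : Finset (Fin 5 → ZMod M)).filter fun x => Um x).card +
        P0 * ((univ : Finset (Fin 5 → ZMod M)).filter fun x => ¬ Um x).card := by
        rw [← h0]
        ring
    _ ≤ _ := by omega

end Pool.Agent.H7.PQ
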