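import Pool.Agent.H7.PQ.Bgb

set_option autoImplicit false

/-!
# [H7 PQ BGC] solutions modulo an integer without small prime factors, 80-120 lines

`U(f,g) = #{x unimodular : f(x) = g(x) = 0}`, `P` the number of unimodular vectors. `∑_{f,g} U = ∑_x (M^14)^2 = P M^28` (`big_one`). `∑_{f,g} U^2 = ∑_{x,y} (#{f : f(x) = f(y) = 0})^2 ≤ M^26 ∑_{x unimodular} ∑_y (dd M x y)^2 ≤ P M^31 (1 + 1/P0)` (`big_pair`, `big_sum`).
`∑_{f,g} (U - M^3)^2 ≤ P M^31 (1 + 1/P0) - 2 M^3 P M^28 + M^6 M^30 = M^36 - P M^31 + P M^31/P0 ≤ M^36 * 2/P0` (`P ≥ M^5 (1 - 1/P0)` by `um_card`, `P ≤ M^5`). Each pair with `2 U < M^3` contributes at least `M^6/4`: at most `8 M^30/P0` pairs.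
(Compare `HP/Big.lean`.)
-/

namespace Pool.Agent.H7.PQ

open Finset Pool.Agent.H7.HP

open scoped Classical in
theorem big2 (M P0 : ℕ) [NeZero M] (hP : 1 ≤ P0) (h : ∀ p : ℕ, p.Prime → p ∣ M → P0 < p) :
    P0 * ((univ : Finset ((Idx 5 → ZMod M) × (Idx 5 → ZMod M))).filter fun q =>
      2 * ((univ : Finset (Fin 5 → ZMod M)).filter fun x => Um x ∧ qv q.1 x = 0 ∧
        qv q.2 x = 0).card < M ^ 3).card ≤ 8 * M ^ 30 := by
  have hM : 0 < M := Nat.pos_of_ne_zero (NeZero.ne M)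
  have hM0 : (0 : ℝ) < M := by exact_mod_cast hM
  have hP0 : (0 : ℝ) < P0 := by exact_mod_cast hP
  obtain ⟨W, hW⟩ : ∃ W, W = (univ : Finset (Fin 5 → ZMod M)).filter fun x => Um x := ⟨_, rfl⟩
  obtain ⟨ι, hι⟩ : ∃ ι : (Idx 5 → ZMod M) → (Fin 5 → ZMod M) → ℝ, ∀ f x,
      ι f x = if qv f x = 0 then 1 else 0 := ⟨_, fun _ _ => rfl⟩
  obtain ⟨U, hU⟩ : ∃ U : (Idx 5 → ZMod M) × (Idx 5 → ZMod M) → ℕ, U = fun q =>
    ((univ : Finset (Fin 5 → ZMod M)).filter fun x => Um x ∧ qv q.1 x = 0 ∧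
        qv q.2 x = 0).card := ⟨_, rfl⟩
  have hUg : ∀ q : (Idx 5 → ZMod M) × (Idx 5 → ZMod M),
      ((univ : Finset (Fin 5 → ZMod M)).filter fun x => Um x ∧ qv q.1 x = 0 ∧
        qv q.2 x = 0).card = U q := by
    intro q
    rw [hU]
  simp only [hUg]
  have hUs : ∀ q, (U q : ℝ) = ∑ x ∈ W, ι q.1 x * ι q.2 x := by
    intro q
    rw [hU, hW, Finset.sum_filter]
    dsimp only
    rw [Finset.card_filter]
    push_cast
    refine Finset.sum_congr rfl fun x _ => ?_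
    rw [hι, hι]
    by_cases k1 : Um x
    · by_cases k2 : qv q.1 x = 0
      · by_cases k3 : qv q.2 x = 0
        · simp [k1, k2, k3]
        · simp [k1, k2, k3]
      · simp [k1, k2]
    · simp [k1]
  have hι1 : ∀ x ∈ W, ∑ f : Idx 5 → ZMod M, ι f x = (M : ℝ) ^ 14 := by
    intro x hx
    rw [hW, mem_filter] at hx
    have e1 := big_one M x hx.2
    rw [Finset.card_filter] at e1
    have e2 : ((∑ f : Idx 5 → ZMod M, (if qv f x = 0 then 1 else 0) : ℕ) : ℝ) =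
        ((M ^ 14 : ℕ) : ℝ) := by
      exact_mod_cast e1
    push_cast at e2
    rw [← e2]
    exact Finset.sum_congr rfl fun f _ => hι f x
  have hι2 : ∀ x ∈ W, ∀ y ∈ W, ∑ f : Idx 5 → ZMod M, ι f x * ι f y ≤
      (M : ℝ) ^ 13 * (dd M x y : ℝ) := by
    intro x hx y hy
    rw [hW, mem_filter] at hx hy
    have e1 := big_pair M x y hx.2 hy.2
    rw [Finset.card_filter] at e1
    have e2 : ((∑ f : Idx 5 → ZMod M, (if qv f x = 0 ∧ qv f y = 0 then 1 else 0) : ℕ) : ℝ) ≤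
        ((M ^ 13 * dd M x y : ℕ) : ℝ) := by
      exact_mod_cast e1
    push_cast at e2
    refine le_trans (le_of_eq ?_) e2
    refine Finset.sum_congr rfl fun f _ => ?_
    rw [hι, hι]
    by_cases k1 : qv f x = 0
    · by_cases k2 : qv f y = 0
      · simp [k1, k2]
      · simp [k1, k2]
    · simp [k1]
  have hι0 : ∀ f x, 0 ≤ ι f x := by
    intro f x
    rw [hι]
    split_ifs
    · exact zero_le_one
    · exact le_rfl
  have hcG : ((univ : Finset ((Idx 5 → ZMod M) × (Idx 5 → ZMod M))).card : ℝ) =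
      (M : ℝ) ^ 30 := by
    rw [card_univ, Fintype.card_prod, Fintype.card_fun, ZMod.card, card_Idx5]
    push_cast
    ring
  -- first moment
  have m1 : ∑ q : (Idx 5 → ZMod M) × (Idx 5 → ZMod M), (U q : ℝ) = W.card * (M : ℝ) ^ 28 := by
    rw [Finset.sum_congr rfl fun g _ => hUs g, Finset.sum_comm]
    have e1 : ∀ x ∈ W, ∑ q : (Idx 5 → ZMod M) × (Idx 5 → ZMod M), ι q.1 x * ι q.2 x =
        (M : ℝ) ^ 28 := by
      intro x hx
      rw [Fintype.sum_prod_type]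
      dsimp only
      rw [← Finset.sum_mul_sum, hι1 x hx]
      ring
    rw [Finset.sum_congr rfl e1, Finset.sum_const, nsmul_eq_mul]
  -- second moment
  have m2 : ∑ q : (Idx 5 → ZMod M) × (Idx 5 → ZMod M), (U q : ℝ) ^ 2 ≤
      W.card * ((M : ℝ) ^ 31 * (1 + 1 / P0)) := by
    have e1 : ∀ q : (Idx 5 → ZMod M) × (Idx 5 → ZMod M), (U q : ℝ) ^ 2 =
        ∑ x ∈ W, ∑ y ∈ W, (ι q.1 x * ι q.1 y) * (ι q.2 x * ι q.2 y) := by
      intro q
      rw [hUs q, pow_two, Finset.sum_mul_sum]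
      exact Finset.sum_congr rfl fun x _ => Finset.sum_congr rfl fun y _ => by ring
    rw [Finset.sum_congr rfl fun g _ => e1 g, Finset.sum_comm]
    have e2 : ∀ x ∈ W, ∑ q : (Idx 5 → ZMod M) × (Idx 5 → ZMod M),
        ∑ y ∈ W, (ι q.1 x * ι q.1 y) * (ι q.2 x * ι q.2 y) ≤
        (M : ℝ) ^ 31 * (1 + 1 / P0) := by
      intro x hx
      rw [Finset.sum_comm]
      have e3 : ∀ y ∈ W, ∑ q : (Idx 5 → ZMod M) × (Idx 5 → ZMod M),
          (ι q.1 x * ι q.1 y) * (ι q.2 x * ι q.2 y) ≤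
          (M : ℝ) ^ 26 * ((dd M x y : ℕ) : ℝ) ^ 2 := by
        intro y hy
        rw [Fintype.sum_prod_type]
        dsimp only
        rw [← Finset.sum_mul_sum]
        have e4 := hι2 x hx y hy
        have e5 : 0 ≤ ∑ f : Idx 5 → ZMod M, ι f x * ι f y :=
          Finset.sum_nonneg fun f _ => mul_nonneg (hι0 f x) (hι0 f y)
        calc _ ≤ ((M : ℝ) ^ 13 * (dd M x y : ℝ)) * ((M : ℝ) ^ 13 * (dd M x y : ℝ)) :=
              mul_le_mul e4 e4 e5 (e5.trans e4)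
          _ = (M : ℝ) ^ 26 * ((dd M x y : ℕ) : ℝ) ^ 2 := by ring
      refine (Finset.sum_le_sum e3).trans ?_
      rw [← Finset.mul_sum]
      have hxU : Um x := by
        rw [hW, mem_filter] at hx
        exact hx.2
      have e4 : ∑ y ∈ W, ((dd M x y : ℕ) : ℝ) ^ 2 ≤ (M : ℝ) ^ 5 * (1 + 1 / P0) := by
        have e5 : ∑ y ∈ W, ((dd M x y : ℕ) : ℝ) ^ 2 ≤
            ∑ y : Fin 5 → ZMod M, ((dd M x y : ℕ) : ℝ) ^ 2 :=
          Finset.sum_le_sum_of_subset_of_nonneg (Finset.subset_univ _) fun y _ _ => by positivity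
        refine e5.trans ?_
        have e6 := big_sum M P0 hP h x hxU
        have e7 : (P0 : ℝ) * ∑ y : Fin 5 → ZMod M, ((dd M x y : ℕ) : ℝ) ^ 2 ≤
            ((P0 : ℝ) + 1) * (M : ℝ) ^ 5 := by exact_mod_cast e6
        have e8 : (M : ℝ) ^ 5 * (1 + 1 / P0) = (((P0 : ℝ) + 1) * (M : ℝ) ^ 5) / P0 := by
          field_simp
        rw [e8, le_div_iff₀ hP0, mul_comm]
        exact e7
      calc (M : ℝ) ^ 26 * ∑ y ∈ W, ((dd M x y : ℕ) : ℝ) ^ 2 ≤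
            (M : ℝ) ^ 26 * ((M : ℝ) ^ 5 * (1 + 1 / P0)) :=
            mul_le_mul_of_nonneg_left e4 (by positivity)
        _ = (M : ℝ) ^ 31 * (1 + 1 / P0) := by ring
    refine (Finset.sum_le_sum e2).trans ?_
    rw [Finset.sum_const, nsmul_eq_mul]
  have hWle : (W.card : ℝ) ≤ (M : ℝ) ^ 5 := by
    have e1 : W.card ≤ M ^ 5 := by
      rw [hW]
      refine (Finset.card_filter_le _ _).trans (le_of_eq ?_)
      rw [card_univ, Fintype.card_fun, ZMod.card, Fintype.card_fin]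
    exact_mod_cast e1
  have hWge : (M : ℝ) ^ 5 - (M : ℝ) ^ 5 / P0 ≤ (W.card : ℝ) := by
    have e1 := um_card M P0 hP h
    have e2 : (P0 : ℝ) * (M : ℝ) ^ 5 ≤ (P0 : ℝ) * (W.card : ℝ) + (M : ℝ) ^ 5 := by
      rw [hW]
      exact_mod_cast e1
    rw [sub_le_iff_le_add, ← sub_le_iff_le_add', le_div_iff₀ hP0]
    linarith
  -- variance
  have m3 : ∑ q : (Idx 5 → ZMod M) × (Idx 5 → ZMod M), ((U q : ℝ) - (M : ℝ) ^ 3) ^ 2 ≤
      2 * (M : ℝ) ^ 36 / P0 := by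
    have e1 : ∑ q : (Idx 5 → ZMod M) × (Idx 5 → ZMod M), ((U q : ℝ) - (M : ℝ) ^ 3) ^ 2 =
        ∑ q : (Idx 5 → ZMod M) × (Idx 5 → ZMod M), (U q : ℝ) ^ 2 -
          2 * (M : ℝ) ^ 3 * ∑ q : (Idx 5 → ZMod M) × (Idx 5 → ZMod M), (U q : ℝ) +
          (M : ℝ) ^ 30 * (M : ℝ) ^ 6 := by
      have e2 : ∀ q ∈ (univ : Finset ((Idx 5 → ZMod M) × (Idx 5 → ZMod M))),
          ((U q : ℝ) - (M : ℝ) ^ 3) ^ 2 =
          (U q : ℝ) ^ 2 - 2 * (M : ℝ) ^ 3 * (U q : ℝ) + (M : ℝ) ^ 6 := fun g _ => by ring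
      rw [Finset.sum_congr rfl e2, Finset.sum_add_distrib, Finset.sum_sub_distrib,
        ← Finset.mul_sum, Finset.sum_const, nsmul_eq_mul, hcG]
    rw [e1, m1]
    have e3 : (W.card : ℝ) * ((M : ℝ) ^ 31 * (1 + 1 / P0)) =
        (W.card : ℝ) * (M : ℝ) ^ 31 + (W.card : ℝ) * ((M : ℝ) ^ 31 / P0) := by ring
    have e4 : (W.card : ℝ) * ((M : ℝ) ^ 31 / P0) ≤ (M : ℝ) ^ 36 / P0 := by
      calc (W.card : ℝ) * ((M : ℝ) ^ 31 / P0) ≤ (M : ℝ) ^ 5 * ((M : ℝ) ^ 31 / P0) :=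
            mul_le_mul_of_nonneg_right hWle (by positivity)
        _ = (M : ℝ) ^ 36 / P0 := by ring
    have e5 : ((M : ℝ) ^ 5 - (M : ℝ) ^ 5 / P0) * (M : ℝ) ^ 31 ≤ (W.card : ℝ) * (M : ℝ) ^ 31 :=
      mul_le_mul_of_nonneg_right hWge (by positivity)
    have e6 : ((M : ℝ) ^ 5 - (M : ℝ) ^ 5 / P0) * (M : ℝ) ^ 31 =
        (M : ℝ) ^ 36 - (M : ℝ) ^ 36 / P0 := by ring
    have e7 : 2 * (M : ℝ) ^ 3 * ((W.card : ℝ) * (M : ℝ) ^ 28) =
        2 * ((W.card : ℝ) * (M : ℝ) ^ 31) := by ring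
    have e8 : (M : ℝ) ^ 30 * (M : ℝ) ^ 6 = (M : ℝ) ^ 36 := by ring
    have e9 : 2 * (M : ℝ) ^ 36 / P0 = 2 * ((M : ℝ) ^ 36 / P0) := by ring
    rw [e3] at m2
    rw [e6] at e5
    rw [e7, e8, e9]
    linarith
  -- conclusion
  obtain ⟨T, hT⟩ : ∃ T, T = (univ : Finset ((Idx 5 → ZMod M) × (Idx 5 → ZMod M))).filter
    (fun q => 2 * U q < M ^ 3) := ⟨_, rfl⟩
  rw [← hT]
  have m4 : (T.card : ℝ) * ((M : ℝ) ^ 6 / 4) ≤ 2 * (M : ℝ) ^ 36 / P0 := by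
    refine le_trans ?_ m3
    have e1 : ∀ q ∈ T, (M : ℝ) ^ 6 / 4 ≤ ((U q : ℝ) - (M : ℝ) ^ 3) ^ 2 := by
      intro g hg
      rw [hT, mem_filter] at hg
      have e2 : (2 : ℝ) * U g < (M : ℝ) ^ 3 := by exact_mod_cast hg.2
      have e3 : (M : ℝ) ^ 3 / 2 ≤ (M : ℝ) ^ 3 - U g := by linarith
      have e4 := pow_le_pow_left₀ (by positivity) e3 2
      have e5 : ((M : ℝ) ^ 3 / 2) ^ 2 = (M : ℝ) ^ 6 / 4 := by ring
      rw [e5] at e4
      have e6 : ((U g : ℝ) - (M : ℝ) ^ 3) ^ 2 = ((M : ℝ) ^ 3 - U g) ^ 2 := by ring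
      rw [e6]
      exact e4
    have e2 := Finset.card_nsmul_le_sum _ _ _ e1
    rw [nsmul_eq_mul] at e2
    refine e2.trans (Finset.sum_le_sum_of_subset_of_nonneg (Finset.subset_univ _) ?_)
    intro g _ _
    positivity
  have m5 : (P0 : ℝ) * T.card ≤ 8 * (M : ℝ) ^ 30 := by
    rw [le_div_iff₀ hP0] at m4
    have e1 : (T.card : ℝ) * ((M : ℝ) ^ 6 / 4) * P0 = ((P0 : ℝ) * T.card) * ((M : ℝ) ^ 6 / 4) := by
      ring
    have e2 : 2 * (M : ℝ) ^ 36 = (8 * (M : ℝ) ^ 30) * ((M : ℝ) ^ 6 / 4) := by ring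
    rw [e1, e2] at m4
    exact le_of_mul_le_mul_right m4 (by positivity)
  exact_mod_cast m5

end Pool.Agent.H7.PQ
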