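import Pool.Agent.H7.PQ.Defs

set_option autoImplicit false

/-!
# [H7 PQ CEL] primitive vectors in a cell and a residue class, 110-170 lines

`M = N!`, `L = B s/M`, `B` large in terms of `s`, `N`. In each coordinate the integers `x_i ≡ a_i` modulo `M` in the interval `[B s n_i, B s (n_i + 1))` of length `M L` number at least `L - 1` and at most `L + 1`. So there are at least `(L - 1)^5` vectors without the condition `Prim`.
Not primitive: some prime `p` divides all `x_i` (`prim_iff`). `p ∣ M` is impossible (then `p ≤ N` divides all `a_i`), so `p` does not divide `M`, `p > N ≥ 4`; `p ≤ x_1 ≤ 2B` (`x_1 > 0`). For given `p` each `x_i` lies in one residue class modulo `p M`: at most `(L/p + 1)^5 ≤ 16 (L^5/p^5 + 1)` vectors (power mean: `(a+b)^5 ≤ 16 (a^5 + b^5)`).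
`∑_{p ≥ 5} p^(-5) ≤ ∑_{d ≥ 5} 1/d^5 ≤ 1/1024` (telescoping: `1/d^5 ≤ (1/4)(1/(d-1)^4 - 1/d^4)`), so at most `L^5/64 + 32 B` vectors are not primitive. Total `≥ (L - 1)^5 - L^5/64 - 32 B ≥ L^5/2` for `B` large (`L ≥ 100`, `32 B ≤ L^5/10`).
-/

namespace Pool.Agent.H7.PQ

open Finset Pool.Agent.H7.HP

/-- integers of a residue class in a half-open interval -/
private noncomputable def celT (u v : ℝ) (M : ℕ) (a : ℤ) : Finset ℤ :=
  (Finset.Ico ⌈(u - a) / M⌉ ⌈(v - a) / M⌉).image fun k => a + M * k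

private theorem mem_celT {u v : ℝ} {M : ℕ} (hM : 0 < M) {a x : ℤ} :
    x ∈ celT u v M a ↔ (u ≤ x ∧ (x : ℝ) < v) ∧ (M : ℤ) ∣ x - a := by
  have hM' : (0 : ℝ) < M := by exact_mod_cast hM
  unfold celT
  rw [Finset.mem_image]
  constructor
  · rintro ⟨k, hk, rfl⟩
    rw [Finset.mem_Ico, Int.ceil_le, Int.lt_ceil, div_le_iff₀ hM', lt_div_iff₀ hM'] at hk
    push_cast
    exact ⟨⟨by nlinarith [hk.1], by nlinarith [hk.2]⟩, ⟨k, by ring⟩⟩
  · rintro ⟨⟨h1, h2⟩, ⟨k, hk⟩⟩
    have hx0 : x = a + M * k := by linarith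
    have hx : (x : ℝ) = a + M * k := by
      rw [hx0]; push_cast; ring
    refine ⟨k, ?_, hx0.symm⟩
    rw [Finset.mem_Ico, Int.ceil_le, Int.lt_ceil, div_le_iff₀ hM', lt_div_iff₀ hM']
    constructor <;> nlinarith

private theorem card_celT {u v : ℝ} (huv : u ≤ v) {M : ℕ} (hM : 0 < M) (a : ℤ) :
    (v - u) / M - 1 ≤ ((celT u v M a).card : ℝ) ∧
      ((celT u v M a).card : ℝ) ≤ (v - u) / M + 1 := by
  have hM' : (0 : ℝ) < M := by exact_mod_cast hM
  have hM0 : (M : ℤ) ≠ 0 := by exact_mod_cast hM.ne'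
  unfold celT
  rw [Finset.card_image_of_injective _ (fun x y h => mul_left_cancel₀ hM0 (add_left_cancel h)),
    Int.card_Ico]
  have h1 := Int.le_ceil ((u - a) / M)
  have h2 := Int.ceil_lt_add_one ((u - a) / M)
  have h3 := Int.le_ceil ((v - a) / M)
  have h4 := Int.ceil_lt_add_one ((v - a) / M)
  have hAB : ⌈(u - a) / M⌉ ≤ ⌈(v - a) / M⌉ :=
    Int.ceil_mono (div_le_div_of_nonneg_right (by linarith) hM'.le)
  have h5 : (((⌈(v - a) / M⌉ - ⌈(u - a) / M⌉).toNat : ℕ) : ℝ) =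
      (⌈(v - a) / M⌉ : ℝ) - (⌈(u - a) / M⌉ : ℝ) := by
    have := Int.toNat_of_nonneg (sub_nonneg.2 hAB)
    have h6 : ((((⌈(v - a) / M⌉ - ⌈(u - a) / M⌉).toNat : ℕ) : ℤ) : ℝ) =
        ((⌈(v - a) / M⌉ - ⌈(u - a) / M⌉ : ℤ) : ℝ) := by rw [this]
    push_cast at h6
    exact_mod_cast h6
  rw [h5]
  have e : (v - u) / M = (v - a) / M - (u - a) / M := by ring
  rw [e]
  constructor <;> linarith

private theorem cel_bad {u v : ℝ} (huv : u ≤ v) {M p : ℕ} (hM : 0 < M) (hp : p.Prime)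
    (hc : Nat.Coprime p M) (a : ℤ) :
    (((celT u v M a).filter fun x => (p : ℤ) ∣ x).card : ℝ) ≤ (v - u) / M / p + 1 := by
  have hM' : (0 : ℝ) < M := by exact_mod_cast hM
  have hp' : (0 : ℝ) < p := by exact_mod_cast hp.pos
  rcases ((celT u v M a).filter fun x => (p : ℤ) ∣ x).eq_empty_or_nonempty with h | ⟨c, hcc⟩
  · rw [h, Finset.card_empty, Nat.cast_zero]
    have : 0 ≤ (v - u) / M / p := by
      have : 0 ≤ v - u := by linarith
      positivity
    linarith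
  · have hsub : ((celT u v M a).filter fun x => (p : ℤ) ∣ x) ⊆ celT u v (p * M) c := by
      intro x hx
      rw [Finset.mem_filter, mem_celT hM] at hx
      rw [Finset.mem_filter, mem_celT hM] at hcc
      rw [mem_celT (Nat.mul_pos hp.pos hM)]
      refine ⟨hx.1.1, ?_⟩
      push_cast
      refine IsCoprime.mul_dvd (Nat.isCoprime_iff_coprime.2 hc) (dvd_sub hx.2 hcc.2) ?_
      have : x - c = (x - a) - (c - a) := by ring
      rw [this]
      exact dvd_sub hx.1.2 hcc.1.2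
    have h1 : (((celT u v M a).filter fun x => (p : ℤ) ∣ x).card : ℝ) ≤
        ((celT u v (p * M) c).card : ℝ) := by exact_mod_cast Finset.card_le_card hsub
    have h2 := (card_celT huv (Nat.mul_pos hp.pos hM) c).2
    have h3 : (v - u) / ((p * M : ℕ) : ℝ) = (v - u) / M / p := by
      push_cast
      rw [div_div, mul_comm (p : ℝ)]
    rw [h3] at h2
    linarith

private theorem cel_pow {a b : ℝ} (ha : 0 ≤ a) (hb : 0 ≤ b) :
    (a + b) ^ 5 ≤ 16 * (a ^ 5 + b ^ 5) := by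
  have := add_pow_le ha hb 5
  norm_num at this
  exact this

private theorem cel_tel (D : ℕ) : ∑ d ∈ Finset.Ico 5 (5 + D), (1 : ℝ) / (d : ℝ) ^ 5 ≤
    1 / 1024 - 1 / (4 * ((4 + D : ℕ) : ℝ) ^ 4) := by
  induction D with
  | zero => norm_num
  | succ D ih =>
    rw [← add_assoc, Finset.sum_Ico_succ_top (by omega)]
    set y : ℝ := ((4 + D : ℕ) : ℝ) with hy
    have hy4 : (4 : ℝ) ≤ y := by
      rw [hy]; push_cast
      have : (0 : ℝ) ≤ D := Nat.cast_nonneg D
      linarith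
    have e1 : ((5 + D : ℕ) : ℝ) = y + 1 := by rw [hy]; push_cast; ring
    have e2 : ((4 + (D + 1) : ℕ) : ℝ) = y + 1 := by rw [hy]; push_cast; ring
    rw [e1, e2]
    have hy0 : 0 < y := by linarith
    have key : 1 / (y + 1) ^ 5 ≤ 1 / (4 * y ^ 4) - 1 / (4 * (y + 1) ^ 4) := by
      rw [div_sub_div _ _ (by positivity) (by positivity), div_le_div_iff₀ (by positivity)
        (by positivity)]
      have h0 : 0 ≤ (y + 1) ^ 4 := by positivity
      have h1 : y ^ 4 * 4 ≤ ((y + 1) ^ 4 - y ^ 4) * (y + 1) := by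
        nlinarith [pow_pos hy0 2, pow_pos hy0 3, pow_pos hy0 4]
      nlinarith [mul_le_mul_of_nonneg_left h1 h0]
    linarith

theorem cel2 (N : ℕ) (hN : 4 ≤ N) (s : ℝ) (hs : 0 < s) : ∃ B0 : ℕ, ∀ B ≥ B0,
    ∀ n a : Fin 5 → ℤ, (∀ p : ℕ, p.Prime → p ≤ N → ¬ ∀ i, (p : ℤ) ∣ a i) →
    (∀ x : Fin 5 → ℤ, (∀ i, B * s * n i ≤ x i ∧ (x i : ℝ) < B * s * (n i + 1)) →
      (B : ℤ) < x 1 ∧ x 1 ≤ 2 * B) →
    ∀ U : Finset (Fin 5 → ℤ), (∀ x : Fin 5 → ℤ, x ∈ U ↔
      (∀ i, B * s * n i ≤ x i ∧ (x i : ℝ) < B * s * (n i + 1)) ∧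
      (∀ i, ((N.factorial : ℕ) : ℤ) ∣ x i - a i) ∧ Prim x) →
      (B * s / N.factorial) ^ 5 / 2 ≤ (U.card : ℝ) := by
  classical
  set M : ℕ := N.factorial with hMdef
  have hM : 0 < M := Nat.factorial_pos N
  have hM' : (0 : ℝ) < M := by exact_mod_cast hM
  have hsM : 0 < s / M := by positivity
  have hev1 : ∀ᶠ B : ℕ in Filter.atTop, 100 / (s / M) ≤ (B : ℝ) :=
    tendsto_natCast_atTop_atTop.eventually_ge_atTop _
  have hev2 : ∀ᶠ B : ℕ in Filter.atTop, 320 / (s / M) ^ 5 ≤ (B : ℝ) :=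
    tendsto_natCast_atTop_atTop.eventually_ge_atTop _
  obtain ⟨B0, hB0⟩ := Filter.eventually_atTop.1 (hev1.and hev2)
  refine ⟨B0 + 1, fun B hB n a hna hx1 U hU => ?_⟩
  obtain ⟨hL, hB4⟩ := hB0 B (by omega)
  have hB1 : (1 : ℝ) ≤ B := by exact_mod_cast (by omega : 1 ≤ B)
  have hBpos : (0 : ℝ) < B := by linarith
  rw [div_le_iff₀ hsM] at hL
  rw [div_le_iff₀ (by positivity)] at hB4
  have hLe : (B : ℝ) * (s / M) = B * s / M := by ring
  rw [hLe] at hL
  have hL5 : 320 * (B : ℝ) ≤ (B * s / M) ^ 5 := by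
    have e1 : (B * s / M) ^ 5 = (B : ℝ) * (B ^ 3 * (B * (s / M) ^ 5)) := by ring
    rw [e1, mul_comm]
    refine mul_le_mul_of_nonneg_left ?_ hBpos.le
    have h1 : (1 : ℝ) ≤ B ^ 3 := one_le_pow₀ hB1
    nlinarith
  set L : ℝ := B * s / M with hLdef
  have hL0 : 0 ≤ L := by linarith
  let u : Fin 5 → ℝ := fun i => B * s * n i
  let v : Fin 5 → ℝ := fun i => B * s * (n i + 1)
  have hBs : 0 < B * s := by positivity
  have huv : ∀ i, u i ≤ v i := fun i => by
    show B * s * n i ≤ B * s * (n i + 1)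
    nlinarith
  have hvu : ∀ i, (v i - u i) / M = L := fun i => by
    show (B * s * (n i + 1) - B * s * n i) / M = B * s / M
    congr 1
    ring
  set All : Finset (Fin 5 → ℤ) := Fintype.piFinset fun i => celT (u i) (v i) M (a i) with hAll
  have hmem : ∀ x, x ∈ All ↔ (∀ i, B * s * n i ≤ x i ∧ (x i : ℝ) < B * s * (n i + 1)) ∧
      (∀ i, (M : ℤ) ∣ x i - a i) := by
    intro x
    rw [hAll, Fintype.mem_piFinset]
    simp only [mem_celT hM]
    exact forall_and
  have hUeq : U = All.filter Prim := by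
    ext x
    rw [hU, Finset.mem_filter, hmem, and_assoc]
  have hcardAll : (L - 1) ^ 5 ≤ (All.card : ℝ) := by
    rw [hAll, Fintype.card_piFinset]
    push_cast
    calc (L - 1) ^ 5 = ∏ _i : Fin 5, (L - 1) := by simp
      _ ≤ ∏ i : Fin 5, ((celT (u i) (v i) M (a i)).card : ℝ) :=
          Finset.prod_le_prod (fun i _ => by linarith) fun i _ => by
            have := (card_celT (huv i) hM (a i)).1
            rw [hvu] at this
            exact this
  let Bad : ℕ → Finset (Fin 5 → ℤ) := fun p => All.filter fun x => ∀ i, (p : ℤ) ∣ x i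
  set PP : Finset ℕ := (Finset.Ico 5 (5 + 2 * B)).filter (fun p => p.Prime ∧ Nat.Coprime p M)
    with hPP
  have hNP : All.filter (fun x => ¬ Prim x) ⊆ PP.biUnion Bad := by
    intro x hx
    rw [Finset.mem_filter, hmem] at hx
    obtain ⟨⟨hx1', hx2⟩, hx3⟩ := hx
    rw [prim_iff] at hx3
    push Not at hx3
    obtain ⟨p, hp, hpx⟩ := hx3
    have hpM : ¬ p ∣ M := by
      intro hd
      have hpN : p ≤ N := (Nat.Prime.dvd_factorial hp).1 hd
      refine hna p hp hpN fun i => ?_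
      have h1 : (p : ℤ) ∣ x i - a i := (Int.natCast_dvd_natCast.2 hd).trans (hx2 i)
      have h2 : a i = x i - (x i - a i) := by ring
      rw [h2]
      exact dvd_sub (hpx i) h1
    have hcop : Nat.Coprime p M := (Nat.Prime.coprime_iff_not_dvd hp).2 hpM
    have hpN : N < p := by
      by_contra h
      exact hpM ((Nat.Prime.dvd_factorial hp).2 (not_lt.1 h))
    obtain ⟨h1, h2⟩ := hx1 x hx1'
    have hB0' : (0 : ℤ) ≤ B := Int.natCast_nonneg B
    have hp2 : (p : ℤ) ≤ 2 * B := (Int.le_of_dvd (by linarith) (hpx 1)).trans h2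
    refine Finset.mem_biUnion.2 ⟨p, ?_, ?_⟩
    · rw [hPP, Finset.mem_filter, Finset.mem_Ico]
      exact ⟨⟨by omega, by omega⟩, hp, hcop⟩
    · exact Finset.mem_filter.2 ⟨(hmem x).2 ⟨hx1', hx2⟩, hpx⟩
  have hBad : ∀ p ∈ PP, ((Bad p).card : ℝ) ≤ 16 * L ^ 5 * (1 / (p : ℝ) ^ 5) + 16 := by
    intro p hp
    rw [hPP, Finset.mem_filter, Finset.mem_Ico] at hp
    obtain ⟨⟨hp5, _⟩, hpp, hpc⟩ := hp
    have hp' : (0 : ℝ) < p := by exact_mod_cast hpp.pos
    have hsub : Bad p ⊆ Fintype.piFinset fun i =>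
        (celT (u i) (v i) M (a i)).filter fun x => (p : ℤ) ∣ x := by
      intro x hx
      obtain ⟨hx1, hx2⟩ := Finset.mem_filter.1 hx
      rw [hAll, Fintype.mem_piFinset] at hx1
      rw [Fintype.mem_piFinset]
      exact fun i => Finset.mem_filter.2 ⟨hx1 i, hx2 i⟩
    have h1 : ((Bad p).card : ℝ) ≤
        ∏ i : Fin 5, (((celT (u i) (v i) M (a i)).filter fun x => (p : ℤ) ∣ x).card : ℝ) := by
      have := Finset.card_le_card hsub
      rw [Fintype.card_piFinset] at this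
      exact_mod_cast this
    have h2 : ∏ i : Fin 5, (((celT (u i) (v i) M (a i)).filter fun x => (p : ℤ) ∣ x).card : ℝ) ≤
        ∏ _i : Fin 5, (L / p + 1) :=
      Finset.prod_le_prod (fun _ _ => Nat.cast_nonneg _) fun i _ => by
        have := cel_bad (huv i) hM hpp hpc (a i)
        rw [hvu] at this
        exact this
    have h3 : ∏ _i : Fin 5, (L / p + 1) = (L / p + 1) ^ 5 := by simp
    have h4 : (L / p + 1) ^ 5 ≤ 16 * ((L / p) ^ 5 + 1 ^ 5) :=
      cel_pow (div_nonneg hL0 hp'.le) zero_le_one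
    have h5 : 16 * ((L / p) ^ 5 + 1 ^ 5) = 16 * L ^ 5 * (1 / (p : ℝ) ^ 5) + 16 := by
      rw [div_pow]; ring
    linarith
  have hsum : ((All.filter (fun x => ¬ Prim x)).card : ℝ) ≤ L ^ 5 / 64 + 32 * B := by
    calc ((All.filter (fun x => ¬ Prim x)).card : ℝ) ≤ ((PP.biUnion Bad).card : ℝ) := by
          exact_mod_cast Finset.card_le_card hNP
      _ ≤ ∑ p ∈ PP, ((Bad p).card : ℝ) := by exact_mod_cast Finset.card_biUnion_le
      _ ≤ ∑ p ∈ PP, (16 * L ^ 5 * (1 / (p : ℝ) ^ 5) + 16) := Finset.sum_le_sum hBad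
      _ ≤ ∑ p ∈ Finset.Ico 5 (5 + 2 * B), (16 * L ^ 5 * (1 / (p : ℝ) ^ 5) + 16) :=
          Finset.sum_le_sum_of_subset_of_nonneg (Finset.filter_subset _ _)
            fun _ _ _ => by positivity
      _ = 16 * L ^ 5 * ∑ p ∈ Finset.Ico 5 (5 + 2 * B), (1 / (p : ℝ) ^ 5) + 32 * B := by
          rw [Finset.sum_add_distrib, ← Finset.mul_sum, Finset.sum_const, nsmul_eq_mul,
            Nat.card_Ico, Nat.add_sub_cancel_left]
          push_cast
          ring
      _ ≤ 16 * L ^ 5 * (1 / 1024) + 32 * B := by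
          have h1 := cel_tel (2 * B)
          have h2 : (0 : ℝ) ≤ 1 / (4 * ((4 + 2 * B : ℕ) : ℝ) ^ 4) := by positivity
          have h3 : 16 * L ^ 5 * ∑ p ∈ Finset.Ico 5 (5 + 2 * B), (1 / (p : ℝ) ^ 5) ≤
              16 * L ^ 5 * (1 / 1024) :=
            mul_le_mul_of_nonneg_left (by linarith) (by positivity)
          linarith
      _ = L ^ 5 / 64 + 32 * B := by ring
  have hsplit : ((All.filter Prim).card : ℝ) + ((All.filter (fun x => ¬ Prim x)).card : ℝ) =
      (All.card : ℝ) := by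
    exact_mod_cast Finset.card_filter_add_card_filter_not (s := All) Prim
  have hL99 : (99 / 100 * L) ^ 5 ≤ (L - 1) ^ 5 :=
    pow_le_pow_left₀ (by positivity) (by linarith) 5
  have hL99' : (99 / 100 * L) ^ 5 = (99 / 100) ^ 5 * L ^ 5 := by ring
  have hL5' : 0 ≤ L ^ 5 := by positivity
  rw [hUeq]
  norm_num at hL99'
  linarith

end Pool.Agent.H7.PQ
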