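import Pool.Agent.H7.PQ.Defs
import Pool.Agent.H7.HP.Cnt2

set_option autoImplicit false
set_option linter.unusedSectionVars false

/-!
# [H7 PQ CN2] forms with given values at the vectors of a round pair

Proofs of `HP.cnt2`, `HP.shift2` with the rounding lemma replaced by the hypothesis `Rd`.
-/

namespace Pool.Agent.H7.PQ

open Finset Pool.Agent.H7.HP

theorem rd_good {x y : Fin 5 → ℤ} {R : ℝ} (hR : 0 ≤ R) (hx : Good R x) (hy : Good R y)
    (hxy : ∃ i j, mn x y i j ≠ 0) : Rd (16 * R ^ 2) x y :=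
  fun w v0 hwx hwy => rnd2' hR hx hy hxy w v0 hwx hwy

theorem cnt2r (K : ℝ) (hK : 1 ≤ K) : ∃ C : ℝ, 0 < C ∧
    ∀ (x y : Fin 5 → ℤ) (rho X : ℝ) (A' : ℕ), 1 ≤ rho → Rd rho x y → Prim x → Prim y →
    (∃ i j, mn x y i j ≠ 0) → 0 < X → (∀ i, |(x i : ℝ)| ≤ K * X) → (∀ i, |(y i : ℝ)| ≤ K * X) →
    (∃ i, X ≤ |(x i : ℝ)|) → (∃ i, X ≤ |(y i : ℝ)|) → C * rho ≤ A' → ∀ α β : ℤ,
      (((bf 5 A').filter fun g => qv g x = α ∧ qv g y = β).card : ℝ) ≤
        C * (A' : ℝ) ^ 13 * gk x y / (X ^ 2 * dl x y) := by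
  refine ⟨64 * 5 ^ 15 * K, by positivity, ?_⟩
  intro x y rho X A' hR hrd hpx hpy hxy hX hxK hyK hxX hyX hRA α β
  obtain ⟨m, hm⟩ := hyX
  have hk := gk_pos hxy
  have hkΔ := gk_le_dl hxy
  have hk0 : (0 : ℝ) < gk x y := by exact_mod_cast hk
  have hkΔ' : (gk x y : ℝ) ≤ dl x y := by exact_mod_cast hkΔ
  have hΔ0 : (0 : ℝ) < dl x y := hk0.trans_le hkΔ'
  have hA1 : 64 * 5 ^ 15 * K ≤ (A' : ℝ) :=
    (le_mul_of_one_le_right (by positivity) hR).trans hRA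
  have hA2 : 2 * rho ≤ (A' : ℝ) := by
    refine le_trans ?_ hRA
    have : (2 : ℝ) ≤ 64 * 5 ^ 15 * K := by linarith
    exact mul_le_mul_of_nonneg_right this (by positivity)
  have hA0 : (1 : ℝ) ≤ A' := by linarith
  have hA16 : 16 * K ≤ (A' : ℝ) := by linarith
  have hym : (0 : ℝ) < |(y m : ℝ)| := hX.trans_le hm
  have hym0 : (y m : ℝ) ≠ 0 := abs_pos.1 hym
  set T : ℕ := ⌊(A' : ℝ) * X ^ 2 / 8⌋₊ with hT
  have hTle : (T : ℝ) ≤ A' * X ^ 2 / 8 := Nat.floor_le (by positivity)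
  have hTlt : (A' : ℝ) * X ^ 2 / 8 < T + 1 := Nat.lt_floor_add_one _
  set Q : ℝ := A' * dl x y / (8 * K * gk x y) with hQ
  have hQ2 : 2 ≤ Q := by
    rw [hQ, le_div_iff₀ (by positivity)]
    nlinarith
  have hF2 : 2 ≤ ⌊Q⌋₊ := Nat.le_floor (by exact_mod_cast hQ2)
  set S' : ℕ := ⌊Q⌋₊ - 1 with hS'
  have hS'1 : S' + 1 = ⌊Q⌋₊ := by omega
  have hS'le : (S' : ℝ) + 1 ≤ Q := by
    have h1 : ((⌊Q⌋₊ : ℕ) : ℝ) ≤ Q := Nat.floor_le (by linarith)
    rw [← hS'1] at h1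
    push_cast at h1
    exact h1
  have hS'lt : Q ≤ 2 * S' + 1 := by
    have h1 : Q < ((⌊Q⌋₊ : ℕ) : ℝ) + 1 := Nat.lt_floor_add_one _
    rw [← hS'1] at h1
    push_cast at h1
    have h2 : (1 : ℝ) ≤ S' := by
      have : 1 ≤ S' := by omega
      exact_mod_cast this
    linarith
  obtain ⟨v₁, hv₁x, hv₁y⟩ := vk (y := y) hpx
  obtain ⟨w0, hw0x, hw0y, hw0b⟩ := abf hX (by linarith) hxy hxX hyK
  obtain ⟨m', hm'⟩ := hpy
  set e : ℤ := qv (lm m' m') x with he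
  have hev : qv (lm m' m') y = 1 := by rw [qv_lm, hm', mul_one]
  set ρ : ℝ := (x m : ℝ) ^ 2 / (y m : ℝ) ^ 2 with hρ
  have hsx : ∀ z : Fin 5 → ℝ, ∑ k, (Pi.single m 1 : Fin 5 → ℝ) k * z k = z m := by
    intro z
    simp [Pi.single_apply]
  set wy : Idx 5 → ℝ := fun p => ((y m : ℝ) ^ 2)⁻¹ *
    (lm (Pi.single m 1) (Pi.single m 1) : Idx 5 → ℝ) p with hwy
  have hwyy : qv wy (fun i => (y i : ℝ)) = 1 := by
    rw [hwy, qv_smulc, qv_lm, hsx (fun i => (y i : ℝ))]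
    field_simp
  have hwyx : qv wy (fun i => (x i : ℝ)) = ρ := by
    rw [hwy, qv_smulc, qv_lm, hsx (fun i => (x i : ℝ)), hρ]
    field_simp
  have hwyb : ∀ p, |wy p| ≤ 2 / X ^ 2 := by
    intro p
    have hone : ∀ k, |(Pi.single m 1 : Fin 5 → ℝ) k| ≤ 1 := by
      intro k
      rw [Pi.single_apply]
      split_ifs <;> simp
    have h2 := Rnd_lm_bound (Pi.single m 1) (Pi.single m 1) hone hone p
    have h5 : X ^ 2 ≤ (y m : ℝ) ^ 2 := by
      rw [← sq_abs (y m : ℝ)]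
      gcongr
    rw [hwy]
    dsimp only
    rw [abs_mul, abs_of_pos (by positivity : (0 : ℝ) < ((y m : ℝ) ^ 2)⁻¹)]
    calc ((y m : ℝ) ^ 2)⁻¹ * |(lm (Pi.single m 1) (Pi.single m 1) : Idx 5 → ℝ) p|
        ≤ (X ^ 2)⁻¹ * (2 * (1 * 1)) := by
          refine mul_le_mul ?_ h2 (abs_nonneg _) (by positivity)
          exact inv_anti₀ (by positivity) h5
      _ = 2 / X ^ 2 := by ring
  -- the shifts
  set N : ℤ → ℤ := fun t => round (((t : ℝ) * ρ - t * e) / gk x y) with hN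
  have hNb : ∀ t : ℤ, |(t : ℝ) * e + N t * gk x y - t * ρ| ≤ gk x y := by
    intro t
    have h1 := abs_sub_round (((t : ℝ) * ρ - t * e) / gk x y)
    have h2 : (t : ℝ) * e + N t * gk x y - t * ρ =
        -((((t : ℝ) * ρ - t * e) / gk x y - N t) * gk x y) := by
      field_simp
      ring
    rw [h2, abs_neg, abs_mul, abs_of_pos hk0]
    have h3 : |((t : ℝ) * ρ - t * e) / gk x y - N t| ≤ 1 := h1.trans (by norm_num)
    nlinarith
  have hv : ∀ t s : ℤ, ∃ v : Idx 5 → ℤ, |t| ≤ T → |s| ≤ S' →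
      qv v y = t ∧ qv v x = t * e + (N t + s) * gk x y ∧ ∀ p, |v p| ≤ A' := by
    intro t s
    by_cases ht : |t| ≤ T
    swap
    · exact ⟨fun _ => 0, fun h => absurd h ht⟩
    by_cases hs : |s| ≤ S'
    swap
    · exact ⟨fun _ => 0, fun _ h => absurd h hs⟩
    set z : ℝ := (t : ℝ) * e + N t * gk x y - t * ρ + s * gk x y with hz
    have hVx : qv (fun p => t * lm m' m' p + (N t + s) * v₁ p) x = t * e + (N t + s) * gk x y := by
      rw [qv_addc (fun p => t * lm m' m' p) (fun p => (N t + s) * v₁ p), qv_smulc, qv_smulc, hv₁x]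
    have hVy : qv (fun p => t * lm m' m' p + (N t + s) * v₁ p) y = t := by
      rw [qv_addc (fun p => t * lm m' m' p) (fun p => (N t + s) * v₁ p), qv_smulc, qv_smulc, hv₁y,
        hev]
      ring
    obtain ⟨v, h1, h2, h3⟩ := hrd (fun p => t * wy p + z * w0 p)
      (fun p => t * lm m' m' p + (N t + s) * v₁ p) (by
        rw [qv_addc (fun p => (t : ℝ) * wy p) (fun p => z * w0 p), qv_smulc wy, qv_smulc w0, hwyx,
          hw0x, hVx, hz]
        push_cast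
        ring) (by
        rw [qv_addc (fun p => (t : ℝ) * wy p) (fun p => z * w0 p), qv_smulc wy, qv_smulc w0, hwyy,
          hw0y, hVy]
        ring)
    refine ⟨v, fun _ _ => ⟨h2.trans hVy, h1.trans hVx, fun p => ?_⟩⟩
    have h4 := h3 p
    have ht' : |(t : ℝ)| ≤ T := by exact_mod_cast ht
    have hs' : |(s : ℝ)| ≤ S' := by exact_mod_cast hs
    have h5 : |(t : ℝ) * wy p| ≤ A' / 4 := by
      rw [abs_mul]
      calc |(t : ℝ)| * |wy p| ≤ (A' * X ^ 2 / 8) * (2 / X ^ 2) :=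
            mul_le_mul (ht'.trans hTle) (hwyb p) (abs_nonneg _) (by positivity)
        _ = A' / 4 := by
            field_simp
            ring
    have h6 : |z| ≤ Q * gk x y := by
      have e1 : |z| ≤ |(t : ℝ) * e + N t * gk x y - t * ρ| + |(s : ℝ) * gk x y| := abs_add_le _ _
      have e2 : |(s : ℝ) * gk x y| ≤ S' * gk x y := by
        rw [abs_mul, abs_of_pos hk0]
        exact mul_le_mul_of_nonneg_right hs' hk0.le
      have e3 := hNb t
      have e4 : (S' : ℝ) * gk x y + gk x y ≤ Q * gk x y := by nlinarith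
      linarith
    have h7 : |z * w0 p| ≤ A' / 4 := by
      rw [abs_mul]
      calc |z| * |w0 p| ≤ (Q * gk x y) * (2 * K / dl x y) :=
            mul_le_mul h6 (hw0b p) (abs_nonneg _) (by positivity)
        _ = A' / 4 := by
            rw [hQ]
            field_simp
            ring
    have h8 : |(v p : ℝ)| ≤ A' := by
      rw [abs_le] at h4 h5 h7 ⊢
      constructor <;> linarith [h4.1, h4.2, h5.1, h5.2, h7.1, h7.2]
    exact_mod_cast h8
  choose v hv using hv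
  set S := (bf 5 A').filter fun g => qv g x = α ∧ qv g y = β with hS
  have hcard : S.card * ((2 * T + 1) * (2 * S' + 1)) ≤ (bf 5 (2 * A')).card := by
    have h1 : (S ×ˢ ((Icc (-(T : ℤ)) T) ×ˢ (Icc (-(S' : ℤ)) S'))).card =
        S.card * ((2 * T + 1) * (2 * S' + 1)) := by
      rw [card_product, card_product, Int.card_Icc, Int.card_Icc]
      congr 2 <;> omega
    rw [← h1]
    refine card_le_card_of_injOn (fun q => fun p => q.1 p + v q.2.1 q.2.2 p) ?_ ?_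
    · intro q hq
      rw [mem_coe, mem_product, mem_product, hS, mem_filter, mem_Icc, mem_Icc] at hq
      rw [mem_coe, mem_bf]
      intro p
      have h2 := (mem_bf.1 hq.1.1) p
      have h3 := (hv q.2.1 q.2.2 (abs_le.2 hq.2.1) (abs_le.2 hq.2.2)).2.2 p
      have h4 := abs_add_le (q.1 p) (v q.2.1 q.2.2 p)
      push_cast
      linarith
    · intro q hq q' hq' h
      rw [mem_coe, mem_product, mem_product, hS, mem_filter, mem_Icc, mem_Icc] at hq hq'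
      obtain ⟨h2, h3, -⟩ := hv q.2.1 q.2.2 (abs_le.2 hq.2.1) (abs_le.2 hq.2.2)
      obtain ⟨h2', h3', -⟩ := hv q'.2.1 q'.2.2 (abs_le.2 hq'.2.1) (abs_le.2 hq'.2.2)
      have h4 : qv (fun p => q.1 p + v q.2.1 q.2.2 p) y =
          qv (fun p => q'.1 p + v q'.2.1 q'.2.2 p) y := congrArg (fun g => qv g y) h
      have h5 : qv (fun p => q.1 p + v q.2.1 q.2.2 p) x =
          qv (fun p => q'.1 p + v q'.2.1 q'.2.2 p) x := congrArg (fun g => qv g x) h
      rw [qv_addc, qv_addc, h2, h2', hq.1.2.2, hq'.1.2.2] at h4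
      rw [qv_addc, qv_addc, h3, h3', hq.1.2.1, hq'.1.2.1] at h5
      have h6 : q.2.1 = q'.2.1 := by linarith
      rw [h6] at h5
      have hk1 : (gk x y : ℤ) ≠ 0 := by exact_mod_cast hk.ne'
      have h7 : q.2.2 = q'.2.2 := by
        have : (q.2.2 - q'.2.2) * (gk x y : ℤ) = 0 := by linarith
        rcases mul_eq_zero.1 this with h | h
        · linarith
        · exact absurd h hk1
      refine Prod.ext ?_ (Prod.ext h6 h7)
      funext p
      have h8 := congrFun h p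
      dsimp only at h8
      rw [h6, h7] at h8
      exact add_right_cancel h8
  rw [card_bf5] at hcard
  have hcard' : (S.card : ℝ) * ((2 * T + 1) * (2 * S' + 1)) ≤ (2 * (2 * A') + 1) ^ 15 := by
    exact_mod_cast hcard
  have h9 : ((2 : ℝ) * (2 * A') + 1) ^ 15 ≤ (5 * A') ^ 15 := by
    gcongr
    linarith
  have h10 : (S.card : ℝ) * ((A' * X ^ 2 / 8) * Q) ≤ (S.card : ℝ) * ((2 * T + 1) * (2 * S' + 1)) := by
    have hT0 : (0 : ℝ) ≤ T := Nat.cast_nonneg T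
    refine mul_le_mul_of_nonneg_left ?_ (Nat.cast_nonneg _)
    refine mul_le_mul ?_ hS'lt (by linarith) (by positivity)
    linarith
  rw [le_div_iff₀ (by positivity)]
  have h11 : (S.card : ℝ) * ((A' * X ^ 2 / 8) * Q) ≤ (5 * A') ^ 15 := h10.trans (hcard'.trans h9)
  have h12 : (S.card : ℝ) * ((A' * X ^ 2 / 8) * Q) =
      (S.card : ℝ) * (X ^ 2 * dl x y) * ((A' : ℝ) ^ 2 / (64 * K * gk x y)) := by
    rw [hQ]
    field_simp
    ring
  have h13 : (5 * (A' : ℝ)) ^ 15 = 64 * 5 ^ 15 * K * (A' : ℝ) ^ 13 * gk x y *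
      ((A' : ℝ) ^ 2 / (64 * K * gk x y)) := by
    field_simp
  rw [h12, h13] at h11
  exact le_of_mul_le_mul_right h11 (by positivity)

theorem shift2r (K : ℝ) (hK : 1 ≤ K) (x y : Fin 5 → ℤ) (rho X : ℝ) (hrd : Rd rho x y)
    (hpx : Prim x) (hxy : ∃ i j, mn x y i j ≠ 0) (hX : 0 < X)
    (hyK : ∀ i, |(y i : ℝ)| ≤ K * X) (hxX : ∃ i, X ≤ |(x i : ℝ)|) (J : ℤ)
    (hJ : (gk x y : ℤ) ∣ J) : ∃ v : Idx 5 → ℤ, qv v x = J ∧ qv v y = 0 ∧
      ∀ p, |(v p : ℝ)| ≤ 2 * K * |(J : ℝ)| / dl x y + rho := by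
  obtain ⟨q, hq⟩ := hJ
  obtain ⟨v₁, hv₁x, hv₁y⟩ := vk (y := y) hpx
  obtain ⟨w0, hw0x, hw0y, hw0b⟩ := abf hX (by linarith) hxy hxX hyK
  have hVx : qv (fun p => q * v₁ p) x = J := by
    rw [qv_smulc, hv₁x, hq]
    ring
  have hVy : qv (fun p => q * v₁ p) y = 0 := by
    rw [qv_smulc, hv₁y, mul_zero]
  obtain ⟨v, h1, h2, h3⟩ := hrd (fun p => (J : ℝ) * w0 p) (fun p => q * v₁ p) (by
    rw [qv_smulc, hw0x, hVx, mul_one]) (by
    rw [qv_smulc, hw0y, hVy, mul_zero, Int.cast_zero])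
  refine ⟨v, h1.trans hVx, h2.trans hVy, fun p => ?_⟩
  have h4 := h3 p
  have h5 : |(J : ℝ) * w0 p| ≤ 2 * K * |(J : ℝ)| / dl x y := by
    rw [abs_mul]
    calc |(J : ℝ)| * |w0 p| ≤ |(J : ℝ)| * (2 * K / dl x y) :=
          mul_le_mul_of_nonneg_left (hw0b p) (abs_nonneg _)
      _ = 2 * K * |(J : ℝ)| / dl x y := by ring
  have h6 : |(v p : ℝ)| ≤ |(J : ℝ) * w0 p| + |(J : ℝ) * w0 p - v p| := by
    have := abs_sub ((J : ℝ) * w0 p) ((J : ℝ) * w0 p - v p)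
    rwa [sub_sub_cancel] at this
  linarith

end Pool.Agent.H7.PQ
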