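import Pool.Agent.H7.PQ.Nwt

set_option autoImplicit false

/-!
# [H7 PQ CUB] many small cubes on which both forms are small, 120-180 lines

We may suppose `η ≤ 1` (replace `η` by `min η 1`). `C` of `nwt`, `C3` of `tyl`. `ρ' = η^2/C`, `c > 0` small: `c ≤ 1/(8 C3)`, `4 c^4 ≤ ρ'^2`; `κ0 ≤ 1` with `c κ0 ≤ min(ρ', 1/8)`. `s = c κ`. `x`, `i`, `j` from `RZ` (`x 1 = 1`, `i, j ≠ 1`, `i ≠ j` because `jm f g x i i = 0`). Let `k, l` be the two indices different from `1, i, j`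
(e.g. two elements of `univ \ {1, i, j}`; or use: the complement of `{i, j}` has three elements).
For a real `T ∈ [5/4, 7/4]` the vector `z = T x` is a zero of `f` and `g`, `|z_a| ≤ 7/4`, `jm f g z i j = T^2 jm f g x i j`, `|jm| ≥ η A^2`.
For every triple of integers `(n_1, n_k, n_l)` with `5/4 ≤ s n_1 ≤ 7/4` =: `T = s n_1`, `|s n_k - T x_k| ≤ ρ'`, `|s n_l - T x_l| ≤ ρ'`, `nwt` (with `z'` = `z` except `z'_k = s n_k`, `z'_l = s n_l`) gives a zero `t*` with `t*_1 = s n_1`, `t*_k = s n_k`, `t*_l = s n_l`, `|t* - z| ≤ 1/8`. Put `n_i = ⌊t*_i/s⌋`, `n_j = ⌊t*_j/s⌋`.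
For `t` in the cell: `|t_a - t*_a| ≤ s`, so `|f(t)| ≤ C3 A s ≤ κ A` (`tyl`), the same for `g`; `t_1 ≥ s n_1 ≥ 5/4`, `t_1 ≤ 7/4 + s ≤ 2`, `|t_a| ≤ |T x_a| + 1/8 + s ≤ T + 1/4 ≤ 2 T ≤ 2 t_1`.
Number of triples: at least `(1/(4 s)) (ρ'/s)^2`: an interval of length `L ≥ 2` (here `(1/2)/s` and `2ρ'/s`) contains at least `L - 1 ≥ L/2` integers. Different triples give different `n`. `ρ'^2/(4 s^3) = ρ'^2/(4 c^3 κ^3) ≥ c/κ^3`.
-/

namespace Pool.Agent.H7.PQ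

open Finset Pool.Agent.H7.HP

/-- the lattice coordinates outside `i`, `j` -/
private noncomputable def cub_N (x : Fin 5 → ℝ) (p : Fin 5 → ℤ) (k : Fin 5) : ℤ :=
  if k = 1 then p 1 else ⌊(p 1 : ℝ) * x k⌋ + p k

/-- the parameters -/
private noncomputable def cub_P (i j : Fin 5) (a b : ℤ) (R : ℕ) : Finset (Fin 5 → ℤ) :=
  Fintype.piFinset fun k =>
    if k = i ∨ k = j then {0} else if k = 1 then Icc a b else Icc 0 (R : ℤ)

private theorem cub_cardP (i j : Fin 5) (hij : i ≠ j) (hi : i ≠ 1) (hj : j ≠ 1) (a b : ℤ)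
    (R : ℕ) : (cub_P i j a b R).card = (Icc a b).card * (R + 1) ^ 2 := by
  have h1 : ∀ k, (if k = i ∨ k = j then ({0} : Finset ℤ) else if k = 1 then Icc a b
      else Icc 0 (R : ℤ)).card =
      if k = i ∨ k = j then 1 else if k = 1 then (Icc a b).card else (R + 1) := by
    intro k
    split_ifs
    · exact Finset.card_singleton _
    · rfl
    · rw [Int.card_Icc]
      omega
  unfold cub_P
  rw [Fintype.card_piFinset, Finset.prod_congr rfl fun k _ => h1 k]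
  generalize (Icc a b).card = M
  generalize R + 1 = Q
  rw [Fin.prod_univ_five]
  fin_cases i <;> fin_cases j <;> simp_all <;> ring

private theorem cub_jm (f g : Idx 5 → ℝ) (x : Fin 5 → ℝ) (T : ℝ) (i j : Fin 5) :
    jm f g (fun k => T * x k) i j = T ^ 2 * jm f g x i j := by
  have h1 : ∀ (h : Idx 5 → ℝ) (e : Fin 5 → ℝ), pl h (fun k => T * x k) e = T * pl h x e := by
    intro h e
    rw [pl_comm, pl_smul, pl_comm]
  unfold jm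
  rw [h1, h1, h1, h1]
  ring

private theorem cub_star (C : ℝ) (η ρ s A : ℝ) (hρ : ρ = η ^ 2 / C) (hη : 0 < η)
    (hnwt : ∀ (f g : Idx 5 → ℝ) (A : ℝ), 0 < A →
    (∀ p, |f p| ≤ A) → (∀ p, |g p| ≤ A) → ∀ z : Fin 5 → ℝ, (∀ i, |z i| ≤ 2) → qv f z = 0 →
    qv g z = 0 → ∀ i j : Fin 5, η * A ^ 2 ≤ |jm f g z i j| → ∀ z' : Fin 5 → ℝ,
    (∀ k, |z' k - z k| ≤ η ^ 2 / C) →
      ∃ t : Fin 5 → ℝ, (∀ k, k ≠ i → k ≠ j → t k = z' k) ∧ (∀ k, |t k - z k| ≤ 1 / 8) ∧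
        qv f t = 0 ∧ qv g t = 0) (hA : 0 < A) (hs : 0 < s) (hsρ : s ≤ ρ)
    (f g : Idx 5 → ℝ) (hf : ∀ p, |f p| ≤ A) (hg : ∀ p, |g p| ≤ A) (x : Fin 5 → ℝ) (hx1 : x 1 = 1)
    (hxb : ∀ i, |x i| ≤ 1) (hfx : qv f x = 0) (hgx : qv g x = 0) (i j : Fin 5)
    (hjm : η * A ^ 2 ≤ |jm f g x i j|) (p : Fin 5 → ℤ)
    (hp1 : 5 / 4 ≤ s * (p 1 : ℝ)) (hp2 : s * (p 1 : ℝ) ≤ 7 / 4)
    (hpk : ∀ k, k ≠ 1 → 0 ≤ p k ∧ s * (p k : ℝ) ≤ ρ) :
    ∃ t : Fin 5 → ℝ, (∀ k, k ≠ i → k ≠ j → t k = s * (cub_N x p k : ℝ)) ∧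
      (∀ k, |t k - s * (p 1 : ℝ) * x k| ≤ 1 / 8) ∧ qv f t = 0 ∧ qv g t = 0 := by
  have hT0 : 0 ≤ s * (p 1 : ℝ) := by linarith
  have hz2 : ∀ k, |s * (p 1 : ℝ) * x k| ≤ 2 := by
    intro k
    rw [abs_mul, abs_of_nonneg hT0]
    have := hxb k
    nlinarith [abs_nonneg (x k)]
  obtain ⟨t, h1, h2, h3, h4⟩ := hnwt f g A hA hf hg (fun k => s * (p 1 : ℝ) * x k) hz2
    (by rw [qv_smul, hfx, mul_zero]) (by rw [qv_smul, hgx, mul_zero]) i j (by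
      rw [cub_jm, abs_mul, abs_of_nonneg (by positivity : (0 : ℝ) ≤ (s * (p 1 : ℝ)) ^ 2)]
      have h5 : 1 ≤ (s * (p 1 : ℝ)) ^ 2 := by nlinarith
      have h6 := abs_nonneg (jm f g x i j)
      nlinarith)
    (fun k => if k = i ∨ k = j then s * (p 1 : ℝ) * x k else s * (cub_N x p k : ℝ)) (by
      intro k
      rw [← hρ]
      show |(if k = i ∨ k = j then s * (p 1 : ℝ) * x k else s * (cub_N x p k : ℝ)) -
        s * (p 1 : ℝ) * x k| ≤ ρ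
      split_ifs with hk
      · rw [sub_self, abs_zero]
        linarith
      · unfold cub_N
        split_ifs with hk1
        · rw [hk1, hx1, mul_one, sub_self, abs_zero]
          linarith
        · obtain ⟨h7, h8⟩ := hpk k hk1
          push_cast
          have h9 := Int.floor_le ((p 1 : ℝ) * x k)
          have h10 := Int.lt_floor_add_one ((p 1 : ℝ) * x k)
          have h11 : (0 : ℝ) ≤ (p k : ℝ) := by exact_mod_cast h7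
          have e1 : s * (((⌊(p 1 : ℝ) * x k⌋ : ℤ) : ℝ) + (p k : ℝ)) - s * (p 1 : ℝ) * x k =
              s * (p k : ℝ) - s * ((p 1 : ℝ) * x k - ((⌊(p 1 : ℝ) * x k⌋ : ℤ) : ℝ)) := by ring
          rw [e1, abs_le]
          have h12 : s * ((p 1 : ℝ) * x k - ((⌊(p 1 : ℝ) * x k⌋ : ℤ) : ℝ)) ≤ s * 1 :=
            mul_le_mul_of_nonneg_left (by linarith) hs.le
          have h13 : 0 ≤ s * ((p 1 : ℝ) * x k - ((⌊(p 1 : ℝ) * x k⌋ : ℤ) : ℝ)) :=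
            mul_nonneg hs.le (by linarith)
          have h14 : 0 ≤ s * (p k : ℝ) := mul_nonneg hs.le h11
          constructor <;> linarith)
  refine ⟨t, fun k hki hkj => ?_, h2, h3, h4⟩
  rw [h1 k hki hkj]
  show (if k = i ∨ k = j then s * (p 1 : ℝ) * x k else s * (cub_N x p k : ℝ)) = _
  rw [if_neg (by tauto)]

private theorem cub_cell (C3 s κ A : ℝ) (hC3 : 1 ≤ C3)
    (ht : ∀ (f : Idx 5 → ℝ) (A : ℝ), 0 ≤ A → (∀ p, |f p| ≤ A) →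
      ∀ (x h : Fin 5 → ℝ) (r : ℝ), (∀ i, |x i| ≤ 3) → (∀ i, |h i| ≤ r) → r ≤ 1 →
      |qv f (fun i => x i + h i) - qv f x| ≤ C3 * A * r)
    (hA : 0 < A) (hs : 0 < s) (hs8 : s ≤ 1 / 8) (hsκ : C3 * s ≤ κ) (x : Fin 5 → ℝ)
    (hxb : ∀ i, |x i| ≤ 1) (i j : Fin 5) (hi1 : i ≠ 1) (hj1 : j ≠ 1) (p : Fin 5 → ℤ)
    (hp1 : 5 / 4 ≤ s * (p 1 : ℝ)) (hp2 : s * (p 1 : ℝ) ≤ 7 / 4) (t : Fin 5 → ℝ)
    (ht1 : ∀ k, k ≠ i → k ≠ j → t k = s * (cub_N x p k : ℝ))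
    (ht2 : ∀ k, |t k - s * (p 1 : ℝ) * x k| ≤ 1 / 8) (τ : Fin 5 → ℝ)
    (hτ : ∀ k, s * ((if k = i ∨ k = j then ⌊t k / s⌋ else cub_N x p k : ℤ) : ℝ) ≤ τ k ∧
      τ k ≤ s * (((if k = i ∨ k = j then ⌊t k / s⌋ else cub_N x p k : ℤ) : ℝ) + 1)) :
    1 < τ 1 ∧ τ 1 ≤ 2 ∧ (∀ k, |τ k| ≤ 2 * τ 1) ∧
      ∀ f : Idx 5 → ℝ, (∀ q, |f q| ≤ A) → qv f t = 0 → |qv f τ| ≤ κ * A := by
  have hT0 : 0 ≤ s * (p 1 : ℝ) := by linarith
  have h1 : s * (p 1 : ℝ) ≤ τ 1 ∧ τ 1 ≤ s * ((p 1 : ℝ) + 1) := by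
    have h2 := hτ 1
    rw [if_neg (by rintro (h | h); exact hi1 h.symm; exact hj1 h.symm)] at h2
    unfold cub_N at h2
    rw [if_pos rfl] at h2
    exact h2
  have hd : ∀ k, |τ k - t k| ≤ s := by
    intro k
    obtain ⟨h2, h3⟩ := hτ k
    split_ifs at h2 h3 with hk
    · have h4 := Int.floor_le (t k / s)
      have h5 := Int.lt_floor_add_one (t k / s)
      rw [le_div_iff₀ hs] at h4
      rw [div_lt_iff₀ hs] at h5
      rw [abs_le]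
      constructor <;> linarith
    · rw [ht1 k (by tauto) (by tauto), abs_le]
      constructor <;> linarith
  have hx' : ∀ k, |s * (p 1 : ℝ) * x k| ≤ s * (p 1 : ℝ) := by
    intro k
    rw [abs_mul, abs_of_nonneg hT0]
    exact mul_le_of_le_one_right hT0 (hxb k)
  have htb : ∀ k, |t k| ≤ s * (p 1 : ℝ) + 1 / 8 := by
    intro k
    have h2 := abs_add_le (t k - s * (p 1 : ℝ) * x k) (s * (p 1 : ℝ) * x k)
    rw [sub_add_cancel] at h2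
    linarith [ht2 k, hx' k]
  refine ⟨by linarith, by linarith, fun k => ?_, fun f hf hft => ?_⟩
  · have h2 := abs_add_le (τ k - t k) (t k)
    rw [sub_add_cancel] at h2
    linarith [hd k, htb k]
  · have h2 := ht f A hA.le hf t (fun k => τ k - t k) s
      (fun k => (htb k).trans (by linarith)) hd (by linarith)
    have h3 : (fun k => t k + (τ k - t k)) = τ := by
      funext k
      ring
    rw [h3, hft, sub_zero] at h2
    refine h2.trans ?_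
    nlinarith

private theorem cub_count (s ρ : ℝ) (hs : 0 < s) (hs8 : s ≤ 1 / 8) (hρ : 0 < ρ) :
    ρ ^ 2 / (4 * s ^ 3) ≤
      (((Icc ⌈(5 / 4 : ℝ) / s⌉ ⌊(7 / 4 : ℝ) / s⌋).card * (⌊ρ / s⌋₊ + 1) ^ 2 : ℕ) : ℝ) := by
  have h1 : 1 / (4 * s) ≤ ((Icc ⌈(5 / 4 : ℝ) / s⌉ ⌊(7 / 4 : ℝ) / s⌋).card : ℝ) := by
    rw [Int.card_Icc]
    have h1 := Int.ceil_lt_add_one ((5 / 4 : ℝ) / s)
    have h2 := Int.lt_floor_add_one ((7 / 4 : ℝ) / s)
    have h5 : ((⌊(7 / 4 : ℝ) / s⌋ + 1 - ⌈(5 / 4 : ℝ) / s⌉ : ℤ) : ℝ) ≤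
        (((⌊(7 / 4 : ℝ) / s⌋ + 1 - ⌈(5 / 4 : ℝ) / s⌉).toNat : ℤ) : ℝ) := by
      exact_mod_cast Int.self_le_toNat _
    push_cast at h5
    have h6 : (((⌊(7 / 4 : ℝ) / s⌋ + 1 - ⌈(5 / 4 : ℝ) / s⌉).toNat : ℤ) : ℝ) =
        ((⌊(7 / 4 : ℝ) / s⌋ + 1 - ⌈(5 / 4 : ℝ) / s⌉).toNat : ℝ) := by norm_cast
    have h7 : (7 / 4 : ℝ) / s - (5 / 4) / s = 2 * (1 / (4 * s)) := by
      field_simp
      norm_num
    have h8 : 1 ≤ 1 / (4 * s) := by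
      rw [le_div_iff₀ (by positivity)]
      linarith
    linarith
  have h2 : ρ / s ≤ (⌊ρ / s⌋₊ : ℝ) + 1 := (Nat.lt_floor_add_one _).le
  have h3 : (ρ / s) ^ 2 ≤ ((⌊ρ / s⌋₊ : ℝ) + 1) ^ 2 :=
    pow_le_pow_left₀ (by positivity) h2 2
  calc ρ ^ 2 / (4 * s ^ 3) = 1 / (4 * s) * (ρ / s) ^ 2 := by
        field_simp
    _ ≤ _ := by
        push_cast
        exact mul_le_mul h1 h3 (by positivity) (Nat.cast_nonneg _)

theorem cub2 (η : ℝ) (hη : 0 < η) : ∃ c κ0 : ℝ, 0 < c ∧ 0 < κ0 ∧ ∀ κ : ℝ, 0 < κ → κ ≤ κ0 →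
    ∀ (f g : Idx 5 → ℝ) (A : ℝ), 0 < A → (∀ p, |f p| ≤ A) → (∀ p, |g p| ≤ A) →
    ∀ x : Fin 5 → ℝ, RZ η A f g x →
      ∃ S : Finset (Fin 5 → ℤ), c ≤ (S.card : ℝ) * κ ^ 3 ∧ ∀ n ∈ S, ∀ t : Fin 5 → ℝ,
        (∀ i, c * κ * n i ≤ t i ∧ t i ≤ c * κ * (n i + 1)) →
          1 < t 1 ∧ t 1 ≤ 2 ∧ (∀ i, |t i| ≤ 2 * t 1) ∧ |qv f t| ≤ κ * A ∧ |qv g t| ≤ κ * A := by
  classical
  obtain ⟨C, hC, hnwt⟩ := nwt
  obtain ⟨C3, hC3, htyl⟩ := tyl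
  have hC3' : 1 ≤ C3 := hC3
  obtain ⟨η', hη'⟩ : ∃ η', η' = min η 1 := ⟨_, rfl⟩
  have hη0 : 0 < η' := by rw [hη']; exact lt_min hη one_pos
  have hη1 : η' ≤ 1 := hη' ▸ min_le_right _ _
  have hηη : η' ≤ η := hη' ▸ min_le_left _ _
  obtain ⟨ρ, hρ⟩ : ∃ ρ, ρ = η' ^ 2 / C := ⟨_, rfl⟩
  have hCp : 0 < C := by linarith
  have hρ0 : 0 < ρ := by rw [hρ]; positivity
  have hρ1 : ρ ≤ 1 := by
    rw [hρ, div_le_one hCp]
    nlinarith
  obtain ⟨c, hc⟩ : ∃ c, c = ρ / (8 * C3) := ⟨_, rfl⟩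
  have hC3p : 0 < C3 := by linarith
  have hc0 : 0 < c := by rw [hc]; positivity
  have hcC : 8 * (C3 * c) = ρ := by
    rw [hc]
    field_simp
  have hcρ : 8 * c ≤ ρ := by nlinarith
  refine ⟨c, 1, hc0, one_pos, fun κ hκ hκ1 f g A hA hf hg x hx => ?_⟩
  obtain ⟨hx1, hxb, hfx, hgx, i, j, hi1, hj1, hjm⟩ := hx
  have hjm' : η' * A ^ 2 ≤ |jm f g x i j| :=
    (mul_le_mul_of_nonneg_right hηη (by positivity)).trans hjm
  have hij : i ≠ j := by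
    rintro rfl
    have h1 : jm f g x i i = 0 := by
      unfold jm
      ring
    rw [h1, abs_zero] at hjm'
    have : 0 < η' * A ^ 2 := by positivity
    linarith
  obtain ⟨s, hs⟩ : ∃ s, s = c * κ := ⟨_, rfl⟩
  have hs0 : 0 < s := by rw [hs]; positivity
  have hsc : s ≤ c := by rw [hs]; nlinarith
  have hs8 : s ≤ 1 / 8 := by linarith
  have hsρ : s ≤ ρ := by linarith
  have hsκ : C3 * s ≤ κ := by
    rw [hs]
    have h1 : C3 * (c * κ) = (C3 * c) * κ := by ring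
    rw [h1]
    have h2 : C3 * c ≤ 1 := by linarith
    nlinarith
  let P := cub_P i j ⌈(5 / 4 : ℝ) / s⌉ ⌊(7 / 4 : ℝ) / s⌋ ⌊ρ / s⌋₊
  have hP : ∀ p ∈ P, (5 / 4 ≤ s * (p 1 : ℝ) ∧ s * (p 1 : ℝ) ≤ 7 / 4) ∧
      (∀ k, k ≠ 1 → 0 ≤ p k ∧ s * (p k : ℝ) ≤ ρ) ∧ p i = 0 ∧ p j = 0 := by
    intro p hp
    have hp' := Fintype.mem_piFinset.1 hp
    refine ⟨?_, ?_, ?_, ?_⟩
    · have h1 := hp' 1
      rw [if_neg (by rintro (h | h); exact hi1 h.symm; exact hj1 h.symm), if_pos rfl,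
        mem_Icc, Int.ceil_le, Int.le_floor, div_le_iff₀ hs0, le_div_iff₀ hs0] at h1
      constructor <;> linarith [h1.1, h1.2]
    · intro k hk1
      have h1 := hp' k
      split_ifs at h1 with hk
      · rw [Finset.mem_singleton] at h1
        rw [h1]
        refine ⟨le_refl _, ?_⟩
        rw [Int.cast_zero, mul_zero]
        exact hρ0.le
      · rw [mem_Icc] at h1
        refine ⟨h1.1, ?_⟩
        have h2 : (p k : ℝ) ≤ (⌊ρ / s⌋₊ : ℝ) := by exact_mod_cast h1.2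
        have h3 : (⌊ρ / s⌋₊ : ℝ) ≤ ρ / s := Nat.floor_le (by positivity)
        have h4 := h2.trans h3
        rw [le_div_iff₀ hs0] at h4
        linarith
    · have h1 := hp' i
      rw [if_pos (Or.inl rfl), Finset.mem_singleton] at h1
      exact h1
    · have h1 := hp' j
      rw [if_pos (Or.inr rfl), Finset.mem_singleton] at h1
      exact h1
  have hex : ∀ p, p ∈ P → ∃ t : Fin 5 → ℝ,
      (∀ k, k ≠ i → k ≠ j → t k = s * (cub_N x p k : ℝ)) ∧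
      (∀ k, |t k - s * (p 1 : ℝ) * x k| ≤ 1 / 8) ∧ qv f t = 0 ∧ qv g t = 0 := by
    intro p hp
    obtain ⟨⟨h1, h2⟩, h3, -, -⟩ := hP p hp
    exact cub_star C η' ρ s A hρ hη0 (fun f g A => hnwt η' hη0 hη1 f g A) hA hs0 hsρ f g hf hg x
      hx1 hxb hfx hgx i j hjm' p h1 h2 h3
  choose! t ht1 ht2 ht3 ht4 using hex
  let Φ : (Fin 5 → ℤ) → Fin 5 → ℤ := fun p k =>
    if k = i ∨ k = j then ⌊t p k / s⌋ else cub_N x p k
  have hinj : Set.InjOn Φ P := by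
    intro p hp q hq hpq
    obtain ⟨-, -, hpi, hpj⟩ := hP p hp
    obtain ⟨-, -, hqi, hqj⟩ := hP q hq
    have h0 : ∀ k, k ≠ i → k ≠ j → cub_N x p k = cub_N x q k := by
      intro k hki hkj
      have h1 : Φ p k = Φ q k := congrFun hpq k
      have h2 : ∀ r : Fin 5 → ℤ, Φ r k = cub_N x r k := fun r => if_neg (by tauto)
      rwa [h2, h2] at h1
    have h1 : p 1 = q 1 := by
      have h2 := h0 1 hi1.symm hj1.symm
      unfold cub_N at h2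
      rwa [if_pos rfl, if_pos rfl] at h2
    funext k
    by_cases hki : k = i
    · rw [hki, hpi, hqi]
    by_cases hkj : k = j
    · rw [hkj, hpj, hqj]
    by_cases hk1 : k = 1
    · rw [hk1, h1]
    have h2 := h0 k hki hkj
    unfold cub_N at h2
    rw [if_neg hk1, if_neg hk1, h1] at h2
    exact add_left_cancel h2
  refine ⟨P.image Φ, ?_, ?_⟩
  · rw [Finset.card_image_of_injOn hinj, cub_cardP i j hij hi1 hj1]
    have h1 := cub_count s ρ hs0 hs8 hρ0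
    have h2 : ρ ^ 2 / (4 * s ^ 3) * κ ^ 3 = ρ ^ 2 / (4 * c ^ 3) := by
      rw [hs]
      field_simp
    have h3 : c ≤ ρ ^ 2 / (4 * c ^ 3) := by
      rw [le_div_iff₀ (by positivity)]
      have h4 : c ^ 2 ≤ ρ ^ 2 / 64 := by nlinarith
      have h5 : c ^ 2 ≤ 1 := by nlinarith
      have h6 : 0 < c ^ 2 := by positivity
      nlinarith
    calc c ≤ ρ ^ 2 / (4 * s ^ 3) * κ ^ 3 := by rw [h2]; exact h3
      _ ≤ _ := mul_le_mul_of_nonneg_right h1 (by positivity)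
  · intro n hn τ hτ
    obtain ⟨p, hp, rfl⟩ := Finset.mem_image.1 hn
    obtain ⟨⟨hp1, hp2⟩, hp3, -, -⟩ := hP p hp
    rw [← hs] at hτ
    obtain ⟨h1, h2, h3, h4⟩ := cub_cell C3 s κ A hC3'
      (fun f A hA hf x h r hx hh hr => (htyl f f A hA hf hf x h r hx hh hr).1) hA hs0 hs8 hsκ x
      hxb i j hi1 hj1 p hp1 hp2 (t p) (ht1 p hp) (ht2 p hp) τ hτ
    exact ⟨h1, h2, h3, h4 f hf (ht3 p hp), h4 g hg (ht4 p hp)⟩

end Pool.Agent.H7.PQ
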