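import Pool.Agent.H7.PQ.Defs
import Pool.Agent.H7.HP.Gsp
import Pool.Agent.H7.HP.Mnr

/-!
# [H7 PQ XSF] elementary facts about the points, 40-70 lines

* `mem_X0`: `|x i| ≤ 2 x1 ≤ 4B`.
* `xs_good`: `good_of_sep` with `K = 2`. `xs_sep`: `dl_of_sep`. `xs_ne`: `eq_of_mn`: `y = x` or `y = -x`, but both have `x 1 > 0`.
* `dl_le32`: `|x_i y_j - x_j y_i| ≤ 2 (4B)^2`.
* `x0_card`: subset of `bx 5 (4B)`, `(8B+1)^5 ≤ (9B)^5`.
-/

set_option autoImplicit false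

namespace Pool.Agent.H7.PQ

open Finset Pool.Agent.H7.HP

variable {B : ℕ} {lam : ℝ} {x y : Fin 5 → ℤ}

theorem mem_X0 : x ∈ X0 B ↔ IsP B x := by
  classical
  unfold X0
  rw [mem_filter]
  refine ⟨fun h => h.2, fun h => ⟨?_, h⟩⟩
  unfold bx
  rw [Fintype.mem_piFinset]
  intro i
  have h1 := h.bd i
  have h2 := h.hi
  rw [abs_le] at h1
  rw [mem_Icc]
  push_cast
  constructor
  · linarith [h1.1]
  · linarith [h1.2]

theorem mem_XS : x ∈ XS lam B ↔ IsP B x ∧ Sep lam x := by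
  classical
  unfold XS
  rw [mem_filter, mem_X0]

private theorem xsf_pos (hx : IsP B x) : 0 < x 1 :=
  lt_of_le_of_lt (Int.natCast_nonneg B) hx.lo

theorem xs_good (h0 : 0 < lam) (hl : lam ≤ 1) (hx : x ∈ XS lam B) : Good (600 / lam) x := by
  obtain ⟨h1, h2⟩ := mem_XS.1 hx
  have h3 := good_of_sep (K := 2) (xsf_pos h1) (by norm_num) (fun i => by
    have h4 := h1.bd i
    have h5 : ((|x i| : ℤ) : ℝ) ≤ ((2 * x 1 : ℤ) : ℝ) := by exact_mod_cast h4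
    push_cast at h5
    exact h5) h0 hl h2
  have h4 : (300 * 2 / lam : ℝ) = 600 / lam := by norm_num
  rwa [h4] at h3

theorem xs_bd (hx : x ∈ XS lam B) : (∀ i, |(x i : ℝ)| ≤ 4 * B) ∧ ∃ i, (B : ℝ) ≤ |(x i : ℝ)| := by
  obtain ⟨h1, _⟩ := mem_XS.1 hx
  refine ⟨fun i => ?_, 1, ?_⟩
  · have h2 := h1.bd i
    have h3 := h1.hi
    have h4 : |x i| ≤ 4 * (B : ℤ) := by linarith
    exact_mod_cast h4
  · have h2 := h1.lo
    have h3 : (B : ℤ) ≤ |x 1| := h2.le.trans (le_abs_self _)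
    exact_mod_cast h3

theorem xs_ne (hx : x ∈ XS lam B) (hy : y ∈ XS lam B) (hxy : x ≠ y) : ∃ i j, mn x y i j ≠ 0 := by
  obtain ⟨h1, _⟩ := mem_XS.1 hx
  obtain ⟨h2, _⟩ := mem_XS.1 hy
  by_contra hcon
  push Not at hcon
  rcases eq_of_mn h1.prim h2.prim hcon with h3 | h3
  · exact hxy h3.symm
  · have h4 := h3 1
    have h5 := xsf_pos h1
    have h6 := xsf_pos h2
    linarith

theorem xs_sep (h0 : 0 < lam) (hl : lam ≤ 1) (hx : x ∈ XS lam B) (hxy : ∃ i j, mn x y i j ≠ 0) :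
    lam * x 1 * gk x y ≤ dl x y := by
  obtain ⟨h1, h2⟩ := mem_XS.1 hx
  exact dl_of_sep (xsf_pos h1) h0 hl h2 h1.prim hxy

theorem dl_le32 (hx : x ∈ XS lam B) (hy : y ∈ XS lam B) : dl x y ≤ 32 * B ^ 2 := by
  obtain ⟨h1, _⟩ := mem_XS.1 hx
  obtain ⟨h2, _⟩ := mem_XS.1 hy
  have h3 : ∀ {z : Fin 5 → ℤ}, IsP B z → ∀ i, |z i| ≤ 4 * (B : ℤ) := by
    intro z hz i
    have h4 := hz.bd i
    have h5 := hz.hi
    linarith
  refine dl_le fun i j => ?_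
  unfold mn
  have hB : (0 : ℤ) ≤ B := Int.natCast_nonneg B
  have h4 : ∀ i j, |x i * y j| ≤ 16 * (B : ℤ) ^ 2 := by
    intro i j
    rw [abs_mul]
    have h5 := h3 h1 i
    have h6 := h3 h2 j
    calc |x i| * |y j| ≤ (4 * (B : ℤ)) * (4 * B) :=
          mul_le_mul h5 h6 (abs_nonneg _) (by positivity)
      _ = 16 * (B : ℤ) ^ 2 := by ring
  push_cast
  calc |x i * y j - x j * y i| ≤ |x i * y j| + |x j * y i| := abs_sub _ _
    _ ≤ 16 * (B : ℤ) ^ 2 + 16 * (B : ℤ) ^ 2 := add_le_add (h4 i j) (h4 j i)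
    _ = 32 * (B : ℤ) ^ 2 := by ring

theorem x0_card (hB : 1 ≤ B) : (X0 B).card ≤ (9 * B) ^ 5 := by
  classical
  unfold X0
  refine (card_filter_le _ _).trans ?_
  unfold bx
  rw [Fintype.card_piFinset]
  simp only [Int.card_Icc, prod_const, card_univ, Fintype.card_fin]
  refine Nat.pow_le_pow_left ?_ 5
  push_cast
  omega

end Pool.Agent.H7.PQ
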