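import Pool.Agent.H7.PQ.Cel
import Pool.Agent.H7.PQ.Xsf

set_option autoImplicit false

/-!
# [H7 PQ LOW] lower bounds for the number of points with small values, 90-140 lines

* `low2`: `s = c κ`. For `n ∈ S` and `a ∈ LS f g N!` let `U(n, a)` be the set of `cel2` (a filter of the box `bx 5 (4B)`: the vectors of the cell `B s n_i ≤ x_i < B s (n_i + 1)` satisfy, with `t = x/B`, the conditions of the hypothesis: `B < x_1 ≤ 2B`, `|x_i| ≤ 2 x_1`).
They are pairwise disjoint (`n_i = ⌊x_i/(B s)⌋`, `a = x mod N!`). All vectors of `U(n, a)` are in `X0 B`; `N! ∣ f(x)` because `x ≡ a`; `|f(x)| = B^2 |f(x/B)| ≤ κ A B^2` (`qv_smul`). `cel2` applies: the primes `≤ N` divide `N!`, so they do not divide all `a_i` (definition of `LS`).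
* `x0_low`: `low2` with `f = g = 0`, `N = 4`, `LS 0 0 24 ∋ (1,1,1,1,1)`, one cell: `c = 1/16`, `κ = 1` (`c κ = 1/16`), `n = (0, 20, 0, 0, 0)`: `5/4 ≤ t_1 ≤ 21/16`.
-/

namespace Pool.Agent.H7.PQ

open Finset Pool.Agent.H7.HP

private theorem low_dvd {n : ℕ} (c : Idx n → ℤ) (m : ℤ) (x y : Fin n → ℤ)
    (h : ∀ i, m ∣ x i - y i) : m ∣ qv c x - qv c y := by
  unfold qv
  rw [← sum_sub_distrib]
  refine dvd_sum fun p _ => ?_
  have e1 : c p * (x p.1.1 * x p.1.2) - c p * (y p.1.1 * y p.1.2) =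
      c p * ((x p.1.1 - y p.1.1) * x p.1.2 + y p.1.1 * (x p.1.2 - y p.1.2)) := by ring
  rw [e1]
  exact Dvd.dvd.mul_left (dvd_add (Dvd.dvd.mul_right (h _) _) (Dvd.dvd.mul_left (h _) _)) _

/-- value of a form at an integral vector and at the scaled vector -/
private theorem low_val (f : Idx 5 → ℤ) (x : Fin 5 → ℤ) (B : ℕ) (hB : 1 ≤ B) {κA : ℝ}
    (h : |qv (fun p => (f p : ℝ)) (fun i => (x i : ℝ) / B)| ≤ κA) :
    |((qv f x : ℤ) : ℝ)| ≤ κA * (B : ℝ) ^ 2 := by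
  have hBr : (0 : ℝ) < B := by exact_mod_cast hB
  have h1 : ((qv f x : ℤ) : ℝ) = qv (fun p => (f p : ℝ)) (fun i => (x i : ℝ)) :=
    qv_map (Int.castRingHom ℝ) f x
  have h2 : (fun i => (x i : ℝ)) = fun i => (B : ℝ) * ((x i : ℝ) / B) := by
    funext i
    field_simp
  rw [h1, h2, qv_smul, abs_mul, abs_of_nonneg (by positivity), mul_comm]
  exact mul_le_mul_of_nonneg_right h (by positivity)

/-- the vectors of one cell and one residue class -/
private def LowC (B : ℕ) (s : ℝ) (M : ℕ) (n a x : Fin 5 → ℤ) : Prop :=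
  (∀ i, B * s * n i ≤ x i ∧ (x i : ℝ) < B * s * (n i + 1)) ∧
    (∀ i, ((M : ℕ) : ℤ) ∣ x i - a i) ∧ Prim x

private theorem low_cell {B : ℕ} (hB : 1 ≤ B) {s : ℝ} {n : Fin 5 → ℤ}
    {P : (Fin 5 → ℝ) → Prop}
    (hn : ∀ t : Fin 5 → ℝ, (∀ i, s * n i ≤ t i ∧ t i ≤ s * (n i + 1)) →
      1 < t 1 ∧ t 1 ≤ 2 ∧ (∀ i, |t i| ≤ 2 * t 1) ∧ P t) (x : Fin 5 → ℤ)
    (hx : ∀ i, B * s * n i ≤ x i ∧ (x i : ℝ) < B * s * (n i + 1)) :
    (B : ℤ) < x 1 ∧ x 1 ≤ 2 * B ∧ (∀ i, |x i| ≤ 2 * x 1) ∧ P (fun i => (x i : ℝ) / B) := by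
  have hBr : (0 : ℝ) < B := by exact_mod_cast hB
  obtain ⟨h1, h2, h3, h4⟩ := hn (fun i => (x i : ℝ) / B) (fun i => by
    obtain ⟨h5, h6⟩ := hx i
    constructor
    · rw [le_div_iff₀ hBr]
      linarith
    · rw [div_le_iff₀ hBr]
      linarith)
  refine ⟨?_, ?_, ?_, h4⟩
  · rw [lt_div_iff₀ hBr, one_mul] at h1
    exact_mod_cast h1
  · rw [div_le_iff₀ hBr] at h2
    exact_mod_cast h2
  · intro i
    have h5 := h3 i
    rw [abs_div, abs_of_pos hBr, div_le_iff₀ hBr] at h5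
    have h6 : 2 * ((x 1 : ℝ) / B) * B = 2 * (x 1 : ℝ) := by field_simp
    rw [h6] at h5
    exact_mod_cast h5

open scoped Classical in
theorem low2 (c κ : ℝ) (hc : 0 < c) (hκ : 0 < κ) (N : ℕ) (hN : 4 ≤ N) : ∃ B0 : ℕ, ∀ B ≥ B0,
    ∀ (A : ℝ) (f g : Idx 5 → ℤ) (S : Finset (Fin 5 → ℤ)),
    (∀ n ∈ S, ∀ t : Fin 5 → ℝ, (∀ i, c * κ * n i ≤ t i ∧ t i ≤ c * κ * (n i + 1)) →
      1 < t 1 ∧ t 1 ≤ 2 ∧ (∀ i, |t i| ≤ 2 * t 1) ∧ |qv (fun p => (f p : ℝ)) t| ≤ κ * A ∧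
        |qv (fun p => (g p : ℝ)) t| ≤ κ * A) →
      (S.card : ℝ) * (LS f g N.factorial).card * (B * (c * κ) / N.factorial) ^ 5 / 2 ≤
        (((X0 B).filter fun x => ((N.factorial : ℕ) : ℤ) ∣ qv f x ∧
          ((N.factorial : ℕ) : ℤ) ∣ qv g x ∧ |((qv f x : ℤ) : ℝ)| ≤ κ * A * B ^ 2 ∧
          |((qv g x : ℤ) : ℝ)| ≤ κ * A * B ^ 2).card : ℝ) := by
  obtain ⟨s, hs⟩ : ∃ s, s = c * κ := ⟨_, rfl⟩
  have hs0 : 0 < s := by rw [hs]; positivity
  obtain ⟨M, hM⟩ : ∃ M, M = N.factorial := ⟨_, rfl⟩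
  have hM0 : 0 < M := by rw [hM]; exact Nat.factorial_pos N
  obtain ⟨B0, hB0⟩ := cel2 N hN s hs0
  refine ⟨max B0 1, fun B hB A f g S hS => ?_⟩
  have hB1 : 1 ≤ B := (le_max_right _ _).trans hB
  have hBB : B0 ≤ B := (le_max_left _ _).trans hB
  have hBr : (0 : ℝ) < B := by exact_mod_cast hB1
  rw [← hs] at hS ⊢
  rw [← hM] at hB0 ⊢
  have hcell := fun n hn => low_cell (B := B) hB1 (hS n hn)
  let U : (Fin 5 → ℤ) × (Fin 5 → ℤ) → Finset (Fin 5 → ℤ) := fun q =>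
    (bx 5 (4 * B)).filter (LowC B s M q.1 q.2)
  have hUm : ∀ q ∈ S ×ˢ LS f g M, ∀ x : Fin 5 → ℤ, x ∈ U q ↔ LowC B s M q.1 q.2 x := by
    intro q hq x
    rw [mem_filter, mem_bx]
    refine ⟨fun h => h.2, fun h => ⟨fun i => ?_, h⟩⟩
    obtain ⟨h1, h2, h3, -⟩ := hcell q.1 (mem_product.1 hq).1 x h.1
    have h4 := h3 i
    push_cast
    linarith
  have hUc : ∀ q ∈ S ×ˢ LS f g M, (B * s / M) ^ 5 / 2 ≤ ((U q).card : ℝ) := by
    intro q hq
    have hq2 := (mem_product.1 hq).2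
    unfold LS at hq2
    rw [mem_filter] at hq2
    obtain ⟨-, -, -, hpr⟩ := hq2
    apply hB0 B hBB q.1 q.2
    · intro p hp hpN
      apply hpr p hp
      rw [hM]
      exact (Nat.Prime.dvd_factorial hp).2 hpN
    · intro x hx
      obtain ⟨h1, h2, -⟩ := hcell q.1 (mem_product.1 hq).1 x hx
      exact ⟨h1, h2⟩
    · exact hUm q hq
  have hdis : ((S ×ˢ LS f g M : Finset ((Fin 5 → ℤ) × (Fin 5 → ℤ))) :
      Set ((Fin 5 → ℤ) × (Fin 5 → ℤ))).PairwiseDisjoint U := by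
    intro p hp p' hp' hpp
    rw [Function.onFun, Finset.disjoint_left]
    intro u hu hu'
    have h1 := (hUm p (mem_coe.1 hp) u).1 hu
    have h2 := (hUm p' (mem_coe.1 hp') u).1 hu'
    apply hpp
    have hp2 := (mem_product.1 (mem_coe.1 hp)).2
    have hp2' := (mem_product.1 (mem_coe.1 hp')).2
    unfold LS at hp2 hp2'
    rw [mem_filter, Fintype.mem_piFinset] at hp2 hp2'
    have hBs : (0 : ℝ) < B * s := by positivity
    refine Prod.ext ?_ ?_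
    · funext i
      obtain ⟨h3, h4⟩ := h1.1 i
      obtain ⟨h5, h6⟩ := h2.1 i
      have h7 : (p.1 i : ℝ) < p'.1 i + 1 := lt_of_mul_lt_mul_left (lt_of_le_of_lt h3 h6) hBs.le
      have h8 : (p'.1 i : ℝ) < p.1 i + 1 := lt_of_mul_lt_mul_left (lt_of_le_of_lt h5 h4) hBs.le
      have h9 : p.1 i < p'.1 i + 1 := by exact_mod_cast h7
      have h10 : p'.1 i < p.1 i + 1 := by exact_mod_cast h8
      omega
    · funext i
      have h3 := h1.2.1 i
      have h4 := h2.2.1 i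
      have h5 : (M : ℤ) ∣ p.2 i - p'.2 i := by
        have h6 := dvd_sub h4 h3
        have e1 : u i - p'.2 i - (u i - p.2 i) = p.2 i - p'.2 i := by ring
        rwa [e1] at h6
      have h6 := mem_Ico.1 (hp2.1 i)
      have h7 := mem_Ico.1 (hp2'.1 i)
      have h8 : p.2 i - p'.2 i = 0 := by
        refine Int.eq_zero_of_abs_lt_dvd h5 ?_
        rw [abs_lt]
        constructor <;> linarith [h6.1, h6.2, h7.1, h7.2]
      linarith
  have hsub : (S ×ˢ LS f g M).biUnion U ⊆ (X0 B).filter fun x => ((M : ℕ) : ℤ) ∣ qv f x ∧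
      ((M : ℕ) : ℤ) ∣ qv g x ∧ |((qv f x : ℤ) : ℝ)| ≤ κ * A * B ^ 2 ∧
      |((qv g x : ℤ) : ℝ)| ≤ κ * A * B ^ 2 := by
    intro x hx
    obtain ⟨q, hq, hxq⟩ := mem_biUnion.1 hx
    have h1 := (hUm q hq x).1 hxq
    obtain ⟨h2, h3, h4, h5, h6⟩ := hcell q.1 (mem_product.1 hq).1 x h1.1
    have hq2 := (mem_product.1 hq).2
    unfold LS at hq2
    rw [mem_filter] at hq2
    obtain ⟨-, hqf, hqg, -⟩ := hq2
    rw [mem_filter, mem_X0]
    refine ⟨⟨h1.2.2, h2, h3, h4⟩, ?_, ?_, low_val f x B hB1 h5, low_val g x B hB1 h6⟩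
    · have h7 := low_dvd f (M : ℤ) x q.2 h1.2.1
      exact (dvd_sub_left hqf).1 h7
    · have h7 := low_dvd g (M : ℤ) x q.2 h1.2.1
      exact (dvd_sub_left hqg).1 h7
  have h1 : (S.card : ℝ) * (LS f g M).card * (B * s / M) ^ 5 / 2 ≤
      (((S ×ˢ LS f g M).biUnion U).card : ℝ) := by
    rw [card_biUnion hdis]
    push_cast
    calc (S.card : ℝ) * (LS f g M).card * (B * s / M) ^ 5 / 2
        = ∑ q ∈ S ×ˢ LS f g M, ((B * s / M) ^ 5 / 2) := by
          rw [sum_const, nsmul_eq_mul, card_product]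
          push_cast
          ring
      _ ≤ ∑ q ∈ S ×ˢ LS f g M, ((U q).card : ℝ) := sum_le_sum hUc
  refine h1.trans ?_
  exact_mod_cast card_le_card hsub

theorem x0_low : ∃ c : ℝ, 0 < c ∧ ∃ B0 : ℕ, ∀ B ≥ B0, c * (B : ℝ) ^ 5 ≤ ((X0 B).card : ℝ) := by
  classical
  obtain ⟨B0, hB0⟩ := low2 (1 / 16) 1 (by norm_num) one_pos 4 (le_refl _)
  refine ⟨(1 / 16 / 24) ^ 5 / 2, by positivity, B0, fun B hB => ?_⟩
  have hq0 : ∀ t : Fin 5 → ℝ, qv (fun p => (((0 : Idx 5 → ℤ) p : ℤ) : ℝ)) t = 0 := by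
    intro t
    unfold qv
    refine sum_eq_zero fun p _ => ?_
    show (((0 : Idx 5 → ℤ) p : ℤ) : ℝ) * _ = 0
    rw [Pi.zero_apply, Int.cast_zero, zero_mul]
  have hq0' : ∀ x : Fin 5 → ℤ, qv (0 : Idx 5 → ℤ) x = 0 := by
    intro t
    unfold qv
    refine sum_eq_zero fun p _ => ?_
    rw [Pi.zero_apply, zero_mul]
  have h1 := hB0 B hB 1 0 0 {fun i => if i = 1 then 20 else 0} (by
    intro n hn t ht
    rw [mem_singleton] at hn
    subst hn
    have h1 : 5 / 4 ≤ t 1 ∧ t 1 ≤ 21 / 16 := by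
      have h2 := ht 1
      simp only [if_true] at h2
      push_cast at h2
      constructor <;> linarith [h2.1, h2.2]
    refine ⟨by linarith [h1.1], by linarith [h1.2], fun i => ?_, ?_, ?_⟩
    · by_cases hi : i = 1
      · rw [hi, abs_of_pos (by linarith [h1.1])]
        linarith [h1.1]
      · have h2 := ht i
        simp only [if_neg hi] at h2
        push_cast at h2
        rw [abs_le]
        constructor <;> linarith [h2.1, h2.2, h1.1]
    · rw [hq0, abs_zero]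
      norm_num
    · rw [hq0, abs_zero]
      norm_num)
  have h2 : (1 : ℝ) ≤ ((LS 0 0 (Nat.factorial 4)).card : ℝ) := by
    have h3 : 0 < (LS 0 0 (Nat.factorial 4)).card := by
      rw [card_pos]
      refine ⟨fun _ => 1, ?_⟩
      unfold LS
      rw [mem_filter, Fintype.mem_piFinset]
      refine ⟨fun i => ?_, ?_, ?_, ?_⟩
      · rw [mem_Ico]
        constructor
        · norm_num
        · have : (Nat.factorial 4 : ℤ) = 24 := by norm_num [Nat.factorial]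
          rw [this]
          norm_num
      · rw [hq0']
        exact dvd_zero _
      · rw [hq0']
        exact dvd_zero _
      · intro p hp _ h
        have h4 : (p : ℤ) ∣ 1 := h 0
        have h5 : p ∣ 1 := by exact_mod_cast h4
        exact hp.one_lt.ne' (Nat.dvd_one.1 h5)
    exact_mod_cast h3
  have h3 : ((({fun i => if i = 1 then 20 else 0} : Finset (Fin 5 → ℤ)).card : ℕ) : ℝ) = 1 := by
    rw [card_singleton, Nat.cast_one]
  rw [h3, one_mul] at h1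
  have h4 : ((Nat.factorial 4 : ℕ) : ℝ) = 24 := by norm_num [Nat.factorial]
  rw [h4] at h1
  have h5 : (0 : ℝ) ≤ (B * (1 / 16 * 1) / 24) ^ 5 / 2 := by positivity
  calc (1 / 16 / 24) ^ 5 / 2 * (B : ℝ) ^ 5 = 1 * ((B * (1 / 16 * 1) / 24) ^ 5 / 2) := by ring
    _ ≤ ((LS 0 0 (Nat.factorial 4)).card : ℝ) * ((B * (1 / 16 * 1) / 24) ^ 5 / 2) :=
        mul_le_mul_of_nonneg_right h2 h5
    _ = ((LS 0 0 (Nat.factorial 4)).card : ℝ) * (B * (1 / 16 * 1) / 24) ^ 5 / 2 := by ring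
    _ ≤ _ := h1
    _ ≤ ((X0 B).card : ℝ) := by exact_mod_cast card_filter_le _ _

end Pool.Agent.H7.PQ
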