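import Pool.Agent.H7.PQ.Defs

set_option autoImplicit false

/-!
# [H7 PQ NSP] few points are not separated, 90-140 lines

`x ∈ X0 B`, `n = x 1 ∈ (B, 2B]`, not separated: there are `0 < j < n` and `s` with `n ∣ j x_i - s_i`, `|s_i| < lam n` for all `i`. Let `d = gcd(j, n)`: `d ∣ s_i`.
If `lam n < d` then all `s_i = 0`, `n ∣ j x_i`, `n/d ∣ x_i` for all `i` (`j/d` and `n/d` coprime), `n/d > 1`: impossible, `x` is primitive. So `d ≤ lam n`.
For fixed `n`, `j` with `d = gcd(j,n) ≤ lam n`, and a coordinate `i ≠ 1`: the number of integers `t`, `|t| ≤ 2n`, for which there is an integer `s`, `|s| < lam n`, with `n ∣ j t - s`: `s` is one of the at most `2 lam n/d + 1` multiples of `d`, and given `s` the integer `t` is determined modulo `n/d`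
(at most `4 d + 2` values `t`; crude: `6 d`): at most `6 d (2 lam n/d + 1) ≤ 18 lam n`.
So the number of the `x` is at most `∑_{B < n ≤ 2B} ∑_{0 < j < n} (18 lam n)^4 ≤ B * 2B * (36 lam B)^4`.
(`x` is determined by `n = x 1` and the four other coordinates.)
-/

namespace Pool.Agent.H7.PQ

open Finset Pool.Agent.H7.HP

private theorem nsp_fib (F : Finset ℤ) (a m : ℤ) (k : ℕ) (hm : 0 < m)
    (hF : ∀ t ∈ F, a ≤ t ∧ t ≤ a + k * m) (hc : ∀ t ∈ F, ∀ t' ∈ F, m ∣ t - t') :
    F.card ≤ k + 1 := by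
  have h1 : F.card ≤ (Icc (0 : ℤ) k).card := by
    apply Finset.card_le_card_of_injOn (fun t => (t - a) / m)
    · intro t ht
      have h2 := hF t ht
      simp only [Finset.coe_Icc, Set.mem_Icc]
      constructor
      · exact Int.ediv_nonneg (by linarith) hm.le
      · have h3 : (t - a) / m ≤ (k * m) / m := Int.ediv_le_ediv hm (by linarith)
        rwa [Int.mul_ediv_cancel _ hm.ne'] at h3
    · intro t ht t' ht' htt
      have h2 : (t - a) / m = (t' - a) / m := htt
      have h3 : m ∣ (t - a) - (t' - a) := by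
        have := hc t ht t' ht'
        have h4 : (t - a) - (t' - a) = t - t' := by ring
        rwa [h4]
      have h4 : (t - a) % m = (t' - a) % m :=
        Int.emod_eq_emod_iff_emod_sub_eq_zero.2 (Int.emod_eq_zero_of_dvd h3)
      have h5 := Int.emod_add_mul_ediv (t - a) m
      have h6 := Int.emod_add_mul_ediv (t' - a) m
      rw [h4, h2, h6] at h5
      linarith
  refine h1.trans_eq ?_
  rw [Int.card_Icc]
  omega

open scoped Classical in
private noncomputable def NspA (lam : ℝ) (n j : ℤ) : Finset ℤ :=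
  (Icc (-2 * n) (2 * n)).filter fun t => ∃ s : ℤ, n ∣ j * t - s ∧ |(s : ℝ)| < lam * n

open scoped Classical in
private theorem nsp_one (lam : ℝ) (n j : ℤ) (hn : 0 < n)
    (hd : (Int.gcd j n : ℝ) ≤ lam * n) : ((NspA lam n j).card : ℝ) ≤ 15 * (lam * n) := by
  have hd0 : 0 < Int.gcd j n := Int.gcd_pos_of_ne_zero_right _ hn.ne'
  obtain ⟨k, m, hkm, hj, hnm⟩ := Int.exists_gcd_one hd0
  generalize Int.gcd j n = d at *
  have hdZ : (0 : ℤ) < d := by exact_mod_cast hd0
  have hdR : (0 : ℝ) < d := by exact_mod_cast hd0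
  have hm : 0 < m := by
    by_contra h
    push Not at h
    nlinarith
  have hA : ∀ t, t ∈ NspA lam n j → ∃ σ : ℤ, n ∣ j * t - d * σ ∧ |(σ : ℝ)| ≤ lam * n / d := by
    intro t ht
    unfold NspA at ht
    rw [Finset.mem_filter] at ht
    obtain ⟨-, s, hs1, hs2⟩ := ht
    have h1 : (d : ℤ) ∣ s := by
      have h2 : (d : ℤ) ∣ n := ⟨m, by rw [hnm]; ring⟩
      have h3 : (d : ℤ) ∣ j * t := Dvd.dvd.mul_right ⟨k, by rw [hj]; ring⟩ t
      have h4 := dvd_sub h3 (h2.trans hs1)
      simpa using h4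
    obtain ⟨σ, rfl⟩ := h1
    refine ⟨σ, hs1, ?_⟩
    rw [le_div_iff₀ hdR]
    push_cast at hs2
    rw [abs_mul, abs_of_pos hdR] at hs2
    linarith
  choose! σ hσ1 hσ2 using hA
  have hcard : (NspA lam n j).card ≤ (4 * d + 1) * (2 * ⌊lam * n / d⌋₊ + 1) := by
    have h1 := Finset.card_le_mul_card_image_of_maps_to (f := σ) (s := NspA lam n j)
      (t := Icc (-(⌊lam * n / d⌋₊ : ℤ)) (⌊lam * n / d⌋₊ : ℤ)) (fun t ht => by
        have h2 := hσ2 t ht
        have h3 : (((σ t).natAbs : ℕ) : ℝ) ≤ lam * n / d := by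
          rw [Nat.cast_natAbs, Int.cast_abs]
          exact h2
        have h4 := Nat.le_floor h3
        rw [mem_Icc]
        omega) (4 * d + 1) (fun b _ => by
        apply nsp_fib _ (-2 * n) m (4 * d) hm
        · intro t ht
          rw [Finset.mem_filter] at ht
          have h2 := ht.1
          unfold NspA at h2
          rw [Finset.mem_filter, mem_Icc] at h2
          refine ⟨h2.1.1, h2.1.2.trans ?_⟩
          push_cast
          rw [hnm]
          apply le_of_eq
          ring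
        · intro t ht t' ht'
          rw [Finset.mem_filter] at ht ht'
          have h2 := hσ1 t ht.1
          have h3 := hσ1 t' ht'.1
          rw [ht.2] at h2
          rw [ht'.2] at h3
          have h4 := dvd_sub h2 h3
          have h5 : j * t - d * b - (j * t' - d * b) = d * (k * (t - t')) := by
            rw [hj]
            ring
          rw [h5, hnm, mul_comm m (d : ℤ)] at h4
          have h6 : m ∣ k * (t - t') := Int.dvd_of_mul_dvd_mul_left hdZ.ne' h4
          have h7 : IsCoprime m k := by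
            rw [Int.isCoprime_iff_gcd_eq_one, Int.gcd_comm]
            exact hkm
          exact h7.dvd_of_dvd_mul_left h6)
    rwa [Int.card_Icc, show ((⌊lam * n / d⌋₊ : ℤ) + 1 - -(⌊lam * n / d⌋₊ : ℤ)).toNat =
      2 * ⌊lam * n / d⌋₊ + 1 by omega] at h1
  have h1 : ((NspA lam n j).card : ℝ) ≤ (4 * d + 1) * (2 * (⌊lam * n / d⌋₊ : ℝ) + 1) := by
    exact_mod_cast hcard
  have h2 : 1 ≤ lam * n / d := by
    rw [le_div_iff₀ hdR]
    linarith
  have h3 : (⌊lam * n / d⌋₊ : ℝ) ≤ lam * n / d := Nat.floor_le (by linarith)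
  have h4 : (1 : ℝ) ≤ d := by exact_mod_cast hd0
  calc ((NspA lam n j).card : ℝ) ≤ (4 * d + 1) * (2 * (⌊lam * n / d⌋₊ : ℝ) + 1) := h1
    _ ≤ (5 * d) * (3 * (lam * n / d)) :=
        mul_le_mul (by linarith) (by linarith) (by positivity) (by positivity)
    _ = 15 * (lam * n) := by
        field_simp
        ring

private theorem nsp_gcd (lam : ℝ) (x : Fin 5 → ℤ) (hp : Prim x) (j : ℤ) (hj0 : 0 < j)
    (hj1 : j < x 1) (s : Fin 5 → ℤ) (hs1 : ∀ i, x 1 ∣ j * x i - s i)
    (hs2 : ∀ i, |(s i : ℝ)| < lam * (x 1 : ℝ)) : (Int.gcd j (x 1) : ℝ) ≤ lam * (x 1 : ℝ) := by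
  by_contra hcon
  push Not at hcon
  have h0 : ∀ i, s i = 0 := by
    intro i
    have h1 : (Int.gcd j (x 1) : ℤ) ∣ s i := by
      have h2 : (Int.gcd j (x 1) : ℤ) ∣ j * x i := Dvd.dvd.mul_right (Int.gcd_dvd_left _ _) _
      have h3 := dvd_sub h2 ((Int.gcd_dvd_right j (x 1)).trans (hs1 i))
      simpa using h3
    refine Int.eq_zero_of_abs_lt_dvd h1 ?_
    have h4 : ((|s i| : ℤ) : ℝ) < ((Int.gcd j (x 1) : ℤ) : ℝ) := by
      push_cast
      exact (hs2 i).trans hcon
    exact_mod_cast h4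
  obtain ⟨m, hm⟩ := hp
  have h1 : x 1 ∣ j := by
    have h2 : j = ∑ i, m i * (j * x i) := by
      calc j = j * ∑ i, m i * x i := by rw [hm, mul_one]
        _ = _ := by rw [Finset.mul_sum]; exact Finset.sum_congr rfl fun i _ => by ring
    rw [h2]
    refine Finset.dvd_sum fun i _ => Dvd.dvd.mul_left ?_ _
    have h3 := hs1 i
    rwa [h0 i, sub_zero] at h3
  have h2 := Int.le_of_dvd hj0 h1
  omega

private noncomputable def NspP (lam : ℝ) (n j : ℤ) : Finset (Fin 5 → ℤ) :=
  Fintype.piFinset fun i => if i = 1 then {n} else NspA lam n j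

private theorem nsp_P (lam : ℝ) (n j : ℤ) (hn : 0 < n)
    (hd : (Int.gcd j n : ℝ) ≤ lam * n) : ((NspP lam n j).card : ℝ) ≤ (15 * (lam * n)) ^ 4 := by
  have h1 : (NspP lam n j).card = (NspA lam n j).card ^ 4 := by
    unfold NspP
    rw [Fintype.card_piFinset, Fin.prod_univ_five]
    simp only [if_neg (show ¬ (0 : Fin 5) = 1 by decide), if_true,
      if_neg (show ¬ (2 : Fin 5) = 1 by decide), if_neg (show ¬ (3 : Fin 5) = 1 by decide),
      if_neg (show ¬ (4 : Fin 5) = 1 by decide), Finset.card_singleton]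
    ring
  rw [h1]
  push_cast
  exact pow_le_pow_left₀ (Nat.cast_nonneg _) (nsp_one lam n j hn hd) 4

open scoped Classical in
theorem nsp : ∃ C : ℝ, 0 < C ∧ ∀ (B : ℕ) (lam : ℝ), 0 < lam → lam ≤ 1 →
    (((X0 B).filter fun x => ¬ Sep lam x).card : ℝ) ≤ C * lam ^ 4 * (B : ℝ) ^ 6 := by
  refine ⟨2 * 30 ^ 4, by norm_num, fun B lam hl0 hl1 => ?_⟩
  let J : ℤ → Finset ℤ := fun n => (Ioo 0 n).filter fun j => (Int.gcd j n : ℝ) ≤ lam * n
  have hsub : ((X0 B).filter fun x => ¬ Sep lam x) ⊆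
      (Ioc (B : ℤ) (2 * B)).biUnion fun n => (J n).biUnion fun j => NspP lam n j := by
    intro x hx
    rw [Finset.mem_filter] at hx
    obtain ⟨hx0, hs⟩ := hx
    unfold X0 at hx0
    rw [Finset.mem_filter] at hx0
    obtain ⟨-, hx1⟩ := hx0
    unfold HP.Sep at hs
    push Not at hs
    obtain ⟨j, hj0, hj1, s, hs1, hs2⟩ := hs
    rw [Finset.mem_biUnion]
    refine ⟨x 1, mem_Ioc.2 ⟨hx1.lo, hx1.hi⟩, ?_⟩
    rw [Finset.mem_biUnion]
    refine ⟨j, ?_, ?_⟩
    · rw [Finset.mem_filter, mem_Ioo]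
      exact ⟨⟨hj0, hj1⟩, nsp_gcd lam x hx1.prim j hj0 hj1 s hs1 hs2⟩
    · unfold NspP
      rw [Fintype.mem_piFinset]
      intro i
      by_cases hi : i = 1
      · rw [if_pos hi, hi, Finset.mem_singleton]
      · rw [if_neg hi]
        unfold NspA
        rw [Finset.mem_filter, mem_Icc]
        have h1 := abs_le.1 (hx1.bd i)
        exact ⟨⟨by linarith [h1.1], h1.2⟩, s i, hs1 i, hs2 i⟩
  have h1 : ∀ n ∈ Ioc (B : ℤ) (2 * B),
      (((J n).biUnion fun j => NspP lam n j).card : ℝ) ≤ (2 * B) * (30 * (lam * B)) ^ 4 := by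
    intro n hn
    rw [mem_Ioc] at hn
    have hn0 : 0 < n := by omega
    have hnR : (n : ℝ) ≤ 2 * B := by exact_mod_cast hn.2
    have h2 : (((J n).biUnion fun j => NspP lam n j).card : ℝ) ≤
        ∑ j ∈ J n, ((NspP lam n j).card : ℝ) := by
      exact_mod_cast Finset.card_biUnion_le
    have h3 : ∀ j ∈ J n, ((NspP lam n j).card : ℝ) ≤ (30 * (lam * B)) ^ 4 := by
      intro j hj
      rw [Finset.mem_filter] at hj
      refine (nsp_P lam n j hn0 hj.2).trans ?_
      have hnR0 : (0 : ℝ) < n := by exact_mod_cast hn0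
      apply pow_le_pow_left₀ (by positivity)
      nlinarith
    have h4 : ((J n).card : ℝ) ≤ 2 * B := by
      have h5 : (J n).card ≤ (Ioo (0 : ℤ) n).card := Finset.card_filter_le _ _
      rw [Int.card_Ioo] at h5
      have h6 : (J n).card ≤ 2 * B := by omega
      exact_mod_cast h6
    refine h2.trans ((Finset.sum_le_card_nsmul _ _ _ h3).trans ?_)
    rw [nsmul_eq_mul]
    exact mul_le_mul_of_nonneg_right h4 (by positivity)
  have h2 : (((X0 B).filter fun x => ¬ Sep lam x).card : ℝ) ≤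
      ∑ n ∈ Ioc (B : ℤ) (2 * B), (((J n).biUnion fun j => NspP lam n j).card : ℝ) := by
    have h3 := (Finset.card_le_card hsub).trans Finset.card_biUnion_le
    exact_mod_cast h3
  refine h2.trans ((Finset.sum_le_card_nsmul _ _ _ h1).trans ?_)
  rw [nsmul_eq_mul, Int.card_Ioc]
  have h3 : ((2 * (B : ℤ) - B).toNat : ℝ) = B := by
    have h4 : (2 * (B : ℤ) - B).toNat = B := by omega
    rw [h4]
  rw [h3]
  apply le_of_eq
  ring

end Pool.Agent.H7.PQ
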