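import Pool.Agent.H7.PQ.Vsm
import Pool.Agent.H7.PQ.Nsp
import Pool.Agent.H7.PQ.Low
import Pool.Agent.H7.PQ.Cub

set_option autoImplicit false

/-!
# [H7 PQ COR] almost all pairs with many local solutions have a small zero, 180-260 lines (compare HP/Core.lean)

`c, κ0` from `cub2 η`, `C` from `vsm τ`, `Cn` from `nsp`. `ε ≤ 1` with `1296 C ε ≤ δ c^12 c1^2`, `κ = min κ0 (ε^2)`, `N0 ≥ 32/ε`, `N0 ≥ 4`. `N ≥ N0`, `M = N!`, `S = XT τ A`, `B = Bt τ A`, `lam = lmt τ A`, `N1 = ⌊κ A B^2/M⌋`.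
* Let `q = (f, g) ∈ Y` (the set of the statement). `rr S f g 0 0 = 0` (an `x ∈ S` is not `0` and `|x_i| ≤ 4B ≤ A^(2+τ)`: `xs_bd`, `par2`).
* `E0 = ∑_{|j|,|j'| ≤ N1} rr S f g (j M) (j' M)` is the number of `x ∈ S` with `M ∣ f(x), g(x)`, `|f(x)|, |g(x)| ≤ N1 M`; if `M ∣ f(x)` then `|f(x)| ≤ κ A B^2` is equivalent to `|f(x)| ≤ N1 M`. So `E0 ≥` (the number of `low2`) `-` (the number of not separated points of `X0 B`)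
`≥ (c/κ^3) (c1 M^3) (B c κ/M)^5/2 - Cn lam^4 B^6 = c^6 c1 κ^2 B^5/(2 M^2) - Cn lam^4 B * B^5 ≥ c^6 c1 κ^2 B^5/(4 M^2) =: E` for `A` large (`par2`: `lam^4 B` small; `cub2` with `A` and the real forms, `low2 c κ N`).
* Cauchy: `E^2 ≤ E0^2 ≤ (2 N1 + 1)^2 ∑_{j,j'} (rr 0 0 - rr (jM) (j'M))^2`.
* Sum over `Y ⊆ bf 5 A ×ˢ bf 5 A`: `#Y E^2 ≤ (2 N1+1)^2 * (2 N1+1)^2 * C ε A^26 B^2` (`vsm` for each `(j, j')`: `|j M| ≤ κ A B^2`). `2 N1 + 1 ≤ 3 κ A B^2/M` for `A` large. So `#Y ≤ 81 κ^4 A^4 B^8/M^4 * C ε A^26 B^2 * 16 M^4/(c^12 c1^2 κ^4 B^10) = 1296 C ε/(c^12 c1^2) A^30 ≤ δ A^30`.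
-/

namespace Pool.Agent.H7.PQ

open Finset Pool.Agent.H7.HP

private theorem cor_mem {M N1 : ℕ} {T : ℝ} (hM : 0 < M) (hT : T < (N1 + 1) * M) {v : ℤ}
    (h1 : (M : ℤ) ∣ v) (h2 : |(v : ℝ)| ≤ T) : ∃ j ∈ Icc (-(N1 : ℤ)) N1, v = j * M := by
  obtain ⟨j, hj⟩ := h1
  have hMr : (0 : ℝ) < M := by exact_mod_cast hM
  refine ⟨j, ?_, by rw [hj, mul_comm]⟩
  have h1 : |(j : ℝ)| * M < (N1 + 1) * M := by
    calc |(j : ℝ)| * M = |(v : ℝ)| := by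
          rw [hj]
          push_cast
          rw [abs_mul, abs_of_pos hMr, mul_comm]
      _ ≤ T := h2
      _ < _ := hT
  have h2 : |(j : ℝ)| < N1 + 1 := lt_of_mul_lt_mul_right h1 hMr.le
  have h3 : |j| < (N1 : ℤ) + 1 := by exact_mod_cast h2
  rw [mem_Icc]
  have h4 := abs_lt.1 h3
  constructor <;> omega

open scoped Classical in
private theorem cor_sumr (X : Finset (Fin 5 → ℤ)) (f g : Idx 5 → ℤ) (M N1 : ℕ) (T : ℝ)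
    (hM : 0 < M) (hT : T < (N1 + 1) * M) :
    (X.filter fun x => (M : ℤ) ∣ qv f x ∧ (M : ℤ) ∣ qv g x ∧ |((qv f x : ℤ) : ℝ)| ≤ T ∧
      |((qv g x : ℤ) : ℝ)| ≤ T).card ≤
      ∑ p ∈ Icc (-(N1 : ℤ)) N1 ×ˢ Icc (-(N1 : ℤ)) N1, rr X f g (p.1 * M) (p.2 * M) := by
  have hsub : (X.filter fun x => (M : ℤ) ∣ qv f x ∧ (M : ℤ) ∣ qv g x ∧
      |((qv f x : ℤ) : ℝ)| ≤ T ∧ |((qv g x : ℤ) : ℝ)| ≤ T) ⊆
      (Icc (-(N1 : ℤ)) N1 ×ˢ Icc (-(N1 : ℤ)) N1).biUnion fun p =>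
        X.filter fun x => qv f x = p.1 * M ∧ qv g x = p.2 * M := by
    intro x hx
    rw [mem_filter] at hx
    obtain ⟨hxX, h1, h2, h3, h4⟩ := hx
    obtain ⟨j, hj, hj'⟩ := cor_mem hM hT h1 h3
    obtain ⟨l, hl, hl'⟩ := cor_mem hM hT h2 h4
    rw [mem_biUnion]
    refine ⟨(j, l), mem_product.2 ⟨hj, hl⟩, ?_⟩
    rw [mem_filter]
    exact ⟨hxX, hj', hl'⟩
  refine (card_le_card hsub).trans (card_biUnion_le.trans (le_of_eq ?_))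
  refine sum_congr rfl fun p _ => ?_
  rfl

private theorem cor_cnt (X : Finset (Fin 5 → ℤ)) (A M N1 : ℕ) (E V : ℝ) (hE : 0 ≤ E)
    (Y : Finset ((Idx 5 → ℤ) × (Idx 5 → ℤ))) (hY : Y ⊆ bf 5 A ×ˢ bf 5 A)
    (h0 : ∀ q ∈ Y, rr X q.1 q.2 0 0 = 0)
    (h1 : ∀ q ∈ Y, E ≤ ∑ p ∈ Icc (-(N1 : ℤ)) N1 ×ˢ Icc (-(N1 : ℤ)) N1,
      (rr X q.1 q.2 (p.1 * M) (p.2 * M) : ℝ))
    (hV : ∀ p ∈ Icc (-(N1 : ℤ)) N1 ×ˢ Icc (-(N1 : ℤ)) N1,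
      ∑ f ∈ bf 5 A, ∑ g ∈ bf 5 A, ((rr X f g 0 0 : ℝ) - rr X f g (p.1 * M) (p.2 * M)) ^ 2 ≤ V) :
    (Y.card : ℝ) * E ^ 2 ≤ (2 * N1 + 1) ^ 4 * V := by
  set I2 := Icc (-(N1 : ℤ)) N1 ×ˢ Icc (-(N1 : ℤ)) N1 with hI2
  have hc : (I2.card : ℝ) = (2 * N1 + 1) ^ 2 := by
    rw [hI2, card_product, Int.card_Icc]
    have : ((N1 : ℤ) + 1 - -(N1 : ℤ)).toNat = 2 * N1 + 1 := by omega
    rw [this]
    push_cast
    ring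
  have h2 : ∀ q ∈ Y, E ^ 2 ≤ (2 * N1 + 1) ^ 2 *
      ∑ p ∈ I2, ((rr X q.1 q.2 0 0 : ℝ) - rr X q.1 q.2 (p.1 * M) (p.2 * M)) ^ 2 := by
    intro q hq
    have h3 := sq_sum_le_card_mul_sum_sq (s := I2)
      (f := fun p => (rr X q.1 q.2 (p.1 * M) (p.2 * M) : ℝ))
    rw [hc] at h3
    have h4 : ∀ p : ℤ × ℤ, ((rr X q.1 q.2 0 0 : ℝ) - rr X q.1 q.2 (p.1 * M) (p.2 * M)) ^ 2 =
        (rr X q.1 q.2 (p.1 * M) (p.2 * M) : ℝ) ^ 2 := by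
      intro p
      rw [h0 q hq]
      push_cast
      ring
    simp_rw [h4]
    exact (pow_le_pow_left₀ hE (h1 q hq) 2).trans h3
  calc (Y.card : ℝ) * E ^ 2 = ∑ q ∈ Y, E ^ 2 := by rw [sum_const, nsmul_eq_mul]
    _ ≤ ∑ q ∈ Y, (2 * N1 + 1) ^ 2 *
        ∑ p ∈ I2, ((rr X q.1 q.2 0 0 : ℝ) - rr X q.1 q.2 (p.1 * M) (p.2 * M)) ^ 2 :=
        sum_le_sum h2
    _ ≤ ∑ q ∈ bf 5 A ×ˢ bf 5 A, (2 * N1 + 1) ^ 2 *
        ∑ p ∈ I2, ((rr X q.1 q.2 0 0 : ℝ) - rr X q.1 q.2 (p.1 * M) (p.2 * M)) ^ 2 := by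
        refine sum_le_sum_of_subset_of_nonneg hY fun q _ _ => ?_
        exact mul_nonneg (by positivity) (sum_nonneg fun _ _ => sq_nonneg _)
    _ = (2 * N1 + 1) ^ 2 * ∑ p ∈ I2,
        ∑ f ∈ bf 5 A, ∑ g ∈ bf 5 A,
          ((rr X f g 0 0 : ℝ) - rr X f g (p.1 * M) (p.2 * M)) ^ 2 := by
        rw [← mul_sum, sum_comm]
        congr 1
        refine sum_congr rfl fun p _ => ?_
        rw [sum_product]
    _ ≤ (2 * N1 + 1) ^ 2 * ∑ p ∈ I2, V := by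
        refine mul_le_mul_of_nonneg_left (sum_le_sum hV) (by positivity)
    _ = (2 * N1 + 1) ^ 4 * V := by
        rw [sum_const, nsmul_eq_mul, hc]
        ring

/-- the inequalities for large `A` -/
private theorem cor_par (τ : ℝ) (hτ : 0 < τ) (hτ' : τ ≤ 1 / 1000) (B0 : ℕ) (κ M Cn e : ℝ)
    (hκ : 0 < κ) (hM : 1 ≤ M) (hCn : 0 < Cn) (he : 0 < e) : ∃ A0 : ℕ, ∀ A ≥ A0,
    1 ≤ A ∧ B0 ≤ Bt τ A ∧ 1 ≤ Bt τ A ∧ 0 < lmt τ A ∧ lmt τ A ≤ 1 ∧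
      M ≤ κ * A * (Bt τ A : ℝ) ^ 2 ∧
      Cn * lmt τ A ^ 4 * (Bt τ A : ℝ) ^ 6 ≤ e * (Bt τ A : ℝ) ^ 5 ∧
      4 * (Bt τ A : ℝ) ≤ (A : ℝ) ^ (2 + τ) := by
  have hK : 0 < (B0 : ℝ) + M / κ + Cn / e + 1 := by positivity
  obtain ⟨A0, hA0⟩ := par2 τ hτ hτ' ((B0 : ℝ) + M / κ + Cn / e + 1) hK
  refine ⟨max 1 A0, fun A hA => ?_⟩
  have hA1 : 1 ≤ A := (le_max_left _ _).trans hA
  have hAr : (1 : ℝ) ≤ A := by exact_mod_cast hA1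
  obtain ⟨hB1, -, -, hl0, hl1⟩ := par0 τ hτ A hA1
  obtain ⟨h1, -, h2, h3, -⟩ := hA0 A ((le_max_right _ _).trans hA)
  have hBr : (1 : ℝ) ≤ (Bt τ A : ℝ) := by exact_mod_cast hB1
  have hMκ : 0 ≤ M / κ := by positivity
  have hCe : 0 ≤ Cn / e := by positivity
  have hA2 : (1 : ℝ) ≤ (A : ℝ) ^ 2 := one_le_pow₀ hAr
  have hKB : (B0 : ℝ) + M / κ + Cn / e + 1 ≤ Bt τ A := by
    refine le_trans ?_ h1
    nlinarith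
  have hB0 : (B0 : ℝ) ≤ Bt τ A := by linarith
  have hMB : M / κ ≤ Bt τ A := by
    have : (0 : ℝ) ≤ B0 := Nat.cast_nonneg _
    linarith
  refine ⟨hA1, by exact_mod_cast hB0, hB1, hl0, hl1, ?_, ?_, h3⟩
  · rw [div_le_iff₀ hκ] at hMB
    have h4 : (Bt τ A : ℝ) ≤ (Bt τ A : ℝ) ^ 2 := by nlinarith
    calc M ≤ Bt τ A * κ := hMB
      _ ≤ (Bt τ A : ℝ) ^ 2 * κ := by gcongr
      _ = κ * 1 * (Bt τ A : ℝ) ^ 2 := by ring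
      _ ≤ κ * A * (Bt τ A : ℝ) ^ 2 := by gcongr
  · have h5 : 0 ≤ lmt τ A ^ 4 * Bt τ A := by positivity
    have h6 : Cn / e * (lmt τ A ^ 4 * Bt τ A) ≤ 1 := by
      refine le_trans ?_ h2
      apply mul_le_mul_of_nonneg_right _ h5
      have : (0 : ℝ) ≤ B0 := Nat.cast_nonneg _
      linarith
    have h7 : Cn * (lmt τ A ^ 4 * Bt τ A) ≤ e := by
      have h8 : Cn / e * (lmt τ A ^ 4 * Bt τ A) = Cn * (lmt τ A ^ 4 * Bt τ A) / e := by ring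
      rw [h8, div_le_one he] at h6
      exact h6
    calc Cn * lmt τ A ^ 4 * (Bt τ A : ℝ) ^ 6 =
          (Cn * (lmt τ A ^ 4 * Bt τ A)) * (Bt τ A : ℝ) ^ 5 := by ring
      _ ≤ e * (Bt τ A : ℝ) ^ 5 := by gcongr

open scoped Classical in
theorem cor2 (c1 η δ τ : ℝ) (hc : 0 < c1) (hη : 0 < η) (hδ : 0 < δ) (hτ : 0 < τ)
    (hτ' : τ ≤ 1 / 1000) : ∃ N0 : ℕ, ∀ N ≥ N0, ∃ A0 : ℕ, ∀ A ≥ A0,
    (((bf 5 A ×ˢ bf 5 A).filter fun q =>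
      c1 * ((N.factorial : ℕ) : ℝ) ^ 3 ≤ ((LS q.1 q.2 N.factorial).card : ℝ) ∧
      (∃ x : Fin 5 → ℝ, RZ η A (fun p => (q.1 p : ℝ)) (fun p => (q.2 p : ℝ)) x) ∧
      ¬ IZ q.1 q.2 ((A : ℝ) ^ (2 + τ))).card : ℝ) ≤ δ * (2 * A + 1) ^ 30 := by
  obtain ⟨c, κ0, hc0, hκ0, hcub⟩ := cub2 η hη
  obtain ⟨C, hC, hvsm⟩ := vsm τ hτ hτ'
  obtain ⟨Cn, hCn, hnsp⟩ := nsp
  -- the constants
  obtain ⟨ε, hε, hε1, hεδ⟩ : ∃ ε : ℝ, 0 < ε ∧ ε ≤ 1 ∧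
      1296 * C * ε ≤ δ * (c ^ 12 * c1 ^ 2) := by
    refine ⟨min 1 (δ * (c ^ 12 * c1 ^ 2) / (1296 * C)), lt_min one_pos (by positivity),
      min_le_left _ _, ?_⟩
    calc 1296 * C * min 1 (δ * (c ^ 12 * c1 ^ 2) / (1296 * C))
        ≤ 1296 * C * (δ * (c ^ 12 * c1 ^ 2) / (1296 * C)) := by
          apply mul_le_mul_of_nonneg_left (min_le_right _ _) (by positivity)
      _ = δ * (c ^ 12 * c1 ^ 2) := by
          field_simp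
  obtain ⟨κ, hκ, hκ1, hκ2⟩ : ∃ κ : ℝ, 0 < κ ∧ κ ≤ κ0 ∧ κ ≤ ε ^ 2 :=
    ⟨min κ0 (ε ^ 2), lt_min hκ0 (by positivity), min_le_left _ _, min_le_right _ _⟩
  refine ⟨max 4 ⌈32 / ε⌉₊, fun N hN => ?_⟩
  have hN4 : 4 ≤ N := (le_max_left _ _).trans hN
  have hNε : 32 / ε ≤ N := by
    have h1 : ⌈32 / ε⌉₊ ≤ N := (le_max_right _ _).trans hN
    exact (Nat.le_ceil _).trans (by exact_mod_cast h1)
  obtain ⟨B0, hlow⟩ := low2 c κ hc0 hκ N hN4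
  obtain ⟨Av, hv⟩ := hvsm ε hε hε1 κ hκ hκ2 N hNε
  obtain ⟨M, hM⟩ : ∃ M : ℕ, M = N.factorial := ⟨_, rfl⟩
  rw [← hM] at hlow hv ⊢
  have hM1 : 1 ≤ M := by
    rw [hM]
    exact Nat.factorial_pos N
  have hMr : (1 : ℝ) ≤ M := by exact_mod_cast hM1
  have hMpos : (0 : ℝ) < M := by linarith
  obtain ⟨e, he⟩ : ∃ e : ℝ, e = c ^ 6 * c1 * κ ^ 2 / (4 * M ^ 2) := ⟨_, rfl⟩
  have hepos : 0 < e := by
    rw [he]
    positivity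
  obtain ⟨Ap, hp⟩ := cor_par τ hτ hτ' B0 κ M Cn e hκ hMr hCn hepos
  refine ⟨max Av Ap, fun A hA => ?_⟩
  have hv' := hv A ((le_max_left _ _).trans hA)
  obtain ⟨hA1, hBB0, hB1, hl0, hl1, hTM, hbad, hBA⟩ := hp A ((le_max_right _ _).trans hA)
  clear hv hp
  obtain ⟨B, hB⟩ : ∃ B : ℕ, B = Bt τ A := ⟨_, rfl⟩
  obtain ⟨lam, hlam⟩ : ∃ lam : ℝ, lam = lmt τ A := ⟨_, rfl⟩
  have hXT : XT τ A = XS lam B := by
    rw [hB, hlam]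
    rfl
  rw [← hB] at hBB0 hB1 hTM hbad hBA hv'
  rw [← hlam] at hl0 hl1 hbad
  rw [hXT] at hv'
  have hAr : (1 : ℝ) ≤ A := by exact_mod_cast hA1
  have hApos : (0 : ℝ) < A := by linarith
  have hBr : (1 : ℝ) ≤ B := by exact_mod_cast hB1
  have hBpos : (0 : ℝ) < B := by linarith
  obtain ⟨T, hT⟩ : ∃ T : ℝ, T = κ * A * (B : ℝ) ^ 2 := ⟨_, rfl⟩
  rw [← hT] at hTM hv'
  have hTpos : 0 < T := by linarith
  obtain ⟨N1, hN1⟩ : ∃ N1 : ℕ, N1 = ⌊T / M⌋₊ := ⟨_, rfl⟩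
  have hTM' : 1 ≤ T / M := by
    rw [le_div_iff₀ hMpos]
    linarith
  have hTlt : T < (N1 + 1) * M := by
    have h1 := Nat.lt_floor_add_one (T / M)
    rw [div_lt_iff₀ hMpos, ← hN1] at h1
    exact h1
  have hN1T : (N1 : ℝ) ≤ T / M := by
    rw [hN1]
    exact Nat.floor_le (by positivity)
  obtain ⟨Y, hY⟩ : ∃ Y : Finset ((Idx 5 → ℤ) × (Idx 5 → ℤ)),
      Y = (bf 5 A ×ˢ bf 5 A).filter fun q =>
        c1 * ((M : ℕ) : ℝ) ^ 3 ≤ ((LS q.1 q.2 M).card : ℝ) ∧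
        (∃ x : Fin 5 → ℝ, RZ η A (fun p => (q.1 p : ℝ)) (fun p => (q.2 p : ℝ)) x) ∧
        ¬ IZ q.1 q.2 ((A : ℝ) ^ (2 + τ)) := ⟨_, rfl⟩
  rw [← hY]
  obtain ⟨E, hE⟩ : ∃ E : ℝ, E = e * (B : ℝ) ^ 5 := ⟨_, rfl⟩
  have hEpos : 0 < E := by
    rw [hE]
    positivity
  have h0 : ∀ q ∈ Y, rr (XS lam B) q.1 q.2 0 0 = 0 := by
    intro q hq
    rw [hY, mem_filter] at hq
    obtain ⟨-, -, -, hno⟩ := hq
    unfold rr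
    rw [card_eq_zero, filter_eq_empty_iff]
    intro x hx hgx
    have hbd := (xs_bd hx).1
    refine hno ⟨x, ?_, hgx.1, hgx.2, fun i => (hbd i).trans hBA⟩
    intro hx0
    have h1 := (mem_XS.1 hx).1.lo
    rw [hx0] at h1
    simp only [Pi.zero_apply] at h1
    have : (0 : ℤ) ≤ B := Int.natCast_nonneg B
    omega
  have h1 : ∀ q ∈ Y, E ≤ ∑ p ∈ Icc (-(N1 : ℤ)) N1 ×ˢ Icc (-(N1 : ℤ)) N1,
      (rr (XS lam B) q.1 q.2 (p.1 * M) (p.2 * M) : ℝ) := by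
    intro q hq
    rw [hY, mem_filter] at hq
    obtain ⟨hqb, hLS, ⟨x, hx⟩, -⟩ := hq
    rw [mem_product] at hqb
    have hbf : ∀ f ∈ bf 5 A, ∀ p, |((f p : ℤ) : ℝ)| ≤ A := by
      intro f hf p
      unfold bf at hf
      rw [Fintype.mem_piFinset] at hf
      have h2 := mem_Icc.1 (hf p)
      have h3 : |f p| ≤ (A : ℤ) := abs_le.2 ⟨h2.1, h2.2⟩
      exact_mod_cast h3
    obtain ⟨S, hS1, hS2⟩ := hcub κ hκ hκ1 (fun p => (q.1 p : ℝ)) (fun p => (q.2 p : ℝ)) A hApos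
      (hbf q.1 hqb.1) (hbf q.2 hqb.2) x hx
    have h2 := hlow B hBB0 A q.1 q.2 S hS2
    rw [← hT] at h2
    have h3 := hnsp B lam hl0 hl1
    have h4 : ((X0 B).filter fun x => (M : ℤ) ∣ qv q.1 x ∧ (M : ℤ) ∣ qv q.2 x ∧
        |((qv q.1 x : ℤ) : ℝ)| ≤ T ∧ |((qv q.2 x : ℤ) : ℝ)| ≤ T).card ≤
        ((XS lam B).filter fun x => (M : ℤ) ∣ qv q.1 x ∧ (M : ℤ) ∣ qv q.2 x ∧
          |((qv q.1 x : ℤ) : ℝ)| ≤ T ∧ |((qv q.2 x : ℤ) : ℝ)| ≤ T).card +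
          ((X0 B).filter fun x => ¬ Sep lam x).card := by
      refine (card_le_card ?_).trans (card_union_le _ _)
      intro y hy
      rw [mem_filter] at hy
      rw [mem_union, mem_filter, mem_filter]
      by_cases hs : Sep lam y
      · left
        exact ⟨mem_XS.2 ⟨mem_X0.1 hy.1, hs⟩, hy.2⟩
      · right
        exact ⟨hy.1, hs⟩
    have h5 := cor_sumr (XS lam B) q.1 q.2 M N1 T (by omega) hTlt
    have h4' : (((X0 B).filter fun x => (M : ℤ) ∣ qv q.1 x ∧ (M : ℤ) ∣ qv q.2 x ∧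
        |((qv q.1 x : ℤ) : ℝ)| ≤ T ∧ |((qv q.2 x : ℤ) : ℝ)| ≤ T).card : ℝ) ≤
        (((XS lam B).filter fun x => (M : ℤ) ∣ qv q.1 x ∧ (M : ℤ) ∣ qv q.2 x ∧
          |((qv q.1 x : ℤ) : ℝ)| ≤ T ∧ |((qv q.2 x : ℤ) : ℝ)| ≤ T).card : ℝ) +
          (((X0 B).filter fun x => ¬ Sep lam x).card : ℝ) := by
      exact_mod_cast h4
    have h5' : (((XS lam B).filter fun x => (M : ℤ) ∣ qv q.1 x ∧ (M : ℤ) ∣ qv q.2 x ∧
          |((qv q.1 x : ℤ) : ℝ)| ≤ T ∧ |((qv q.2 x : ℤ) : ℝ)| ≤ T).card : ℝ) ≤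
        ∑ p ∈ Icc (-(N1 : ℤ)) N1 ×ˢ Icc (-(N1 : ℤ)) N1,
          (rr (XS lam B) q.1 q.2 (p.1 * M) (p.2 * M) : ℝ) := by
      exact_mod_cast h5
    have h6 : 2 * E ≤ (S.card : ℝ) * (LS q.1 q.2 M).card * (B * (c * κ) / M) ^ 5 / 2 := by
      have h7 : c / κ ^ 3 ≤ (S.card : ℝ) := by
        rw [div_le_iff₀ (by positivity)]
        exact hS1
      calc 2 * E = (c / κ ^ 3) * (c1 * (M : ℝ) ^ 3) * (B * (c * κ) / M) ^ 5 / 2 := by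
            rw [hE, he]
            field_simp
            norm_num
        _ ≤ _ := by gcongr
    have h7 : (((X0 B).filter fun x => ¬ Sep lam x).card : ℝ) ≤ E := by
      rw [hE]
      exact h3.trans hbad
    linarith
  obtain ⟨V, hV⟩ : ∃ V : ℝ, V = C * ε * (A : ℝ) ^ 26 * (B : ℝ) ^ 2 := ⟨_, rfl⟩
  rw [← hV] at hv'
  have hVb : ∀ p ∈ Icc (-(N1 : ℤ)) N1 ×ˢ Icc (-(N1 : ℤ)) N1,
      ∑ f ∈ bf 5 A, ∑ g ∈ bf 5 A,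
        ((rr (XS lam B) f g 0 0 : ℝ) - rr (XS lam B) f g (p.1 * M) (p.2 * M)) ^ 2 ≤ V := by
    have hj : ∀ j ∈ Icc (-(N1 : ℤ)) N1, |((j * (M : ℤ) : ℤ) : ℝ)| ≤ T := by
      intro j hj
      rw [mem_Icc] at hj
      have h2 : |j| ≤ (N1 : ℤ) := abs_le.2 hj
      have h3 : |(j : ℝ)| ≤ N1 := by exact_mod_cast h2
      push_cast
      rw [abs_mul, abs_of_pos hMpos]
      calc |(j : ℝ)| * M ≤ T / M * M := by
            have := h3.trans hN1T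
            gcongr
        _ = T := by field_simp
    intro p hp
    rw [mem_product] at hp
    exact hv' (p.1 * M) (p.2 * M) (Dvd.intro_left _ rfl) (Dvd.intro_left _ rfl)
      (hj _ hp.1) (hj _ hp.2)
  have hcnt := cor_cnt (XS lam B) A M N1 E V hEpos.le Y (by rw [hY]; exact filter_subset _ _)
    h0 h1 hVb
  have h2N : (2 * (N1 : ℝ) + 1) ≤ 3 * (T / M) := by linarith
  have hV0 : 0 ≤ V := by
    rw [hV]
    positivity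
  have hfin : (Y.card : ℝ) * E ^ 2 ≤ (3 * (T / M)) ^ 4 * V := by
    refine hcnt.trans ?_
    gcongr
  have e4 : (3 * (T / M)) ^ 4 * V ≤ δ * (A : ℝ) ^ 30 * E ^ 2 := by
    have e5 : (3 * (T / M)) ^ 4 * V =
        (1296 * C * ε) * ((A : ℝ) ^ 30 * (κ ^ 4 * B ^ 10 / (16 * M ^ 4))) := by
      rw [hV, hT]
      field_simp
      ring
    have e6 : δ * (A : ℝ) ^ 30 * E ^ 2 =
        (δ * (c ^ 12 * c1 ^ 2)) * ((A : ℝ) ^ 30 * (κ ^ 4 * B ^ 10 / (16 * M ^ 4))) := by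
      rw [hE, he]
      field_simp
      ring
    rw [e5, e6]
    exact mul_le_mul_of_nonneg_right hεδ (by positivity)
  have h8 : (Y.card : ℝ) ≤ δ * (A : ℝ) ^ 30 :=
    le_of_mul_le_mul_right (hfin.trans e4) (by positivity)
  refine h8.trans (mul_le_mul_of_nonneg_left ?_ hδ.le)
  refine pow_le_pow_left₀ hApos.le ?_ 30
  linarith

end Pool.Agent.H7.PQ
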