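import Pool.Agent.H7.HP.Frm

set_option autoImplicit false
set_option linter.unusedSectionVars false

/-!
# Both quadrics random: definitions

Quadratic forms are given by coefficients as in `Pool.Agent.H7.HP.Defs` (`Idx`, `qv`, `pl`, `lm`, `bx`, `bf`, `Prim`, `Good`, `Sep`, `gk`, `dl`, `mn`).
-/

namespace Pool.Agent.H7.PQ

open Finset Pool.Agent.H7.HP

/-- primitive integer vectors with `B < x1 ≤ 2B` and `|x_i| ≤ 2 x1` -/
structure IsP (B : ℕ) (x : Fin 5 → ℤ) : Prop where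
  prim : Prim x
  lo : (B : ℤ) < x 1
  hi : x 1 ≤ 2 * B
  bd : ∀ i, |x i| ≤ 2 * x 1

open scoped Classical in
/-- the finite set of these vectors -/
noncomputable def X0 (B : ℕ) : Finset (Fin 5 → ℤ) := (bx 5 (4 * B)).filter (IsP B)

open scoped Classical in
/-- the separated ones -/
noncomputable def XS (lam : ℝ) (B : ℕ) : Finset (Fin 5 → ℤ) := (X0 B).filter (Sep lam)

open scoped Classical in
/-- number of points of `X` at which `f`, `g` have the values `J`, `J'` -/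
noncomputable def rr (X : Finset (Fin 5 → ℤ)) (f g : Idx 5 → ℤ) (J J' : ℤ) : ℕ :=
  (X.filter fun x => qv f x = J ∧ qv g x = J').card

/-- round pairs: real forms with integral values at `x`, `y` can be rounded up to `rho` -/
def Rd (rho : ℝ) (x y : Fin 5 → ℤ) : Prop := ∀ (w : Idx 5 → ℝ) (v0 : Idx 5 → ℤ),
  qv w (fun i => (x i : ℝ)) = (qv v0 x : ℤ) → qv w (fun i => (y i : ℝ)) = (qv v0 y : ℤ) →
    ∃ v : Idx 5 → ℤ, qv v x = qv v0 x ∧ qv v y = qv v0 y ∧ ∀ p, |w p - v p| ≤ rho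

/-- there is an integral functional on the quadratic forms which on the real forms vanishing at
`x` and `y` agrees with the scalar product with a small nonzero form `u` vanishing at `x` and `y` -/
def Bd (μ : ℝ) (x y : Fin 5 → ℤ) : Prop := ∃ (J : Idx 5 → ℤ) (u : Idx 5 → ℝ), u ≠ 0 ∧
  qv u (fun i => (x i : ℝ)) = 0 ∧ qv u (fun i => (y i : ℝ)) = 0 ∧ (∀ p, |u p| ≤ μ) ∧
    ∀ h : Idx 5 → ℝ, qv h (fun i => (x i : ℝ)) = 0 → qv h (fun i => (y i : ℝ)) = 0 →
      ∑ p, (J p : ℝ) * h p = ∑ p, u p * h p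

/-- the standard scalar product -/
def sp {R : Type*} [CommRing R] (x y : Fin 5 → R) : R := ∑ i, x i * y i

/-- the symmetric matrix of a functional on quadratic forms, applied to a vector -/
def mj {R : Type*} [CommRing R] (J : Idx 5 → R) (l : Fin 5 → R) : Fin 5 → R := fun i =>
  ∑ j, (if h : i ≤ j then J ⟨(i, j), h⟩ else J ⟨(j, i), (not_le.1 h).le⟩) * l j

/-- the elimination polynomial of the key lemma -/
def tt (y : Fin 5 → ℤ) (v l : Fin 4 → Fin 5 → ℤ) (a b c : Fin 4) : ℤ :=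
  sp (l a) y * (sp (l b) (v c) - sp (l c) (v b)) - sp (l b) y * (sp (l a) (v c) - sp (l c) (v a)) +
    sp (l c) y * (sp (l a) (v b) - sp (l b) (v a))

section Ring

variable {R : Type*} [CommRing R]

/-- minors of the Jacobian matrix of `f`, `g` at `x` -/
def jm (f g : Idx 5 → R) (x : Fin 5 → R) (i j : Fin 5) : R :=
  pl f x (Pi.single i 1) * pl g x (Pi.single j 1) - pl f x (Pi.single j 1) * pl g x (Pi.single i 1)

/-- unimodular vectors -/
def Um (x : Fin 5 → R) : Prop := ∃ m : Fin 5 → R, ∑ i, m i * x i = 1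

end Ring

open scoped Classical in
/-- common zeros of `f` and `g` modulo `M`, primitive at the primes of `M` -/
noncomputable def LS (f g : Idx 5 → ℤ) (M : ℕ) : Finset (Fin 5 → ℤ) :=
  (Fintype.piFinset fun _ => Ico (0 : ℤ) M).filter fun a => (M : ℤ) ∣ qv f a ∧ (M : ℤ) ∣ qv g a ∧
    ∀ p : ℕ, p.Prime → p ∣ M → ¬ ∀ i, (p : ℤ) ∣ a i

/-- `f = g = 0` has a nontrivial solution with coordinates in the ring `R` -/
def HZ (R : Type) [CommRing R] (f g : Idx 5 → ℤ) : Prop :=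
  ∃ x : Fin 5 → R, x ≠ 0 ∧ qv (fun p => (f p : R)) x = 0 ∧ qv (fun p => (g p : R)) x = 0

/-- `f = g = 0` has nontrivial solutions over `ℝ` and all `ℚ_p` -/
def EL (f g : Idx 5 → ℤ) : Prop := HZ ℝ f g ∧ ∀ (p : ℕ) [Fact p.Prime], HZ ℚ_[p] f g

/-- `f = g = 0` has a nontrivial integral solution `x` with `|x_i| ≤ H` for all `i` -/
def IZ (f g : Idx 5 → ℤ) (H : ℝ) : Prop :=
  ∃ x : Fin 5 → ℤ, x ≠ 0 ∧ qv f x = 0 ∧ qv g x = 0 ∧ ∀ i, |(x i : ℝ)| ≤ H

/-- a real zero of `f`, `g` in the chart `x1 = 1`, not degenerate -/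
def RZ (η A : ℝ) (f g : Idx 5 → ℝ) (x : Fin 5 → ℝ) : Prop :=
  x 1 = 1 ∧ (∀ i, |x i| ≤ 1) ∧ qv f x = 0 ∧ qv g x = 0 ∧
    ∃ i j, i ≠ 1 ∧ j ≠ 1 ∧ η * A ^ 2 ≤ |jm f g x i j|

end Pool.Agent.H7.PQ
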