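import Pool.Agent.H7.PQ.Uwr

set_option autoImplicit false

/-!
# [H7 PQ DGF] almost degenerate pairs at a fixed point, 120-180 lines

`x 1 = 1`, `|x i| ≤ 1`. Let `P` be the five indices `(i, j)` of `Idx 5` with `i = 1` or `j = 1`: `q0 = (1,1)` and for `j ≠ 1` the index `q j` = the pair `{1, j}` (sorted). The other 10 indices are called rest. For fixed rest coefficients of `f`:
`pl f x e_j = f_(q j) + c_j` for `j ≠ 1` (`x 1 = 1`; `c_j` depends only on the rest coefficients, `|c_j| ≤ 2A + 3A`), `qv f x = f_(q0) + (a number which depends only on the other 14 coefficients)`. The same for `g` with `d_j`.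
So: for fixed rest coefficients of `f` and `g` (at most `(2A+1)^20` choices) the number of `(f_(q j))_j, (g_(q j))_j` such that all `|jm f g x i j| ≤ K η A^2`, `i, j ≠ 1`, is at most `C η^3 (2A+1)^8` (`uwr`, the four indices `≠ 1` enumerated by `Fin 4`, e.g. `Fin.succAbove 1`), and then `f_(q0)`, `g_(q0)` lie in intervals of length
`2 K η A`: at most `2 K η A + 1 ≤ 3 K η A` integers each. Total `≤ C' η^5 (2A+1)^30`.
(`HP/Degr.lean` has the analogous count for one form; its private lemmas on sums after the change of one coordinate may be copied.)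
Formal suggestion: an injection of the pairs `(f, g)` into `(rest f, rest g) × ((f_(q j)), (g_(q j))) × (f_(q0), g_(q0))`; or write `bf 5 A` as image of products; or sum over `f`, `g` by `Finset.card_eq_sum_card_fiberwise` twice.
-/

namespace Pool.Agent.H7.PQ

open Finset Pool.Agent.H7.HP

private theorem dgf_icc (a b : ℝ) (h : a ≤ b) :
    ((Finset.Icc ⌈a⌉ ⌊b⌋).card : ℝ) ≤ b - a + 1 := by
  rw [Int.card_Icc]
  rcases le_total (⌊b⌋ + 1 - ⌈a⌉) 0 with h1 | h1
  · rw [Int.toNat_of_nonpos h1, Nat.cast_zero]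
    linarith
  · have h3 : (((⌊b⌋ + 1 - ⌈a⌉).toNat : ℕ) : ℝ) = ((⌊b⌋ + 1 - ⌈a⌉ : ℤ) : ℝ) := by
      rw [← Int.toNat_of_nonneg h1]
      norm_cast
    rw [h3]
    push_cast
    linarith [Int.floor_le b, Int.le_ceil a]

private theorem dgf_fib {α β : Type*} [DecidableEq β] (S : Finset α) (f : α → β) (T : Finset β)
    (hT : ∀ a ∈ S, f a ∈ T) (B : ℝ)
    (hB : ∀ b ∈ T, ((S.filter fun a => f a = b).card : ℝ) ≤ B) :
    (S.card : ℝ) ≤ B * T.card := by
  rw [card_eq_sum_card_fiberwise (f := f) (s := S) (t := T) (fun a ha => hT a ha)]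
  push_cast
  refine (sum_le_sum hB).trans ?_
  rw [sum_const, nsmul_eq_mul, mul_comm]

/-- the coefficients which do not belong to the coordinate `1` -/
private def rst (f : Idx 5 → ℤ) : Idx 5 → ℤ := fun p =>
  if p.1.1 = 1 ∨ p.1.2 = 1 then 0 else f p

private def qj : Fin 4 → Idx 5 :=
  ![⟨(0, 1), by decide⟩, ⟨(1, 2), by decide⟩, ⟨(1, 3), by decide⟩, ⟨(1, 4), by decide⟩]

private def q0 : Idx 5 := ⟨(1, 1), le_refl _⟩

private def jj : Fin 4 → Fin 5 := ![0, 2, 3, 4]

private theorem key1 : ∀ (i : Fin 4) (p : Idx 5), (p.1.1 = 1 ∨ p.1.2 = 1) → p ≠ qj i →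
    p.1.2 ≠ jj i ∧ p.1.1 ≠ jj i := by decide

private theorem key2 : ∀ p : Idx 5, (p.1.1 = 1 ∨ p.1.2 = 1) → p ≠ q0 → ∃ i : Fin 4, p = qj i := by
  decide

private theorem key3 : ∀ i : Fin 4, jj i ≠ 1 := by decide

private theorem pl_rst (f : Idx 5 → ℤ) (x : Fin 5 → ℝ) (hx : x 1 = 1) (i : Fin 4) :
    pl (fun p => (f p : ℝ)) x (Pi.single (jj i) 1) =
      (f (qj i) : ℝ) + pl (fun p => ((rst f p : ℤ) : ℝ)) x (Pi.single (jj i) 1) := by
  unfold pl
  rw [← sub_eq_iff_eq_add, ← Finset.sum_sub_distrib, Finset.sum_eq_single (qj i)]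
  · fin_cases i <;> simp [rst, qj, jj, hx]
  · intro p _ hp
    by_cases h : p.1.1 = 1 ∨ p.1.2 = 1
    · obtain ⟨h1, h2⟩ := key1 i p h hp
      rw [Pi.single_eq_of_ne h1, Pi.single_eq_of_ne h2]
      ring
    · have h1 : rst f p = f p := if_neg h
      beta_reduce
      rw [h1]
      ring
  · intro h
    exact absurd (Finset.mem_univ _) h

private theorem qv_q0 (f g : Idx 5 → ℤ) (x : Fin 5 → ℝ) (hx : x 1 = 1)
    (h : ∀ p, p ≠ q0 → f p = g p) :
    qv (fun p => (f p : ℝ)) x - f q0 = qv (fun p => (g p : ℝ)) x - g q0 := by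
  have h1 : qv (fun p => (f p : ℝ)) x - qv (fun p => (g p : ℝ)) x = (f q0 : ℝ) - g q0 := by
    unfold qv
    rw [← Finset.sum_sub_distrib, Finset.sum_eq_single q0]
    · simp [q0, hx]
    · intro p _ hp
      beta_reduce
      rw [h p hp]
      ring
    · intro h
      exact absurd (Finset.mem_univ _) h
  linarith

private theorem card_rst (A : ℕ) :
    ((Fintype.piFinset fun p : Idx 5 =>
      if p.1.1 = 1 ∨ p.1.2 = 1 then ({0} : Finset ℤ) else Icc (-(A : ℤ)) A).card) =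
      (2 * A + 1) ^ 10 := by
  rw [Fintype.card_piFinset]
  have h7 : ∀ p : Idx 5, (if p.1.1 = 1 ∨ p.1.2 = 1 then ({0} : Finset ℤ)
      else Icc (-(A : ℤ)) A).card = if p.1.1 = 1 ∨ p.1.2 = 1 then 1 else 2 * A + 1 := by
    intro p
    split_ifs
    · exact Finset.card_singleton _
    · rw [Int.card_Icc]
      omega
  simp_rw [h7]
  rw [Finset.prod_ite, Finset.prod_const_one, one_mul, Finset.prod_const]
  congr 1

private theorem rst_mem {A : ℕ} {f : Idx 5 → ℤ} (hf : f ∈ bf 5 A) :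
    rst f ∈ (Fintype.piFinset fun p : Idx 5 =>
      if p.1.1 = 1 ∨ p.1.2 = 1 then ({0} : Finset ℤ) else Icc (-(A : ℤ)) A) := by
  unfold bf at hf
  rw [Fintype.mem_piFinset] at hf ⊢
  intro p
  unfold rst
  split_ifs with h
  · exact Finset.mem_singleton_self _
  · exact hf p

private theorem abs_pl (r : Idx 5 → ℤ) (A : ℝ) (hr : ∀ p, |(r p : ℝ)| ≤ A) (x : Fin 5 → ℝ)
    (hx : ∀ i, |x i| ≤ 1) (j : Fin 5) :
    |pl (fun p => (r p : ℝ)) x (Pi.single j 1)| ≤ 30 * A := by
  have hA : 0 ≤ A := (abs_nonneg _).trans (hr q0)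
  have he : ∀ i : Fin 5, |(Pi.single j 1 : Fin 5 → ℝ) i| ≤ 1 := by
    intro i
    by_cases h : i = j
    · subst h
      rw [Pi.single_eq_same]
      norm_num
    · rw [Pi.single_eq_of_ne h]
      norm_num
  unfold pl
  refine (Finset.abs_sum_le_sum_abs _ _).trans ?_
  have h1 : ∀ p : Idx 5, |(r p : ℝ) * (x p.1.1 * (Pi.single j 1 : Fin 5 → ℝ) p.1.2 +
      x p.1.2 * (Pi.single j 1 : Fin 5 → ℝ) p.1.1)| ≤ A * 2 := by
    intro p
    rw [abs_mul]
    refine mul_le_mul (hr p) ?_ (abs_nonneg _) hA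
    refine (abs_add_le _ _).trans ?_
    rw [abs_mul, abs_mul]
    have a1 := mul_le_mul (hx p.1.1) (he p.1.2) (abs_nonneg _) zero_le_one
    have a2 := mul_le_mul (hx p.1.2) (he p.1.1) (abs_nonneg _) zero_le_one
    linarith
  refine (Finset.sum_le_sum fun p _ => h1 p).trans ?_
  rw [Finset.sum_const, nsmul_eq_mul]
  have h2 : (Finset.univ : Finset (Idx 5)).card = 15 := by decide
  rw [h2]
  push_cast
  linarith

open scoped Classical in
theorem dgf (K : ℝ) (hK : 1 ≤ K) : ∃ C : ℝ, 0 < C ∧ ∀ (η : ℝ) (A : ℕ), 0 < η → η ≤ 1 →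
    1 ≤ η * A → ∀ x : Fin 5 → ℝ, x 1 = 1 → (∀ i, |x i| ≤ 1) →
      (((bf 5 A ×ˢ bf 5 A).filter fun q =>
        |qv (fun p => (q.1 p : ℝ)) x| ≤ K * η * A ∧ |qv (fun p => (q.2 p : ℝ)) x| ≤ K * η * A ∧
        ∀ i j, i ≠ 1 → j ≠ 1 → |jm (fun p => (q.1 p : ℝ)) (fun p => (q.2 p : ℝ)) x i j| ≤
          K * η * A ^ 2).card : ℝ) ≤ C * η ^ 5 * (2 * A + 1) ^ 30 := by
  obtain ⟨C1, hC1, huwr⟩ := uwr (K + 30) (by linarith)
  refine ⟨9 * K ^ 2 * C1, by positivity, ?_⟩
  intro η A hη hη1 hηA x hx hxb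
  have hA0 : (0 : ℝ) ≤ A := Nat.cast_nonneg A
  obtain ⟨T, hT⟩ : ∃ T, T = (Fintype.piFinset fun p : Idx 5 =>
      if p.1.1 = 1 ∨ p.1.2 = 1 then ({0} : Finset ℤ) else Icc (-(A : ℤ)) A) := ⟨_, rfl⟩
  have hTc : (T.card : ℝ) = (2 * A + 1) ^ 10 := by
    rw [hT, card_rst]
    push_cast
    rfl
  have hTA : ∀ r ∈ T, ∀ p, |(r p : ℝ)| ≤ A := by
    intro r hr p
    rw [hT, Fintype.mem_piFinset] at hr
    have h1 := hr p
    split_ifs at h1 with h
    · rw [Finset.mem_singleton] at h1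
      rw [h1]
      simp
    · rw [Finset.mem_Icc] at h1
      rw [abs_le]
      constructor
      · have h2 : ((-(A : ℤ) : ℤ) : ℝ) ≤ r p := by exact_mod_cast h1.1
        push_cast at h2
        exact h2
      · exact_mod_cast h1.2
  obtain ⟨B, hB⟩ : ∃ B : ℝ, B = K * η * A := ⟨_, rfl⟩
  have hB0 : 0 ≤ B := by rw [hB]; positivity
  obtain ⟨S, hS⟩ : ∃ S, S = ((bf 5 A ×ˢ bf 5 A).filter fun q =>
        |qv (fun p => (q.1 p : ℝ)) x| ≤ K * η * A ∧ |qv (fun p => (q.2 p : ℝ)) x| ≤ K * η * A ∧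
        ∀ i j, i ≠ 1 → j ≠ 1 → |jm (fun p => (q.1 p : ℝ)) (fun p => (q.2 p : ℝ)) x i j| ≤
          K * η * A ^ 2) := ⟨_, rfl⟩
  rw [← hS]
  have hSm : ∀ q ∈ S, q.1 ∈ bf 5 A ∧ q.2 ∈ bf 5 A ∧ |qv (fun p => (q.1 p : ℝ)) x| ≤ B ∧
      |qv (fun p => (q.2 p : ℝ)) x| ≤ B ∧
      ∀ i j, i ≠ 1 → j ≠ 1 → |jm (fun p => (q.1 p : ℝ)) (fun p => (q.2 p : ℝ)) x i j| ≤
          K * η * A ^ 2 := by
    intro q hq
    rw [hS, Finset.mem_filter, Finset.mem_product] at hq
    rw [hB]
    exact ⟨hq.1.1, hq.1.2, hq.2.1, hq.2.2.1, hq.2.2.2⟩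
  -- first fibration
  have hmain : (S.card : ℝ) ≤ ((2 * B + 1) ^ 2 * (C1 * η ^ 3 * (2 * A + 1) ^ 8)) *
      ((T ×ˢ T).card : ℝ) := by
    refine dgf_fib S (fun q => (rst q.1, rst q.2)) (T ×ˢ T) ?_ _ ?_
    · intro q hq
      obtain ⟨h1, h2, -⟩ := hSm q hq
      rw [hT]
      exact Finset.mem_product.mpr ⟨rst_mem h1, rst_mem h2⟩
    · rintro ⟨r, s⟩ hrs
      rw [Finset.mem_product] at hrs
      obtain ⟨F, hF⟩ : ∃ F, F = S.filter fun a => (rst a.1, rst a.2) = (r, s) := ⟨_, rfl⟩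
      have hFc : ((S.filter fun a => (fun q : (Idx 5 → ℤ) × (Idx 5 → ℤ) => (rst q.1, rst q.2)) a =
          (r, s)).card : ℝ) = F.card := by
        rw [hF]
      rw [hFc]
      have hFm : ∀ q ∈ F, q ∈ S ∧ rst q.1 = r ∧ rst q.2 = s := by
        intro q hq
        rw [hF, Finset.mem_filter, Prod.mk.injEq] at hq
        exact ⟨hq.1, hq.2.1, hq.2.2⟩
      obtain ⟨c, hc⟩ : ∃ c : Fin 4 → ℝ, c = fun i =>
        pl (fun p => ((r p : ℤ) : ℝ)) x (Pi.single (jj i) 1) := ⟨_, rfl⟩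
      obtain ⟨d, hd⟩ : ∃ d : Fin 4 → ℝ, d = fun i =>
        pl (fun p => ((s p : ℤ) : ℝ)) x (Pi.single (jj i) 1) := ⟨_, rfl⟩
      have hcb : ∀ i, |c i| ≤ (K + 30) * A := by
        intro i
        rw [hc]
        refine (abs_pl r A (hTA r hrs.1) x hxb (jj i)).trans ?_
        have : 0 ≤ K * (A : ℝ) := by positivity
        linarith
      have hU := huwr η A hη hη1 hηA c d hcb
      obtain ⟨U, hUd⟩ : ∃ U, U = ((Fintype.piFinset fun _ : Fin 4 => Icc (-(A : ℤ)) A) ×ˢ
        (Fintype.piFinset fun _ : Fin 4 => Icc (-(A : ℤ)) A)).filter fun q =>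
          ∀ i j, |((q.1 i : ℝ) + c i) * (q.2 j + d j) - (q.1 j + c j) * (q.2 i + d i)| ≤
            (K + 30) * η * A ^ 2 := ⟨_, rfl⟩
      rw [← hUd] at hU
      have hFU : (F.card : ℝ) ≤ (2 * B + 1) ^ 2 * (U.card : ℝ) := by
        refine dgf_fib F (fun q => ((fun i => q.1 (qj i), fun i => q.2 (qj i)) :
          (Fin 4 → ℤ) × (Fin 4 → ℤ))) U ?_ _ ?_
        · intro q hq
          obtain ⟨hqS, hq1, hq2⟩ := hFm q hq
          obtain ⟨h1, h2, -, -, h5⟩ := hSm q hqS
          unfold bf at h1 h2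
          rw [Fintype.mem_piFinset] at h1 h2
          rw [hUd, Finset.mem_filter, Finset.mem_product, Fintype.mem_piFinset,
            Fintype.mem_piFinset]
          refine ⟨⟨fun i => h1 _, fun i => h2 _⟩, fun i j => ?_⟩
          have h6 := h5 (jj i) (jj j) (key3 i) (key3 j)
          unfold jm at h6
          rw [pl_rst q.1 x hx i, pl_rst q.1 x hx j, pl_rst q.2 x hx i, pl_rst q.2 x hx j,
            hq1, hq2] at h6
          have h7 : K * η * (A : ℝ) ^ 2 ≤ (K + 30) * η * A ^ 2 := by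
            have : 0 ≤ η * (A : ℝ) ^ 2 := by positivity
            nlinarith
          rw [hc, hd]
          exact h6.trans h7
        · rintro u hu
          obtain ⟨G, hG⟩ : ∃ G, G = F.filter fun a =>
            ((fun i => a.1 (qj i), fun i => a.2 (qj i)) : (Fin 4 → ℤ) × (Fin 4 → ℤ)) = u :=
            ⟨_, rfl⟩
          have hGc : ((F.filter fun a => (fun q : (Idx 5 → ℤ) × (Idx 5 → ℤ) =>
              ((fun i => q.1 (qj i), fun i => q.2 (qj i)) : (Fin 4 → ℤ) × (Fin 4 → ℤ))) a =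
              u).card : ℝ) = G.card := by
            rw [hG]
          rw [hGc]
          rcases G.eq_empty_or_nonempty with hGe | ⟨z, hz⟩
          · rw [hGe, Finset.card_empty]
            push_cast
            positivity
          · have hGm : ∀ q ∈ G, q ∈ S ∧ rst q.1 = r ∧ rst q.2 = s ∧
                (fun i => q.1 (qj i)) = u.1 ∧ (fun i => q.2 (qj i)) = u.2 := by
              intro q hq
              rw [hG, Finset.mem_filter] at hq
              obtain ⟨h1, h2, h3⟩ := hFm q hq.1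
              exact ⟨h1, h2, h3, congrArg Prod.fst hq.2, congrArg Prod.snd hq.2⟩
            have agree : ∀ f g : Idx 5 → ℤ, rst f = rst g →
                ((fun i => f (qj i)) = fun i => g (qj i)) → ∀ p, p ≠ q0 → f p = g p := by
              intro f g h1 h2 p hp
              by_cases h : p.1.1 = 1 ∨ p.1.2 = 1
              · obtain ⟨i, rfl⟩ := key2 p h hp
                exact congrFun h2 i
              · have h3 := congrFun h1 p
                unfold rst at h3
                rwa [if_neg h, if_neg h] at h3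
            obtain ⟨hz1, hz2, hz3, hz4, hz5⟩ := hGm z hz
            have hag1 : ∀ q ∈ G, ∀ p, p ≠ q0 → q.1 p = z.1 p := by
              intro q hq
              obtain ⟨g1, g2, g3, g4, g5⟩ := hGm q hq
              exact agree q.1 z.1 (g2.trans hz2.symm) (g4.trans hz4.symm)
            have hag2 : ∀ q ∈ G, ∀ p, p ≠ q0 → q.2 p = z.2 p := by
              intro q hq
              obtain ⟨g1, g2, g3, g4, g5⟩ := hGm q hq
              exact agree q.2 z.2 (g3.trans hz3.symm) (g5.trans hz5.symm)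
            obtain ⟨e1, he1⟩ : ∃ e1 : ℝ, e1 = qv (fun p => (z.1 p : ℝ)) x - z.1 q0 := ⟨_, rfl⟩
            obtain ⟨e2, he2⟩ : ∃ e2 : ℝ, e2 = qv (fun p => (z.2 p : ℝ)) x - z.2 q0 := ⟨_, rfl⟩
            have hinj : G.card ≤ ((Icc ⌈-B - e1⌉ ⌊B - e1⌋) ×ˢ (Icc ⌈-B - e2⌉ ⌊B - e2⌋)).card := by
              refine Finset.card_le_card_of_injOn (fun q => (q.1 q0, q.2 q0)) ?_ ?_
              · intro q hq
                rw [Finset.mem_coe] at hq
                obtain ⟨g1, -⟩ := hGm q hq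
                obtain ⟨-, -, h3, h4, -⟩ := hSm q g1
                have k1 := qv_q0 q.1 z.1 x hx (hag1 q hq)
                have k2 := qv_q0 q.2 z.2 x hx (hag2 q hq)
                rw [abs_le] at h3 h4
                rw [Finset.mem_coe, Finset.mem_product, Finset.mem_Icc, Finset.mem_Icc,
                  Int.ceil_le, Int.le_floor, Int.ceil_le, Int.le_floor]
                refine ⟨⟨?_, ?_⟩, ⟨?_, ?_⟩⟩ <;> simp only <;> linarith [h3.1, h3.2, h4.1, h4.2]
              · intro q hq q' hq' he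
                rw [Finset.mem_coe] at hq hq'
                rw [Prod.mk.injEq] at he
                refine Prod.ext (funext fun p => ?_) (funext fun p => ?_)
                · by_cases hp : p = q0
                  · rw [hp]
                    exact he.1
                  · rw [hag1 q hq p hp, hag1 q' hq' p hp]
                · by_cases hp : p = q0
                  · rw [hp]
                    exact he.2
                  · rw [hag2 q hq p hp, hag2 q' hq' p hp]
            rw [Finset.card_product] at hinj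
            have i1 : ((Icc ⌈-B - e1⌉ ⌊B - e1⌋).card : ℝ) ≤ 2 * B + 1 :=
              (dgf_icc _ _ (by linarith)).trans (le_of_eq (by ring))
            have i2 : ((Icc ⌈-B - e2⌉ ⌊B - e2⌋).card : ℝ) ≤ 2 * B + 1 :=
              (dgf_icc _ _ (by linarith)).trans (le_of_eq (by ring))
            calc (G.card : ℝ) ≤ ((Icc ⌈-B - e1⌉ ⌊B - e1⌋).card : ℝ) *
                  ((Icc ⌈-B - e2⌉ ⌊B - e2⌋).card : ℝ) := by exact_mod_cast hinj
              _ ≤ (2 * B + 1) * (2 * B + 1) :=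
                  mul_le_mul i1 i2 (Nat.cast_nonneg _) (by positivity)
              _ = (2 * B + 1) ^ 2 := by ring
      refine hFU.trans ?_
      exact mul_le_mul_of_nonneg_left hU (by positivity)
  rw [Finset.card_product, Nat.cast_mul, hTc] at hmain
  have hB3 : 2 * B + 1 ≤ 3 * K * (η * A) := by
    rw [hB]
    nlinarith
  have hBn : 0 ≤ 2 * B + 1 := by positivity
  calc (S.card : ℝ) ≤ _ := hmain
    _ ≤ ((3 * K * (η * A)) ^ 2 * (C1 * η ^ 3 * (2 * A + 1) ^ 8)) *
        ((2 * (A : ℝ) + 1) ^ 10 * (2 * A + 1) ^ 10) := by gcongr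
    _ = 9 * K ^ 2 * C1 * η ^ 5 * ((A : ℝ) ^ 2 * (2 * A + 1) ^ 28) := by ring
    _ ≤ 9 * K ^ 2 * C1 * η ^ 5 * ((2 * (A : ℝ) + 1) ^ 2 * (2 * A + 1) ^ 28) := by
        have s4 : (A : ℝ) ^ 2 ≤ (2 * A + 1) ^ 2 := pow_le_pow_left₀ hA0 (by linarith) 2
        gcongr
    _ = 9 * K ^ 2 * C1 * η ^ 5 * (2 * A + 1) ^ 30 := by ring

end Pool.Agent.H7.PQ
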