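import Mathlib

set_option autoImplicit false

/-!
# [H7 PQ UWP] pairs of parallel vectors modulo a prime power, 90-140 lines

`q = p^s`. For `u ≠ 0` let `e < s` be the largest exponent such that `p^e` divides all `u_k` (as residues: `u_k ∈ p^e ZMod q`), and `j` an index with `u_j = p^e * unit`. For `w` parallel to `u` and `k ≠ j`: `u_j w_k = u_k w_j`, so given `w_j` the product `p^e w_k` is determined: at most `p^e` values `w_k`
(the elements killed by `p^e` in `ZMod (p^s)` number `p^e`; see the private lemmas of `HP/Degp.lean`). So at most `p^s * p^(3 e)` vectors `w`. The vectors `u` with all `u_k` divisible by `p^e` number `p^(4 (s - e))`. Sum over `e < s`: `∑ p^(4 s - 4 e) p^(s + 3 e) = ∑ p^(5 s - e) ≤ 2 p^(5 s)`. `u = 0`: `p^(4 s)` vectors `w`.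
-/

namespace Pool.Agent.H7.PQ

open Finset

section
variable (p s : ℕ) [Fact p.Prime]

open scoped Classical in
/-- the elements killed by `p ^ k` -/
private noncomputable def Kw (k : ℕ) : Finset (ZMod (p ^ s)) :=
  univ.filter fun y => ((p ^ k : ℕ) : ZMod (p ^ s)) * y = 0

private theorem Kw_card (k : ℕ) : (Kw p s k).card ≤ p ^ k := by
  classical
  have hp : 0 < p := (Fact.out : p.Prime).pos
  rcases Nat.lt_or_ge k s with h | h
  · have h1 : (Kw p s k).card ≤ (range (p ^ k)).card := by
      refine card_le_card_of_injOn (fun y => y.val / p ^ (s - k)) ?_ ?_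
      · intro y _
        have h2 := ZMod.val_lt y
        rw [mem_coe, mem_range]
        refine Nat.div_lt_of_lt_mul ?_
        rw [← pow_add]
        have h3 : s - k + k = s := by omega
        rwa [h3]
      · have hd : ∀ y ∈ Kw p s k, p ^ (s - k) ∣ y.val := by
          intro y hy
          have h2 : ((p ^ k : ℕ) : ZMod (p ^ s)) * y = 0 := (mem_filter.1 hy).2
          rw [← ZMod.natCast_zmod_val y, ← Nat.cast_mul, ZMod.natCast_eq_zero_iff] at h2
          have h3 : p ^ s = p ^ k * p ^ (s - k) := by
            rw [← pow_add]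
            congr 1
            omega
          exact Nat.dvd_of_mul_dvd_mul_left (Nat.pow_pos hp) ((dvd_of_eq h3.symm).trans h2)
        intro y hy y' hy' he
        dsimp only at he
        have h2 := Nat.div_mul_cancel (hd y hy)
        have h3 := Nat.div_mul_cancel (hd y' hy')
        rw [he, h3] at h2
        exact ZMod.val_injective _ h2.symm
    rwa [card_range] at h1
  · refine (card_le_univ _).trans ?_
    rw [ZMod.card]
    exact Nat.pow_le_pow_right hp h

/-- the residues divisible by `p ^ e` -/
private noncomputable def Dw (e : ℕ) : Finset (ZMod (p ^ s)) :=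
  univ.filter fun y => p ^ e ∣ y.val

private theorem Dw_card (e : ℕ) (he : e ≤ s) : (Dw p s e).card ≤ p ^ (s - e) := by
  have hp : 0 < p := (Fact.out : p.Prime).pos
  have h1 : (Dw p s e).card ≤ (range (p ^ (s - e))).card := by
    refine card_le_card_of_injOn (fun y => y.val / p ^ e) ?_ ?_
    · intro y _
      have h2 := ZMod.val_lt y
      rw [mem_coe, mem_range]
      refine Nat.div_lt_of_lt_mul ?_
      rw [← pow_add]
      have h3 : e + (s - e) = s := by omega
      rwa [h3]
    · intro y hy y' hy' h0
      dsimp only at h0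
      have h2 := Nat.div_mul_cancel (mem_filter.1 hy).2
      have h3 := Nat.div_mul_cancel (mem_filter.1 hy').2
      rw [h0, h3] at h2
      exact ZMod.val_injective _ h2.symm
  rwa [card_range] at h1

open scoped Classical in
/-- the vectors parallel to `u` -/
private noncomputable def Pw (u : Fin 4 → ZMod (p ^ s)) : Finset (Fin 4 → ZMod (p ^ s)) :=
  univ.filter fun w => ∀ i j, u i * w j = u j * w i

private theorem Pw_card (e : ℕ) (u : Fin 4 → ZMod (p ^ s)) (j : Fin 4) (v : (ZMod (p ^ s))ˣ)
    (hu : u j = ((p ^ e : ℕ) : ZMod (p ^ s)) * v) : (Pw p s u).card ≤ p ^ (s + 3 * e) := by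
  classical
  rw [card_eq_sum_card_fiberwise (s := Pw p s u) (t := (univ : Finset (ZMod (p ^ s))))
    (f := fun w => w j) (fun _ _ => mem_coe.2 (mem_univ _))]
  have h1 : ∀ c ∈ (univ : Finset (ZMod (p ^ s))),
      ((Pw p s u).filter fun w => w j = c).card ≤ p ^ (3 * e) := by
    intro c _
    rcases ((Pw p s u).filter fun w => w j = c).eq_empty_or_nonempty with h0 | ⟨w0, hw0⟩
    · rw [h0, card_empty]
      exact Nat.zero_le _
    rw [mem_filter] at hw0
    have h2 : ((Pw p s u).filter fun w => w j = c).card ≤
        (Fintype.piFinset fun k : Fin 4 => if k = j then {0} else Kw p s e).card := by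
      refine card_le_card_of_injOn (fun w => fun k => w k - w0 k) ?_ ?_
      · intro w hw
        rw [mem_coe, mem_filter] at hw
        rw [mem_coe, Fintype.mem_piFinset]
        intro k
        dsimp only
        split_ifs with hk
        · rw [hk, hw.2, hw0.2, sub_self]
          exact mem_singleton_self 0
        · rw [Kw, mem_filter]
          refine ⟨mem_univ _, ?_⟩
          have e1 := (mem_filter.1 hw.1).2 j k
          have e2 := (mem_filter.1 hw0.1).2 j k
          rw [hw.2, hu] at e1
          rw [hw0.2, hu] at e2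
          have e3 : (v : ZMod (p ^ s)) * (((p ^ e : ℕ) : ZMod (p ^ s)) * (w k - w0 k)) = 0 := by
            linear_combination e1 - e2
          exact (Units.mul_right_eq_zero v).1 e3
      · intro w _ w' _ h
        funext k
        have := congrFun h k
        dsimp only at this
        exact sub_left_injective this
    refine h2.trans ?_
    rw [Fintype.card_piFinset]
    calc ∏ k : Fin 4, (if k = j then ({0} : Finset (ZMod (p ^ s))) else Kw p s e).card
        ≤ ∏ k : Fin 4, if k = j then 1 else p ^ e := by
          refine prod_le_prod' fun k _ => ?_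
          split_ifs
          · rw [card_singleton]
          · exact Kw_card p s e
      _ = p ^ (3 * e) := by
          rw [prod_ite, prod_const_one, one_mul, prod_const, ← pow_mul]
          congr 1
          have h3 : ∀ j : Fin 4, (univ.filter fun k : Fin 4 => ¬ k = j).card = 3 := by
            decide
          rw [h3 j, mul_comm]
  refine (sum_le_card_nsmul _ _ _ h1).trans ?_
  rw [card_univ, ZMod.card, smul_eq_mul, ← pow_add]

end

open scoped Classical in
theorem uwp (p : ℕ) [Fact p.Prime] (s : ℕ) (hs : 0 < s) :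
    ((univ : Finset ((Fin 4 → ZMod (p ^ s)) × (Fin 4 → ZMod (p ^ s)))).filter fun q =>
      ∀ i j, q.1 i * q.2 j = q.1 j * q.2 i).card ≤ 3 * p ^ (5 * s) := by
  have hp : p.Prime := Fact.out
  have hp2 := hp.two_le
  -- the pieces
  have h1 : ∀ e ∈ range (s + 1), ((univ.filter fun u : Fin 4 → ZMod (p ^ s) =>
      (∀ i, u i ∈ Dw p s e) ∧ (Pw p s u).card ≤ p ^ (s + 3 * e)).sigma (Pw p s)).card ≤
      p ^ (5 * s - e) := by
    intro e he
    rw [mem_range] at he
    rw [card_sigma]
    refine (sum_le_card_nsmul _ _ (p ^ (s + 3 * e)) fun u hu => (mem_filter.1 hu).2.2).trans ?_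
    have h2 : (univ.filter fun u : Fin 4 → ZMod (p ^ s) =>
        (∀ i, u i ∈ Dw p s e) ∧ (Pw p s u).card ≤ p ^ (s + 3 * e)).card ≤ p ^ (4 * (s - e)) := by
      refine (card_le_card (t := Fintype.piFinset fun _ : Fin 4 => Dw p s e) ?_).trans ?_
      · intro u hu
        rw [Fintype.mem_piFinset]
        exact (mem_filter.1 hu).2.1
      · rw [Fintype.card_piFinset, prod_const, card_univ, Fintype.card_fin, mul_comm, pow_mul]
        exact Nat.pow_le_pow_left (Dw_card p s e (by omega)) 4
    rw [smul_eq_mul]
    refine (Nat.mul_le_mul_right _ h2).trans ?_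
    rw [← pow_add]
    exact le_of_eq (congrArg _ (by omega))
  have h2 : ((univ : Finset ((Fin 4 → ZMod (p ^ s)) × (Fin 4 → ZMod (p ^ s)))).filter fun q =>
      ∀ i j, q.1 i * q.2 j = q.1 j * q.2 i).card ≤
      ((range (s + 1)).biUnion fun e => (univ.filter fun u : Fin 4 → ZMod (p ^ s) =>
      (∀ i, u i ∈ Dw p s e) ∧ (Pw p s u).card ≤ p ^ (s + 3 * e)).sigma (Pw p s)).card := by
    refine card_le_card_of_injOn (fun q => ⟨q.1, q.2⟩) ?_ ?_
    · rintro ⟨u, w⟩ hq
      rw [mem_coe, mem_filter] at hq
      rw [mem_coe, mem_biUnion]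
      -- the largest exponent
      obtain ⟨e, he, hmax⟩ : ∃ e, (e ≤ s ∧ ∀ i, u i ∈ Dw p s e) ∧
          ∀ e', (e' ≤ s ∧ ∀ i, u i ∈ Dw p s e') → e' ≤ e := by
        have h3 : ((range (s + 1)).filter fun e => ∀ i, u i ∈ Dw p s e).Nonempty := by
          refine ⟨0, ?_⟩
          rw [mem_filter, mem_range]
          refine ⟨by omega, fun i => ?_⟩
          rw [Dw, mem_filter]
          exact ⟨mem_univ _, by rw [pow_zero]; exact one_dvd _⟩
        obtain ⟨e, he, hmax⟩ := exists_max_image _ id h3
        rw [mem_filter, mem_range] at he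
        refine ⟨e, ⟨by omega, he.2⟩, fun e' he' => hmax e' ?_⟩
        rw [mem_filter, mem_range]
        exact ⟨by omega, he'.2⟩
      refine ⟨e, mem_range.2 (by omega), ?_⟩
      rw [mem_sigma, mem_filter]
      refine ⟨⟨mem_univ _, he.2, ?_⟩, ?_⟩
      · rcases eq_or_lt_of_le he.1 with h3 | h3
        · refine (card_le_univ _).trans ?_
          rw [Fintype.card_fun, ZMod.card, Fintype.card_fin, ← pow_mul, h3]
          exact le_of_eq (congrArg _ (by omega))
        · obtain ⟨j, hj⟩ : ∃ j, ¬ u j ∈ Dw p s (e + 1) := by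
            by_contra hcon
            push Not at hcon
            have := hmax (e + 1) ⟨by omega, hcon⟩
            omega
          have h4 : p ^ e ∣ (u j).val := (mem_filter.1 (he.2 j)).2
          have h5 : ¬ p ^ (e + 1) ∣ (u j).val := fun h => hj (mem_filter.2 ⟨mem_univ _, h⟩)
          obtain ⟨m, hm⟩ := h4
          have h6 : Nat.Coprime m (p ^ s) := by
            refine Nat.Coprime.pow_right _ ?_
            rw [Nat.coprime_comm, hp.coprime_iff_not_dvd]
            rintro ⟨n, hn⟩
            apply h5
            rw [hm, hn, pow_succ]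
            exact mul_dvd_mul_left _ (dvd_mul_right _ _)
          refine Pw_card p s e u j (ZMod.unitOfCoprime m h6) ?_
          rw [ZMod.coe_unitOfCoprime, ← Nat.cast_mul, ← hm, ZMod.natCast_zmod_val]
      · rw [Pw, mem_filter]
        exact ⟨mem_univ _, hq.2⟩
    · rintro ⟨u, w⟩ _ ⟨u', w'⟩ _ h
      simp only [Sigma.mk.injEq, heq_eq_eq] at h
      exact Prod.ext h.1 h.2
  refine h2.trans (card_biUnion_le.trans ((sum_le_sum h1).trans ?_))
  -- the geometric sum
  have h3 : ∀ n, n ≤ 5 * s → ∑ e ∈ range (n + 1), p ^ (5 * s - e) + p ^ (5 * s - n) ≤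
      2 * p ^ (5 * s) := by
    intro n
    induction n with
    | zero =>
      intro _
      simp
      omega
    | succ n ih =>
      intro hn
      rw [sum_range_succ]
      have h4 := ih (by omega)
      have h5 : p ^ (5 * s - n) = p ^ (5 * s - (n + 1)) * p := by
        rw [← pow_succ]
        congr 1
        omega
      have h6 : p ^ (5 * s - (n + 1)) * 2 ≤ p ^ (5 * s - (n + 1)) * p :=
        Nat.mul_le_mul_left _ hp2
      omega
  have h4 := h3 s (by omega)
  have h5 : 0 < p ^ (5 * s) := Nat.pow_pos hp.pos
  omega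

end Pool.Agent.H7.PQ
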