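import Pool.Agent.H7.PQ.Defs
import Pool.Agent.H7.PQ.Uwp

set_option autoImplicit false

/-!
# [H7 PQ DGP] few pairs are degenerate modulo a prime power, 110-170 lines

`q = p^s`. A unimodular `x` has a coordinate `x_i` which is a unit (otherwise all `x_i` are in the maximal ideal `(p)`); dividing `x` by it we may suppose `x_i = 1` (`qv (t x) = t^2 qv x`, `jm (t x) = t^2 jm x`). So `x` is one of at most `5 q^4` vectors.
Fix `i` and `x` with `x_i = 1`. Let `q0 = (i,i)` and for `j ≠ i` let `q j ∈ Idx 5` be the (sorted) pair `{i, j}`; the other 10 indices are called rest. For fixed rest coefficients of `f`: `pl f x e_j = f_(q j) + c_j` for `j ≠ i`, `c_j` depends only on the rest coefficients; `qv f x = f_(q0) + (depends only on the other 14)`. The same for `g`.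
So for fixed rest coefficients of `f`, `g` (`q^20` choices) the vectors `u = (f_(q j) + c_j)_(j ≠ i)`, `w = (g_(q j) + d_j)_(j ≠ i)` are parallel: at most `3 q^5` pairs (`uwp`; enumerate the `j ≠ i` by `Fin.succAbove i`), and then `f_(q0)`, `g_(q0)` are determined. Total `5 q^4 * q^20 * 3 q^5`.
(`HP/Degp.lean` has the analogous count for one form.)
-/

namespace Pool.Agent.H7.PQ

open Finset Pool.Agent.H7.HP

/-- the sorted pair -/
private def ix (i j : Fin 5) : Idx 5 :=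
  if h : i ≤ j then ⟨(i, j), h⟩ else ⟨(j, i), (not_le.1 h).le⟩

private theorem ix_other : ∀ (i j : Fin 5) (_ : j ≠ i) (p : Idx 5) (_ : p.1.1 = i ∨ p.1.2 = i)
    (_ : p ≠ ix i j), p.1.1 ≠ j ∧ p.1.2 ≠ j := by
  decide

private theorem ix_all : ∀ (i : Fin 5) (p : Idx 5) (_ : p.1.1 = i ∨ p.1.2 = i),
    ∃ j, p = ix i j := by
  decide

private theorem ix_count : ∀ i : Fin 5,
    ∑ p : Idx 5, (if p.1.1 = i ∨ p.1.2 = i then 0 else 1) = 10 := by
  decide

section Ring

variable {R : Type*} [CommRing R]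

private theorem pl_ix (δ : Idx 5 → R) (x : Fin 5 → R) (i j : Fin 5) (hij : j ≠ i)
    (hδ : ∀ p : Idx 5, ¬ (p.1.1 = i ∨ p.1.2 = i) → δ p = 0) :
    pl δ x (Pi.single j 1) = δ (ix i j) * x i := by
  unfold pl
  rw [Finset.sum_eq_single (ix i j)]
  · congr 1
    unfold ix
    split_ifs with h
    · simp [hij.symm]
    · simp [hij.symm]
  · intro p _ hne
    by_cases hp : p.1.1 = i ∨ p.1.2 = i
    · obtain ⟨h1, h2⟩ := ix_other i j hij p hp hne
      rw [Pi.single_eq_of_ne h1, Pi.single_eq_of_ne h2, mul_zero, mul_zero, add_zero, mul_zero]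
    · rw [hδ p hp, zero_mul]
  · intro h
    exact absurd (mem_univ _) h

private theorem qv_ix (δ : Idx 5 → R) (x : Fin 5 → R) (i : Fin 5)
    (hδ : ∀ p : Idx 5, p ≠ ix i i → δ p = 0) :
    qv δ x = δ (ix i i) * (x i * x i) := by
  unfold qv
  rw [Finset.sum_eq_single (ix i i)]
  · congr 1
    unfold ix
    simp
  · intro p _ hne
    rw [hδ p hne, zero_mul]
  · intro h
    exact absurd (mem_univ _) h

private theorem pl_d (g g' : Idx 5 → R) (x y : Fin 5 → R) :
    pl (fun r => g r - g' r) x y = pl g x y - pl g' x y := by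
  unfold pl
  rw [← sum_sub_distrib]
  exact sum_congr rfl fun r _ => by ring

private theorem qv_d (g g' : Idx 5 → R) (x : Fin 5 → R) :
    qv (fun r => g r - g' r) x = qv g x - qv g' x := by
  unfold qv
  rw [← sum_sub_distrib]
  exact sum_congr rfl fun r _ => by ring

/-- the coefficients are determined -/
private theorem dg_inj (x : Fin 5 → R) (i : Fin 5) (hx : x i = 1) (f f' : Idx 5 → R)
    (hr : ∀ p : Idx 5, ¬ (p.1.1 = i ∨ p.1.2 = i) → f p = f' p)
    (hu : ∀ k : Fin 4, pl f x (Pi.single (i.succAbove k) 1) =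
      pl f' x (Pi.single (i.succAbove k) 1))
    (hq : qv f x = qv f' x) : f = f' := by
  obtain ⟨δ, hδ⟩ : ∃ δ : Idx 5 → R, δ = fun r => f r - f' r := ⟨_, rfl⟩
  have h0 : ∀ p : Idx 5, ¬ (p.1.1 = i ∨ p.1.2 = i) → δ p = 0 := by
    intro p hp
    rw [hδ]
    exact sub_eq_zero.2 (hr p hp)
  have h1 : ∀ j, j ≠ i → δ (ix i j) = 0 := by
    intro j hj
    obtain ⟨k, rfl⟩ := Fin.exists_succAbove_eq hj
    have h2 := pl_ix δ x i (i.succAbove k) hj h0
    rw [hx, mul_one] at h2
    rw [← h2, hδ, pl_d, hu k, sub_self]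
  have h2 : ∀ p : Idx 5, p ≠ ix i i → δ p = 0 := by
    intro p hp
    by_cases hpi : p.1.1 = i ∨ p.1.2 = i
    · obtain ⟨j, rfl⟩ := ix_all i p hpi
      exact h1 j (fun h => hp (by rw [h]))
    · exact h0 p hpi
  have h3 := qv_ix δ x i h2
  rw [hx, mul_one, mul_one] at h3
  have h4 : δ (ix i i) = 0 := by
    rw [← h3, hδ, qv_d, hq, sub_self]
  funext p
  have h5 : δ p = 0 := by
    by_cases hp : p = ix i i
    · rw [hp]; exact h4
    · exact h2 p hp
  rw [hδ] at h5
  exact sub_eq_zero.1 h5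

private theorem pl_s (c : Idx 5 → R) (t : R) (x y : Fin 5 → R) :
    pl c (fun i => t * x i) y = t * pl c x y := by
  unfold pl
  rw [mul_sum]
  exact sum_congr rfl fun p _ => by ring

private theorem jm_s (f g : Idx 5 → R) (t : R) (x : Fin 5 → R) (i j : Fin 5) :
    jm f g (fun i => t * x i) i j = t ^ 2 * jm f g x i j := by
  unfold jm
  rw [pl_s, pl_s, pl_s, pl_s]
  ring

end Ring

/-- a unimodular vector has a unit coordinate -/
private theorem um_unit (p : ℕ) [Fact p.Prime] (s : ℕ) (hs : 0 < s) (x : Fin 5 → ZMod (p ^ s))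
    (h : Um x) : ∃ i, IsUnit (x i) := by
  by_contra hno
  push Not at hno
  obtain ⟨m, hm⟩ := h
  have hp : p.Prime := Fact.out
  let φ : ZMod (p ^ s) →+* ZMod p := ZMod.castHom (dvd_pow_self p hs.ne') (ZMod p)
  have h0 : ∀ i, φ (x i) = 0 := by
    intro i
    have h1 : ¬ Nat.Coprime (x i).val (p ^ s) := by
      intro hc
      apply hno i
      rw [← ZMod.natCast_zmod_val (x i)]
      exact (ZMod.isUnit_iff_coprime _ _).2 hc
    have h2 : p ∣ (x i).val := by
      by_contra hd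
      exact h1 (Nat.Coprime.pow_right s ((Nat.Prime.coprime_iff_not_dvd hp).2 hd).symm)
    rw [← ZMod.natCast_zmod_val (x i), map_natCast]
    exact (ZMod.natCast_eq_zero_iff _ _).2 h2
  have h1 : φ (∑ i, m i * x i) = 1 := by rw [hm, map_one]
  rw [map_sum] at h1
  rw [Finset.sum_eq_zero (fun i _ => by rw [map_mul, h0, mul_zero])] at h1
  exact zero_ne_one h1

open scoped Classical in
private theorem dg_fib (p : ℕ) [Fact p.Prime] (s : ℕ) (hs : 0 < s) (i : Fin 5)
    (x : Fin 5 → ZMod (p ^ s)) (hx : x i = 1) :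
    ((univ : Finset ((Idx 5 → ZMod (p ^ s)) × (Idx 5 → ZMod (p ^ s)))).filter fun q =>
      qv q.1 x = 0 ∧ qv q.2 x = 0 ∧ ∀ i j, jm q.1 q.2 x i j = 0).card ≤
      ((p ^ s) ^ 10 * (p ^ s) ^ 10) * (3 * p ^ (5 * s)) := by
  obtain ⟨U, hU⟩ : ∃ U, U = ((univ : Finset ((Fin 4 → ZMod (p ^ s)) × (Fin 4 → ZMod (p ^ s)))).filter
    fun q => ∀ i j, q.1 i * q.2 j = q.1 j * q.2 i) := ⟨_, rfl⟩
  have hUc : U.card ≤ 3 * p ^ (5 * s) := by rw [hU]; exact uwp p s hs
  obtain ⟨P, hP⟩ : ∃ P : Finset (Idx 5 → ZMod (p ^ s)), P = Fintype.piFinset fun r : Idx 5 =>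
      if r.1.1 = i ∨ r.1.2 = i then ({0} : Finset (ZMod (p ^ s))) else univ := ⟨_, rfl⟩
  have hPc : P.card = (p ^ s) ^ 10 := by
    rw [hP, Fintype.card_piFinset]
    have h3 : ∀ r : Idx 5, (if r.1.1 = i ∨ r.1.2 = i then ({0} : Finset (ZMod (p ^ s)))
        else univ).card = (p ^ s) ^ (if r.1.1 = i ∨ r.1.2 = i then 0 else 1) := by
      intro r
      split_ifs
      · simp
      · rw [card_univ, ZMod.card, pow_one]
    rw [prod_congr rfl fun r _ => h3 r, prod_pow_eq_pow_sum, ix_count]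
  have hcard : ((P ×ˢ P) ×ˢ U).card ≤ ((p ^ s) ^ 10 * (p ^ s) ^ 10) * (3 * p ^ (5 * s)) := by
    rw [card_product, card_product, hPc]
    exact Nat.mul_le_mul_left _ hUc
  refine le_trans ?_ hcard
  refine card_le_card_of_injOn (fun q =>
    (((fun r : Idx 5 => if r.1.1 = i ∨ r.1.2 = i then 0 else q.1 r),
      (fun r : Idx 5 => if r.1.1 = i ∨ r.1.2 = i then 0 else q.2 r)),
      ((fun k : Fin 4 => pl q.1 x (Pi.single (i.succAbove k) 1)),
        (fun k : Fin 4 => pl q.2 x (Pi.single (i.succAbove k) 1))))) ?_ ?_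
  · intro q hq
    obtain ⟨h1, h2, h3⟩ := (mem_filter.1 (mem_coe.1 hq)).2
    rw [mem_coe, mem_product, mem_product]
    refine ⟨⟨?_, ?_⟩, ?_⟩
    · rw [hP, Fintype.mem_piFinset]
      intro r
      dsimp only
      split_ifs
      · exact mem_singleton_self _
      · exact mem_univ _
    · rw [hP, Fintype.mem_piFinset]
      intro r
      dsimp only
      split_ifs
      · exact mem_singleton_self _
      · exact mem_univ _
    · rw [hU, mem_filter]
      refine ⟨mem_univ _, fun a b => ?_⟩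
      have := h3 (i.succAbove a) (i.succAbove b)
      unfold jm at this
      exact sub_eq_zero.1 this
  · intro q hq q' hq' he
    obtain ⟨h1, h2, -⟩ := (mem_filter.1 (mem_coe.1 hq)).2
    obtain ⟨h1', h2', -⟩ := (mem_filter.1 (mem_coe.1 hq')).2
    dsimp only at he
    rw [Prod.mk.injEq, Prod.mk.injEq, Prod.mk.injEq] at he
    obtain ⟨⟨e1, e2⟩, e3, e4⟩ := he
    refine Prod.ext ?_ ?_
    · refine dg_inj x i hx q.1 q'.1 ?_ ?_ (h1.trans h1'.symm)
      · intro r hr
        have := congrFun e1 r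
        rwa [if_neg hr, if_neg hr] at this
      · intro k
        exact congrFun e3 k
    · refine dg_inj x i hx q.2 q'.2 ?_ ?_ (h2.trans h2'.symm)
      · intro r hr
        have := congrFun e2 r
        rwa [if_neg hr, if_neg hr] at this
      · intro k
        exact congrFun e4 k

open scoped Classical in
theorem dgp (p : ℕ) [Fact p.Prime] (s : ℕ) (hs : 0 < s) :
    ((univ : Finset ((Idx 5 → ZMod (p ^ s)) × (Idx 5 → ZMod (p ^ s)))).filter fun q =>
      ∃ x : Fin 5 → ZMod (p ^ s), Um x ∧ qv q.1 x = 0 ∧ qv q.2 x = 0 ∧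
        ∀ i j, jm q.1 q.2 x i j = 0).card ≤ 15 * p ^ (29 * s) := by
  obtain ⟨F, hF⟩ : ∃ F : Fin 5 × (Fin 4 → ZMod (p ^ s)) →
      Finset ((Idx 5 → ZMod (p ^ s)) × (Idx 5 → ZMod (p ^ s))), F = fun v =>
      univ.filter fun q => qv q.1 (v.1.insertNth (1 : ZMod (p ^ s)) v.2) = 0 ∧
        qv q.2 (v.1.insertNth (1 : ZMod (p ^ s)) v.2) = 0 ∧
        ∀ i j, jm q.1 q.2 (v.1.insertNth (1 : ZMod (p ^ s)) v.2) i j = 0 := ⟨_, rfl⟩
  have hFc : ∀ v, (F v).card ≤ ((p ^ s) ^ 10 * (p ^ s) ^ 10) * (3 * p ^ (5 * s)) := by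
    intro v
    rw [hF]
    exact dg_fib p s hs v.1 _ (by simp)
  have hsub : ((univ : Finset ((Idx 5 → ZMod (p ^ s)) × (Idx 5 → ZMod (p ^ s)))).filter fun q =>
      ∃ x : Fin 5 → ZMod (p ^ s), Um x ∧ qv q.1 x = 0 ∧ qv q.2 x = 0 ∧
        ∀ i j, jm q.1 q.2 x i j = 0) ⊆ univ.biUnion F := by
    intro q hq
    obtain ⟨x, hum, h1, h2, h3⟩ := (mem_filter.1 hq).2
    obtain ⟨i, hi⟩ := um_unit p s hs x hum
    obtain ⟨t, ht⟩ := hi.exists_left_inv
    have hv : (fun j => t * x j) = i.insertNth (1 : ZMod (p ^ s)) (fun k => t * x (i.succAbove k)) := by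
      funext j
      rcases Fin.eq_self_or_eq_succAbove i j with rfl | ⟨k, rfl⟩
      · simp [ht]
      · simp
    refine mem_biUnion.2 ⟨(i, fun k => t * x (i.succAbove k)), mem_univ _, ?_⟩
    rw [hF]
    refine mem_filter.2 ⟨mem_univ _, ?_⟩
    dsimp only
    rw [← hv]
    refine ⟨?_, ?_, ?_⟩
    · rw [qv_smul, h1, mul_zero]
    · rw [qv_smul, h2, mul_zero]
    · intro a b
      rw [jm_s, h3, mul_zero]
  calc _ ≤ (univ.biUnion F).card := card_le_card hsub
    _ ≤ ∑ v, (F v).card := card_biUnion_le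
    _ ≤ ∑ _v : Fin 5 × (Fin 4 → ZMod (p ^ s)),
        ((p ^ s) ^ 10 * (p ^ s) ^ 10) * (3 * p ^ (5 * s)) := sum_le_sum fun v _ => hFc v
    _ = 5 * (p ^ s) ^ 4 * (((p ^ s) ^ 10 * (p ^ s) ^ 10) * (3 * p ^ (5 * s))) := by
        rw [sum_const, card_univ, Fintype.card_prod, Fintype.card_fun, ZMod.card,
          Fintype.card_fin, Fintype.card_fin, smul_eq_mul]
    _ = 15 * p ^ (29 * s) := by
        have e : p ^ (29 * s) = (p ^ s) ^ 29 := by rw [← pow_mul, mul_comm]
        have e2 : p ^ (5 * s) = (p ^ s) ^ 5 := by rw [← pow_mul, mul_comm]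
        rw [e, e2]
        ring

end Pool.Agent.H7.PQ
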