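import Pool.Agent.H7.PQ.Defs

set_option autoImplicit false

/-!
# [H7 PQ TYL] elementary estimates for quadratic forms and Jacobian minors, 50-90 lines

All from `qv_add`, `pl_add`, `pl_smul`, `abs_qv_le`, `abs_pl_le` of `HP/Frm.lean` (`∑ p, |f p| ≤ 15 A`, `card_Idx5`).
`qv f (x + h) - qv f x = pl f x h + qv f h`; `pl f x h = ∑ h_i pl f x e_i`; `pl f (x + h) e_i = pl f x e_i + pl f h e_i`; `jm` is a difference of two products of such numbers.
`C = 10^6` is more than enough. `|x_i| ≤ 3`, `|h_i| ≤ r ≤ 1`.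
-/

namespace Pool.Agent.H7.PQ

open Finset Pool.Agent.H7.HP

private theorem tyl_single {n : ℕ} (h : Fin n → ℝ) (k : Fin n) :
    ∑ i, h i * (Pi.single i (1 : ℝ) : Fin n → ℝ) k = h k := by
  rw [Finset.sum_eq_single k]
  · simp
  · intro i _ hi
    simp [Pi.single_apply, hi.symm]
  · intro hk
    exact absurd (Finset.mem_univ k) hk

private theorem tyl_lin {n : ℕ} (c : Idx n → ℝ) (x h : Fin n → ℝ) :
    pl c x h = ∑ i, h i * pl c x (Pi.single i 1) := by
  unfold pl
  simp only [Finset.mul_sum]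
  rw [Finset.sum_comm]
  refine Finset.sum_congr rfl fun p _ => ?_
  have h1 := tyl_single h p.1.2
  have h2 := tyl_single h p.1.1
  calc _ = c p * (x p.1.1 * (∑ i, h i * (Pi.single i (1 : ℝ) : Fin n → ℝ) p.1.2) +
        x p.1.2 * ∑ i, h i * (Pi.single i (1 : ℝ) : Fin n → ℝ) p.1.1) := by rw [h1, h2]
    _ = _ := by
        rw [Finset.mul_sum, Finset.mul_sum, ← Finset.sum_add_distrib, Finset.mul_sum]
        refine Finset.sum_congr rfl fun i _ => ?_
        ring

private theorem tyl_sum {f : Idx 5 → ℝ} {A : ℝ} (hf : ∀ p, |f p| ≤ A) : ∑ p, |f p| ≤ 15 * A := by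
  calc ∑ p, |f p| ≤ ∑ _p : Idx 5, A := Finset.sum_le_sum fun p _ => hf p
    _ = 15 * A := by
        rw [Finset.sum_const, Finset.card_univ, card_Idx5, nsmul_eq_mul]
        norm_num

private theorem tyl_e (i k : Fin 5) : |(Pi.single i (1 : ℝ) : Fin 5 → ℝ) k| ≤ 1 := by
  by_cases h : k = i
  · subst h; simp
  · simp [Pi.single_apply, h]

private theorem tyl_pl {f : Idx 5 → ℝ} {A : ℝ} (hf : ∀ p, |f p| ≤ A) {x : Fin 5 → ℝ} {U : ℝ}
    (hU : 0 ≤ U) (hx : ∀ i, |x i| ≤ U) (i : Fin 5) : |pl f x (Pi.single i 1)| ≤ 30 * A * U := by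
  refine (abs_pl_le f x _ hx (tyl_e i)).trans ?_
  have := tyl_sum hf
  nlinarith

private theorem tyl_d (f : Idx 5 → ℝ) (x h : Fin 5 → ℝ) (i : Fin 5) :
    pl f (fun i => x i + h i) (Pi.single i 1) = pl f x (Pi.single i 1) + pl f h (Pi.single i 1) := by
  rw [pl_comm, pl_add, pl_comm f _ x, pl_comm f _ h]

private theorem tyl_prod {a b u v A r : ℝ} (hr0 : 0 ≤ r) (hr1 : r ≤ 1)
    (ha : |a| ≤ 90 * A) (hb : |b| ≤ 90 * A) (hu : |u| ≤ 30 * A * r) (hv : |v| ≤ 30 * A * r)
    (hA : 0 ≤ A) : |(a + u) * (b + v) - a * b| ≤ 6300 * A ^ 2 * r := by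
  have e : (a + u) * (b + v) - a * b = a * v + u * b + u * v := by ring
  rw [e]
  have h1 : |a * v| ≤ (90 * A) * (30 * A * r) := by
    rw [abs_mul]; exact mul_le_mul ha hv (abs_nonneg _) (by positivity)
  have h2 : |u * b| ≤ (30 * A * r) * (90 * A) := by
    rw [abs_mul]; exact mul_le_mul hu hb (abs_nonneg _) (by positivity)
  have h3 : |u * v| ≤ (30 * A * r) * (30 * A * r) := by
    rw [abs_mul]; exact mul_le_mul hu hv (abs_nonneg _) (by positivity)
  have h4 : (30 * A * r) * (30 * A * r) ≤ 900 * A ^ 2 * r := by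
    have : r * r ≤ r := by nlinarith
    have hA2 : 0 ≤ A ^ 2 := sq_nonneg A
    nlinarith
  have h5 := abs_add_three (a * v) (u * b) (u * v)
  nlinarith

theorem tyl : ∃ C : ℝ, 1 ≤ C ∧ ∀ (f g : Idx 5 → ℝ) (A : ℝ), 0 ≤ A → (∀ p, |f p| ≤ A) →
    (∀ p, |g p| ≤ A) → ∀ (x h : Fin 5 → ℝ) (r : ℝ), (∀ i, |x i| ≤ 3) → (∀ i, |h i| ≤ r) → r ≤ 1 →
      |qv f (fun i => x i + h i) - qv f x| ≤ C * A * r ∧
      |qv f (fun i => x i + h i) - qv f x - ∑ i, h i * pl f x (Pi.single i 1)| ≤ C * A * r ^ 2 ∧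
      (∀ i, |pl f x (Pi.single i 1)| ≤ C * A) ∧
      (∀ i, |pl f (fun i => x i + h i) (Pi.single i 1) - pl f x (Pi.single i 1)| ≤ C * A * r) ∧
      ∀ i j, |jm f g (fun i => x i + h i) i j - jm f g x i j| ≤ C * A ^ 2 * r := by
  refine ⟨12600, by norm_num, fun f g A hA hf hg x h r hx hh hr => ?_⟩
  have hr0 : 0 ≤ r := (abs_nonneg _).trans (hh 0)
  have hS := tyl_sum hf
  have hqh : |qv f h| ≤ 15 * A * r ^ 2 := by
    refine (abs_qv_le f h hh).trans ?_
    exact mul_le_mul_of_nonneg_right hS (sq_nonneg r)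
  have hph : |pl f x h| ≤ 90 * A * r := by
    refine (abs_pl_le f x h hx hh).trans ?_
    nlinarith
  have hr2 : A * r ^ 2 ≤ A * r := by
    refine mul_le_mul_of_nonneg_left ?_ hA
    nlinarith
  have hAr : 0 ≤ A * r := mul_nonneg hA hr0
  have hAr2 : 0 ≤ A * r ^ 2 := mul_nonneg hA (sq_nonneg r)
  refine ⟨?_, ?_, ?_, ?_, ?_⟩
  · have e : qv f (fun i => x i + h i) - qv f x = qv f h + pl f x h := by
      rw [qv_add]; ring
    rw [e]
    refine (abs_add_le _ _).trans ?_
    nlinarith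
  · have e : qv f (fun i => x i + h i) - qv f x - ∑ i, h i * pl f x (Pi.single i 1) =
        qv f h := by
      rw [qv_add, tyl_lin f x h]; ring
    rw [e]
    refine hqh.trans ?_
    nlinarith
  · intro i
    refine (tyl_pl hf (by norm_num) hx i).trans ?_
    nlinarith
  · intro i
    rw [tyl_d, add_sub_cancel_left]
    refine (tyl_pl hf hr0 hh i).trans ?_
    nlinarith
  · intro i j
    have hfx := fun k => tyl_pl hf (by norm_num : (0 : ℝ) ≤ 3) hx k
    have hgx := fun k => tyl_pl hg (by norm_num : (0 : ℝ) ≤ 3) hx k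
    have hfh := fun k => tyl_pl hf hr0 hh k
    have hgh := fun k => tyl_pl hg hr0 hh k
    have e1 := tyl_prod hr0 hr (by linarith [hfx i] : |pl f x (Pi.single i 1)| ≤ 90 * A)
      (by linarith [hgx j] : |pl g x (Pi.single j 1)| ≤ 90 * A) (hfh i) (hgh j) hA
    have e2 := tyl_prod hr0 hr (by linarith [hfx j] : |pl f x (Pi.single j 1)| ≤ 90 * A)
      (by linarith [hgx i] : |pl g x (Pi.single i 1)| ≤ 90 * A) (hfh j) (hgh i) hA
    unfold jm
    rw [tyl_d, tyl_d, tyl_d, tyl_d]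
    have e4 := abs_sub ((pl f x (Pi.single i 1) + pl f h (Pi.single i 1)) *
      (pl g x (Pi.single j 1) + pl g h (Pi.single j 1)) -
        pl f x (Pi.single i 1) * pl g x (Pi.single j 1))
      ((pl f x (Pi.single j 1) + pl f h (Pi.single j 1)) *
      (pl g x (Pi.single i 1) + pl g h (Pi.single i 1)) -
        pl f x (Pi.single j 1) * pl g x (Pi.single i 1))
    have e5 : (pl f x (Pi.single i 1) + pl f h (Pi.single i 1)) *
        (pl g x (Pi.single j 1) + pl g h (Pi.single j 1)) -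
        (pl f x (Pi.single j 1) + pl f h (Pi.single j 1)) *
        (pl g x (Pi.single i 1) + pl g h (Pi.single i 1)) -
        (pl f x (Pi.single i 1) * pl g x (Pi.single j 1) -
        pl f x (Pi.single j 1) * pl g x (Pi.single i 1)) =
        ((pl f x (Pi.single i 1) + pl f h (Pi.single i 1)) *
      (pl g x (Pi.single j 1) + pl g h (Pi.single j 1)) -
        pl f x (Pi.single i 1) * pl g x (Pi.single j 1)) -
      ((pl f x (Pi.single j 1) + pl f h (Pi.single j 1)) *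
      (pl g x (Pi.single i 1) + pl g h (Pi.single i 1)) -
        pl f x (Pi.single j 1) * pl g x (Pi.single i 1)) := by ring
    rw [e5]
    linarith

end Pool.Agent.H7.PQ
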