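import Pool.Agent.H7.PQ.Dgf
import Pool.Agent.H7.PQ.Tyl

set_option autoImplicit false

/-!
# [H7 PQ DGR] few pairs are degenerate over the reals, 70-110 lines

`C1` of `tyl`, `K = C1 + 1`. Let `(f, g)` be in the set, `x` the zero. For `i ≠ 1` let `x'_i = η * (x_i/η rounded towards 0)`, `x'_1 = 1`: `|x'_i| ≤ |x_i| ≤ 1`, `|x_i - x'_i| ≤ η ≤ 1`. By `tyl`: `|f(x')| ≤ C1 A η`, `|g(x')| ≤ C1 A η`, `|jm f g x' i j| ≤ |jm f g x i j| + C1 A^2 η < (C1 + 1) η A^2` for `i, j ≠ 1`.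
There are at most `(2/η + 1)^4 ≤ (3/η)^4` points `x'` (`x'_i = η k_i`, `|k_i| ≤ 1/η`), each with at most `C η^5 (2A+1)^30` pairs (`dgf`).
-/

namespace Pool.Agent.H7.PQ

open Finset Pool.Agent.H7.HP

private theorem dgr_round {η : ℝ} (h0 : 0 < η) (t : ℝ) :
    ∃ k : ℤ, |η * k| ≤ |t| ∧ |η * k - t| ≤ η := by
  rcases le_total 0 t with ht | ht
  · refine ⟨⌊t / η⌋, ?_, ?_⟩
    · have h1 : 0 ≤ ⌊t / η⌋ := Int.floor_nonneg.2 (by positivity)
      have h1' : (0 : ℝ) ≤ ⌊t / η⌋ := by exact_mod_cast h1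
      have h2 := Int.floor_le (t / η)
      rw [le_div_iff₀ h0] at h2
      rw [abs_of_nonneg (by positivity), abs_of_nonneg ht]
      linarith
    · have h2 := Int.floor_le (t / η)
      have h3 := Int.lt_floor_add_one (t / η)
      rw [le_div_iff₀ h0] at h2
      rw [div_lt_iff₀ h0] at h3
      rw [abs_le]
      constructor
      · linarith
      · linarith
  · refine ⟨⌈t / η⌉, ?_, ?_⟩
    · have h1 : ⌈t / η⌉ ≤ 0 := by
        rw [Int.ceil_le]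
        push_cast
        exact div_nonpos_of_nonpos_of_nonneg ht h0.le
      have h1' : ((⌈t / η⌉ : ℤ) : ℝ) ≤ 0 := by exact_mod_cast h1
      have h2 := Int.le_ceil (t / η)
      rw [div_le_iff₀ h0] at h2
      rw [abs_of_nonpos (mul_nonpos_of_nonneg_of_nonpos h0.le h1'), abs_of_nonpos ht]
      linarith
    · have h2 := Int.le_ceil (t / η)
      have h3 := Int.ceil_lt_add_one (t / η)
      rw [div_le_iff₀ h0] at h2
      have h4 : ((⌈t / η⌉ : ℤ) : ℝ) - 1 < t / η := by linarith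
      rw [lt_div_iff₀ h0] at h4
      rw [abs_le]
      constructor
      · linarith
      · linarith

open scoped Classical in
theorem dgr : ∃ C : ℝ, 0 < C ∧ ∀ (η : ℝ) (A : ℕ), 0 < η → η ≤ 1 → 1 ≤ η * A →
    (((bf 5 A ×ˢ bf 5 A).filter fun q => ∃ x : Fin 5 → ℝ, x 1 = 1 ∧ (∀ i, |x i| ≤ 1) ∧
      qv (fun p => (q.1 p : ℝ)) x = 0 ∧ qv (fun p => (q.2 p : ℝ)) x = 0 ∧
      ¬ RZ η A (fun p => (q.1 p : ℝ)) (fun p => (q.2 p : ℝ)) x).card : ℝ) ≤
        C * η * (2 * A + 1) ^ 30 := by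
  obtain ⟨C1, hC1, htyl⟩ := tyl
  obtain ⟨C2, hC2, hdgf⟩ := dgf (C1 + 1) (by linarith)
  refine ⟨81 * C2, by positivity, fun η A h0 h1 hA => ?_⟩
  set P : Finset (Fin 5 → ℤ) := Fintype.piFinset fun i =>
    if i = 1 then {0} else Icc (-⌊1 / η⌋) ⌊1 / η⌋ with hP
  set pt : (Fin 5 → ℤ) → Fin 5 → ℝ := fun k i => if i = 1 then 1 else η * k i with hpt
  have hfl0 : 0 ≤ ⌊1 / η⌋ := Int.floor_nonneg.2 (by positivity)
  have hPcard : (P.card : ℝ) ≤ (3 / η) ^ 4 := by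
    have h2 : P.card = (2 * ⌊1 / η⌋ + 1).toNat ^ 4 := by
      rw [hP, Fintype.card_piFinset, Fin.prod_univ_five]
      simp only [show ((0 : Fin 5) = 1) = False from by decide,
        show ((2 : Fin 5) = 1) = False from by decide,
        show ((3 : Fin 5) = 1) = False from by decide,
        show ((4 : Fin 5) = 1) = False from by decide, if_false, if_true, card_singleton,
        Int.card_Icc, mul_one]
      have h3 : ⌊1 / η⌋ + 1 - -⌊1 / η⌋ = 2 * ⌊1 / η⌋ + 1 := by ring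
      rw [h3]
      ring
    rw [h2]
    push_cast
    refine pow_le_pow_left₀ (Nat.cast_nonneg _) ?_ 4
    have h3 : (((2 * ⌊1 / η⌋ + 1).toNat : ℕ) : ℝ) = ((2 * ⌊1 / η⌋ + 1 : ℤ) : ℝ) := by
      have h4 : (((2 * ⌊1 / η⌋ + 1).toNat : ℕ) : ℤ) = 2 * ⌊1 / η⌋ + 1 :=
        Int.toNat_of_nonneg (by omega)
      rw [← h4]
      norm_cast
    rw [h3]
    push_cast
    have h4 := Int.floor_le (1 / η)
    have h5 : 1 ≤ 1 / η := (one_le_div h0).2 h1
    have h6 : 3 / η = 3 * (1 / η) := by ring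
    linarith
  have hsub : ((bf 5 A ×ˢ bf 5 A).filter fun q => ∃ x : Fin 5 → ℝ, x 1 = 1 ∧ (∀ i, |x i| ≤ 1) ∧
      qv (fun p => (q.1 p : ℝ)) x = 0 ∧ qv (fun p => (q.2 p : ℝ)) x = 0 ∧
      ¬ RZ η A (fun p => (q.1 p : ℝ)) (fun p => (q.2 p : ℝ)) x) ⊆
      (P.filter fun k => ∀ i, |pt k i| ≤ 1).biUnion fun k =>
        (bf 5 A ×ˢ bf 5 A).filter fun q =>
        |qv (fun p => (q.1 p : ℝ)) (pt k)| ≤ (C1 + 1) * η * A ∧
        |qv (fun p => (q.2 p : ℝ)) (pt k)| ≤ (C1 + 1) * η * A ∧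
        ∀ i j, i ≠ 1 → j ≠ 1 → |jm (fun p => (q.1 p : ℝ)) (fun p => (q.2 p : ℝ)) (pt k) i j| ≤
          (C1 + 1) * η * A ^ 2 := by
    intro q hq
    obtain ⟨hq1, x, hx1, hx, hf, hg, hn⟩ := mem_filter.1 hq
    obtain ⟨hqf, hqg⟩ := mem_product.1 hq1
    rw [mem_bf] at hqf hqg
    have hf' : ∀ p, |((q.1 p : ℤ) : ℝ)| ≤ (A : ℝ) := fun p => by exact_mod_cast hqf p
    have hg' : ∀ p, |((q.2 p : ℤ) : ℝ)| ≤ (A : ℝ) := fun p => by exact_mod_cast hqg p
    obtain ⟨k, hk⟩ : ∃ k : Fin 5 → ℤ, ∀ i, |η * k i| ≤ |x i| ∧ |η * k i - x i| ≤ η := by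
      refine Classical.axiomOfChoice (r := fun (i : Fin 5) (k : ℤ) =>
        |η * k| ≤ |x i| ∧ |η * k - x i| ≤ η) fun i => dgr_round h0 (x i)
    have hkb : ∀ i, -⌊1 / η⌋ ≤ k i ∧ k i ≤ ⌊1 / η⌋ := by
      intro i
      have h2 := abs_le.1 ((hk i).1.trans (hx i))
      rw [Int.le_floor, le_div_iff₀ h0, neg_le, Int.le_floor, le_div_iff₀ h0]
      push_cast
      constructor
      · linarith
      · linarith
    set k' : Fin 5 → ℤ := fun i => if i = 1 then 0 else k i with hk'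
    have hpt1 : ∀ i, |pt k' i| ≤ 1 := by
      intro i
      by_cases hi : i = 1
      · simp [hpt, hi]
      · simp only [hpt, hk', if_neg hi]
        exact (hk i).1.trans (hx i)
    have hd : ∀ i, |pt k' i - x i| ≤ η := by
      intro i
      by_cases hi : i = 1
      · simp only [hpt, if_pos hi]
        rw [hi, hx1, sub_self, abs_zero]
        exact h0.le
      · simp only [hpt, hk', if_neg hi]
        exact (hk i).2
    have hpx : (fun i => x i + (pt k' i - x i)) = pt k' := by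
      funext i
      ring
    have hx3 : ∀ i, |x i| ≤ 3 := fun i => (hx i).trans (by norm_num)
    have hA0 : (0 : ℝ) ≤ A := Nat.cast_nonneg A
    obtain ⟨t1, -, -, -, t5⟩ := htyl (fun p => (q.1 p : ℝ)) (fun p => (q.2 p : ℝ)) A hA0 hf' hg' x
      (fun i => pt k' i - x i) η hx3 hd h1
    obtain ⟨s1, -, -, -, -⟩ := htyl (fun p => (q.2 p : ℝ)) (fun p => (q.1 p : ℝ)) A hA0 hg' hf' x
      (fun i => pt k' i - x i) η hx3 hd h1
    rw [hpx, hf, sub_zero] at t1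
    rw [hpx, hg, sub_zero] at s1
    rw [hpx] at t5
    have hηA : 0 ≤ η * A := by positivity
    have hηA2 : 0 ≤ η * (A : ℝ) ^ 2 := by positivity
    refine mem_biUnion.2 ⟨k', mem_filter.2 ⟨?_, hpt1⟩, mem_filter.2 ⟨hq1, ?_, ?_, ?_⟩⟩
    · rw [hP, Fintype.mem_piFinset]
      intro i
      by_cases hi : i = 1
      · simp [hk', hi]
      · simp only [hk', if_neg hi, mem_Icc]
        exact hkb i
    · refine t1.trans ?_
      nlinarith
    · refine s1.trans ?_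
      nlinarith
    · intro i j hi hj
      have h2 : |jm (fun p => (q.1 p : ℝ)) (fun p => (q.2 p : ℝ)) x i j| < η * A ^ 2 := by
        by_contra hge
        push Not at hge
        exact hn ⟨hx1, hx, hf, hg, i, j, hi, hj, hge⟩
      have h3 := t5 i j
      have h4 := abs_sub_abs_le_abs_sub
        (jm (fun p => (q.1 p : ℝ)) (fun p => (q.2 p : ℝ)) (pt k') i j)
        (jm (fun p => (q.1 p : ℝ)) (fun p => (q.2 p : ℝ)) x i j)
      nlinarith
  have hcard := (card_le_card hsub).trans card_biUnion_le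
  have hcard' : (((bf 5 A ×ˢ bf 5 A).filter fun q => ∃ x : Fin 5 → ℝ, x 1 = 1 ∧
      (∀ i, |x i| ≤ 1) ∧
      qv (fun p => (q.1 p : ℝ)) x = 0 ∧ qv (fun p => (q.2 p : ℝ)) x = 0 ∧
      ¬ RZ η A (fun p => (q.1 p : ℝ)) (fun p => (q.2 p : ℝ)) x).card : ℝ) ≤
      ∑ k ∈ P.filter fun k => ∀ i, |pt k i| ≤ 1, (((bf 5 A ×ˢ bf 5 A).filter fun q =>
        |qv (fun p => (q.1 p : ℝ)) (pt k)| ≤ (C1 + 1) * η * A ∧
        |qv (fun p => (q.2 p : ℝ)) (pt k)| ≤ (C1 + 1) * η * A ∧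
        ∀ i j, i ≠ 1 → j ≠ 1 → |jm (fun p => (q.1 p : ℝ)) (fun p => (q.2 p : ℝ)) (pt k) i j| ≤
          (C1 + 1) * η * A ^ 2).card : ℝ) := by
    exact_mod_cast hcard
  refine hcard'.trans ?_
  have hterm : ∀ k ∈ P.filter fun k => ∀ i, |pt k i| ≤ 1, (((bf 5 A ×ˢ bf 5 A).filter fun q =>
        |qv (fun p => (q.1 p : ℝ)) (pt k)| ≤ (C1 + 1) * η * A ∧
        |qv (fun p => (q.2 p : ℝ)) (pt k)| ≤ (C1 + 1) * η * A ∧
        ∀ i j, i ≠ 1 → j ≠ 1 → |jm (fun p => (q.1 p : ℝ)) (fun p => (q.2 p : ℝ)) (pt k) i j| ≤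
          (C1 + 1) * η * A ^ 2).card : ℝ) ≤ C2 * η ^ 5 * (2 * A + 1) ^ 30 := by
    intro k hk
    exact hdgf η A h0 h1 hA (pt k) (by simp [hpt]) (mem_filter.1 hk).2
  refine (sum_le_sum hterm).trans ?_
  rw [sum_const, nsmul_eq_mul]
  have h2 : (((P.filter fun k => ∀ i, |pt k i| ≤ 1).card : ℕ) : ℝ) ≤ (3 / η) ^ 4 := by
    refine le_trans ?_ hPcard
    exact_mod_cast card_filter_le _ _
  calc _ ≤ (3 / η) ^ 4 * (C2 * η ^ 5 * (2 * A + 1) ^ 30) :=
        mul_le_mul_of_nonneg_right h2 (by positivity)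
    _ = 81 * C2 * η * (2 * A + 1) ^ 30 := by
      field_simp
      ring

end Pool.Agent.H7.PQ
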