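import Mathlib

set_option autoImplicit false

/-!
# [H7 PQ EXT] functionals on saturated sublattices extend, 30-60 lines

`N : AddSubgroup (ι → ℤ)` (or the `Submodule ℤ`) with `k • v ∈ N, k ≠ 0 → v ∈ N`. The quotient `Q = (ι → ℤ) ⧸ N` is a finitely generated torsion free `ℤ`-module, so free, so projective: the quotient map `π` has a section `s` (`Module.projective_lifting_property`, or
`LinearMap.exists_rightInverse_of_surjective`-like lemma for projective modules). `v - s (π v) ∈ N`; put `ψ v = φ (v - s (π v))`. For `v ∈ N`: `π v = 0`, `ψ v = φ v`. `J i = ψ (Pi.single i 1)`.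
-/

namespace Pool.Agent.H7.PQ

theorem ext_fun {ι : Type} [Fintype ι] [DecidableEq ι] (N : Submodule ℤ (ι → ℤ))
    (hN : ∀ (k : ℤ) (v : ι → ℤ), k ≠ 0 → k • v ∈ N → v ∈ N) (φ : N →ₗ[ℤ] ℤ) :
    ∃ J : ι → ℤ, ∀ v : N, φ v = ∑ i, J i * (v : ι → ℤ) i := by
  have hmk : ∀ x : ι → ℤ, N.mkQ x = 0 ↔ x ∈ N := fun x => Submodule.Quotient.mk_eq_zero N
  have htf : Module.IsTorsionFree ℤ ((ι → ℤ) ⧸ N) := by
    apply Module.IsTorsionFree.of_smul_eq_zero
    intro k x hk
    obtain ⟨v, rfl⟩ := N.mkQ_surjective x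
    rw [← map_smul, hmk] at hk
    by_cases h0 : k = 0
    · exact Or.inl h0
    · exact Or.inr ((hmk v).2 (hN k v h0 hk))
  have hfree : Module.Free ℤ ((ι → ℤ) ⧸ N) := inferInstance
  obtain ⟨s, hs⟩ := N.mkQ.exists_rightInverse_of_surjective
    (LinearMap.range_eq_top.2 N.mkQ_surjective)
  have hs' : ∀ x, N.mkQ (s x) = x := fun x => by
    have := congrArg (fun f => f x) hs
    exact this
  have hm : ∀ v : ι → ℤ, v - s (N.mkQ v) ∈ N := by
    intro v
    rw [← hmk, map_sub, hs', sub_self]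
  let P : (ι → ℤ) →ₗ[ℤ] N :=
    (LinearMap.id - s.comp N.mkQ).codRestrict N hm
  have hP : ∀ v : N, P v.1 = v := by
    intro v
    apply Subtype.ext
    show v.1 - s (N.mkQ v.1) = v.1
    rw [(hmk v.1).2 v.2, map_zero, sub_zero]
  refine ⟨fun i => φ (P (Pi.single i 1)), fun v => ?_⟩
  have h1 : φ v = (φ.comp P) v.1 := by
    show φ v = φ (P v.1)
    rw [hP]
  rw [h1]
  conv_lhs => rw [pi_eq_sum_univ' v.1]
  rw [map_sum]
  apply Finset.sum_congr rfl
  intro i _
  rw [map_smul, smul_eq_mul, mul_comm]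
  congr 1

end Pool.Agent.H7.PQ
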