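import Pool.Agent.H7.PQ.Lpa
import Pool.Agent.H7.PQ.Dgp
import Pool.Agent.H7.PQ.Bgc

set_option autoImplicit false

/-!
# [H7 PQ LCP] the local part at the finite places, 130-200 lines

`P0 ≥ 64/δ` (natural, `≥ 1`), `s ≥ 1` with `60 P0 / 2^s ≤ δ/2`, `c1 = (1/2) ∏_{p ≤ P0} p^(-6 s)` (product over primes). Given `N`: `N! = M1 M2`, `M1 = ∏_{p ≤ P0} p^(v_p(N!))`, `M2` the part with the primes `> P0` (see the first private lemma of `HP/Loc.lean`: the part of `n` with the primes up to `P0` and the rest).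
`A0` large for `boxq2` with `Q = p^s`, `p ≤ P0`, and `Q = M2`.
Exceptional pairs: (1) for some prime `p ≤ P0` the class modulo `p^s` is in the set of `dgp`: at most `∑_p 4 * 15 p^(29 s) / p^(30 s) (2A+1)^30 ≤ 60 P0 2^(-s) (2A+1)^30 ≤ (δ/2) (2A+1)^30`. (2) the class modulo `M2` is in the set of `big2`: at most `4 * 8/P0 (2A+1)^30 ≤ (δ/2)(2A+1)^30`.
Other pairs with zeros over all `ℚ_p`: `lpa`: `p^(3 e_p) ≤ p^(6 s) #LS(p^(e_p))` for `p ≤ P0`, `e_p = v_p(N!)`; product, `ls_prod`: `∏ p^(-6s) M1^3 ≤ #LS(M1)`; `ls_card` and (2): `M2^3 ≤ 2 #LS(M2)`; `ls_mul`: `#LS(N!) ≥ #LS(M1) #LS(M2) ≥ c1 (N!)^3`.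
-/

namespace Pool.Agent.H7.PQ

open Finset Pool.Agent.H7.HP

/-- the reduction modulo `p^s` has a singular zero -/
private def Lcp_dg (p s : ℕ) (q : (Idx 5 → ℤ) × (Idx 5 → ℤ)) : Prop :=
  ∃ x : Fin 5 → ZMod (p ^ s), Um x ∧ qv (fun r => (q.1 r : ZMod (p ^ s))) x = 0 ∧
    qv (fun r => (q.2 r : ZMod (p ^ s))) x = 0 ∧
    ∀ i j, jm (fun r => (q.1 r : ZMod (p ^ s))) (fun r => (q.2 r : ZMod (p ^ s))) x i j = 0

open scoped Classical in
private theorem Lcp_one (p : ℕ) (hp : p.Prime) (s : ℕ) (hs : 0 < s) : ∃ A0 : ℕ, ∀ A ≥ A0,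
    (((bf 5 A ×ˢ bf 5 A).filter fun q => Lcp_dg p s q).card : ℝ) ≤ 60 / 2 ^ s * (2 * A + 1) ^ 30 := by
  haveI : Fact p.Prime := ⟨hp⟩
  haveI : NeZero (p ^ s) := ⟨pow_ne_zero _ hp.ne_zero⟩
  obtain ⟨A0, hA0⟩ := boxq2 (p ^ s)
  refine ⟨A0, fun A hA => ?_⟩
  set DD : Finset ((Idx 5 → ZMod (p ^ s)) × (Idx 5 → ZMod (p ^ s))) :=
    ((univ : Finset ((Idx 5 → ZMod (p ^ s)) × (Idx 5 → ZMod (p ^ s)))).filter fun q =>
      ∃ x : Fin 5 → ZMod (p ^ s), Um x ∧ qv q.1 x = 0 ∧ qv q.2 x = 0 ∧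
        ∀ i j, jm q.1 q.2 x i j = 0) with hDD
  have hDc : DD.card ≤ 15 * p ^ (29 * s) := dgp p s hs
  have h1 := hA0 A hA DD
  have hle : ((bf 5 A ×ˢ bf 5 A).filter fun q => Lcp_dg p s q) ⊆ (bf 5 A ×ˢ bf 5 A).filter fun q =>
        ((fun r => (q.1 r : ZMod (p ^ s))), (fun r => (q.2 r : ZMod (p ^ s)))) ∈ DD := by
    intro q hq
    rw [mem_filter] at hq ⊢
    refine ⟨hq.1, ?_⟩
    rw [hDD, mem_filter]
    exact ⟨mem_univ _, hq.2⟩
  have hp0 : (0 : ℝ) < p := by exact_mod_cast hp.pos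
  have hp2 : (2 : ℝ) ≤ p := by exact_mod_cast hp.two_le
  have h2 : (((bf 5 A ×ˢ bf 5 A).filter fun q => Lcp_dg p s q).card : ℝ) * ((p : ℝ) ^ s) ^ 30 ≤
      60 * (p : ℝ) ^ (29 * s) * (2 * A + 1) ^ 30 := by
    have e1 : (((bf 5 A ×ˢ bf 5 A).filter fun q => Lcp_dg p s q).card : ℝ) ≤
        (((bf 5 A ×ˢ bf 5 A).filter fun q =>
        ((fun r => (q.1 r : ZMod (p ^ s))), (fun r => (q.2 r : ZMod (p ^ s)))) ∈ DD).card : ℝ) := by
      exact_mod_cast card_le_card hle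
    have e2 : (DD.card : ℝ) ≤ 15 * (p : ℝ) ^ (29 * s) := by exact_mod_cast hDc
    push_cast at h1
    calc (((bf 5 A ×ˢ bf 5 A).filter fun q => Lcp_dg p s q).card : ℝ) * ((p : ℝ) ^ s) ^ 30
        ≤ (((bf 5 A ×ˢ bf 5 A).filter fun q =>
        ((fun r => (q.1 r : ZMod (p ^ s))), (fun r => (q.2 r : ZMod (p ^ s)))) ∈ DD).card : ℝ) *
          ((p : ℝ) ^ s) ^ 30 := mul_le_mul_of_nonneg_right e1 (by positivity)
      _ ≤ 4 * DD.card * (2 * A + 1) ^ 30 := h1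
      _ ≤ 4 * (15 * (p : ℝ) ^ (29 * s)) * (2 * A + 1) ^ 30 := by
          apply mul_le_mul_of_nonneg_right _ (by positivity)
          exact mul_le_mul_of_nonneg_left e2 (by norm_num)
      _ = 60 * (p : ℝ) ^ (29 * s) * (2 * A + 1) ^ 30 := by ring
  have e3 : ((p : ℝ) ^ s) ^ 30 = (p : ℝ) ^ s * (p : ℝ) ^ (29 * s) := by
    rw [← pow_mul, ← pow_add]
    congr 1
    ring
  have e4 : 60 * (p : ℝ) ^ (29 * s) * (2 * (A : ℝ) + 1) ^ 30 = 60 * (2 * (A : ℝ) + 1) ^ 30 * (p : ℝ) ^ (29 * s) := by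
    ring
  rw [e3, e4, ← mul_assoc] at h2
  have h3 := le_of_mul_le_mul_right h2 (pow_pos hp0 (29 * s))
  have h4 : (((bf 5 A ×ˢ bf 5 A).filter fun q => Lcp_dg p s q).card : ℝ) * 2 ^ s ≤
      60 * (2 * (A : ℝ) + 1) ^ 30 := by
    refine le_trans ?_ h3
    exact mul_le_mul_of_nonneg_left (pow_le_pow_left₀ (by norm_num) hp2 s) (Nat.cast_nonneg _)
  rw [div_mul_eq_mul_div, le_div_iff₀ (by positivity)]
  exact h4

/-- the pairs with few zeros modulo `M` -/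
private def Lcp_few (M : ℕ) (q : (Idx 5 → ℤ) × (Idx 5 → ℤ)) : Prop :=
  2 * (LS q.1 q.2 M).card < M ^ 3

open scoped Classical in
private theorem Lcp_big (M P0 : ℕ) (hM : 0 < M) (hP : 1 ≤ P0) (h : ∀ p : ℕ, p.Prime → p ∣ M → P0 < p) :
    ∃ A0 : ℕ, ∀ A ≥ A0, (((bf 5 A ×ˢ bf 5 A).filter fun q => Lcp_few M q).card : ℝ) * P0 ≤
      32 * (2 * A + 1) ^ 30 := by
  haveI : NeZero M := ⟨hM.ne'⟩
  obtain ⟨A0, hA0⟩ := boxq2 M
  refine ⟨A0, fun A hA => ?_⟩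
  set DD : Finset ((Idx 5 → ZMod M) × (Idx 5 → ZMod M)) :=
    ((univ : Finset ((Idx 5 → ZMod M) × (Idx 5 → ZMod M))).filter fun q =>
      2 * ((univ : Finset (Fin 5 → ZMod M)).filter fun x => Um x ∧ qv q.1 x = 0 ∧
        qv q.2 x = 0).card < M ^ 3) with hDD
  have hDc : P0 * DD.card ≤ 8 * M ^ 30 := big2 M P0 hP h
  have h1 := hA0 A hA DD
  have hle : ((bf 5 A ×ˢ bf 5 A).filter fun q => Lcp_few M q) ⊆ (bf 5 A ×ˢ bf 5 A).filter fun q =>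
        ((fun r => (q.1 r : ZMod M)), (fun r => (q.2 r : ZMod M))) ∈ DD := by
    intro q hq
    rw [mem_filter] at hq ⊢
    refine ⟨hq.1, ?_⟩
    rw [hDD, mem_filter]
    refine ⟨mem_univ _, ?_⟩
    have h2 := hq.2
    unfold Lcp_few at h2
    rw [ls_card] at h2
    exact h2
  have hM0 : (0 : ℝ) < M := by exact_mod_cast hM
  have e1 : (((bf 5 A ×ˢ bf 5 A).filter fun q => Lcp_few M q).card : ℝ) ≤
      (((bf 5 A ×ˢ bf 5 A).filter fun q =>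
        ((fun r => (q.1 r : ZMod M)), (fun r => (q.2 r : ZMod M))) ∈ DD).card : ℝ) := by
    exact_mod_cast card_le_card hle
  have e2 : (P0 : ℝ) * (DD.card : ℝ) ≤ 8 * (M : ℝ) ^ 30 := by exact_mod_cast hDc
  have hP0 : (0 : ℝ) ≤ P0 := Nat.cast_nonneg _
  have h2 : ((((bf 5 A ×ˢ bf 5 A).filter fun q => Lcp_few M q).card : ℝ) * P0) * (M : ℝ) ^ 30 ≤
      (32 * (2 * A + 1) ^ 30) * (M : ℝ) ^ 30 := by
    calc ((((bf 5 A ×ˢ bf 5 A).filter fun q => Lcp_few M q).card : ℝ) * P0) * (M : ℝ) ^ 30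
        ≤ ((((bf 5 A ×ˢ bf 5 A).filter fun q =>
        ((fun r => (q.1 r : ZMod M)), (fun r => (q.2 r : ZMod M))) ∈ DD).card : ℝ) * P0) * (M : ℝ) ^ 30 :=
          mul_le_mul_of_nonneg_right (mul_le_mul_of_nonneg_right e1 hP0) (by positivity)
      _ = P0 * ((((bf 5 A ×ˢ bf 5 A).filter fun q =>
        ((fun r => (q.1 r : ZMod M)), (fun r => (q.2 r : ZMod M))) ∈ DD).card : ℝ) * (M : ℝ) ^ 30) := by ring
      _ ≤ P0 * (4 * DD.card * (2 * A + 1) ^ 30) := mul_le_mul_of_nonneg_left h1 hP0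
      _ = 4 * (P0 * DD.card) * (2 * A + 1) ^ 30 := by ring
      _ ≤ 4 * (8 * (M : ℝ) ^ 30) * (2 * A + 1) ^ 30 := by
          apply mul_le_mul_of_nonneg_right _ (by positivity)
          exact mul_le_mul_of_nonneg_left e2 (by norm_num)
      _ = (32 * (2 * A + 1) ^ 30) * (M : ℝ) ^ 30 := by ring
  exact le_of_mul_le_mul_right h2 (by positivity)

private theorem Lcp_num (K δ : ℝ) (hK0 : 0 ≤ K) (hδ : 0 < δ) : ∃ n : ℕ, K / 2 ^ (n + 1) ≤ δ := by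
  obtain ⟨n, hn⟩ := exists_pow_lt_of_lt_one (show 0 < δ / (K + 1) by positivity)
    (show (1 / 2 : ℝ) < 1 by norm_num)
  refine ⟨n, ?_⟩
  have h3 : K / 2 ^ (n + 1) ≤ K * (1 / 2) ^ n := by
    rw [div_eq_mul_inv, one_div, inv_pow]
    refine mul_le_mul_of_nonneg_left ?_ hK0
    refine inv_anti₀ (by positivity) ?_
    exact pow_le_pow_right₀ (by norm_num) (by omega)
  have h4 : K * (1 / 2) ^ n ≤ K * (δ / (K + 1)) := mul_le_mul_of_nonneg_left hn.le hK0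
  have h5 : K * (δ / (K + 1)) ≤ δ := by
    rw [mul_div_assoc', div_le_iff₀ (by positivity)]
    nlinarith
  linarith

open scoped Classical in
theorem lcp (δ : ℝ) (hδ : 0 < δ) : ∃ c1 : ℝ, 0 < c1 ∧ ∀ N : ℕ, ∃ A0 : ℕ, ∀ A ≥ A0,
    (((bf 5 A ×ˢ bf 5 A).filter fun q => (∀ (p : ℕ) [Fact p.Prime], HZ ℚ_[p] q.1 q.2) ∧
      ((LS q.1 q.2 N.factorial).card : ℝ) < c1 * ((N.factorial : ℕ) : ℝ) ^ 3).card : ℝ) ≤
        δ * (2 * A + 1) ^ 30 := by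
  obtain ⟨P0, hP0⟩ := exists_nat_ge (max 1 (64 / δ))
  have hP1 : 1 ≤ P0 := by
    have : (1 : ℝ) ≤ P0 := (le_max_left _ _).trans hP0
    exact_mod_cast this
  have hP1R : (0 : ℝ) < P0 := by exact_mod_cast hP1
  have hPδ : 32 ≤ δ / 2 * P0 := by
    have : 64 / δ ≤ P0 := (le_max_right _ _).trans hP0
    rw [div_le_iff₀ hδ] at this
    linarith
  obtain ⟨n, hn⟩ := Lcp_num (60 * P0) (δ / 2) (by positivity) (by positivity)
  obtain ⟨s, hs⟩ : ∃ s : ℕ, s = n + 1 := ⟨_, rfl⟩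
  rw [← hs] at hn
  have hs0 : 0 < s := by omega
  obtain ⟨T, hT⟩ : ∃ T : Finset ℕ, T = (Icc 1 P0).filter Nat.Prime := ⟨_, rfl⟩
  have hTp : ∀ p ∈ T, p.Prime := by
    intro p hp
    rw [hT, mem_filter] at hp
    exact hp.2
  have hTc : (T.card : ℝ) ≤ P0 := by
    have h1 : T.card ≤ P0 := by
      rw [hT]
      refine (card_filter_le _ _).trans ?_
      rw [Nat.card_Icc]
      omega
    exact_mod_cast h1
  obtain ⟨K, hK⟩ : ∃ K : ℕ, K = ∏ p ∈ T, p ^ (6 * s) := ⟨_, rfl⟩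
  have hK0 : 0 < K := by
    rw [hK]
    exact prod_pos fun p hp => pow_pos (hTp p hp).pos _
  have hK0R : (0 : ℝ) < K := by exact_mod_cast hK0
  refine ⟨1 / (2 * K), by positivity, fun N => ?_⟩
  -- the two parts of the factorial
  obtain ⟨F, hF⟩ : ∃ F : ℕ, F = N.factorial := ⟨_, rfl⟩
  have hF0 : F ≠ 0 := by
    rw [hF]
    exact N.factorial_ne_zero
  rw [← hF]
  obtain ⟨S1, hS1⟩ : ∃ S : Finset ℕ, S = F.primeFactors.filter (fun p => p ≤ P0) := ⟨_, rfl⟩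
  obtain ⟨S2, hS2⟩ : ∃ S : Finset ℕ, S = F.primeFactors.filter (fun p => ¬ p ≤ P0) := ⟨_, rfl⟩
  have hS1m : ∀ p ∈ S1, p.Prime ∧ p ≤ P0 := by
    intro p hp
    rw [hS1, mem_filter] at hp
    exact ⟨Nat.prime_of_mem_primeFactors hp.1, hp.2⟩
  have hS2m : ∀ p ∈ S2, p.Prime ∧ P0 < p := by
    intro p hp
    rw [hS2, mem_filter] at hp
    exact ⟨Nat.prime_of_mem_primeFactors hp.1, not_le.1 hp.2⟩
  obtain ⟨M1, hM1⟩ : ∃ M : ℕ, M = ∏ p ∈ S1, p ^ (F.factorization p) := ⟨_, rfl⟩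
  obtain ⟨M2, hM2⟩ : ∃ M : ℕ, M = ∏ p ∈ S2, p ^ (F.factorization p) := ⟨_, rfl⟩
  have hM1p : 0 < M1 := by
    rw [hM1]
    exact prod_pos fun p hp => pow_pos (hS1m p hp).1.pos _
  have hM2p : 0 < M2 := by
    rw [hM2]
    exact prod_pos fun p hp => pow_pos (hS2m p hp).1.pos _
  have hFM : F = M1 * M2 := by
    rw [hM1, hM2, hS1, hS2, prod_filter_mul_prod_filter_not]
    exact (Nat.prod_factorization_pow_eq_self hF0).symm
  have hd1 : ∀ p : ℕ, p.Prime → p ∣ M1 → p ≤ P0 := by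
    intro p hp hd
    rw [hM1] at hd
    obtain ⟨r, hr, hd2⟩ := (Prime.dvd_finset_prod_iff hp.prime _).1 hd
    have := (Nat.prime_dvd_prime_iff_eq hp (hS1m r hr).1).1 (hp.dvd_of_dvd_pow hd2)
    rw [this]
    exact (hS1m r hr).2
  have hd2 : ∀ p : ℕ, p.Prime → p ∣ M2 → P0 < p := by
    intro p hp hd
    rw [hM2] at hd
    obtain ⟨r, hr, hd2⟩ := (Prime.dvd_finset_prod_iff hp.prime _).1 hd
    have := (Nat.prime_dvd_prime_iff_eq hp (hS2m r hr).1).1 (hp.dvd_of_dvd_pow hd2)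
    rw [this]
    exact (hS2m r hr).2
  have hcop : Nat.Coprime M1 M2 := by
    by_contra hnc
    obtain ⟨p, hp, hp1, hp2⟩ := Nat.Prime.not_coprime_iff_dvd.mp hnc
    have h3 := hd1 p hp hp1
    have h4 := hd2 p hp hp2
    omega
  -- the exceptional pairs
  have hone : ∀ p ∈ T, ∃ A0 : ℕ, ∀ A ≥ A0,
      (((bf 5 A ×ˢ bf 5 A).filter fun q => Lcp_dg p s q).card : ℝ) ≤ 60 / 2 ^ s * (2 * A + 1) ^ 30 :=
    fun p hp => Lcp_one p (hTp p hp) s hs0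
  choose! A1 hA1 using hone
  obtain ⟨A2, hA2⟩ := Lcp_big M2 P0 hM2p hP1 hd2
  refine ⟨max (T.sup A1) A2, fun A hA => ?_⟩
  have hX : (0 : ℝ) < (2 * (A : ℝ) + 1) ^ 30 := by positivity
  have hE1 : ∑ p ∈ T, (((bf 5 A ×ˢ bf 5 A).filter fun q => Lcp_dg p s q).card : ℝ) ≤
      δ / 2 * (2 * A + 1) ^ 30 := by
    have h1 : ∀ p ∈ T, (((bf 5 A ×ˢ bf 5 A).filter fun q => Lcp_dg p s q).card : ℝ) ≤
        60 / 2 ^ s * (2 * A + 1) ^ 30 := by
      intro p hp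
      exact hA1 p hp A (le_trans (le_sup (f := A1) hp) ((le_max_left _ _).trans hA))
    refine (sum_le_card_nsmul _ _ _ h1).trans ?_
    rw [nsmul_eq_mul, ← mul_assoc]
    apply mul_le_mul_of_nonneg_right _ hX.le
    refine le_trans ?_ hn
    calc (T.card : ℝ) * (60 / 2 ^ s) ≤ P0 * (60 / 2 ^ s) := mul_le_mul_of_nonneg_right hTc (by positivity)
      _ = 60 * P0 / 2 ^ s := by ring
  have hE2 : (((bf 5 A ×ˢ bf 5 A).filter fun q => Lcp_few M2 q).card : ℝ) ≤ δ / 2 * (2 * A + 1) ^ 30 := by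
    have h1 := hA2 A ((le_max_right _ _).trans hA)
    refine le_of_mul_le_mul_right (h1.trans ?_) hP1R
    calc 32 * (2 * (A : ℝ) + 1) ^ 30 ≤ (δ / 2 * P0) * (2 * A + 1) ^ 30 :=
          mul_le_mul_of_nonneg_right hPδ hX.le
      _ = δ / 2 * (2 * A + 1) ^ 30 * P0 := by ring
  have hsub : ((bf 5 A ×ˢ bf 5 A).filter fun q => (∀ (p : ℕ) [Fact p.Prime], HZ ℚ_[p] q.1 q.2) ∧
      ((LS q.1 q.2 F).card : ℝ) < 1 / (2 * K) * ((F : ℕ) : ℝ) ^ 3) ⊆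
      (T.biUnion fun p => (bf 5 A ×ˢ bf 5 A).filter fun q => Lcp_dg p s q) ∪
        ((bf 5 A ×ˢ bf 5 A).filter fun q => Lcp_few M2 q) := by
    intro q hq
    rw [mem_filter] at hq
    obtain ⟨hqA, hqz, hqc⟩ := hq
    by_contra hcon
    rw [mem_union, not_or, mem_biUnion, mem_filter] at hcon
    obtain ⟨hc1, hc2⟩ := hcon
    have hnd : ∀ p ∈ T, ¬ Lcp_dg p s q := by
      intro p hp hdg
      exact hc1 ⟨p, hp, mem_filter.2 ⟨hqA, hdg⟩⟩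
    have hnf : M2 ^ 3 ≤ 2 * (LS q.1 q.2 M2).card := by
      by_contra hlt
      exact hc2 ⟨hqA, not_le.1 hlt⟩
    have hT1 : ∀ p ∈ S1, p ∈ T := by
      intro p hp
      rw [hT, mem_filter, mem_Icc]
      exact ⟨⟨(hS1m p hp).1.one_lt.le, (hS1m p hp).2⟩, (hS1m p hp).1⟩
    have hp1 : ∀ p ∈ S1, (p ^ (F.factorization p)) ^ 3 ≤
        p ^ (6 * s) * (LS q.1 q.2 (p ^ (F.factorization p))).card := by
      intro p hp
      haveI : Fact p.Prime := ⟨(hS1m p hp).1⟩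
      have h1 := lpa p s hs0 q.1 q.2 (hqz p) (hnd p (hT1 p hp)) (F.factorization p)
      rw [← pow_mul, mul_comm (F.factorization p) 3]
      exact h1
    have hp2 : M1 ^ 3 ≤ K * (LS q.1 q.2 M1).card := by
      have h1 : M1 ^ 3 = ∏ p ∈ S1, (p ^ (F.factorization p)) ^ 3 := by
        rw [hM1, prod_pow]
      rw [h1]
      refine (prod_le_prod' hp1).trans ?_
      rw [prod_mul_distrib]
      apply Nat.mul_le_mul
      · rw [hK]
        exact prod_le_prod_of_subset_of_one_le' (fun p hp => hT1 p hp)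
          (fun p hp _ => Nat.one_le_iff_ne_zero.2 (pow_ne_zero _ (hTp p hp).ne_zero))
      · have h2 := ls_prod q.1 q.2 S1 (fun p hp => (hS1m p hp).1) (fun p => F.factorization p)
        rw [hM1]
        exact h2
    have h3 := ls_mul q.1 q.2 M1 M2 hM1p hM2p hcop
    rw [← hFM] at h3
    have h4 : F ^ 3 ≤ 2 * K * (LS q.1 q.2 F).card := by
      calc F ^ 3 = M1 ^ 3 * M2 ^ 3 := by rw [hFM, mul_pow]
        _ ≤ (K * (LS q.1 q.2 M1).card) * (2 * (LS q.1 q.2 M2).card) := Nat.mul_le_mul hp2 hnf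
        _ = 2 * K * ((LS q.1 q.2 M1).card * (LS q.1 q.2 M2).card) := by ring
        _ ≤ 2 * K * (LS q.1 q.2 F).card := Nat.mul_le_mul_left _ h3
    have h5 : (F : ℝ) ^ 3 ≤ 2 * K * ((LS q.1 q.2 F).card : ℝ) := by exact_mod_cast h4
    have h6 : 1 / (2 * (K : ℝ)) * (F : ℝ) ^ 3 ≤ ((LS q.1 q.2 F).card : ℝ) := by
      rw [div_mul_eq_mul_div, one_mul, div_le_iff₀ (by positivity)]
      linarith
    linarith
  have hcard := (card_le_card hsub).trans ((card_union_le _ _).trans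
    (Nat.add_le_add_right card_biUnion_le _))
  have hcardR : ((((bf 5 A ×ˢ bf 5 A).filter fun q => (∀ (p : ℕ) [Fact p.Prime], HZ ℚ_[p] q.1 q.2) ∧
      ((LS q.1 q.2 F).card : ℝ) < 1 / (2 * K) * ((F : ℕ) : ℝ) ^ 3)).card : ℝ) ≤
      ∑ p ∈ T, (((bf 5 A ×ˢ bf 5 A).filter fun q => Lcp_dg p s q).card : ℝ) +
      (((bf 5 A ×ˢ bf 5 A).filter fun q => Lcp_few M2 q).card : ℝ) := by
    exact_mod_cast hcard
  refine hcardR.trans ?_
  linarith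

end Pool.Agent.H7.PQ
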