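import Pool.Agent.H7.PQ.Defs
import Pool.Agent.H7.HP.Cmp

set_option autoImplicit false

/-!
# [H7 PQ PRM] exchange of two coordinates, 50-80 lines

`sw i f = cmp T f` (module `HP/Cmp.lean`) with the permutation matrix `T a b = 1` if `a = swap 1 i b`, otherwise `0`: `(T x)_a = x (swap 1 i a)`.
* `sw_qv`: `qv_cmp`, `cmp_map`. * `sw_mem`: the coefficients of `cmp T f` are `qv f e_a` (equal to the coefficient of index `(a,a)`) or `pl f e_a e_b` with `a ≠ b` (equal to the coefficient of the sorted pair `{a, b}`). * `sw_sw`: `cmp_cmp`, `T * T = 1`, `cmp_one`.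
* `sw_hz`, `sw_iz`: composition of the vector with the swap.
-/

namespace Pool.Agent.H7.PQ

open Finset Pool.Agent.H7.HP

/-- exchange of the coordinates 1 and `i` -/
def sw (i : Fin 5) (f : Idx 5 → ℤ) : Idx 5 → ℤ :=
  cmp (Matrix.of fun a b => if a = Equiv.swap 1 i b then 1 else 0) f

private theorem Prm_mulVec {R : Type*} [CommRing R] (i : Fin 5) (x : Fin 5 → R) :
    (Matrix.of fun a b : Fin 5 => if a = Equiv.swap 1 i b then (1 : R) else 0).mulVec x =
      fun a => x (Equiv.swap 1 i a) := by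
  funext a
  rw [Matrix.mulVec, dotProduct, sum_eq_single (Equiv.swap 1 i a)]
  · rw [Matrix.of_apply, Equiv.swap_apply_self, if_pos rfl, one_mul]
  · intro b _ hb
    rw [Matrix.of_apply, if_neg, zero_mul]
    intro h
    apply hb
    rw [h, Equiv.swap_apply_self]
  · intro h
    exact absurd (mem_univ _) h

theorem sw_qv {R : Type*} [CommRing R] (i : Fin 5) (f : Idx 5 → ℤ) (x : Fin 5 → R) :
    qv (fun p => (sw i f p : R)) x = qv (fun p => (f p : R)) (fun a => x (Equiv.swap 1 i a)) := by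
  have h1 := cmp_map (Int.castRingHom R)
    (Matrix.of fun a b : Fin 5 => if a = Equiv.swap 1 i b then (1 : ℤ) else 0) f
  have h2 : (Matrix.of fun a b : Fin 5 => if a = Equiv.swap 1 i b then (1 : ℤ) else 0).map
      (Int.castRingHom R) = Matrix.of fun a b : Fin 5 => if a = Equiv.swap 1 i b then (1 : R) else 0 := by
    ext a b
    rw [Matrix.map_apply, Matrix.of_apply, Matrix.of_apply]
    split_ifs
    · exact map_one _
    · exact map_zero _
  rw [h2] at h1
  have h3 : (fun p => (sw i f p : R)) =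
      cmp (Matrix.of fun a b : Fin 5 => if a = Equiv.swap 1 i b then (1 : R) else 0)
        (fun p => (f p : R)) := h1.symm
  rw [h3, qv_cmp, Prm_mulVec]

private theorem Prm_col (i b : Fin 5) :
    (fun k => (Matrix.of fun a b : Fin 5 => if a = Equiv.swap 1 i b then (1 : ℤ) else 0) k b) =
      Pi.single (Equiv.swap 1 i b) 1 := by
  funext k
  rw [Matrix.of_apply, Pi.single_apply]

private theorem Prm_one (b : Fin 5) :
    (fun k => (1 : Matrix (Fin 5) (Fin 5) ℤ) k b) = Pi.single b 1 := by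
  funext k
  rw [Matrix.one_apply, Pi.single_apply]

private theorem Prm_qv (f : Idx 5 → ℤ) (a : Fin 5) :
    qv f (Pi.single a 1) = f ⟨(a, a), le_rfl⟩ := by
  have h := congrFun (cmp_one f) ⟨(a, a), le_rfl⟩
  unfold HP.cmp at h
  rw [if_pos rfl, Prm_one] at h
  exact h

private theorem Prm_pl (f : Idx 5 → ℤ) (a b : Fin 5) (hab : a < b) :
    pl f (Pi.single a 1) (Pi.single b 1) = f ⟨(a, b), hab.le⟩ := by
  have h := congrFun (cmp_one f) ⟨(a, b), hab.le⟩
  unfold HP.cmp at h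
  rw [if_neg hab.ne, Prm_one, Prm_one] at h
  exact h

theorem sw_mem {i : Fin 5} {f : Idx 5 → ℤ} {A : ℕ} (h : f ∈ bf 5 A) : sw i f ∈ bf 5 A := by
  rw [mem_bf] at h ⊢
  intro p
  unfold sw HP.cmp
  rw [Prm_col, Prm_col]
  split_ifs with e
  · rw [Prm_qv]
    exact h _
  · have hne : Equiv.swap 1 i p.1.1 ≠ Equiv.swap 1 i p.1.2 := fun h0 =>
      e ((Equiv.swap 1 i).injective h0)
    rcases lt_or_gt_of_ne hne with hlt | hgt
    · rw [Prm_pl f _ _ hlt]
      exact h _
    · rw [pl_comm, Prm_pl f _ _ hgt]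
      exact h _

theorem sw_sw (i : Fin 5) (f : Idx 5 → ℤ) : sw i (sw i f) = f := by
  unfold sw
  rw [cmp_cmp]
  have h : (Matrix.of fun a b : Fin 5 => if a = Equiv.swap 1 i b then (1 : ℤ) else 0) *
      (Matrix.of fun a b : Fin 5 => if a = Equiv.swap 1 i b then (1 : ℤ) else 0) = 1 := by
    ext a c
    have h1 := congrFun (Prm_mulVec (R := ℤ) i
      (fun b => (Matrix.of fun a b : Fin 5 => if a = Equiv.swap 1 i b then (1 : ℤ) else 0) b c)) a
    rw [Matrix.mul_apply]
    have h2 : ∑ j, (Matrix.of fun a b : Fin 5 => if a = Equiv.swap 1 i b then (1 : ℤ) else 0) a j *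
        (Matrix.of fun a b : Fin 5 => if a = Equiv.swap 1 i b then (1 : ℤ) else 0) j c =
        (Matrix.of fun a b : Fin 5 => if a = Equiv.swap 1 i b then (1 : ℤ) else 0)
          (Equiv.swap 1 i a) c := h1
    rw [h2, Matrix.of_apply, Matrix.one_apply]
    simp only [(Equiv.swap 1 i).injective.eq_iff]
  rw [h, cmp_one]

private theorem Prm_ne {R : Type*} [CommRing R] (i : Fin 5) {x : Fin 5 → R} (hx : x ≠ 0) :
    (fun a => x (Equiv.swap 1 i a)) ≠ 0 := by
  intro h
  apply hx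
  funext a
  have h1 : x (Equiv.swap 1 i (Equiv.swap 1 i a)) = 0 := congrFun h (Equiv.swap 1 i a)
  rw [Equiv.swap_apply_self] at h1
  exact h1

private theorem Prm_inv {R : Type*} [CommRing R] (i : Fin 5) (x : Fin 5 → R) :
    (fun a => (fun b => x (Equiv.swap 1 i b)) (Equiv.swap 1 i a)) = x := by
  funext a
  change x (Equiv.swap 1 i (Equiv.swap 1 i a)) = x a
  rw [Equiv.swap_apply_self]

theorem sw_hz {R : Type} [CommRing R] (i : Fin 5) (f g : Idx 5 → ℤ) :
    HZ R (sw i f) (sw i g) ↔ HZ R f g := by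
  constructor
  · rintro ⟨x, hx, h1, h2⟩
    rw [sw_qv] at h1 h2
    exact ⟨_, Prm_ne i hx, h1, h2⟩
  · rintro ⟨x, hx, h1, h2⟩
    refine ⟨_, Prm_ne i hx, ?_, ?_⟩
    · rw [sw_qv, Prm_inv]; exact h1
    · rw [sw_qv, Prm_inv]; exact h2

private theorem Prm_int (i : Fin 5) (f : Idx 5 → ℤ) (x : Fin 5 → ℤ) :
    qv (sw i f) x = qv f (fun a => x (Equiv.swap 1 i a)) := by
  have := sw_qv (R := ℤ) i f x
  simpa only [Int.cast_id] using this

theorem sw_iz (i : Fin 5) (f g : Idx 5 → ℤ) (H : ℝ) : IZ (sw i f) (sw i g) H ↔ IZ f g H := by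
  constructor
  · rintro ⟨x, hx, h1, h2, h3⟩
    rw [Prm_int] at h1 h2
    exact ⟨_, Prm_ne i hx, h1, h2, fun a => h3 _⟩
  · rintro ⟨x, hx, h1, h2, h3⟩
    refine ⟨_, Prm_ne i hx, ?_, ?_, fun a => h3 (Equiv.swap 1 i a)⟩
    · rw [Prm_int, Prm_inv]; exact h1
    · rw [Prm_int, Prm_inv]; exact h2

end Pool.Agent.H7.PQ
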