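import Pool.Agent.H7.PQ.Cor
import Pool.Agent.H7.PQ.Lcp
import Pool.Agent.H7.PQ.Dgr
import Pool.Agent.H7.PQ.Prm

set_option autoImplicit false

/-!
# [H7 PQ FIN] the theorem, 90-140 lines

`τ' = min τ (1/1000)` (`IZ f g (A^(2+τ'))` implies `IZ f g (A^(2+τ))` for `A ≥ 1`). `δ' = δ/15`. `c1` from `lcp δ'`, `C` from `dgr`, `η = min 1 (δ'/C)`, `N = N0` from `cor2 c1 η δ' τ'`; `A0` large (`1 ≤ η A`).
`E1` = the set of `lcp` for `N`, `E2` = the set of `dgr`, `E3` = the set of `cor2`; `E = E1 ∪ E2 ∪ E3`, `#E ≤ 3 δ' (2A+1)^30`.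
Let `q = (f, g) ∈ bf 5 A ×ˢ bf 5 A` be in the set of the statement. `x` a real zero, `x ≠ 0`, `i` with `|x i|` maximal, `x i ≠ 0`. `q' = (sw i f, sw i g)`: in the same box, zeros over all `ℚ_p`, no `IZ` (`sw_hz`, `sw_iz`). The vector `x' a = x (swap 1 i a) / x i` is a real zero of `q'` (`sw_qv`, `qv_smul`), `x' 1 = 1`, `|x' a| ≤ 1`.
If `x'` is not `RZ η A` then `q' ∈ E2`; otherwise `q' ∈ E1` or `q' ∈ E3`. So `q` is in the union over the 5 indices `i` of the preimages of `E` under the injective maps `q ↦ (sw i q.1, sw i q.2)`: at most `5 * 3 δ' (2A+1)^30 = δ (2A+1)^30`.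
-/

namespace Pool.Agent.H7.PQ

open Finset Pool.Agent.H7.HP

private theorem fin_real {f g : Idx 5 → ℤ} (h : HZ ℝ f g) : ∃ (i : Fin 5) (x : Fin 5 → ℝ),
    x 1 = 1 ∧ (∀ a, |x a| ≤ 1) ∧ qv (fun p => (sw i f p : ℝ)) x = 0 ∧
      qv (fun p => (sw i g p : ℝ)) x = 0 := by
  obtain ⟨x, hx, h1, h2⟩ := h
  obtain ⟨i, hi⟩ := Finite.exists_max (fun a => |x a|)
  have hxi : x i ≠ 0 := by
    intro h0
    apply hx
    funext a
    have h3 := hi a
    simp only [h0, abs_zero] at h3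
    exact abs_eq_zero.1 (le_antisymm h3 (abs_nonneg _))
  refine ⟨i, fun a => (x i)⁻¹ * x (Equiv.swap 1 i a), ?_, ?_, ?_, ?_⟩
  · simp only [Equiv.swap_apply_left]
    exact inv_mul_cancel₀ hxi
  · intro a
    rw [abs_mul, abs_inv, inv_mul_le_iff₀ (abs_pos.2 hxi), mul_one]
    exact hi _
  · rw [sw_qv]
    simp only [Equiv.swap_apply_self]
    have h3 := qv_smul (fun p => (f p : ℝ)) (x i)⁻¹ x
    rw [h1, mul_zero] at h3
    exact h3
  · rw [sw_qv]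
    simp only [Equiv.swap_apply_self]
    have h3 := qv_smul (fun p => (g p : ℝ)) (x i)⁻¹ x
    rw [h2, mul_zero] at h3
    exact h3

private theorem fin_card {α : Type*} [DecidableEq α] (φ : Fin 5 → α → α)
    (hφ : ∀ i q, φ i (φ i q) = q) (F E1 E2 E3 : Finset α) (t : ℝ)
    (h : ∀ q ∈ F, ∃ i, φ i q ∈ E1 ∨ φ i q ∈ E2 ∨ φ i q ∈ E3)
    (h1 : (E1.card : ℝ) ≤ t) (h2 : (E2.card : ℝ) ≤ t) (h3 : (E3.card : ℝ) ≤ t) :
    (F.card : ℝ) ≤ 15 * t := by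
  have hsub : F ⊆ (univ : Finset (Fin 5)).biUnion fun i => (E1 ∪ E2 ∪ E3).image (φ i) := by
    intro q hq
    obtain ⟨i, hi⟩ := h q hq
    rw [mem_biUnion]
    refine ⟨i, mem_univ _, ?_⟩
    rw [mem_image]
    refine ⟨φ i q, ?_, hφ i q⟩
    rw [mem_union, mem_union]
    tauto
  have hc : F.card ≤ 5 * (E1.card + E2.card + E3.card) := by
    refine (card_le_card hsub).trans (card_biUnion_le.trans ?_)
    refine (sum_le_sum fun i _ => card_image_le).trans ?_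
    rw [sum_const, card_univ, Fintype.card_fin, smul_eq_mul]
    refine Nat.mul_le_mul_left 5 ?_
    exact (card_union_le _ _).trans (Nat.add_le_add_right (card_union_le _ _) _)
  have hc' : (F.card : ℝ) ≤ 5 * ((E1.card : ℝ) + E2.card + E3.card) := by exact_mod_cast hc
  linarith

open scoped Classical in
theorem fin2 (τ δ : ℝ) (hτ : 0 < τ) (hδ : 0 < δ) : ∃ A0 : ℕ, ∀ A ≥ A0,
    (((bf 5 A ×ˢ bf 5 A).filter fun q => EL q.1 q.2 ∧
      ¬ IZ q.1 q.2 ((A : ℝ) ^ (2 + τ))).card : ℝ) ≤ δ * (2 * A + 1) ^ 30 := by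
  have hδ' : 0 < δ / 15 := by positivity
  have hτ' : 0 < min τ (1 / 1000) := lt_min hτ (by norm_num)
  obtain ⟨c1, hc1, hlcp⟩ := lcp (δ / 15) hδ'
  obtain ⟨C, hC, hdgr⟩ := dgr
  obtain ⟨η, hη, hη1, hCη⟩ : ∃ η : ℝ, 0 < η ∧ η ≤ 1 ∧ C * η ≤ δ / 15 := by
    refine ⟨min 1 (δ / 15 / C), lt_min one_pos (by positivity), min_le_left _ _, ?_⟩
    calc C * min 1 (δ / 15 / C) ≤ C * (δ / 15 / C) :=
          mul_le_mul_of_nonneg_left (min_le_right _ _) hC.le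
      _ = δ / 15 := by field_simp
  obtain ⟨N0, hN0⟩ := cor2 c1 η (δ / 15) (min τ (1 / 1000)) hc1 hη hδ' hτ' (min_le_right _ _)
  obtain ⟨A1, hA1⟩ := hN0 N0 le_rfl
  obtain ⟨A2, hA2⟩ := hlcp N0
  refine ⟨max (max A1 A2) (max 1 ⌈1 / η⌉₊), fun A hA => ?_⟩
  have hAA1 : A1 ≤ A := ((le_max_left _ _).trans (le_max_left _ _)).trans hA
  have hAA2 : A2 ≤ A := ((le_max_right _ _).trans (le_max_left _ _)).trans hA
  have hA3 : 1 ≤ A := ((le_max_left _ _).trans (le_max_right _ _)).trans hA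
  have hA4 : ⌈1 / η⌉₊ ≤ A := ((le_max_right _ _).trans (le_max_right _ _)).trans hA
  have hAr : (1 : ℝ) ≤ A := by exact_mod_cast hA3
  have hηA : 1 ≤ η * A := by
    have h1 : 1 / η ≤ (A : ℝ) := (Nat.le_ceil _).trans (by exact_mod_cast hA4)
    rwa [div_le_iff₀' hη] at h1
  have e1 := hA2 A hAA2
  have e2 := hdgr η A hη hη1 hηA
  have e3 := hA1 A hAA1
  have e2' := e2.trans (mul_le_mul_of_nonneg_right hCη (by positivity : (0 : ℝ) ≤ (2 * A + 1) ^ 30))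
  have hfin := fin_card (fun (i : Fin 5) (q : (Idx 5 → ℤ) × (Idx 5 → ℤ)) => (sw i q.1, sw i q.2))
    (fun i q => by simp only [sw_sw])
    ((bf 5 A ×ˢ bf 5 A).filter fun q => EL q.1 q.2 ∧ ¬ IZ q.1 q.2 ((A : ℝ) ^ (2 + τ)))
    _ _ _ (δ / 15 * (2 * A + 1) ^ 30) ?_ e1 e2' e3
  · refine hfin.trans (le_of_eq ?_)
    ring
  intro q hq
  rw [mem_filter, mem_product] at hq
  obtain ⟨⟨hf, hg⟩, ⟨hR, hp⟩, hno⟩ := hq
  obtain ⟨i, x, hx1, hx2, hx3, hx4⟩ := fin_real hR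
  refine ⟨i, ?_⟩
  have hmem : (sw i q.1, sw i q.2) ∈ bf 5 A ×ˢ bf 5 A := mem_product.2 ⟨sw_mem hf, sw_mem hg⟩
  have hno' : ¬ IZ (sw i q.1) (sw i q.2) ((A : ℝ) ^ (2 + min τ (1 / 1000))) := by
    rw [sw_iz]
    rintro ⟨z, hz0, hz1, hz2, hz3⟩
    refine hno ⟨z, hz0, hz1, hz2, fun a => (hz3 a).trans ?_⟩
    refine Real.rpow_le_rpow_of_exponent_le hAr ?_
    have : min τ (1 / 1000) ≤ τ := min_le_left _ _
    linarith
  by_cases hRZ : RZ η A (fun p => (sw i q.1 p : ℝ)) (fun p => (sw i q.2 p : ℝ)) x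
  · by_cases hL : ((LS (sw i q.1) (sw i q.2) N0.factorial).card : ℝ) <
        c1 * ((N0.factorial : ℕ) : ℝ) ^ 3
    · left
      rw [mem_filter]
      refine ⟨hmem, ?_, hL⟩
      intro p hpp
      exact (sw_hz i q.1 q.2).2 (hp p)
    · right
      right
      rw [mem_filter]
      exact ⟨hmem, not_lt.1 hL, ⟨x, hRZ⟩, hno'⟩
  · right
    left
    rw [mem_filter]
    exact ⟨hmem, x, hx1, hx2, hx3, hx4, hRZ⟩

end Pool.Agent.H7.PQ
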