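import Pool.Agent.H7.PQ.Defs

set_option autoImplicit false

/-!
# [H7 PQ HEN] Hensel for two equations: many solutions near a nondegenerate one, 150-230 lines

Let `i, j` be with `p^(m+1)` not dividing `jm f g a i j` (`i ≠ j`), and `m' ≤ m` the exact valuation of `jm f g a i j`. `r0 = 2m + 2`.
STEP. Let `r ≥ r0`, `x ∈ ℤ^5` with `f(x) ≡ g(x) ≡ 0 mod p^r`, `x ≡ a mod p^(m+1)`; then `D = jm f g x i j ≡ jm f g a i j mod p^(m+1)` has valuation `m'`: `D = p^m' * w`, `w` prime to `p`. There is `x' ` with `x'_k = x_k` for `k ≠ i, j`, `x' ≡ x mod p^(r-m)` (so `x' ≡ a mod p^(m+1)`), `f(x') ≡ g(x') ≡ 0 mod p^(r+1)`: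
write `f(x) = p^r F`, `g(x) = p^r G`, `w w' ≡ 1 mod p`, `a1 = pl f x e_i`, `b1 = pl f x e_j`, `a2 = pl g x e_i`, `b2 = pl g x e_j` (`D = a1 b2 - b1 a2`), `h_i = - p^(r-m') w' (b2 F - b1 G)`, `h_j = - p^(r-m') w' (a1 G - a2 F)`, `x' = x + h_i e_i + h_j e_j`. `f(x') = f(x) + a1 h_i + b1 h_j + (quadratic in h)`,
`a1 h_i + b1 h_j = - p^(r-m') w' D F = - p^r w' w F ≡ - p^r F mod p^(r+1)`, the quadratic terms are divisible by `p^(2(r-m'))` and `2(r-m') ≥ r+1`. The same for `g`.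
COUNT. `e ≤ r0`: `LS f g (p^e)` is not empty (the residue of `a` modulo `p^e`; for `e = 0` it is `{0}`), `p^(3e) ≤ p^(6m+6)`. `e > r0`: for each `b` in the set of the triples `(b_k)_{k ≠ i, j}`, `0 ≤ b_k < p^e`, `b_k ≡ a_k mod p^r0` (`p^(3(e - r0))` triples) start with `x_k = b_k`, `x_i = a_i`, `x_j = a_j` (`f(x) ≡ f(a) ≡ 0 mod p^r0`) and apply the step
`e - r0` times; reduce `x_i`, `x_j` modulo `p^e`. The result is in `LS f g (p^e)` (not all coordinates divisible by `p`: `x ≡ a mod p`) and has the coordinates `b_k`: different triples give different elements. So `#LS ≥ p^(3(e-r0))`.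
-/

namespace Pool.Agent.H7.PQ

open Finset Pool.Agent.H7.HP

private theorem Hen_cong (M : ℕ) {x y : Fin 5 → ℤ} (h : ∀ i, (M : ℤ) ∣ x i - y i) :
    (fun i => Int.castRingHom (ZMod M) (x i)) = fun i => Int.castRingHom (ZMod M) (y i) := by
  ext i
  exact ((ZMod.intCast_eq_intCast_iff_dvd_sub (y i) (x i) M).2 (h i)).symm

private theorem Hen_qv (M : ℕ) (c : Idx 5 → ℤ) {x y : Fin 5 → ℤ}
    (h : ∀ i, (M : ℤ) ∣ x i - y i) : (M : ℤ) ∣ qv c x - qv c y := by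
  rw [← ZMod.intCast_eq_intCast_iff_dvd_sub]
  have h1 := qv_map (Int.castRingHom (ZMod M)) c x
  have h2 := qv_map (Int.castRingHom (ZMod M)) c y
  rw [Hen_cong M h] at h1
  exact h2.trans h1.symm

private theorem Hen_qv0 (M : ℕ) (c : Idx 5 → ℤ) {x y : Fin 5 → ℤ}
    (h : ∀ i, (M : ℤ) ∣ x i - y i) (hy : (M : ℤ) ∣ qv c y) : (M : ℤ) ∣ qv c x := by
  have h1 := Hen_qv M c h
  have h2 := dvd_add h1 hy
  rwa [sub_add_cancel] at h2

private theorem Hen_jm (M : ℕ) (f g : Idx 5 → ℤ) {x y : Fin 5 → ℤ}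
    (h : ∀ i, (M : ℤ) ∣ x i - y i) (i j : Fin 5) :
    (M : ℤ) ∣ jm f g x i j - jm f g y i j := by
  rw [← ZMod.intCast_eq_intCast_iff_dvd_sub]
  have h1 : ∀ (c : Idx 5 → ℤ) (e : Fin 5 → ℤ), Int.castRingHom (ZMod M) (pl c y e) =
      Int.castRingHom (ZMod M) (pl c x e) := by
    intro c e
    rw [pl_map, pl_map, Hen_cong M h]
  show Int.castRingHom (ZMod M) (jm f g y i j) = Int.castRingHom (ZMod M) (jm f g x i j)
  unfold jm
  rw [map_sub, map_mul, map_mul, map_sub, map_mul, map_mul, h1, h1, h1, h1]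

private theorem Hen_val {p : ℕ} (hp : p.Prime) {m : ℕ} {D : ℤ}
    (hd : ¬ ((p ^ (m + 1) : ℕ) : ℤ) ∣ D) :
    ∃ m' w w' u : ℤ, ∃ n : ℕ, n ≤ m ∧ D = (p : ℤ) ^ n * w ∧ w' * w = 1 - u * p ∧ m' = n := by
  have hD : D ≠ 0 := by
    rintro rfl
    exact hd (dvd_zero _)
  have hpp : Prime (p : ℤ) := Nat.prime_iff_prime_int.1 hp
  have hfin : FiniteMultiplicity (p : ℤ) D := FiniteMultiplicity.of_prime_left hpp hD
  obtain ⟨w, hw, hpw⟩ := hfin.exists_eq_pow_mul_and_not_dvd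
  have hle : multiplicity (p : ℤ) D ≤ m := by
    by_contra hcon
    push Not at hcon
    apply hd
    push_cast
    rw [hw]
    exact (pow_dvd_pow _ hcon).mul_right _
  have hcop : IsCoprime (p : ℤ) w := (Prime.coprime_iff_not_dvd hpp).2 hpw
  obtain ⟨u, v, huv⟩ := hcop
  exact ⟨_, w, v, u, multiplicity (p : ℤ) D, hle, hw, by linarith, rfl⟩

private theorem Hen_step {p : ℕ} (hp : p.Prime) {m r : ℕ} (hr : 2 * m + 2 ≤ r)
    (f g : Idx 5 → ℤ) (a : Fin 5 → ℤ) {i j : Fin 5}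
    (hd : ¬ ((p ^ (m + 1) : ℕ) : ℤ) ∣ jm f g a i j) (x : Fin 5 → ℤ)
    (hxa : ∀ k, ((p ^ (m + 1) : ℕ) : ℤ) ∣ x k - a k) (hf : ((p ^ r : ℕ) : ℤ) ∣ qv f x)
    (hg : ((p ^ r : ℕ) : ℤ) ∣ qv g x) :
    ∃ x' : Fin 5 → ℤ, (∀ k, k ≠ i → k ≠ j → x' k = x k) ∧
      (∀ k, ((p ^ (m + 1) : ℕ) : ℤ) ∣ x' k - a k) ∧ ((p ^ (r + 1) : ℕ) : ℤ) ∣ qv f x' ∧
      ((p ^ (r + 1) : ℕ) : ℤ) ∣ qv g x' := by
  have hdx : ¬ ((p ^ (m + 1) : ℕ) : ℤ) ∣ jm f g x i j := by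
    intro h
    apply hd
    have h1 := Hen_jm (p ^ (m + 1)) f g hxa i j
    have h2 := dvd_sub h h1
    rwa [sub_sub_cancel] at h2
  obtain ⟨_, w, w', u, n, hn, hD, hw, _⟩ := Hen_val hp hdx
  obtain ⟨F, hF⟩ := hf
  obtain ⟨G, hG⟩ := hg
  obtain ⟨P, hP⟩ : ∃ P : ℤ, P = (p : ℤ) := ⟨_, rfl⟩
  push_cast at hF hG hxa ⊢
  rw [← hP] at hF hG hD hw hxa ⊢
  obtain ⟨a1, ha1⟩ : ∃ a1, a1 = pl f x (Pi.single i 1) := ⟨_, rfl⟩
  obtain ⟨b1, hb1⟩ : ∃ b1, b1 = pl f x (Pi.single j 1) := ⟨_, rfl⟩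
  obtain ⟨a2, ha2⟩ : ∃ a2, a2 = pl g x (Pi.single i 1) := ⟨_, rfl⟩
  obtain ⟨b2, hb2⟩ : ∃ b2, b2 = pl g x (Pi.single j 1) := ⟨_, rfl⟩
  have hjm : jm f g x i j = a1 * b2 - b1 * a2 := by
    unfold jm
    rw [ha1, hb1, ha2, hb2]
  rw [hjm] at hD
  obtain ⟨si, hsi⟩ : ∃ si, si = -(w' * (b2 * F - b1 * G)) := ⟨_, rfl⟩
  obtain ⟨sj, hsj⟩ : ∃ sj, sj = -(w' * (a1 * G - a2 * F)) := ⟨_, rfl⟩
  obtain ⟨s, hs⟩ : ∃ s : Fin 5 → ℤ, s = fun k =>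
    si * (Pi.single i 1 : Fin 5 → ℤ) k + sj * (Pi.single j 1 : Fin 5 → ℤ) k := ⟨_, rfl⟩
  obtain ⟨t, ht⟩ := Nat.exists_eq_add_of_le (show n ≤ r by omega)
  have hTr : P ^ t * P ^ n = P ^ r := by rw [ht, pow_add, mul_comm]
  have hq : ∀ c : Idx 5 → ℤ, qv c (fun k => x k + P ^ t * s k) = qv c x + (P ^ t) ^ 2 * qv c s +
      P ^ t * (si * pl c x (Pi.single i 1) + sj * pl c x (Pi.single j 1)) := by
    intro c
    rw [qv_add c x (fun k => P ^ t * s k), qv_smul, pl_smul, hs,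
      pl_add c x (fun k => si * (Pi.single i 1 : Fin 5 → ℤ) k), pl_smul, pl_smul]
  have hsq : P ^ (r + 1) ∣ (P ^ t) ^ 2 := by
    rw [← pow_mul]
    exact pow_dvd_pow _ (by omega)
  refine ⟨fun k => x k + P ^ t * s k, ?_, ?_, ?_, ?_⟩
  · intro k hi hj
    show x k + P ^ t * s k = x k
    rw [hs]
    simp only [Pi.single_eq_of_ne hi, Pi.single_eq_of_ne hj]
    ring
  · intro k
    have h1 : x k + P ^ t * s k - a k = (x k - a k) + P ^ t * s k := by ring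
    show P ^ (m + 1) ∣ x k + P ^ t * s k - a k
    rw [h1]
    exact dvd_add (hxa k) ((pow_dvd_pow _ (by omega)).mul_right _)
  · rw [hq, hF, ← ha1, ← hb1]
    have h1 : P ^ r * F + (P ^ t) ^ 2 * qv f s + P ^ t * (si * a1 + sj * b1) =
        P ^ (r + 1) * (F * u) + (P ^ t) ^ 2 * qv f s := by
      have h2 : P ^ t * (si * a1 + sj * b1) = -(w' * F * (P ^ t * (a1 * b2 - b1 * a2))) := by
        rw [hsi, hsj]
        ring
      rw [h2, hD, ← mul_assoc (P ^ t), hTr]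
      have h3 : w' * F * (P ^ r * w) = P ^ r * F * (w' * w) := by ring
      rw [h3, hw]
      ring
    rw [h1]
    exact dvd_add (Dvd.intro _ rfl) (hsq.mul_right _)
  · rw [hq, hG, ← ha2, ← hb2]
    have h1 : P ^ r * G + (P ^ t) ^ 2 * qv g s + P ^ t * (si * a2 + sj * b2) =
        P ^ (r + 1) * (G * u) + (P ^ t) ^ 2 * qv g s := by
      have h2 : P ^ t * (si * a2 + sj * b2) = -(w' * G * (P ^ t * (a1 * b2 - b1 * a2))) := by
        rw [hsi, hsj]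
        ring
      rw [h2, hD, ← mul_assoc (P ^ t), hTr]
      have h3 : w' * G * (P ^ r * w) = P ^ r * G * (w' * w) := by ring
      rw [h3, hw]
      ring
    rw [h1]
    exact dvd_add (Dvd.intro _ rfl) (hsq.mul_right _)

private theorem Hen_iter {p : ℕ} (hp : p.Prime) {m : ℕ}
    (f g : Idx 5 → ℤ) (a : Fin 5 → ℤ) {i j : Fin 5}
    (hd : ¬ ((p ^ (m + 1) : ℕ) : ℤ) ∣ jm f g a i j) (x : Fin 5 → ℤ)
    (hxa : ∀ k, ((p ^ (m + 1) : ℕ) : ℤ) ∣ x k - a k)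
    (hf : ((p ^ (2 * m + 2) : ℕ) : ℤ) ∣ qv f x)
    (hg : ((p ^ (2 * m + 2) : ℕ) : ℤ) ∣ qv g x) (n : ℕ) :
    ∃ x' : Fin 5 → ℤ, (∀ k, k ≠ i → k ≠ j → x' k = x k) ∧
      (∀ k, ((p ^ (m + 1) : ℕ) : ℤ) ∣ x' k - a k) ∧
      ((p ^ (2 * m + 2 + n) : ℕ) : ℤ) ∣ qv f x' ∧
      ((p ^ (2 * m + 2 + n) : ℕ) : ℤ) ∣ qv g x' := by
  induction n with
  | zero => exact ⟨x, fun _ _ _ => rfl, hxa, hf, hg⟩
  | succ n ih =>
    obtain ⟨y, h1, h2, h3, h4⟩ := ih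
    obtain ⟨z, e1, e2, e3, e4⟩ := Hen_step hp (by omega) f g a hd y h2 h3 h4
    exact ⟨z, fun k hi hj => (e1 k hi hj).trans (h1 k hi hj), e2, e3, e4⟩

private theorem Hen_red {p : ℕ} (hp : p.Prime) (f g : Idx 5 → ℤ) (e : ℕ) {x : Fin 5 → ℤ}
    (hx : ¬ ∀ i, (p : ℤ) ∣ x i) (hf : ((p ^ e : ℕ) : ℤ) ∣ qv f x)
    (hg : ((p ^ e : ℕ) : ℤ) ∣ qv g x) :
    (fun k => x k % ((p ^ e : ℕ) : ℤ)) ∈ LS f g (p ^ e) := by
  have hM : (0 : ℤ) < ((p ^ e : ℕ) : ℤ) := by exact_mod_cast pow_pos hp.pos e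
  have hcong : ∀ k, ((p ^ e : ℕ) : ℤ) ∣ (fun k => x k % ((p ^ e : ℕ) : ℤ)) k - x k := by
    intro k
    show ((p ^ e : ℕ) : ℤ) ∣ x k % ((p ^ e : ℕ) : ℤ) - x k
    rw [dvd_sub_comm]
    exact Int.dvd_self_sub_emod
  classical
  unfold LS
  rw [mem_filter, Fintype.mem_piFinset]
  refine ⟨fun k => ?_, Hen_qv0 _ f hcong hf, Hen_qv0 _ g hcong hg, ?_⟩
  · rw [mem_Ico]
    exact ⟨Int.emod_nonneg _ hM.ne', Int.emod_lt_of_pos _ hM⟩
  · intro q hq hqp hall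
    have hqe : q = p := (Nat.prime_dvd_prime_iff_eq hq hp).1 (hq.dvd_of_dvd_pow hqp)
    rw [hqe] at hqp
    apply hx
    intro k
    have h1 : (p : ℤ) ∣ x k % ((p ^ e : ℕ) : ℤ) := by
      have := hall k
      rwa [hqe] at this
    have h2 : (p : ℤ) ∣ x k % ((p ^ e : ℕ) : ℤ) - x k :=
      (Int.natCast_dvd_natCast.2 hqp).trans (hcong k)
    have h3 := dvd_sub h1 h2
    rwa [sub_sub_cancel] at h3

theorem hen2 (p : ℕ) (hp : p.Prime) (m : ℕ) (f g : Idx 5 → ℤ) (a : Fin 5 → ℤ)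
    (ha : ¬ ∀ i, (p : ℤ) ∣ a i) (hf : ((p ^ (2 * m + 2) : ℕ) : ℤ) ∣ qv f a)
    (hg : ((p ^ (2 * m + 2) : ℕ) : ℤ) ∣ qv g a)
    (hd : ∃ i j, ¬ ((p ^ (m + 1) : ℕ) : ℤ) ∣ jm f g a i j) (e : ℕ) :
    p ^ (3 * e) ≤ p ^ (6 * m + 6) * (LS f g (p ^ e)).card := by
  classical
  obtain ⟨i, j, hij⟩ := hd
  have hne : i ≠ j := by
    rintro rfl
    apply hij
    have : jm f g a i i = 0 := by
      unfold jm
      ring
    rw [this]
    exact dvd_zero _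
  have hP1 : 1 ≤ p := hp.pos
  rcases Nat.le_total e (2 * m + 2) with he | he
  · have h1 : (fun k => a k % ((p ^ e : ℕ) : ℤ)) ∈ LS f g (p ^ e) :=
      Hen_red hp f g e ha ((Int.natCast_dvd_natCast.2 (pow_dvd_pow _ he)).trans hf)
        ((Int.natCast_dvd_natCast.2 (pow_dvd_pow _ he)).trans hg)
    have h2 : 1 ≤ (LS f g (p ^ e)).card := card_pos.2 ⟨_, h1⟩
    calc p ^ (3 * e) ≤ p ^ (6 * m + 6) := Nat.pow_le_pow_right hP1 (by omega)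
      _ = p ^ (6 * m + 6) * 1 := (mul_one _).symm
      _ ≤ p ^ (6 * m + 6) * (LS f g (p ^ e)).card := Nat.mul_le_mul_left _ h2
  · obtain ⟨n, rfl⟩ := Nat.exists_eq_add_of_le he
    obtain ⟨N, hN⟩ : ∃ N : ℕ, N = p ^ n := ⟨_, rfl⟩
    -- the starting vectors
    obtain ⟨x0, hx0⟩ : ∃ x0 : ({k : Fin 5 // k ≠ i ∧ k ≠ j} → Fin N) → Fin 5 → ℤ,
        x0 = fun t k => if h : k ≠ i ∧ k ≠ j then
          a k + ((p ^ (2 * m + 2) : ℕ) : ℤ) * ((t ⟨k, h⟩ : ℕ) : ℤ) else a k := ⟨_, rfl⟩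
    have hx0a : ∀ t k, ((p ^ (2 * m + 2) : ℕ) : ℤ) ∣ x0 t k - a k := by
      intro t k
      rw [hx0]
      by_cases h : k ≠ i ∧ k ≠ j
      · simp only [dif_pos h, add_sub_cancel_left]
        exact Dvd.intro _ rfl
      · simp only [dif_neg h, sub_self]
        exact dvd_zero _
    have hdvd : ((p ^ (m + 1) : ℕ) : ℤ) ∣ ((p ^ (2 * m + 2) : ℕ) : ℤ) :=
      Int.natCast_dvd_natCast.2 (pow_dvd_pow _ (by omega))
    have hex : ∀ t, ∃ x' : Fin 5 → ℤ, (∀ k, k ≠ i → k ≠ j → x' k = x0 t k) ∧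
        (∀ k, ((p ^ (m + 1) : ℕ) : ℤ) ∣ x' k - a k) ∧
        ((p ^ (2 * m + 2 + n) : ℕ) : ℤ) ∣ qv f x' ∧
        ((p ^ (2 * m + 2 + n) : ℕ) : ℤ) ∣ qv g x' := fun t =>
      Hen_iter hp f g a hij (x0 t) (fun k => hdvd.trans (hx0a t k))
        (Hen_qv0 _ f (hx0a t) hf) (Hen_qv0 _ g (hx0a t) hg) n
    choose X hX1 hX2 hX3 hX4 using hex
    have hmem : ∀ t, (fun k => X t k % ((p ^ (2 * m + 2 + n) : ℕ) : ℤ)) ∈
        LS f g (p ^ (2 * m + 2 + n)) := by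
      intro t
      refine Hen_red hp f g _ ?_ (hX3 t) (hX4 t)
      intro hall
      apply ha
      intro k
      have h1 : (p : ℤ) ∣ X t k - a k := by
        refine dvd_trans ?_ (hX2 t k)
        exact Int.natCast_dvd_natCast.2 (dvd_pow_self p (by omega))
      have h2 := dvd_sub (hall k) h1
      rwa [sub_sub_cancel] at h2
    have hinj : Function.Injective fun t =>
        (fun k => X t k % ((p ^ (2 * m + 2 + n) : ℕ) : ℤ) : Fin 5 → ℤ) := by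
      intro t t' htt
      ext ⟨k, hk⟩
      have h1 : X t k % ((p ^ (2 * m + 2 + n) : ℕ) : ℤ) =
          X t' k % ((p ^ (2 * m + 2 + n) : ℕ) : ℤ) := congrFun htt k
      have h2 : ((p ^ (2 * m + 2 + n) : ℕ) : ℤ) ∣ X t k - X t' k :=
        Int.ModEq.dvd (Int.ModEq.symm h1)
      rw [hX1 t k hk.1 hk.2, hX1 t' k hk.1 hk.2, hx0] at h2
      simp only [dif_pos hk] at h2
      have h3 : a k + ((p ^ (2 * m + 2) : ℕ) : ℤ) * ((t ⟨k, hk⟩ : ℕ) : ℤ) -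
          (a k + ((p ^ (2 * m + 2) : ℕ) : ℤ) * ((t' ⟨k, hk⟩ : ℕ) : ℤ)) =
          ((p ^ (2 * m + 2) : ℕ) : ℤ) * (((t ⟨k, hk⟩ : ℕ) : ℤ) - ((t' ⟨k, hk⟩ : ℕ) : ℤ)) := by
        ring
      rw [h3, pow_add, Nat.cast_mul] at h2
      have h4 : ((p ^ n : ℕ) : ℤ) ∣ ((t ⟨k, hk⟩ : ℕ) : ℤ) - ((t' ⟨k, hk⟩ : ℕ) : ℤ) :=
        (mul_dvd_mul_iff_left (by exact_mod_cast (pow_pos hp.pos _).ne')).1 h2
      have b1 : ((t ⟨k, hk⟩ : ℕ) : ℤ) < ((p ^ n : ℕ) : ℤ) := by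
        have := (t ⟨k, hk⟩).2.trans_eq hN
        exact_mod_cast this
      have b2 : ((t' ⟨k, hk⟩ : ℕ) : ℤ) < ((p ^ n : ℕ) : ℤ) := by
        have := (t' ⟨k, hk⟩).2.trans_eq hN
        exact_mod_cast this
      have c1 : (0 : ℤ) ≤ ((t ⟨k, hk⟩ : ℕ) : ℤ) := Int.natCast_nonneg _
      have c2 : (0 : ℤ) ≤ ((t' ⟨k, hk⟩ : ℕ) : ℤ) := Int.natCast_nonneg _
      have h5 : ((t ⟨k, hk⟩ : ℕ) : ℤ) - ((t' ⟨k, hk⟩ : ℕ) : ℤ) = 0 := by
        refine Int.eq_zero_of_abs_lt_dvd h4 ?_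
        rw [abs_lt]
        constructor <;> linarith
      have h6 : ((t ⟨k, hk⟩ : ℕ) : ℤ) = ((t' ⟨k, hk⟩ : ℕ) : ℤ) := by linarith
      exact_mod_cast h6
    have hcard : Fintype.card ({k : Fin 5 // k ≠ i ∧ k ≠ j} → Fin N) ≤
        (LS f g (p ^ (2 * m + 2 + n))).card := by
      rw [← card_univ, ← card_image_of_injective univ hinj]
      refine card_le_card ?_
      intro y hy
      obtain ⟨t, _, rfl⟩ := mem_image.1 hy
      exact hmem t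
    have hK : Fintype.card {k : Fin 5 // k ≠ i ∧ k ≠ j} = 3 := by
      rw [Fintype.card_subtype]
      have h1 : (univ : Finset (Fin 5)).filter (fun k => k ≠ i ∧ k ≠ j) =
          ((univ : Finset (Fin 5)).erase i).erase j := by
        ext k
        rw [mem_filter, mem_erase, mem_erase]
        tauto
      rw [h1, card_erase_of_mem (mem_erase.2 ⟨hne.symm, mem_univ _⟩),
        card_erase_of_mem (mem_univ _), card_univ, Fintype.card_fin]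
    rw [Fintype.card_fun, hK, Fintype.card_fin, hN] at hcard
    calc p ^ (3 * (2 * m + 2 + n)) = p ^ (6 * m + 6) * (p ^ n) ^ 3 := by
          rw [← pow_mul, ← pow_add]
          congr 1
          ring
      _ ≤ _ := Nat.mul_le_mul_left _ hcard

end Pool.Agent.H7.PQ
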