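import Pool.Agent.H7.PQ.Hen
import Pool.Agent.H7.HP.Bxq

set_option autoImplicit false

/-!
# [H7 PQ LPA] one prime; boxes and residue classes for pairs, 100-150 lines

* `lpa`: `x ∈ ℚ_p^5` the zero; multiply by a power of `p`: `x_i ∈ ℤ_p`, some `|x_i| = 1` (see `HP/Locp.lean`, the beginning of the proof). The reduction of `x` modulo `p^s` (`PadicInt.toZModPow s`) is unimodular (a coordinate is a unit) and a zero of `f`, `g`; by hypothesis some `jm` of it is not `0`.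
`a ∈ ℤ^5` with `a ≡ x mod p^(2s)` in `ℤ_p` (`PadicInt.appr` or `toZModPow` and lifting): `p^(2s) ∣ f(a), g(a)`, `p` does not divide all `a_i`, `p^s` does not divide `jm f g a i j`. `hen2` with `m = s - 1`.
* `boxq2`: `boxq` twice: for a class `γ` of `f` the number of `f` in the class is at most `2 (2A+1)^15/Q^15` (`boxq` with `S = {γ}`), and for each `f` the number of `g` with `(γ, class of g) ∈ S` is at most `2 #S_γ (2A+1)^15/Q^15`.
-/

namespace Pool.Agent.H7.PQ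

open Finset Pool.Agent.H7.HP

section Padic

variable {p : ℕ} [Fact p.Prime]

private theorem Lpa_mod (n : ℕ) (x y : ℤ_[p]) :
    PadicInt.toZModPow n x = PadicInt.toZModPow n y ↔ (p : ℤ_[p]) ^ n ∣ x - y := by
  rw [← sub_eq_zero, ← map_sub, ← RingHom.mem_ker, PadicInt.ker_toZModPow,
    Ideal.mem_span_singleton]

private theorem Lpa_prim (x : Fin 5 → ℚ_[p]) (hx : x ≠ 0) : ∃ (c : ℚ_[p]) (y : Fin 5 → ℤ_[p]),
    (∀ i, ((y i : ℤ_[p]) : ℚ_[p]) = c * x i) ∧ ∃ i, y i = 1 := by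
  obtain ⟨k, hk⟩ := Finite.exists_max (fun i => ‖x i‖)
  have hk0 : x k ≠ 0 := by
    intro h
    apply hx
    funext i
    have h1 := hk i
    rw [h, norm_zero] at h1
    exact norm_eq_zero.1 (le_antisymm h1 (norm_nonneg _))
  have hkn : 0 < ‖x k‖ := norm_pos_iff.2 hk0
  have hn : ∀ i, ‖(x k)⁻¹ * x i‖ ≤ 1 := by
    intro i
    rw [norm_mul, norm_inv, inv_mul_le_iff₀ hkn, mul_one]
    exact hk i
  refine ⟨(x k)⁻¹, fun i => ⟨(x k)⁻¹ * x i, hn i⟩, fun i => rfl, k, ?_⟩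
  apply Subtype.ext
  show (x k)⁻¹ * x k = 1
  exact inv_mul_cancel₀ hk0

private theorem Lpa_zero (c : Idx 5 → ℤ) (x : Fin 5 → ℚ_[p])
    (hx : qv (fun r => (c r : ℚ_[p])) x = 0) {t : ℚ_[p]} {y : Fin 5 → ℤ_[p]}
    (hy : ∀ i, ((y i : ℤ_[p]) : ℚ_[p]) = t * x i) : qv (fun r => (c r : ℤ_[p])) y = 0 := by
  have h1 := qv_map (PadicInt.Coe.ringHom (p := p)) (fun r => (c r : ℤ_[p])) y
  have h2 : (fun r => PadicInt.Coe.ringHom (p := p) ((c r : ℤ_[p]))) =
      fun r => (c r : ℚ_[p]) := by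
    funext r
    exact map_intCast _ _
  have h3 : (fun i => PadicInt.Coe.ringHom (p := p) (y i)) = fun i => t * x i := by
    funext i
    exact hy i
  rw [h2, h3, qv_smul, hx, mul_zero] at h1
  exact Subtype.ext (show ((qv (fun r => (c r : ℤ_[p])) y : ℤ_[p]) : ℚ_[p]) =
    ((0 : ℤ_[p]) : ℚ_[p]) from h1)

end Padic

private theorem Lpa_single {R S : Type*} [CommRing R] [CommRing S] (φ : R →+* S) (i : Fin 5) :
    (fun k => φ ((Pi.single i 1 : Fin 5 → R) k)) = Pi.single i 1 := by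
  funext k
  rw [Pi.single_apply, Pi.single_apply]
  split_ifs
  · exact map_one φ
  · exact map_zero φ

private theorem Lpa_jm {R S : Type*} [CommRing R] [CommRing S] (φ : R →+* S) (f g : Idx 5 → R)
    (x : Fin 5 → R) (i j : Fin 5) :
    φ (jm f g x i j) = jm (fun r => φ (f r)) (fun r => φ (g r)) (fun k => φ (x k)) i j := by
  unfold jm
  rw [map_sub, map_mul, map_mul, pl_map, pl_map, pl_map, pl_map, Lpa_single, Lpa_single]

theorem lpa (p : ℕ) [Fact p.Prime] (s : ℕ) (hs : 0 < s) (f g : Idx 5 → ℤ) (h : HZ ℚ_[p] f g)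
    (hd : ¬ ∃ x : Fin 5 → ZMod (p ^ s), Um x ∧ qv (fun r => (f r : ZMod (p ^ s))) x = 0 ∧
      qv (fun r => (g r : ZMod (p ^ s))) x = 0 ∧
      ∀ i j, jm (fun r => (f r : ZMod (p ^ s))) (fun r => (g r : ZMod (p ^ s))) x i j = 0) (e : ℕ) :
    p ^ (3 * e) ≤ p ^ (6 * s) * (LS f g (p ^ e)).card := by
  have hp : p.Prime := Fact.out
  obtain ⟨x, hx0, hxf, hxg⟩ := h
  obtain ⟨t, y, hy, k, hk⟩ := Lpa_prim x hx0
  have hyf := Lpa_zero f x hxf hy
  have hyg := Lpa_zero g x hxg hy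
  -- reduction of `y`
  have hred : ∀ (n : ℕ) (c : Idx 5 → ℤ), qv (fun r => (c r : ℤ_[p])) y = 0 →
      qv (fun r => (c r : ZMod (p ^ n))) (fun i => PadicInt.toZModPow n (y i)) = 0 := by
    intro n c hc
    have h1 := qv_map (PadicInt.toZModPow (p := p) n) (fun r => (c r : ℤ_[p])) y
    rw [hc, map_zero] at h1
    rw [h1]
    congr 1
    funext r
    exact (map_intCast _ _).symm
  have : ∀ n, NeZero (p ^ n) := fun n => ⟨(pow_pos hp.pos n).ne'⟩
  -- lift to integers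
  obtain ⟨a, ha⟩ : ∃ a : Fin 5 → ℤ, ∀ i, PadicInt.toZModPow (p := p) (2 * s) ((a i : ℤ) : ℤ_[p]) =
      PadicInt.toZModPow (2 * s) (y i) := by
    refine ⟨fun i => ((PadicInt.toZModPow (p := p) (2 * s) (y i)).val : ℤ), fun i => ?_⟩
    rw [map_intCast, Int.cast_natCast, ZMod.natCast_zmod_val]
  have ha2 : ∀ i, ((a i : ℤ) : ZMod (p ^ (2 * s))) = PadicInt.toZModPow (2 * s) (y i) := by
    intro i
    rw [← ha i, map_intCast]
  have ha1 : ∀ i, ((a i : ℤ) : ZMod (p ^ s)) = PadicInt.toZModPow s (y i) := by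
    intro i
    have h1 := (Lpa_mod _ _ _).1 (ha i)
    have h2 : (p : ℤ_[p]) ^ s ∣ ((a i : ℤ) : ℤ_[p]) - y i :=
      (pow_dvd_pow _ (by omega)).trans h1
    rw [← (Lpa_mod _ _ _).2 h2, map_intCast]
  have hdvd : ∀ c : Idx 5 → ℤ, qv (fun r => (c r : ℤ_[p])) y = 0 →
      ((p ^ (2 * s) : ℕ) : ℤ) ∣ qv c a := by
    intro c hc
    rw [← ZMod.intCast_zmod_eq_zero_iff_dvd]
    have h1 := qv_map (Int.castRingHom (ZMod (p ^ (2 * s)))) c a
    have h2 : (fun i => Int.castRingHom (ZMod (p ^ (2 * s))) (a i)) =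
        fun i => PadicInt.toZModPow (2 * s) (y i) := funext ha2
    rw [h2] at h1
    exact h1.trans (hred _ c hc)
  -- the minor
  have hmin : ∃ i j, ¬ ((p ^ s : ℕ) : ℤ) ∣ jm f g a i j := by
    by_contra hcon
    push Not at hcon
    apply hd
    refine ⟨fun i => PadicInt.toZModPow s (y i), ⟨Pi.single k 1, ?_⟩, hred s f hyf, hred s g hyg,
      fun i j => ?_⟩
    · rw [sum_eq_single k]
      · rw [Pi.single_eq_same]
        show 1 * PadicInt.toZModPow s (y k) = 1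
        rw [hk, map_one, one_mul]
      · intro b _ hb
        rw [Pi.single_eq_of_ne hb, zero_mul]
      · intro hb
        exact absurd (mem_univ k) hb
    · have h1 := Lpa_jm (Int.castRingHom (ZMod (p ^ s))) f g a i j
      have h2 : (fun i => Int.castRingHom (ZMod (p ^ s)) (a i)) =
          fun i => PadicInt.toZModPow s (y i) := funext ha1
      rw [h2] at h1
      have h3 : Int.castRingHom (ZMod (p ^ s)) (jm f g a i j) = 0 :=
        (ZMod.intCast_zmod_eq_zero_iff_dvd _ _).2 (hcon i j)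
      rw [h3] at h1
      exact h1.symm
  have hprim : ¬ ∀ i, (p : ℤ) ∣ a i := by
    intro hall
    have h1 := (Lpa_mod _ _ _).1 (ha k)
    rw [hk] at h1
    have h2 : (p : ℤ_[p]) ∣ ((a k : ℤ) : ℤ_[p]) - 1 :=
      (dvd_pow_self _ (by omega)).trans h1
    have h3 : (p : ℤ_[p]) ∣ ((a k : ℤ) : ℤ_[p]) := by
      have h4 : (((p : ℤ) : ℤ) : ℤ_[p]) ∣ ((a k : ℤ) : ℤ_[p]) :=
        map_dvd (Int.castRingHom ℤ_[p]) (hall k)
      rwa [Int.cast_natCast] at h4
    have h5 := dvd_sub h3 h2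
    rw [sub_sub_cancel] at h5
    exact PadicInt.prime_p.not_isUnit (isUnit_of_dvd_one h5)
  obtain ⟨m, rfl⟩ := Nat.exists_eq_succ_of_ne_zero hs.ne'
  have h1 := hen2 p hp m f g a hprim (hdvd f hyf) (hdvd g hyg) hmin e
  exact h1

open scoped Classical in
theorem boxq2 (Q : ℕ) [NeZero Q] : ∃ A0 : ℕ, ∀ A ≥ A0,
    ∀ S : Finset ((Idx 5 → ZMod Q) × (Idx 5 → ZMod Q)),
      (((bf 5 A ×ˢ bf 5 A).filter fun q =>
        ((fun r => (q.1 r : ZMod Q)), (fun r => (q.2 r : ZMod Q))) ∈ S).card : ℝ) * (Q : ℝ) ^ 30 ≤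
        4 * S.card * (2 * A + 1) ^ 30 := by
  obtain ⟨A0, hA0⟩ := boxq Q
  refine ⟨A0, fun A hA S => ?_⟩
  have hQ0 : (0 : ℝ) < (Q : ℝ) := by exact_mod_cast Nat.pos_of_ne_zero (NeZero.ne Q)
  have hfib := card_eq_sum_card_fiberwise (s := (bf 5 A ×ˢ bf 5 A).filter fun q =>
        ((fun r => (q.1 r : ZMod Q)), (fun r => (q.2 r : ZMod Q))) ∈ S)
    (f := fun q : (Idx 5 → ℤ) × (Idx 5 → ℤ) =>
    ((fun r => (q.1 r : ZMod Q)), (fun r => (q.2 r : ZMod Q)))) (t := S)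
    (fun q hq => (mem_filter.1 hq).2)
  rw [hfib, Nat.cast_sum, sum_mul]
  have h1 : ∀ c ∈ S, ((((bf 5 A ×ˢ bf 5 A).filter fun q =>
        ((fun r => (q.1 r : ZMod Q)), (fun r => (q.2 r : ZMod Q))) ∈ S).filter fun q =>
        ((fun r => (q.1 r : ZMod Q)), (fun r => (q.2 r : ZMod Q))) = c).card : ℝ) *
        (Q : ℝ) ^ 30 ≤ 4 * (2 * A + 1) ^ 30 := by
    intro c _
    have e1 := hA0 A hA {c.1}
    have e2 := hA0 A hA {c.2}
    rw [card_singleton] at e1 e2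
    have h2 : (((bf 5 A ×ˢ bf 5 A).filter fun q =>
        ((fun r => (q.1 r : ZMod Q)), (fun r => (q.2 r : ZMod Q))) ∈ S).filter fun q =>
        ((fun r => (q.1 r : ZMod Q)), (fun r => (q.2 r : ZMod Q))) = c) ⊆
        ((bf 5 A).filter fun g => (fun r => (g r : ZMod Q)) ∈ ({c.1} : Finset _)) ×ˢ
          ((bf 5 A).filter fun g => (fun r => (g r : ZMod Q)) ∈ ({c.2} : Finset _)) := by
      intro q hq
      rw [mem_filter, mem_filter, mem_product] at hq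
      rw [mem_product, mem_filter, mem_filter, mem_singleton, mem_singleton]
      have h3 := Prod.ext_iff.1 hq.2
      exact ⟨⟨hq.1.1.1, h3.1⟩, ⟨hq.1.1.2, h3.2⟩⟩
    have h4 := card_le_card h2
    rw [card_product] at h4
    obtain ⟨N1, hN1⟩ : ∃ N1 : ℕ, N1 = ((bf 5 A).filter fun g =>
      (fun r => (g r : ZMod Q)) ∈ ({c.1} : Finset _)).card := ⟨_, rfl⟩
    obtain ⟨N2, hN2⟩ : ∃ N2 : ℕ, N2 = ((bf 5 A).filter fun g =>
      (fun r => (g r : ZMod Q)) ∈ ({c.2} : Finset _)).card := ⟨_, rfl⟩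
    rw [← hN1] at e1 h4
    rw [← hN2] at e2 h4
    have h5 : ((((bf 5 A ×ˢ bf 5 A).filter fun q =>
        ((fun r => (q.1 r : ZMod Q)), (fun r => (q.2 r : ZMod Q))) ∈ S).filter fun q =>
        ((fun r => (q.1 r : ZMod Q)), (fun r => (q.2 r : ZMod Q))) = c).card : ℝ) ≤
        (N1 : ℝ) * N2 := by exact_mod_cast h4
    calc _ ≤ ((N1 : ℝ) * N2) * (Q : ℝ) ^ 30 := mul_le_mul_of_nonneg_right h5 (by positivity)
      _ = ((N1 : ℝ) * (Q : ℝ) ^ 15) * ((N2 : ℝ) * (Q : ℝ) ^ 15) := by ring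
      _ ≤ (2 * ((1 : ℕ) : ℝ) * (2 * A + 1) ^ 15) * (2 * ((1 : ℕ) : ℝ) * (2 * A + 1) ^ 15) :=
        mul_le_mul e1 e2 (by positivity) (by positivity)
      _ = 4 * (2 * A + 1) ^ 30 := by push_cast; ring
  refine (sum_le_sum h1).trans (le_of_eq ?_)
  rw [sum_const, nsmul_eq_mul]
  ring

end Pool.Agent.H7.PQ
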