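import Pool.Agent.H7.PQ.Tyl

set_option autoImplicit false

/-!
# [H7 PQ NWT] Newton iteration in two variables, 130-200 lines

`C0 ≥ 1` the constant of `tyl`. Let `ρ = η/C`, `ρ' = η^2/C`, `C` large. We may divide `f`, `g` by `A` (or keep `A`). `J = (a b; c d)`, `a = pl f z e_i`, `b = pl f z e_j`, `c = pl g z e_i`, `d = pl g z e_j`, `D = a d - b c = jm f g z i j`, `|D| ≥ η A^2`, `i ≠ j`.
For `h = (h1, h2)`, `|h1|, |h2| ≤ ρ`, let `t(h)` be the vector with `t_k = z'_k` for `k ≠ i, j`, `t_i = z_i + h1`, `t_j = z_j + h2`, `Ψ(h) = (f(t(h)), g(t(h)))` and `T(h) = h - J⁻¹ Ψ(h)`, `J⁻¹ (u, w) = ((d u - b w)/D, (a w - c u)/D)`, entries of `J⁻¹` at most `C0 A/(η A^2)`.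
* for `h, h'` in the square: `f(t(h)) - f(t(h')) = pl f (t(h')) (v) + f(v)`, `v = (h1 - h1') e_i + (h2 - h2') e_j`, `= a (h1 - h1') + b (h2 - h2') + error`, `|error| ≤ C0 A (ρ' + 3ρ) * 3 |h - h'|` or so (sup norm); the same for `g`. So `|T(h) - T(h')| ≤ (2 C0/(η A)) * (C1 A (ρ + ρ')) |h - h'| ≤ |h - h'|/2`.
* `|Ψ(0)| ≤ C0 A ρ'` (`f(z) = 0`, `t(0)` is at distance `≤ ρ'` from `z`), `|T(0)| ≤ (2 C0/(η A)) C0 A ρ' ≤ ρ/2` (choose `C` after `C0`: `ρ' = η ρ`, so rather take `ρ' = η^2 / C^2` inside if necessary: the statement asks only for `η^2/C` with ONE constant `C`; take e.g. `ρ = η / C1`, `ρ' = η^2 / C`, `C = 4 C0^2 C1`, and `η/C1`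
may be replaced in the conclusion by the weaker bound `1/8`).
* So `T` maps the square `|h| ≤ ρ` to itself and is a contraction: fixed point (`ContractingWith.exists_fixedPoint'` on the complete set `{h : ‖h‖ ≤ ρ}` of `Fin 2 → ℝ` or `ℝ × ℝ`), `J⁻¹ Ψ(h) = 0`, so `Ψ(h) = 0` (`D ≠ 0`).
-/

namespace Pool.Agent.H7.PQ

open Finset Pool.Agent.H7.HP

/-- the vector with two coordinates changed -/
private def nwt_tv (z z' : Fin 5 → ℝ) (i j : Fin 5) (h : ℝ × ℝ) : Fin 5 → ℝ := fun k =>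
  if k = i then z i + h.1 else if k = j then z j + h.2 else z' k

private theorem nwt_dev (z z' : Fin 5 → ℝ) (i j : Fin 5) (h : ℝ × ℝ) (ρ : ℝ)
    (h1 : |h.1| ≤ ρ) (h2 : |h.2| ≤ ρ) (hz' : ∀ k, |z' k - z k| ≤ ρ) (k : Fin 5) :
    |nwt_tv z z' i j h k - z k| ≤ ρ := by
  unfold nwt_tv
  split_ifs with e1 e2
  · subst e1
    rw [add_sub_cancel_left]
    exact h1
  · subst e2
    rw [add_sub_cancel_left]
    exact h2
  · exact hz' k

private theorem nwt_form {C0 : ℝ} (hC0 : 1 ≤ C0)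
    (ht : ∀ (f g : Idx 5 → ℝ) (A : ℝ), 0 ≤ A → (∀ p, |f p| ≤ A) →
    (∀ p, |g p| ≤ A) → ∀ (x h : Fin 5 → ℝ) (r : ℝ), (∀ i, |x i| ≤ 3) → (∀ i, |h i| ≤ r) → r ≤ 1 →
      |qv f (fun i => x i + h i) - qv f x| ≤ C0 * A * r ∧
      |qv f (fun i => x i + h i) - qv f x - ∑ i, h i * pl f x (Pi.single i 1)| ≤ C0 * A * r ^ 2 ∧
      (∀ i, |pl f x (Pi.single i 1)| ≤ C0 * A) ∧
      (∀ i, |pl f (fun i => x i + h i) (Pi.single i 1) - pl f x (Pi.single i 1)| ≤ C0 * A * r) ∧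
      ∀ i j, |jm f g (fun i => x i + h i) i j - jm f g x i j| ≤ C0 * A ^ 2 * r)
    (f : Idx 5 → ℝ) (A : ℝ) (hA : 0 < A) (hf : ∀ p, |f p| ≤ A) (z : Fin 5 → ℝ)
    (hz : ∀ i, |z i| ≤ 2) (i j : Fin 5) (hij : i ≠ j) (z' : Fin 5 → ℝ) (ρ : ℝ)
    (hρ1 : ρ ≤ 1 / 2) (hz' : ∀ k, |z' k - z k| ≤ ρ) (h h' : ℝ × ℝ)
    (h1 : |h.1| ≤ ρ) (h2 : |h.2| ≤ ρ) (h1' : |h'.1| ≤ ρ) (h2' : |h'.2| ≤ ρ) (r : ℝ)
    (hr1 : |h.1 - h'.1| ≤ r) (hr2 : |h.2 - h'.2| ≤ r) (hr : r ≤ 2 * ρ) :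
    |qv f (nwt_tv z z' i j h) - qv f (nwt_tv z z' i j h') -
      ((h.1 - h'.1) * pl f z (Pi.single i 1) + (h.2 - h'.2) * pl f z (Pi.single j 1))| ≤
      4 * C0 * A * ρ * r := by
  have hr0 : 0 ≤ r := (abs_nonneg _).trans hr1
  have hρ0 : 0 ≤ ρ := (abs_nonneg _).trans h1
  have hd := nwt_dev z z' i j h' ρ h1' h2' hz'
  have hx3 : ∀ k, |nwt_tv z z' i j h' k| ≤ 3 := by
    intro k
    have e1 : nwt_tv z z' i j h' k = z k + (nwt_tv z z' i j h' k - z k) := by ring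
    rw [e1]
    refine (abs_add_le _ _).trans ?_
    linarith [hz k, hd k]
  set v : Fin 5 → ℝ := fun k => if k = i then h.1 - h'.1 else if k = j then h.2 - h'.2 else 0
    with hv
  have hvr : ∀ k, |v k| ≤ r := by
    intro k
    simp only [hv]
    split_ifs
    · exact hr1
    · exact hr2
    · rw [abs_zero]
      exact hr0
  have hadd : (fun k => nwt_tv z z' i j h' k + v k) = nwt_tv z z' i j h := by
    funext k
    simp only [hv, nwt_tv]
    split_ifs <;> ring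
  have hsum : ∀ P : Fin 5 → ℝ, ∑ k, v k * P k = (h.1 - h'.1) * P i + (h.2 - h'.2) * P j := by
    intro P
    have e1 : ∀ k, v k * P k = (if k = i then (h.1 - h'.1) * P k else 0) +
        (if k = j then (h.2 - h'.2) * P k else 0) := by
      intro k
      simp only [hv]
      by_cases e2 : k = i
      · have e3 : k ≠ j := fun e => hij (e2.symm.trans e)
        rw [if_pos e2, if_pos e2, if_neg e3, add_zero]
      · rw [if_neg e2, if_neg e2, zero_add]
        split_ifs <;> ring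
    rw [Finset.sum_congr rfl fun k _ => e1 k, Finset.sum_add_distrib, Finset.sum_ite_eq',
      Finset.sum_ite_eq', if_pos (Finset.mem_univ _), if_pos (Finset.mem_univ _)]
  have hT := (ht f f A hA.le hf hf (nwt_tv z z' i j h') v r hx3 hvr (by linarith)).2.1
  rw [hadd, hsum] at hT
  have hz3 : ∀ k, |z k| ≤ 3 := fun k => (hz k).trans (by norm_num)
  have hP := (ht f f A hA.le hf hf z (fun k => nwt_tv z z' i j h' k - z k) ρ hz3 hd
    (by linarith)).2.2.2.1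
  have hzz : (fun k => z k + (nwt_tv z z' i j h' k - z k)) = nwt_tv z z' i j h' := by
    funext k
    ring
  rw [hzz] at hP
  have hPi := hP i
  have hPj := hP j
  have hCA : 0 < C0 * A := by positivity
  have e5 : |(h.1 - h'.1) * (pl f (nwt_tv z z' i j h') (Pi.single i 1) - pl f z (Pi.single i 1))| ≤
      r * (C0 * A * ρ) := by
    rw [abs_mul]
    exact mul_le_mul hr1 hPi (abs_nonneg _) hr0
  have e6 : |(h.2 - h'.2) * (pl f (nwt_tv z z' i j h') (Pi.single j 1) - pl f z (Pi.single j 1))| ≤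
      r * (C0 * A * ρ) := by
    rw [abs_mul]
    exact mul_le_mul hr2 hPj (abs_nonneg _) hr0
  have e7 : qv f (nwt_tv z z' i j h) - qv f (nwt_tv z z' i j h') -
      ((h.1 - h'.1) * pl f z (Pi.single i 1) + (h.2 - h'.2) * pl f z (Pi.single j 1)) =
      (qv f (nwt_tv z z' i j h) - qv f (nwt_tv z z' i j h') -
        ((h.1 - h'.1) * pl f (nwt_tv z z' i j h') (Pi.single i 1) +
          (h.2 - h'.2) * pl f (nwt_tv z z' i j h') (Pi.single j 1))) +
      ((h.1 - h'.1) * (pl f (nwt_tv z z' i j h') (Pi.single i 1) - pl f z (Pi.single i 1)) +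
      (h.2 - h'.2) * (pl f (nwt_tv z z' i j h') (Pi.single j 1) - pl f z (Pi.single j 1))) := by
    ring
  rw [e7]
  refine (abs_add_le _ _).trans ?_
  have e8 := abs_add_le
    ((h.1 - h'.1) * (pl f (nwt_tv z z' i j h') (Pi.single i 1) - pl f z (Pi.single i 1)))
    ((h.2 - h'.2) * (pl f (nwt_tv z z' i j h') (Pi.single j 1) - pl f z (Pi.single j 1)))
  have e9 : C0 * A * r ^ 2 ≤ C0 * A * (2 * ρ * r) := by
    apply mul_le_mul_of_nonneg_left _ hCA.le
    nlinarith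
  calc _ ≤ C0 * A * (2 * ρ * r) + (r * (C0 * A * ρ) + r * (C0 * A * ρ)) := by linarith
    _ = 4 * C0 * A * ρ * r := by ring

theorem nwt : ∃ C : ℝ, 1 ≤ C ∧ ∀ (η : ℝ), 0 < η → η ≤ 1 → ∀ (f g : Idx 5 → ℝ) (A : ℝ), 0 < A →
    (∀ p, |f p| ≤ A) → (∀ p, |g p| ≤ A) → ∀ z : Fin 5 → ℝ, (∀ i, |z i| ≤ 2) → qv f z = 0 →
    qv g z = 0 → ∀ i j : Fin 5, η * A ^ 2 ≤ |jm f g z i j| → ∀ z' : Fin 5 → ℝ,
    (∀ k, |z' k - z k| ≤ η ^ 2 / C) →
      ∃ t : Fin 5 → ℝ, (∀ k, k ≠ i → k ≠ j → t k = z' k) ∧ (∀ k, |t k - z k| ≤ 1 / 8) ∧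
        qv f t = 0 ∧ qv g t = 0 := by
  obtain ⟨C0, hC0, ht⟩ := tyl
  have hC00 : 0 < C0 := by linarith
  have hC04 : 1 ≤ C0 ^ 4 := one_le_pow₀ hC0
  have hC02 : 1 ≤ C0 ^ 2 := one_le_pow₀ hC0
  refine ⟨64 * C0 ^ 4, by linarith, ?_⟩
  intro η hη hη1 f g A hA hf hg z hz hfz hgz i j hD z' hz'
  set D := jm f g z i j with hDdef
  have hD0 : 0 < |D| := lt_of_lt_of_le (by positivity) hD
  have hDne : D ≠ 0 := abs_pos.1 hD0
  have hij : i ≠ j := by
    rintro rfl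
    apply hDne
    rw [hDdef]
    unfold jm
    ring
  obtain ⟨a, ha⟩ : ∃ a, a = pl f z (Pi.single i 1) := ⟨_, rfl⟩
  obtain ⟨b, hb⟩ : ∃ b, b = pl f z (Pi.single j 1) := ⟨_, rfl⟩
  obtain ⟨c, hc⟩ : ∃ c, c = pl g z (Pi.single i 1) := ⟨_, rfl⟩
  obtain ⟨d, hd⟩ : ∃ d, d = pl g z (Pi.single j 1) := ⟨_, rfl⟩
  have hDabcd : D = a * d - b * c := by
    rw [hDdef, ha, hb, hc, hd]
    rfl
  obtain ⟨ρ, hρ⟩ : ∃ ρ : ℝ, ρ = η / (16 * C0 ^ 2) := ⟨_, rfl⟩
  obtain ⟨ρ', hρ'⟩ : ∃ ρ' : ℝ, ρ' = η ^ 2 / (64 * C0 ^ 4) := ⟨_, rfl⟩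
  have hρ0 : 0 < ρ := by rw [hρ]; positivity
  have hρ'0 : 0 < ρ' := by rw [hρ']; positivity
  have hρ16 : ρ ≤ 1 / 16 := by
    rw [hρ, div_le_div_iff₀ (by positivity) (by norm_num)]
    nlinarith
  have hρρ' : ρ' = ρ * (η / (4 * C0 ^ 2)) := by
    rw [hρ, hρ']
    field_simp
    ring
  have hη4 : η / (4 * C0 ^ 2) ≤ 1 := by
    rw [div_le_one (by positivity)]
    linarith
  have hρ'ρ : ρ' ≤ ρ := by
    rw [hρρ']
    exact mul_le_of_le_one_right hρ0.le hη4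
  rw [← hρ'] at hz'
  have hz'ρ : ∀ k, |z' k - z k| ≤ ρ := fun k => (hz' k).trans hρ'ρ
  have hz3 : ∀ k, |z k| ≤ 3 := fun k => (hz k).trans (by norm_num)
  have hfb := (ht f f A hA.le hf hf z (fun _ => 0) 0 hz3 (fun _ => by rw [abs_zero])
    (by norm_num)).2.2.1
  have hgb := (ht g g A hA.le hg hg z (fun _ => 0) 0 hz3 (fun _ => by rw [abs_zero])
    (by norm_num)).2.2.1
  have hab : |a| ≤ C0 * A := by rw [ha]; exact hfb i
  have hbb : |b| ≤ C0 * A := by rw [hb]; exact hfb j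
  have hcb : |c| ≤ C0 * A := by rw [hc]; exact hgb i
  have hdb : |d| ≤ C0 * A := by rw [hd]; exact hgb j
  have hCA : 0 < C0 * A := by positivity
  -- bound for the inverse matrix
  have hinv : ∀ (p q u w e : ℝ), |p| ≤ C0 * A → |q| ≤ C0 * A → |u| ≤ e → |w| ≤ e →
      |(p * u - q * w) / D| ≤ 2 * C0 * e / (η * A) := by
    intro p q u w e hp hq hu hw
    have he : 0 ≤ e := (abs_nonneg _).trans hu
    have h1 : |p * u - q * w| ≤ 2 * (C0 * A) * e := by
      have h2 : |p * u| ≤ C0 * A * e := by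
        rw [abs_mul]
        exact mul_le_mul hp hu (abs_nonneg _) hCA.le
      have h3 : |q * w| ≤ C0 * A * e := by
        rw [abs_mul]
        exact mul_le_mul hq hw (abs_nonneg _) hCA.le
      have h4 := abs_sub (p * u) (q * w)
      linarith
    rw [abs_div, div_le_div_iff₀ hD0 (by positivity)]
    have h5 : |p * u - q * w| * (η * A) ≤ 2 * (C0 * A) * e * (η * A) :=
      mul_le_mul_of_nonneg_right h1 (by positivity)
    have h6 : 2 * C0 * e * (η * A ^ 2) ≤ 2 * C0 * e * |D| :=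
      mul_le_mul_of_nonneg_left hD (by positivity)
    nlinarith
  let tv : ℝ × ℝ → Fin 5 → ℝ := nwt_tv z z' i j
  let T : ℝ × ℝ → ℝ × ℝ := fun h =>
    (h.1 - (d * qv f (tv h) - b * qv g (tv h)) / D, h.2 - (a * qv g (tv h) - c * qv f (tv h)) / D)
  have hball : ∀ h : ℝ × ℝ, h ∈ Metric.closedBall (0 : ℝ × ℝ) ρ ↔ |h.1| ≤ ρ ∧ |h.2| ≤ ρ := by
    intro h
    rw [mem_closedBall_zero_iff, Prod.norm_def, max_le_iff, Real.norm_eq_abs, Real.norm_eq_abs]
  -- contraction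
  have hcontr : ∀ h h' : ℝ × ℝ, |h.1| ≤ ρ → |h.2| ≤ ρ → |h'.1| ≤ ρ → |h'.2| ≤ ρ → ∀ r : ℝ,
      |h.1 - h'.1| ≤ r → |h.2 - h'.2| ≤ r → r ≤ 2 * ρ →
      |(T h).1 - (T h').1| ≤ r / 2 ∧ |(T h).2 - (T h').2| ≤ r / 2 := by
    intro h h' h1 h2 h1' h2' r hr1 hr2 hr
    have hr0 : 0 ≤ r := (abs_nonneg _).trans hr1
    obtain ⟨Ef, hEf⟩ : ∃ Ef, Ef = qv f (tv h) - qv f (tv h') -
      ((h.1 - h'.1) * a + (h.2 - h'.2) * b) := ⟨_, rfl⟩
    obtain ⟨Eg, hEg⟩ : ∃ Eg, Eg = qv g (tv h) - qv g (tv h') -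
      ((h.1 - h'.1) * c + (h.2 - h'.2) * d) := ⟨_, rfl⟩
    have hEfb : |Ef| ≤ 4 * C0 * A * ρ * r := by
      rw [hEf, ha, hb]
      exact nwt_form hC0 ht f A hA hf z hz i j hij z' ρ (by linarith) hz'ρ h h' h1 h2 h1' h2' r
        hr1 hr2 hr
    have hEgb : |Eg| ≤ 4 * C0 * A * ρ * r := by
      rw [hEg, hc, hd]
      exact nwt_form hC0 ht g A hA hg z hz i j hij z' ρ (by linarith) hz'ρ h h' h1 h2 h1' h2' r
        hr1 hr2 hr
    have hq : 2 * C0 * (4 * C0 * A * ρ * r) / (η * A) = r / 2 := by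
      rw [hρ]
      field_simp
      ring
    constructor
    · have e1 : (T h).1 - (T h').1 = -((d * Ef - b * Eg) / D) := by
        simp only [T]
        rw [hEf, hEg]
        field_simp
        rw [hDabcd]
        ring
      rw [e1, abs_neg]
      exact (hinv d b Ef Eg _ hdb hbb hEfb hEgb).trans hq.le
    · have e1 : (T h).2 - (T h').2 = -((a * Eg - c * Ef) / D) := by
        simp only [T]
        rw [hEf, hEg]
        field_simp
        rw [hDabcd]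
        ring
      rw [e1, abs_neg]
      exact (hinv a c Eg Ef _ hab hcb hEgb hEfb).trans hq.le
  -- the value at zero
  have h00 : |(T 0).1| ≤ ρ / 2 ∧ |(T 0).2| ≤ ρ / 2 := by
    have hdev := nwt_dev z z' i j 0 ρ' (by simp [hρ'0.le]) (by simp [hρ'0.le]) hz'
    have hzz : (fun k => z k + (nwt_tv z z' i j 0 k - z k)) = tv 0 := by
      funext k
      simp only [tv]
      ring
    have hf0 := (ht f f A hA.le hf hf z (fun k => nwt_tv z z' i j 0 k - z k) ρ' hz3 hdev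
      (by linarith)).1
    have hg0 := (ht g g A hA.le hg hg z (fun k => nwt_tv z z' i j 0 k - z k) ρ' hz3 hdev
      (by linarith)).1
    rw [hzz, hfz, sub_zero] at hf0
    rw [hzz, hgz, sub_zero] at hg0
    have hq : 2 * C0 * (C0 * A * ρ') / (η * A) = ρ / 2 := by
      rw [hρρ']
      field_simp
      ring
    constructor
    · have e1 : (T 0).1 = -((d * qv f (tv 0) - b * qv g (tv 0)) / D) := by
        simp only [T]
        simp
      rw [e1, abs_neg]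
      exact (hinv d b _ _ _ hdb hbb hf0 hg0).trans hq.le
    · have e1 : (T 0).2 = -((a * qv g (tv 0) - c * qv f (tv 0)) / D) := by
        simp only [T]
        simp
      rw [e1, abs_neg]
      exact (hinv a c _ _ _ hab hcb hg0 hf0).trans hq.le
  have hmaps : Set.MapsTo T (Metric.closedBall (0 : ℝ × ℝ) ρ) (Metric.closedBall (0 : ℝ × ℝ) ρ) := by
    intro h hh
    rw [hball] at hh ⊢
    have h1 := hcontr h 0 hh.1 hh.2 (by simp [hρ0.le]) (by simp [hρ0.le]) ρ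
      (by simpa using hh.1) (by simpa using hh.2) (by linarith)
    constructor
    · have e1 : (T h).1 = ((T h).1 - (T 0).1) + (T 0).1 := by ring
      rw [e1]
      refine (abs_add_le _ _).trans ?_
      linarith [h1.1, h00.1]
    · have e1 : (T h).2 = ((T h).2 - (T 0).2) + (T 0).2 := by ring
      rw [e1]
      refine (abs_add_le _ _).trans ?_
      linarith [h1.2, h00.2]
  have hcon : ContractingWith (1 / 2 : NNReal) (hmaps.restrict T _ _) := by
    refine ⟨by rw [← NNReal.coe_lt_coe]; norm_num, ?_⟩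
    apply LipschitzWith.of_dist_le_mul
    rintro ⟨h, hh⟩ ⟨h', hh'⟩
    rw [Subtype.dist_eq, Subtype.dist_eq]
    show dist (T h) (T h') ≤ ((1 / 2 : NNReal) : ℝ) * dist h h'
    rw [hball] at hh hh'
    have hdle : |h.1 - h'.1| ≤ dist h h' ∧ |h.2 - h'.2| ≤ dist h h' := by
      rw [Prod.dist_eq, Real.dist_eq, Real.dist_eq]
      exact ⟨le_max_left _ _, le_max_right _ _⟩
    have hd2 : dist h h' ≤ 2 * ρ := by
      rw [Prod.dist_eq, Real.dist_eq, Real.dist_eq, max_le_iff]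
      constructor
      · have := abs_sub h.1 h'.1
        linarith [hh.1, hh'.1]
      · have := abs_sub h.2 h'.2
        linarith [hh.2, hh'.2]
    have h1 := hcontr h h' hh.1 hh.2 hh'.1 hh'.2 (dist h h') hdle.1 hdle.2 hd2
    have h2 : ((1 / 2 : NNReal) : ℝ) * dist h h' = dist h h' / 2 := by
      push_cast
      ring
    rw [h2, Prod.dist_eq, Real.dist_eq, Real.dist_eq, max_le_iff]
    exact h1
  obtain ⟨h, hh, hfix, -⟩ := hcon.exists_fixedPoint' Metric.isClosed_closedBall.isComplete hmaps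
    (x := 0) (Metric.mem_closedBall_self hρ0.le) (edist_ne_top _ _)
  rw [hball] at hh
  have e1 : (T h).1 = h.1 := congrArg Prod.fst hfix
  have e2 : (T h).2 = h.2 := congrArg Prod.snd hfix
  simp only [T] at e1 e2
  have e3 : (d * qv f (tv h) - b * qv g (tv h)) / D = 0 := by linarith
  have e4 : (a * qv g (tv h) - c * qv f (tv h)) / D = 0 := by linarith
  rw [div_eq_zero_iff] at e3 e4
  have e5 : d * qv f (tv h) - b * qv g (tv h) = 0 := e3.resolve_right hDne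
  have e6 : a * qv g (tv h) - c * qv f (tv h) = 0 := e4.resolve_right hDne
  have e7 : D * qv f (tv h) = 0 := by
    rw [hDabcd]
    linear_combination a * e5 + b * e6
  have e8 : D * qv g (tv h) = 0 := by
    rw [hDabcd]
    linear_combination c * e5 + d * e6
  refine ⟨tv h, ?_, ?_, (mul_eq_zero.1 e7).resolve_left hDne,
    (mul_eq_zero.1 e8).resolve_left hDne⟩
  · intro k hk1 hk2
    show nwt_tv z z' i j h k = z' k
    unfold nwt_tv
    rw [if_neg hk1, if_neg hk2]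
  · intro k
    have := nwt_dev z z' i j h ρ hh.1 hh.2 hz'ρ k
    linarith

end Pool.Agent.H7.PQ
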