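import Pool.Agent.H7.PQ.Defs

set_option autoImplicit false

/-!
# [H7 PQ PAR] the parameters and inequalities for large `A`, 110-160 lines

`a = (A : ℝ)`, `B = Bt τ A`, `a^(2+τ/2) ≤ B ≤ 2 a^(2+τ/2)` for `a ≥ 1`, `lmt τ A = a^(-(1/2+τ/4))`.
All statements: eventually for large `A` a constant is smaller than a positive power of `a` (`tendsto_rpow_atTop`, `Real.rpow_add`, `Real.rpow_mul`). Exponents (`τ ≤ 1/1000`):
* `par1`: `R = 600 a^(1/2+τ/4)`: `C R ≤ a`; `a ≤ R^2 = 360000 a^(1+τ/2)`; `C a^(1-τ) ≤ a`; `1 ≤ a^(1-τ)`.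
* `par2`: `K a^2 ≤ B`; `K / lmt^3 = K a^(3/2+3τ/4) ≤ B`; `K lmt^4 B = K a^(-2-τ) B ≤ 2 K a^(-τ/2) ≤ 1`; `4 B ≤ 8 a^(2+τ/2) ≤ a^(2+τ)`; `K ≤ a^τ` (so `a^(1-τ)/a ≤ 1/K`).
* `par3`: with `Δ = B^2 a^(-14τ)`, `rho = a^(1-τ)`: `1/lmt^3 = a^(3/2+3τ/4)`, `Δ/B = B a^(-14τ)`, `1/(lmt^2 rho) = a^(3τ/2)`, `(a^(3τ/2) + 1)^16 ≤ 2^16 a^(24τ)`, `1/lmt^19 = a^(19/2+19τ/4)`, `1/Δ^2 = B^(-4) a^(28τ) ≤ a^(-8+26τ)`; so the bracket is at most
`B a^(-14τ) + a^(3/2+3τ/4) + 2^16 a^(3/2+ 54.75 τ) ≤ 3 B a^(-14 τ)` for large `a` (`B ≥ a^(2+τ/2)`, `1/2 > 68.25 τ`), times `(600/lt)^52 = 600^52 a^(26+13τ)`: at most `3 * 600^52 a^(26-τ) B ≤ a^26 B/K`.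
-/

namespace Pool.Agent.H7.PQ

open Finset Pool.Agent.H7.HP

/-- the height of the points -/
noncomputable def Bt (τ : ℝ) (A : ℕ) : ℕ := ⌈(A : ℝ) ^ (2 + τ / 2)⌉₊

/-- the separation parameter -/
noncomputable def lmt (τ : ℝ) (A : ℕ) : ℝ := (A : ℝ) ^ (-(1 / 2 + τ / 4))

/-- the points -/
noncomputable def XT (τ : ℝ) (A : ℕ) : Finset (Fin 5 → ℤ) := XS (lmt τ A) (Bt τ A)

/-- constants and smaller powers -/
private theorem par_ev (K r s : ℝ) (h : r < s) : ∃ A0 : ℕ, ∀ A : ℕ, A ≥ A0 →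
    1 ≤ A ∧ K * (A : ℝ) ^ r ≤ (A : ℝ) ^ s := by
  have h1 := (tendsto_rpow_atTop (sub_pos.2 h)).comp tendsto_natCast_atTop_atTop
  have h2 := (h1.eventually_ge_atTop K).and (Filter.eventually_ge_atTop 1)
  obtain ⟨A0, hA0⟩ := Filter.eventually_atTop.1 h2
  refine ⟨A0, fun A hA => ?_⟩
  obtain ⟨h3, h4⟩ := hA0 A hA
  have hpos : (0 : ℝ) < A := by exact_mod_cast h4
  refine ⟨h4, ?_⟩
  have h5 : K ≤ (A : ℝ) ^ (s - r) := h3
  calc K * (A : ℝ) ^ r ≤ (A : ℝ) ^ (s - r) * (A : ℝ) ^ r :=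
        mul_le_mul_of_nonneg_right h5 (Real.rpow_nonneg hpos.le _)
    _ = (A : ℝ) ^ s := by rw [← Real.rpow_add hpos, sub_add_cancel]

private theorem par_inv {a : ℝ} (ha : 0 < a) (e : ℝ) : 1 / a ^ (-e) = a ^ e := by
  rw [Real.rpow_neg ha.le, one_div, inv_inv]

private theorem par_pow {a : ℝ} (ha : 0 < a) (e : ℝ) (n : ℕ) : (a ^ e) ^ n = a ^ (n * e) := by
  rw [← Real.rpow_natCast, ← Real.rpow_mul ha.le, mul_comm]

theorem par0 (τ : ℝ) (hτ : 0 < τ) (A : ℕ) (hA : 1 ≤ A) :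
    1 ≤ Bt τ A ∧ (A : ℝ) ^ (2 + τ / 2) ≤ Bt τ A ∧ (Bt τ A : ℝ) ≤ 2 * (A : ℝ) ^ (2 + τ / 2) ∧
      0 < lmt τ A ∧ lmt τ A ≤ 1 := by
  have hA' : (1 : ℝ) ≤ A := by exact_mod_cast hA
  have hpos : (0 : ℝ) < A := by linarith
  have h1 : 1 ≤ (A : ℝ) ^ (2 + τ / 2) := Real.one_le_rpow hA' (by positivity)
  have h2 : (A : ℝ) ^ (2 + τ / 2) ≤ Bt τ A := Nat.le_ceil _
  refine ⟨?_, h2, ?_, ?_, ?_⟩
  · have : (1 : ℝ) ≤ Bt τ A := h1.trans h2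
    exact_mod_cast this
  · have := (Nat.ceil_lt_add_one (zero_le_one.trans h1)).le
    unfold Bt
    linarith
  · exact Real.rpow_pos_of_pos hpos _
  · exact Real.rpow_le_one_of_one_le_of_nonpos hA' (by linarith)

theorem par1 (τ : ℝ) (hτ : 0 < τ) (hτ' : τ ≤ 1 / 1000) (K : ℝ) (hK : 0 < K) : ∃ A0 : ℕ, ∀ A ≥ A0,
    1 ≤ A ∧ 1 ≤ 600 / lmt τ A ∧ K * (600 / lmt τ A) ≤ A ∧ (A : ℝ) ≤ (600 / lmt τ A) ^ 2 ∧
      1 ≤ (A : ℝ) ^ (1 - τ) ∧ K * (A : ℝ) ^ (1 - τ) ≤ A := by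
  obtain ⟨A1, hA1⟩ := par_ev (K * 600) (1 / 2 + τ / 4) 1 (by linarith)
  obtain ⟨A2, hA2⟩ := par_ev K (1 - τ) 1 (by linarith)
  refine ⟨max A1 A2, fun A hA => ?_⟩
  obtain ⟨h1, h2⟩ := hA1 A ((le_max_left _ _).trans hA)
  obtain ⟨-, h3⟩ := hA2 A ((le_max_right _ _).trans hA)
  have hA' : (1 : ℝ) ≤ A := by exact_mod_cast h1
  have hpos : (0 : ℝ) < A := by linarith
  rw [Real.rpow_one] at h2 h3
  have hl : 600 / lmt τ A = 600 * (A : ℝ) ^ (1 / 2 + τ / 4) := by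
    unfold lmt
    rw [← par_inv hpos (1 / 2 + τ / 4)]
    ring
  have h4 : 1 ≤ (A : ℝ) ^ (1 / 2 + τ / 4) := Real.one_le_rpow hA' (by positivity)
  rw [hl]
  refine ⟨h1, by linarith, by linarith, ?_, Real.one_le_rpow hA' (by linarith), h3⟩
  rw [mul_pow, par_pow hpos]
  have h5 : (A : ℝ) ≤ (A : ℝ) ^ (((2 : ℕ) : ℝ) * (1 / 2 + τ / 4)) := by
    calc (A : ℝ) = (A : ℝ) ^ (1 : ℝ) := (Real.rpow_one _).symm
      _ ≤ _ := Real.rpow_le_rpow_of_exponent_le hA' (by push_cast; linarith)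
  linarith

theorem par2 (τ : ℝ) (hτ : 0 < τ) (hτ' : τ ≤ 1 / 1000) (K : ℝ) (hK : 0 < K) : ∃ A0 : ℕ, ∀ A ≥ A0,
    K * (A : ℝ) ^ 2 ≤ Bt τ A ∧ K * (1 / lmt τ A ^ 3) ≤ Bt τ A ∧ K * (lmt τ A ^ 4 * Bt τ A) ≤ 1 ∧
      4 * (Bt τ A : ℝ) ≤ (A : ℝ) ^ (2 + τ) ∧ K * ((A : ℝ) ^ (1 - τ) / A) ≤ 1 := by
  obtain ⟨A1, hA1⟩ := par_ev K 2 (2 + τ / 2) (by linarith)
  obtain ⟨A2, hA2⟩ := par_ev K (3 * (1 / 2 + τ / 4)) (2 + τ / 2) (by linarith)
  obtain ⟨A3, hA3⟩ := par_ev (2 * K) 0 (τ / 2) (by linarith)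
  obtain ⟨A4, hA4⟩ := par_ev 8 (2 + τ / 2) (2 + τ) (by linarith)
  obtain ⟨A5, hA5⟩ := par_ev K 0 τ (by linarith)
  refine ⟨max (max A1 A2) (max (max A3 A4) A5), fun A hA => ?_⟩
  have k1 : max A1 A2 ≤ A := (le_max_left _ _).trans hA
  have k2 : max (max A3 A4) A5 ≤ A := (le_max_right _ _).trans hA
  have k3 : max A3 A4 ≤ A := (le_max_left _ _).trans k2
  obtain ⟨h0, h1⟩ := hA1 A ((le_max_left _ _).trans k1)
  obtain ⟨-, h2⟩ := hA2 A ((le_max_right _ _).trans k1)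
  obtain ⟨-, h3⟩ := hA3 A ((le_max_left _ _).trans k3)
  obtain ⟨-, h4⟩ := hA4 A ((le_max_right _ _).trans k3)
  obtain ⟨-, h5⟩ := hA5 A ((le_max_right _ _).trans k2)
  have hA' : (1 : ℝ) ≤ A := by exact_mod_cast h0
  have hpos : (0 : ℝ) < A := by linarith
  obtain ⟨b0, b1, b2, b3, b4⟩ := par0 τ hτ A h0
  rw [Real.rpow_zero, mul_one] at h3 h5
  have h2c : (A : ℝ) ^ (2 : ℝ) = (A : ℝ) ^ 2 := by
    rw [← Real.rpow_natCast]
    norm_num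
  rw [h2c] at h1
  refine ⟨h1.trans b1, ?_, ?_, ?_, ?_⟩
  · have e : 1 / lmt τ A ^ 3 = (A : ℝ) ^ (3 * (1 / 2 + τ / 4)) := by
      unfold lmt
      rw [par_pow hpos, ← par_inv hpos (3 * (1 / 2 + τ / 4))]
      congr 2
      push_cast
      ring
    rw [e]
    exact h2.trans b1
  · have e : lmt τ A ^ 4 = (A : ℝ) ^ (-(2 + τ)) := by
      unfold lmt
      rw [par_pow hpos]
      congr 1
      push_cast
      ring
    have e2 : (A : ℝ) ^ (-(2 + τ)) * (A : ℝ) ^ (2 + τ / 2) = (A : ℝ) ^ (-(τ / 2)) := by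
      rw [← Real.rpow_add hpos]
      congr 1
      ring
    have e3 : (A : ℝ) ^ (-(τ / 2)) * (A : ℝ) ^ (τ / 2) = 1 := by
      rw [← Real.rpow_add hpos, neg_add_cancel, Real.rpow_zero]
    have e4 : 0 < (A : ℝ) ^ (-(2 + τ)) := Real.rpow_pos_of_pos hpos _
    have e5 : 0 < (A : ℝ) ^ (-(τ / 2)) := Real.rpow_pos_of_pos hpos _
    rw [e]
    calc K * ((A : ℝ) ^ (-(2 + τ)) * Bt τ A) ≤
          K * ((A : ℝ) ^ (-(2 + τ)) * (2 * (A : ℝ) ^ (2 + τ / 2))) := by gcongr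
      _ = 2 * K * (A : ℝ) ^ (-(τ / 2)) := by rw [← e2]; ring
      _ ≤ (A : ℝ) ^ (τ / 2) * (A : ℝ) ^ (-(τ / 2)) := by gcongr
      _ = 1 := by rw [mul_comm, e3]
  · linarith
  · have e1 : (A : ℝ) ^ (1 - τ) / A = (A : ℝ) ^ (-τ) := by
      have : (A : ℝ) ^ (1 - τ) = (A : ℝ) ^ (-τ) * A := by
        nth_rewrite 3 [← Real.rpow_one (A : ℝ)]
        rw [← Real.rpow_add hpos]
        congr 1
        ring
      rw [this, mul_div_assoc, div_self hpos.ne', mul_one]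
    have e3 : (A : ℝ) ^ τ * (A : ℝ) ^ (-τ) = 1 := by
      rw [← Real.rpow_add hpos, add_neg_cancel, Real.rpow_zero]
    have e5 : 0 < (A : ℝ) ^ (-τ) := Real.rpow_pos_of_pos hpos _
    rw [e1, ← e3]
    gcongr

theorem par3 (τ : ℝ) (hτ : 0 < τ) (hτ' : τ ≤ 1 / 1000) (K : ℝ) (hK : 0 < K) : ∃ A0 : ℕ, ∀ A ≥ A0,
    ∃ Δ : ℝ, 0 < Δ ∧ K * ((600 / lmt τ A) ^ 52 * (1 / lmt τ A ^ 3 + Δ / Bt τ A +
      (1 / (lmt τ A ^ 2 * (A : ℝ) ^ (1 - τ)) + 1) ^ 16 / lmt τ A ^ 19 / Δ ^ 2)) ≤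
        (A : ℝ) ^ 26 * Bt τ A := by
  obtain ⟨A1, hA1⟩ := par_ev 1 (3 * (1 / 2 + τ / 4)) (2 + τ / 2 - 14 * τ) (by linarith)
  obtain ⟨A2, hA2⟩ := par_ev 65536 (19 / 2 + 283 / 4 * τ) (10 + 5 / 2 * τ) (by linarith)
  obtain ⟨A3, hA3⟩ := par_ev (3 * K * 600 ^ 52) (26 - τ) 26 (by linarith)
  refine ⟨max (max A1 A2) A3, fun A hA => ?_⟩
  have k1 : max A1 A2 ≤ A := (le_max_left _ _).trans hA
  obtain ⟨h0, h1⟩ := hA1 A ((le_max_left _ _).trans k1)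
  obtain ⟨-, h2⟩ := hA2 A ((le_max_right _ _).trans k1)
  obtain ⟨-, h3⟩ := hA3 A ((le_max_right _ _).trans hA)
  have hA' : (1 : ℝ) ≤ A := by exact_mod_cast h0
  have hpos : (0 : ℝ) < A := by linarith
  obtain ⟨b0, b1, b2, b3, b4⟩ := par0 τ hτ A h0
  set b : ℝ := (Bt τ A : ℝ) with hb
  have hb0 : 0 < b := (Real.rpow_pos_of_pos hpos _).trans_le b1
  set P : ℝ → ℝ := fun e => (A : ℝ) ^ e with hP
  have hPp : ∀ e, 0 < P e := fun e => Real.rpow_pos_of_pos hpos e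
  have hPa : ∀ e e', P e * P e' = P (e + e') := fun e e' => (Real.rpow_add hpos e e').symm
  have hPn : ∀ (e : ℝ) (n : ℕ), P e ^ n = P (n * e) := fun e n => par_pow hpos e n
  have hPi : ∀ e, 1 / P (-e) = P e := fun e => par_inv hpos e
  refine ⟨b ^ 2 * P (-(14 * τ)), by have := hPp (-(14 * τ)); positivity, ?_⟩
  have e1 : (600 / lmt τ A) ^ 52 = 600 ^ 52 * P (26 + 13 * τ) := by
    have : 600 / lmt τ A = 600 * P (1 / 2 + τ / 4) := by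
      rw [← hPi (1 / 2 + τ / 4)]
      unfold lmt
      simp only [hP]
      ring
    rw [this, mul_pow, hPn]
    congr 2
    push_cast
    ring
  have e2 : 1 / lmt τ A ^ 3 = P (3 * (1 / 2 + τ / 4)) := by
    unfold lmt
    rw [par_pow hpos, ← hPi (3 * (1 / 2 + τ / 4))]
    simp only [hP]
    congr 2
    push_cast
    ring
  have e3 : b ^ 2 * P (-(14 * τ)) / b = b * P (-(14 * τ)) := by
    field_simp
  have e4 : 1 / (lmt τ A ^ 2 * (A : ℝ) ^ (1 - τ)) = P (3 / 2 * τ) := by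
    have : lmt τ A ^ 2 * (A : ℝ) ^ (1 - τ) = P (-(3 / 2 * τ)) := by
      unfold lmt
      rw [par_pow hpos, ← Real.rpow_add hpos]
      simp only [hP]
      congr 1
      push_cast
      ring
    rw [this, hPi]
  have e5 : ∀ z : ℝ, z / lmt τ A ^ 19 = z * P (19 / 2 + 19 / 4 * τ) := by
    intro z
    have : lmt τ A ^ 19 = P (-(19 / 2 + 19 / 4 * τ)) := by
      unfold lmt
      rw [par_pow hpos]
      simp only [hP]
      congr 1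
      push_cast
      ring
    rw [this, ← hPi (19 / 2 + 19 / 4 * τ)]
    ring
  have e6 : ∀ z : ℝ, z / (b ^ 2 * P (-(14 * τ))) ^ 2 = z * P (28 * τ) / b ^ 4 := by
    intro z
    have : (b ^ 2 * P (-(14 * τ))) ^ 2 = b ^ 4 * P (-(28 * τ)) := by
      rw [mul_pow, hPn, ← pow_mul]
      congr 2
      push_cast
      ring
    rw [this, ← hPi (28 * τ)]
    have := hPp (-(28 * τ))
    field_simp
  rw [e1, e2, e3, e4, e5, e6]
  -- the three terms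
  have t1 : P (3 * (1 / 2 + τ / 4)) ≤ b * P (-(14 * τ)) := by
    rw [one_mul] at h1
    refine h1.trans ?_
    have : (A : ℝ) ^ (2 + τ / 2 - 14 * τ) = P (2 + τ / 2) * P (-(14 * τ)) := by
      rw [hPa]
      simp only [hP]
      congr 1
    rw [this]
    exact mul_le_mul_of_nonneg_right b1 (hPp _).le
  have hone : 1 ≤ P (3 / 2 * τ) := Real.one_le_rpow hA' (by positivity)
  have t2 : (P (3 / 2 * τ) + 1) ^ 16 ≤ 65536 * P (24 * τ) := by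
    calc (P (3 / 2 * τ) + 1) ^ 16 ≤ (2 * P (3 / 2 * τ)) ^ 16 := by
          gcongr
          linarith
      _ = 65536 * P (24 * τ) := by
          rw [mul_pow, hPn]
          norm_num
          congr 1
          ring
  have t3 : (P (3 / 2 * τ) + 1) ^ 16 * P (19 / 2 + 19 / 4 * τ) * P (28 * τ) / b ^ 4 ≤
      b * P (-(14 * τ)) := by
    rw [div_le_iff₀ (by positivity)]
    have s1 : (P (3 / 2 * τ) + 1) ^ 16 * P (19 / 2 + 19 / 4 * τ) * P (28 * τ) ≤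
        65536 * P (24 * τ) * P (19 / 2 + 19 / 4 * τ) * P (28 * τ) :=
      mul_le_mul_of_nonneg_right (mul_le_mul_of_nonneg_right t2 (hPp _).le) (hPp _).le
    have s2 : 65536 * P (24 * τ) * P (19 / 2 + 19 / 4 * τ) * P (28 * τ) =
        65536 * P (19 / 2 + 283 / 4 * τ) * P (-(14 * τ)) := by
      rw [mul_assoc, mul_assoc, hPa, hPa, mul_assoc, hPa]
      congr 2
      ring
    have s3 : P (2 + τ / 2) ^ 5 = P (10 + 5 / 2 * τ) := by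
      rw [hPn]
      congr 1
      push_cast
      ring
    have s4 : P (10 + 5 / 2 * τ) ≤ b ^ 5 := by
      rw [← s3]
      exact pow_le_pow_left₀ (hPp _).le b1 5
    calc _ ≤ _ := s1
      _ = _ := s2
      _ ≤ b ^ 5 * P (-(14 * τ)) :=
          mul_le_mul_of_nonneg_right (h2.trans s4) (hPp _).le
      _ = _ := by ring
  have t4 : P (3 * (1 / 2 + τ / 4)) + b * P (-(14 * τ)) +
      (P (3 / 2 * τ) + 1) ^ 16 * P (19 / 2 + 19 / 4 * τ) * P (28 * τ) / b ^ 4 ≤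
      3 * (b * P (-(14 * τ))) := by linarith
  have h26 : (A : ℝ) ^ (26 : ℝ) = (A : ℝ) ^ 26 := by
    rw [← Real.rpow_natCast]
    norm_num
  rw [h26] at h3
  calc K * (600 ^ 52 * P (26 + 13 * τ) * (P (3 * (1 / 2 + τ / 4)) + b * P (-(14 * τ)) +
      (P (3 / 2 * τ) + 1) ^ 16 * P (19 / 2 + 19 / 4 * τ) * P (28 * τ) / b ^ 4)) ≤
      K * (600 ^ 52 * P (26 + 13 * τ) * (3 * (b * P (-(14 * τ))))) := by
        refine mul_le_mul_of_nonneg_left ?_ hK.le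
        refine mul_le_mul_of_nonneg_left t4 ?_
        have := hPp (26 + 13 * τ)
        positivity
    _ = 3 * K * 600 ^ 52 * (P (26 + 13 * τ) * P (-(14 * τ))) * b := by ring
    _ = 3 * K * 600 ^ 52 * P (26 - τ) * b := by
        rw [hPa]
        congr 3
        ring
    _ ≤ (A : ℝ) ^ 26 * b := mul_le_mul_of_nonneg_right h3 hb0.le

end Pool.Agent.H7.PQ
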