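import Pool.Agent.H7.PQ.Vsm
import Pool.Agent.H7.PQ.Nsp
import Pool.Agent.H7.PQ.Low

set_option autoImplicit false

/-!
# [H7 PQ POS] a positive proportion of the pairs has a zero, 110-160 lines

`S = XT τ A`, `B = Bt τ A`. `τ` may be replaced by `min τ (1/1000)` (`A^(2+τ)` increases in `τ`, `A ≥ 1`).
* `pos_one` (pigeonhole): `x ∈ S`, `A ≥ 1`. The `(2 ⌊A/2⌋ + 1)^15 ≥ A^15` forms of `bf 5 (A/2)` have at `x` values of size `≤ 15 A (4B)^2` (`mem_bf`, sum of 15 terms): at most `480 A B^2 + 1 ≤ 500 A B^2` values, so at least `A^15/(500 A B^2)` of them have the same value at `x` (`Finset.exists_le_card_fiber_of_mul_le_card_of_maps_to` or sum over fibres);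
subtracting one of them gives that many forms in `bf 5 A` which vanish at `x`.
* `#S ≥ c B^5` for large `A`: `x0_low`, `nsp`, `par2` (`lmt^4 B` small).
* `∑_{f,g ∈ bf 5 A} rr S f g 0 0 = ∑_{x ∈ S} (#{f ∈ bf 5 A : f(x) = 0})^2 ≥ c B^5 (A^14/(500 B^2))^2 = c' A^28 B`.
* `∑_{f,g} (rr S f g 0 0)^2 ≤ C A^26 B^2`: `vsm_all` with `J = J' = 240 A B^2 + 1`: `rr S f g J J' = 0` for `f ∈ bf 5 A` (`|f(x)| ≤ 240 A B^2`).
* Cauchy (`Finset.sum_mul_sq_le_sq_mul_sq` or `inner_mul_le_norm_mul_norm`; the sum of `rr` is over the pairs with `rr > 0`): `(c' A^28 B)^2 ≤ #{(f,g) : rr > 0} * C A^26 B^2`. So at least `c'' A^30 ≥ c'' 3^(-30) (2A+1)^30` pairs have `rr > 0`, and then an `x ∈ S` is a zero, `x ≠ 0`, `|x_i| ≤ 4B ≤ A^(2+τ)` (`xs_bd`, `par2`).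
-/

namespace Pool.Agent.H7.PQ

open Finset Pool.Agent.H7.HP

/-- values at the points -/
private theorem Pos_val {B T : ℕ} {f : Idx 5 → ℤ} {x : Fin 5 → ℤ} (hf : f ∈ bf 5 T)
    (hx : ∀ i, |x i| ≤ 4 * (B : ℤ)) : |qv f x| ≤ 240 * (T : ℤ) * (B : ℤ) ^ 2 := by
  rw [mem_bf] at hf
  unfold qv
  have h1 : ∀ p ∈ (univ : Finset (Idx 5)),
      |f p * (x p.1.1 * x p.1.2)| ≤ (T : ℤ) * (4 * (B : ℤ) * (4 * (B : ℤ))) := by
    intro p _
    rw [abs_mul, abs_mul]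
    exact mul_le_mul (hf p) (mul_le_mul (hx _) (hx _) (abs_nonneg _) (by positivity))
      (mul_nonneg (abs_nonneg _) (abs_nonneg _)) (by positivity)
  refine (abs_sum_le_sum_abs _ _).trans ((sum_le_card_nsmul _ _ _ h1).trans (le_of_eq ?_))
  rw [card_univ, card_Idx5]
  simp only [nsmul_eq_mul]
  push_cast
  ring

private theorem Pos_bd {τ : ℝ} {A : ℕ} {x : Fin 5 → ℤ} (hx : x ∈ XT τ A) (i : Fin 5) :
    |x i| ≤ 4 * (Bt τ A : ℤ) := by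
  have h := (xs_bd hx).1 i
  exact_mod_cast h

open scoped Classical in
theorem pos_one {τ : ℝ} (hτ : 0 < τ) {A : ℕ} (hA : 1 ≤ A) {x : Fin 5 → ℤ} (hx : x ∈ XT τ A) :
    (A : ℝ) ^ 14 / (500 * (Bt τ A : ℝ) ^ 2) ≤ (((bf 5 A).filter fun f => qv f x = 0).card : ℝ) := by
  obtain ⟨p1, -, -, -, -⟩ := par0 τ hτ A hA
  have hbd := fun i => Pos_bd hx i
  generalize Bt τ A = B at *
  have hb1 : (1 : ℝ) ≤ (B : ℝ) := by exact_mod_cast p1
  have ha1 : (1 : ℝ) ≤ (A : ℝ) := by exact_mod_cast hA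
  set M : ℕ := 240 * (A / 2) * B ^ 2 with hM
  have hmap : ∀ f ∈ bf 5 (A / 2), qv f x ∈ Icc (-(M : ℤ)) M := by
    intro f hf
    have h1 := Pos_val hf hbd
    rw [mem_Icc, ← abs_le]
    rw [hM]
    push_cast at h1 ⊢
    exact h1
  have hcard : ((Icc (-(M : ℤ)) M).card : ℝ) ≤ 500 * A * (B : ℝ) ^ 2 := by
    rw [Int.card_Icc]
    have h1 : ((M : ℤ) + 1 - -(M : ℤ)).toNat = 2 * M + 1 := by omega
    rw [h1]
    push_cast
    have h2 : ((A / 2 : ℕ) : ℝ) ≤ (A : ℝ) / 2 := Nat.cast_div_le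
    have h3 : (M : ℝ) = 240 * ((A / 2 : ℕ) : ℝ) * (B : ℝ) ^ 2 := by
      rw [hM]
      push_cast
      ring
    have hb2 : (1 : ℝ) ≤ (B : ℝ) ^ 2 := one_le_pow₀ hb1
    have h4 : (M : ℝ) ≤ 120 * A * (B : ℝ) ^ 2 := by
      rw [h3]
      have : 240 * ((A / 2 : ℕ) : ℝ) * (B : ℝ) ^ 2 ≤ 240 * ((A : ℝ) / 2) * (B : ℝ) ^ 2 := by
        gcongr
      linarith
    have h5 : (1 : ℝ) ≤ A * (B : ℝ) ^ 2 := one_le_mul_of_one_le_of_one_le ha1 hb2
    nlinarith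
  have hpos : (0 : ℝ) < (A : ℝ) ^ 14 / (500 * (B : ℝ) ^ 2) := by positivity
  obtain ⟨α, -, hα⟩ := Finset.exists_le_card_fiber_of_nsmul_le_card_of_maps_to
    (s := bf 5 (A / 2)) (t := Icc (-(M : ℤ)) M) (f := fun f => qv f x)
    (b := (A : ℝ) ^ 14 / (500 * (B : ℝ) ^ 2)) hmap
    ⟨0, by rw [mem_Icc]; constructor <;> omega⟩ (by
      rw [nsmul_eq_mul, card_bf5]
      have h1 : ((Icc (-(M : ℤ)) M).card : ℝ) * ((A : ℝ) ^ 14 / (500 * (B : ℝ) ^ 2)) ≤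
          500 * A * (B : ℝ) ^ 2 * ((A : ℝ) ^ 14 / (500 * (B : ℝ) ^ 2)) :=
        mul_le_mul_of_nonneg_right hcard hpos.le
      have h2 : 500 * A * (B : ℝ) ^ 2 * ((A : ℝ) ^ 14 / (500 * (B : ℝ) ^ 2)) = (A : ℝ) ^ 15 := by
        field_simp
      have h3 : (A : ℝ) ≤ ((2 * (A / 2) + 1 : ℕ) : ℝ) := by
        have : A ≤ 2 * (A / 2) + 1 := by omega
        exact_mod_cast this
      have h4 : (A : ℝ) ^ 15 ≤ (((2 * (A / 2) + 1) ^ 15 : ℕ) : ℝ) := by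
        rw [Nat.cast_pow]
        exact pow_le_pow_left₀ (by positivity) h3 15
      linarith)
  have hne : ((bf 5 (A / 2)).filter fun f => qv f x = α).Nonempty := by
    rw [← card_pos]
    have : (0 : ℝ) < (((bf 5 (A / 2)).filter fun f => qv f x = α).card : ℝ) :=
      lt_of_lt_of_le hpos hα
    exact_mod_cast this
  obtain ⟨f0, hf0⟩ := hne
  rw [mem_filter] at hf0
  refine hα.trans ?_
  have hinj : ((bf 5 (A / 2)).filter fun f => qv f x = α).card ≤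
      ((bf 5 A).filter fun f => qv f x = 0).card := by
    refine card_le_card_of_injOn (fun f => fun p => f p - f0 p) ?_ ?_
    · intro f hf
      have hf := mem_filter.1 (mem_coe.1 hf)
      rw [mem_coe, mem_filter, mem_bf]
      refine ⟨fun p => ?_, ?_⟩
      · have h1 := mem_bf.1 hf.1 p
        have h2 := mem_bf.1 hf0.1 p
        have h3 : 2 * ((A / 2 : ℕ) : ℤ) ≤ A := by omega
        calc |f p - f0 p| ≤ |f p| + |f0 p| := abs_sub _ _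
          _ ≤ A := by linarith
      · have h1 : qv (fun p => f p - f0 p) x = qv f x - qv f0 x := by
          unfold qv
          rw [← sum_sub_distrib]
          exact sum_congr rfl fun p _ => by ring
        rw [h1, hf.2, hf0.2, sub_self]
    · intro f _ g _ hfg
      funext p
      have := congrFun hfg p
      simp only [sub_left_inj] at this
      exact this
  exact_mod_cast hinj

theorem xt_low (τ : ℝ) (hτ : 0 < τ) (hτ' : τ ≤ 1 / 1000) : ∃ c : ℝ, 0 < c ∧ ∃ A0 : ℕ, ∀ A ≥ A0,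
    c * (Bt τ A : ℝ) ^ 5 ≤ ((XT τ A).card : ℝ) := by
  classical
  obtain ⟨c0, hc0, B0, h0⟩ := x0_low
  obtain ⟨C, hC, h1⟩ := nsp
  obtain ⟨A1, hA1⟩ := par2 τ hτ hτ' (2 * C / c0) (by positivity)
  obtain ⟨A2, hA2⟩ := par2 τ hτ hτ' 1 one_pos
  refine ⟨c0 / 2, by positivity, max (max A1 A2) (max B0 1), fun A hA => ?_⟩
  have hA1' : A1 ≤ A := le_trans (le_trans (le_max_left _ _) (le_max_left _ _)) hA
  have hA2' : A2 ≤ A := le_trans (le_trans (le_max_right _ _) (le_max_left _ _)) hA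
  have hA3' : B0 ≤ A := le_trans (le_trans (le_max_left _ _) (le_max_right _ _)) hA
  have hA4' : 1 ≤ A := le_trans (le_trans (le_max_right _ _) (le_max_right _ _)) hA
  obtain ⟨p1, -, -, p4, p5⟩ := par0 τ hτ A hA4'
  obtain ⟨-, -, q3, -, -⟩ := hA1 A hA1'
  obtain ⟨r1, -, -, -, -⟩ := hA2 A hA2'
  have ha1 : (1 : ℝ) ≤ (A : ℝ) := by exact_mod_cast hA4'
  have hB0 : B0 ≤ Bt τ A := by
    have h2 : (A : ℝ) ≤ Bt τ A := by nlinarith
    exact hA3'.trans (by exact_mod_cast h2)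
  have h2 := h0 _ hB0
  have h3 := h1 (Bt τ A) (lmt τ A) p4 p5
  have h4 : ((XT τ A).card : ℝ) + (((X0 (Bt τ A)).filter fun x => ¬ Sep (lmt τ A) x).card : ℝ) =
      ((X0 (Bt τ A)).card : ℝ) := by
    have h5 : (XT τ A).card + ((X0 (Bt τ A)).filter fun x => ¬ Sep (lmt τ A) x).card =
        (X0 (Bt τ A)).card := by
      unfold XT XS
      exact card_filter_add_card_filter_not _
    exact_mod_cast h5
  have hb : (0 : ℝ) < (Bt τ A : ℝ) := by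
    have : (1 : ℝ) ≤ (Bt τ A : ℝ) := by exact_mod_cast p1
    linarith
  have h6 : C * lmt τ A ^ 4 * (Bt τ A : ℝ) ^ 6 ≤ c0 / 2 * (Bt τ A : ℝ) ^ 5 := by
    have h7 : C * (lmt τ A ^ 4 * Bt τ A) ≤ c0 / 2 := by
      rw [div_mul_eq_mul_div, div_le_iff₀ hc0] at q3
      linarith
    calc C * lmt τ A ^ 4 * (Bt τ A : ℝ) ^ 6 = C * (lmt τ A ^ 4 * Bt τ A) * (Bt τ A : ℝ) ^ 5 := by
          ring
      _ ≤ c0 / 2 * (Bt τ A : ℝ) ^ 5 := mul_le_mul_of_nonneg_right h7 (by positivity)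
  linarith

open scoped Classical in
/-- double counting -/
private theorem Pos_sum (S : Finset (Fin 5 → ℤ)) (F : Finset (Idx 5 → ℤ)) :
    ∑ f ∈ F, ∑ g ∈ F, (rr S f g 0 0 : ℝ) =
      ∑ x ∈ S, ((F.filter fun f => qv f x = 0).card : ℝ) ^ 2 := by
  have h1 : ∀ f g : Idx 5 → ℤ, (rr S f g 0 0 : ℝ) =
      ∑ x ∈ S, (if qv f x = 0 then (1 : ℝ) else 0) * (if qv g x = 0 then (1 : ℝ) else 0) := by
    intro f g
    unfold rr
    rw [card_filter]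
    push_cast
    refine sum_congr rfl fun x _ => ?_
    by_cases hf : qv f x = 0 <;> by_cases hg : qv g x = 0 <;> simp [hf, hg]
  calc ∑ f ∈ F, ∑ g ∈ F, (rr S f g 0 0 : ℝ)
      = ∑ f ∈ F, ∑ x ∈ S, (if qv f x = 0 then (1 : ℝ) else 0) *
          ∑ g ∈ F, (if qv g x = 0 then (1 : ℝ) else 0) := by
        refine sum_congr rfl fun f _ => ?_
        simp only [h1]
        rw [sum_comm]
        exact sum_congr rfl fun x _ => (mul_sum _ _ _).symm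
    _ = ∑ x ∈ S, (∑ f ∈ F, (if qv f x = 0 then (1 : ℝ) else 0)) *
          ∑ g ∈ F, (if qv g x = 0 then (1 : ℝ) else 0) := by
        rw [sum_comm]
        exact sum_congr rfl fun x _ => (sum_mul _ _ _).symm
    _ = ∑ x ∈ S, ((F.filter fun f => qv f x = 0).card : ℝ) ^ 2 := by
        refine sum_congr rfl fun x _ => ?_
        rw [sum_boole, sq]

open scoped Classical in
private theorem Pos_main (τ : ℝ) (hτ : 0 < τ) (hτ' : τ ≤ 1 / 1000) :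
    ∃ c : ℝ, 0 < c ∧ ∃ A0 : ℕ, ∀ A ≥ A0,
    1 ≤ A ∧ c * (2 * A + 1) ^ 30 ≤
      (((bf 5 A ×ˢ bf 5 A).filter fun q => IZ q.1 q.2 ((A : ℝ) ^ (2 + τ))).card : ℝ) := by
  obtain ⟨c1, hc1, A1, hA1⟩ := xt_low τ hτ hτ'
  obtain ⟨C, hC, A2, hA2⟩ := vsm_all τ hτ hτ'
  obtain ⟨A3, hA3⟩ := par2 τ hτ hτ' 1 one_pos
  refine ⟨(c1 / 250000) ^ 2 / (C * 3 ^ 30), by positivity, max (max A1 A2) (max A3 1),
    fun A hA => ?_⟩
  have hA1' : A1 ≤ A := le_trans (le_trans (le_max_left _ _) (le_max_left _ _)) hA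
  have hA2' : A2 ≤ A := le_trans (le_trans (le_max_right _ _) (le_max_left _ _)) hA
  have hA3' : A3 ≤ A := le_trans (le_trans (le_max_left _ _) (le_max_right _ _)) hA
  have hA4' : 1 ≤ A := le_trans (le_trans (le_max_right _ _) (le_max_right _ _)) hA
  refine ⟨hA4', ?_⟩
  obtain ⟨p1, -, -, p4, p5⟩ := par0 τ hτ A hA4'
  obtain ⟨-, -, -, q4, -⟩ := hA3 A hA3'
  have hS := hA1 A hA1'
  have hb1 : (1 : ℝ) ≤ (Bt τ A : ℝ) := by exact_mod_cast p1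
  have hb : (0 : ℝ) < (Bt τ A : ℝ) := by linarith
  have ha1 : (1 : ℝ) ≤ (A : ℝ) := by exact_mod_cast hA4'
  have ha : (0 : ℝ) < (A : ℝ) := by linarith
  -- the second moment
  have hV := hA2 A hA2' (240 * (A : ℤ) * (Bt τ A : ℤ) ^ 2 + 1)
    (240 * (A : ℤ) * (Bt τ A : ℤ) ^ 2 + 1)
  have hzero : ∀ f ∈ bf 5 A, ∀ g : Idx 5 → ℤ, rr (XT τ A) f g
      (240 * (A : ℤ) * (Bt τ A : ℤ) ^ 2 + 1) (240 * (A : ℤ) * (Bt τ A : ℤ) ^ 2 + 1) = 0 := by
    intro f hf g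
    unfold rr
    rw [card_eq_zero, filter_eq_empty_iff]
    intro x hx hcon
    have h1 := Pos_val hf fun i => Pos_bd hx i
    rw [hcon.1] at h1
    have h2 := le_abs_self (240 * (A : ℤ) * (Bt τ A : ℤ) ^ 2 + 1)
    linarith
  have hM2 : ∑ f ∈ bf 5 A, ∑ g ∈ bf 5 A, (rr (XT τ A) f g 0 0 : ℝ) ^ 2 ≤
      C * (A : ℝ) ^ 26 * (Bt τ A : ℝ) ^ 2 := by
    refine le_trans (le_of_eq ?_) hV
    refine sum_congr rfl fun f hf => sum_congr rfl fun g _ => ?_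
    rw [hzero f hf g, Nat.cast_zero, sub_zero]
  -- the first moment
  have hM1 : c1 / 250000 * ((A : ℝ) ^ 28 * Bt τ A) ≤
      ∑ f ∈ bf 5 A, ∑ g ∈ bf 5 A, (rr (XT τ A) f g 0 0 : ℝ) := by
    rw [Pos_sum]
    have h1 : ∀ x ∈ XT τ A, ((A : ℝ) ^ 14 / (500 * (Bt τ A : ℝ) ^ 2)) ^ 2 ≤
        (((bf 5 A).filter fun f => qv f x = 0).card : ℝ) ^ 2 := fun x hx =>
      pow_le_pow_left₀ (by positivity) (pos_one hτ hA4' hx) 2
    have h2 := card_nsmul_le_sum _ _ _ h1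
    rw [nsmul_eq_mul] at h2
    refine le_trans ?_ h2
    have h3 := mul_le_mul_of_nonneg_right hS
      (show (0 : ℝ) ≤ ((A : ℝ) ^ 14 / (500 * (Bt τ A : ℝ) ^ 2)) ^ 2 by positivity)
    refine le_trans (le_of_eq ?_) h3
    field_simp
    ring
  -- Cauchy
  set P := (bf 5 A ×ˢ bf 5 A).filter fun q => rr (XT τ A) q.1 q.2 0 0 ≠ 0 with hP
  have hs1 : ∑ f ∈ bf 5 A, ∑ g ∈ bf 5 A, (rr (XT τ A) f g 0 0 : ℝ) =
      ∑ q ∈ P, (rr (XT τ A) q.1 q.2 0 0 : ℝ) := by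
    rw [← sum_product']
    symm
    refine sum_filter_of_ne fun q _ hq => ?_
    intro h
    apply hq
    rw [h, Nat.cast_zero]
  have hs2 : ∑ f ∈ bf 5 A, ∑ g ∈ bf 5 A, (rr (XT τ A) f g 0 0 : ℝ) ^ 2 =
      ∑ q ∈ P, (rr (XT τ A) q.1 q.2 0 0 : ℝ) ^ 2 := by
    rw [← sum_product' (f := fun f g => (rr (XT τ A) f g 0 0 : ℝ) ^ 2)]
    symm
    refine sum_filter_of_ne fun q _ hq => ?_
    intro h
    apply hq
    rw [h, Nat.cast_zero]
    norm_num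
  have hcs := sq_sum_le_card_mul_sum_sq (s := P)
    (f := fun q => (rr (XT τ A) q.1 q.2 0 0 : ℝ))
  rw [← hs1, ← hs2] at hcs
  have h0 : (0 : ℝ) ≤ c1 / 250000 * ((A : ℝ) ^ 28 * Bt τ A) := by positivity
  have h1 : (c1 / 250000 * ((A : ℝ) ^ 28 * Bt τ A)) ^ 2 ≤
      (P.card : ℝ) * (C * (A : ℝ) ^ 26 * (Bt τ A : ℝ) ^ 2) :=
    (pow_le_pow_left₀ h0 hM1 2).trans (hcs.trans (mul_le_mul_of_nonneg_left hM2 (by positivity)))
  have h2 : (c1 / 250000) ^ 2 / C * (A : ℝ) ^ 30 ≤ (P.card : ℝ) := by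
    have h3 : (0 : ℝ) < C * (A : ℝ) ^ 26 * (Bt τ A : ℝ) ^ 2 := by positivity
    rw [← div_le_iff₀ h3] at h1
    refine le_trans (le_of_eq ?_) h1
    field_simp
  have h4 : (c1 / 250000) ^ 2 / (C * 3 ^ 30) * (2 * (A : ℝ) + 1) ^ 30 ≤
      (c1 / 250000) ^ 2 / C * (A : ℝ) ^ 30 := by
    have h5 : (2 * (A : ℝ) + 1) ^ 30 ≤ (3 * (A : ℝ)) ^ 30 :=
      pow_le_pow_left₀ (by positivity) (by linarith) 30
    rw [mul_pow] at h5
    calc (c1 / 250000) ^ 2 / (C * 3 ^ 30) * (2 * (A : ℝ) + 1) ^ 30 ≤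
          (c1 / 250000) ^ 2 / (C * 3 ^ 30) * (3 ^ 30 * (A : ℝ) ^ 30) :=
          mul_le_mul_of_nonneg_left h5 (by positivity)
      _ = (c1 / 250000) ^ 2 / C * (A : ℝ) ^ 30 := by
          field_simp
  have h6 : P.card ≤
      ((bf 5 A ×ˢ bf 5 A).filter fun q => IZ q.1 q.2 ((A : ℝ) ^ (2 + τ))).card := by
    refine card_le_card fun q hq => ?_
    rw [hP, mem_filter] at hq
    rw [mem_filter]
    refine ⟨hq.1, ?_⟩
    have h7 := hq.2
    unfold rr at h7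
    rw [card_ne_zero] at h7
    obtain ⟨x, hx⟩ := h7
    rw [mem_filter] at hx
    refine ⟨x, ?_, hx.2.1, hx.2.2, fun i => ?_⟩
    · intro h8
      have h9 := (mem_XS.1 hx.1).1.lo
      rw [h8] at h9
      have : (0 : ℤ) ≤ (Bt τ A : ℤ) := Int.natCast_nonneg _
      simp only [Pi.zero_apply] at h9
      linarith
    · exact ((xs_bd hx.1).1 i).trans q4
  have h7 : (P.card : ℝ) ≤ (((bf 5 A ×ˢ bf 5 A).filter fun q =>
      IZ q.1 q.2 ((A : ℝ) ^ (2 + τ))).card : ℝ) := by exact_mod_cast h6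
  linarith

open scoped Classical in
theorem pos2 (τ : ℝ) (hτ : 0 < τ) : ∃ c : ℝ, 0 < c ∧ ∃ A0 : ℕ, ∀ A ≥ A0,
    c * (2 * A + 1) ^ 30 ≤
      (((bf 5 A ×ˢ bf 5 A).filter fun q => IZ q.1 q.2 ((A : ℝ) ^ (2 + τ))).card : ℝ) := by
  obtain ⟨c, hc, A0, h⟩ := Pos_main (min τ (1 / 1000)) (lt_min hτ (by norm_num)) (min_le_right _ _)
  refine ⟨c, hc, A0, fun A hA => ?_⟩
  obtain ⟨h1, h2⟩ := h A hA
  refine h2.trans ?_
  have h3 : ((bf 5 A ×ˢ bf 5 A).filter fun q =>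
      IZ q.1 q.2 ((A : ℝ) ^ (2 + min τ (1 / 1000)))).card ≤
      ((bf 5 A ×ˢ bf 5 A).filter fun q => IZ q.1 q.2 ((A : ℝ) ^ (2 + τ))).card := by
    refine card_le_card fun q hq => ?_
    rw [mem_filter] at hq ⊢
    refine ⟨hq.1, ?_⟩
    obtain ⟨x, hx0, hx1, hx2, hx3⟩ := hq.2
    refine ⟨x, hx0, hx1, hx2, fun i => (hx3 i).trans ?_⟩
    apply Real.rpow_le_rpow_of_exponent_le (by exact_mod_cast h1)
    have := min_le_left τ (1 / 1000)
    linarith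
  exact_mod_cast h3

end Pool.Agent.H7.PQ
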