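import Mathlib

set_option autoImplicit false

/-!
# [H7 PQ TRF] elementary transference theorem for lattices, 120-200 lines

Call `u` dual if `inner ℝ u v` is an integer for all `v ∈ L`. Induction on `n`; `C 0 = 1`, `C (n+1) = 1 + n * sqrt 2 * C n` (or any larger number). `n = 0`: empty family.
Step: `finrank E = n + 1`. The dual vectors span `E`, so there is a nonzero one. `m0 = sInf {‖u‖ : u ≠ 0 dual} ≥ μ > 0`; take a dual `u ≠ 0` with `‖u‖ < sqrt 2 * m0`, i.e. `‖u‖^2 < 2 m0^2`.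
(1) There is `v1 ∈ L` with `inner u v1 = 1`: the values `inner u v`, `v ∈ L`, form a subgroup of `ℤ`, generated by some `g ≥ 0` (`Int.subgroup_cyclic` or `AddSubgroup` of `ℤ`); `g ≠ 0` because `L` spans `E` and `u ≠ 0`;
if `g ≥ 2` then `g⁻¹ u` is dual, nonzero, of norm `≤ ‖u‖/2 < m0`: impossible.
(2) `E' = (ℝ ∙ u)ᗮ`, `finrank E' = n` (`Submodule.finrank_orthogonal_span_singleton`), `L' = L.comap E'.subtype`. `L'` spans `E'`: for `e ∈ E'` write `e = ∑ c_i v_i`, `v_i ∈ L` (`L` spans), then `e = ∑ c_i (v_i - inner u v_i • v1)` because `∑ c_i inner u v_i = inner u e = 0`, and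
`v_i - inner u v_i • v1 ∈ L'` (`inner u v_i` is an integer). (A neat way: the linear map `P : e ↦ e - inner u e • v1` maps `E` to `E'`, is the identity on `E'`, and maps `L` to `L'`; so it maps the span of `L` to the span of `L'`.)
The orthogonal projections to `E'` of dual vectors of `L` are dual for `L'` and span `E'` (image of a spanning set under a surjective linear map).
(3) Let `w ∈ E'`, `w ≠ 0`, be dual for `L'`. Let `t = - inner w v1 - round(- inner w v1)` so that `|t| ≤ 1/2`, and `w + t u` is dual for `L`: for `v ∈ L`, `v = (inner u v) v1 + v'` with `v' ∈ L'`, and `inner (w + t u) v = (inner u v) (inner w v1 + t) + inner w v'` (`inner u v1 = 1`, `inner u v' = 0`),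
integers. It is not `0` (`w ⟂ u`, `w ≠ 0`). So `m0^2 ≤ ‖w + t u‖^2 = ‖w‖^2 + t^2 ‖u‖^2 ≤ ‖w‖^2 + m0^2/2`: `‖w‖ ≥ m0 / sqrt 2 ≥ μ / sqrt 2`.
(4) Induction for `E'`, `L'`, `μ' = μ / sqrt 2`: independent `v'_i ∈ L'`, `‖v'_i‖ ≤ C n * sqrt 2 / μ`. They are a basis of `E'`. `v1 - ‖u‖^(-2) • u ∈ E'` is `∑ c_i v'_i`; `v_last := v1 - ∑ round(c_i) v'_i ∈ L`, `‖v_last‖ ≤ 1/‖u‖ + ∑ ‖v'_i‖ / 2 ≤ (1 + n * sqrt 2 * C n)/μ` (`‖u‖ ≥ μ`).
The family is independent: `inner u v_last = 1`, `inner u v'_i = 0` (`Fin.snoc`, `linearIndependent_fin_snoc` or `Fin.cons`, `linearIndependent_fin_cons`).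
-/

namespace Pool.Agent.H7.PQ

open Submodule

section TrfAux

variable {E : Type} [NormedAddCommGroup E] [InnerProductSpace ℝ E]

/-- `u` has integral inner products with all elements of `L`. -/
private def TrfD (L : AddSubgroup E) (u : E) : Prop := ∀ v ∈ L, ∃ k : ℤ, inner ℝ u v = (k : ℝ)

private theorem trf_min {L : AddSubgroup E} {μ : ℝ} (hμ : 0 < μ)
    (hm : ∀ u : E, u ≠ 0 → TrfD L u → μ ≤ ‖u‖) (hex : ∃ u : E, u ≠ 0 ∧ TrfD L u) :
    ∃ u : E, u ≠ 0 ∧ TrfD L u ∧ ∀ w : E, w ≠ 0 → TrfD L w → ‖u‖ ^ 2 < 2 * ‖w‖ ^ 2 := by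
  let S : Set ℝ := {r | ∃ u : E, u ≠ 0 ∧ TrfD L u ∧ ‖u‖ = r}
  have hS : S.Nonempty := by
    obtain ⟨u, hu, hd⟩ := hex
    exact ⟨‖u‖, u, hu, hd, rfl⟩
  have hb : BddBelow S := ⟨μ, by rintro r ⟨u, hu, hd, rfl⟩; exact hm u hu hd⟩
  have h1 : μ ≤ sInf S := le_csInf hS (by rintro r ⟨u, hu, hd, rfl⟩; exact hm u hu hd)
  have h2 : sInf S < (5 / 4) * sInf S := by linarith
  obtain ⟨r, ⟨u, hu, hd, rfl⟩, h3⟩ := exists_lt_of_csInf_lt hS h2
  refine ⟨u, hu, hd, fun w hw hwd => ?_⟩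
  have h4 : sInf S ≤ ‖w‖ := csInf_le hb ⟨w, hw, hwd, rfl⟩
  have h5 : 0 < sInf S := lt_of_lt_of_le hμ h1
  nlinarith [norm_nonneg u, norm_nonneg w]

private theorem trf_v1 {L : AddSubgroup E} (hL : span ℝ (L : Set E) = ⊤) {u : E} (hu : u ≠ 0)
    (hd : TrfD L u) (hmin : ∀ w : E, w ≠ 0 → TrfD L w → ‖u‖ ^ 2 < 2 * ‖w‖ ^ 2) :
    ∃ v1 ∈ L, inner ℝ u v1 = (1 : ℝ) := by
  let H : AddSubgroup ℤ :=
    { carrier := {k | ∃ v ∈ L, inner ℝ u v = (k : ℝ)}
      add_mem' := by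
        rintro a b ⟨v, hv, ha⟩ ⟨w, hw, hb⟩
        refine ⟨v + w, L.add_mem hv hw, ?_⟩
        rw [inner_add_right, ha, hb]
        push_cast
        rfl
      zero_mem' := ⟨0, L.zero_mem, by rw [inner_zero_right]; simp⟩
      neg_mem' := by
        rintro a ⟨v, hv, ha⟩
        refine ⟨-v, L.neg_mem hv, ?_⟩
        rw [inner_neg_right, ha]
        push_cast
        rfl }
  obtain ⟨a, ha⟩ := Int.subgroup_cyclic H
  have haH : a ∈ H := by rw [ha]; exact AddSubgroup.mem_closure_singleton_self a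
  obtain ⟨v0, hv0, hav0⟩ := haH
  have ha0 : a ≠ 0 := by
    intro h0
    apply hu
    have h1 : ∀ v ∈ L, inner ℝ u v = (0 : ℝ) := by
      intro v hv
      obtain ⟨k, hk⟩ := hd v hv
      have h2 : k ∈ H := ⟨v, hv, hk⟩
      rw [ha, h0, AddSubgroup.closure_singleton_zero, AddSubgroup.mem_bot] at h2
      rw [hk, h2, Int.cast_zero]
    have h3 : (⊤ : Submodule ℝ E) ≤ LinearMap.ker (innerₛₗ ℝ u) := by
      rw [← hL, Submodule.span_le]
      intro v hv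
      exact h1 v hv
    have h4 : innerₛₗ ℝ u u = (0 : ℝ) := h3 (Submodule.mem_top (x := u))
    have h5 : inner ℝ u u = (0 : ℝ) := h4
    exact inner_self_eq_zero.1 h5
  have haR : (a : ℝ) ≠ 0 := by exact_mod_cast ha0
  have hw : TrfD L ((a : ℝ)⁻¹ • u) := by
    intro v hv
    obtain ⟨k, hk⟩ := hd v hv
    have h2 : k ∈ H := ⟨v, hv, hk⟩
    rw [ha, AddSubgroup.mem_closure_singleton] at h2
    obtain ⟨j, hj⟩ := h2
    refine ⟨j, ?_⟩
    rw [real_inner_smul_left, hk, ← hj, smul_eq_mul]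
    push_cast
    field_simp
  have hw0 : (a : ℝ)⁻¹ • u ≠ 0 := smul_ne_zero (inv_ne_zero haR) hu
  have h6 := hmin _ hw0 hw
  have hun : 0 < ‖u‖ ^ 2 := by
    have := norm_pos_iff.2 hu
    positivity
  have h7 : (a : ℝ) ^ 2 < 2 := by
    rw [norm_smul, mul_pow, Real.norm_eq_abs, sq_abs, inv_pow] at h6
    have h8 : 0 < (a : ℝ) ^ 2 := by positivity
    have h9 : ‖u‖ ^ 2 * (a : ℝ) ^ 2 < 2 * ‖u‖ ^ 2 := by
      calc ‖u‖ ^ 2 * (a : ℝ) ^ 2 < 2 * (((a : ℝ) ^ 2)⁻¹ * ‖u‖ ^ 2) * (a : ℝ) ^ 2 :=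
            mul_lt_mul_of_pos_right h6 h8
        _ = 2 * ‖u‖ ^ 2 := by field_simp
    nlinarith
  have h8 : a ^ 2 = 1 := by
    have h9 : a ^ 2 < 2 := by exact_mod_cast h7
    have h10 : 0 < a ^ 2 := by positivity
    omega
  refine ⟨a • v0, L.zsmul_mem hv0 a, ?_⟩
  rw [← Int.cast_smul_eq_zsmul ℝ a v0, real_inner_smul_right, hav0]
  have h9 : (a : ℝ) ^ 2 = 1 := by exact_mod_cast h8
  rw [← sq, h9]

private theorem trf_dual {L : AddSubgroup E} {u v1 : E} (hd : TrfD L u) (hv1 : v1 ∈ L)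
    (huv : inner ℝ u v1 = (1 : ℝ)) {w : E} (hwu : inner ℝ w u = (0 : ℝ))
    (hw : ∀ v ∈ L, inner ℝ u v = (0 : ℝ) → ∃ k : ℤ, inner ℝ w v = (k : ℝ)) :
    ∃ t : ℝ, |t| ≤ 1 / 2 ∧ TrfD L (w + t • u) := by
  refine ⟨round (inner ℝ w v1 : ℝ) - inner ℝ w v1, ?_, ?_⟩
  · rw [abs_sub_comm]
    exact abs_sub_round _
  · intro v hv
    obtain ⟨k, hk⟩ := hd v hv
    have h1 : v - k • v1 ∈ L := L.sub_mem hv (L.zsmul_mem hv1 k)
    have h2 : inner ℝ u (v - k • v1) = (0 : ℝ) := by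
      rw [← Int.cast_smul_eq_zsmul ℝ k v1, inner_sub_right, real_inner_smul_right, huv, hk]
      ring
    obtain ⟨j, hj⟩ := hw _ h1 h2
    refine ⟨k * round (inner ℝ w v1 : ℝ) + j, ?_⟩
    rw [← Int.cast_smul_eq_zsmul ℝ k v1, inner_sub_right, real_inner_smul_right] at hj
    rw [inner_add_left, real_inner_smul_left, hk]
    push_cast
    linear_combination hj

private theorem trf_low {L : AddSubgroup E} {u v1 : E} (hd : TrfD L u) (hv1 : v1 ∈ L)
    (huv : inner ℝ u v1 = (1 : ℝ))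
    (hmin : ∀ w : E, w ≠ 0 → TrfD L w → ‖u‖ ^ 2 < 2 * ‖w‖ ^ 2) {w : E} (hw0 : w ≠ 0)
    (hwu : inner ℝ w u = (0 : ℝ))
    (hw : ∀ v ∈ L, inner ℝ u v = (0 : ℝ) → ∃ k : ℤ, inner ℝ w v = (k : ℝ)) :
    ‖u‖ / 2 ≤ ‖w‖ := by
  obtain ⟨t, ht, hwt⟩ := trf_dual hd hv1 huv hwu hw
  have h1 : ‖w + t • u‖ ^ 2 = ‖w‖ ^ 2 + t ^ 2 * ‖u‖ ^ 2 := by
    rw [norm_add_sq_real, real_inner_smul_right, hwu, norm_smul, mul_pow, Real.norm_eq_abs,
      sq_abs]
    ring
  have hwn : 0 < ‖w‖ ^ 2 := by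
    have := norm_pos_iff.2 hw0
    positivity
  have h2 : w + t • u ≠ 0 := by
    intro h0
    rw [h0, norm_zero] at h1
    nlinarith [mul_nonneg (sq_nonneg t) (sq_nonneg ‖u‖)]
  have h3 := hmin _ h2 hwt
  rw [h1] at h3
  have h4 : t ^ 2 ≤ 1 / 4 := by
    have h5 := abs_le.1 ht
    nlinarith
  have h6 : t ^ 2 * ‖u‖ ^ 2 ≤ 1 / 4 * ‖u‖ ^ 2 := mul_le_mul_of_nonneg_right h4 (sq_nonneg _)
  have h7 : (‖u‖ / 2) ^ 2 ≤ ‖w‖ ^ 2 := by nlinarith
  exact le_of_sq_le_sq h7 (norm_nonneg _)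

/-- the last vector -/
private theorem trf_last {n : ℕ} {L : AddSubgroup E} {u v1 : E} (hu : u ≠ 0) (hv1 : v1 ∈ L)
    (huv : inner ℝ u v1 = (1 : ℝ)) (v : Fin n → E) (hvL : ∀ i, v i ∈ L)
    (hvu : ∀ i, inner ℝ u (v i) = (0 : ℝ)) {B : ℝ} (hvB : ∀ i, ‖v i‖ ≤ B)
    (hsp : ∀ x : E, inner ℝ u x = (0 : ℝ) → ∃ c : Fin n → ℝ, ∑ i, c i • v i = x) :
    ∃ x ∈ L, inner ℝ u x = (1 : ℝ) ∧ ‖x‖ ≤ ‖u‖⁻¹ + n * (B / 2) := by
  have hun : 0 < ‖u‖ := norm_pos_iff.2 hu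
  obtain ⟨c, hc⟩ := hsp (v1 - (‖u‖ ^ 2)⁻¹ • u) (by
    rw [inner_sub_right, real_inner_smul_right, huv, real_inner_self_eq_norm_sq]
    rw [inv_mul_cancel₀ (by positivity), sub_self])
  refine ⟨v1 - ∑ i, round (c i) • v i, ?_, ?_, ?_⟩
  · exact L.sub_mem hv1 (L.sum_mem (fun i _ => L.zsmul_mem (hvL i) _))
  · rw [inner_sub_right, huv, inner_sum]
    have h1 : ∀ i ∈ Finset.univ, inner ℝ u (round (c i) • v i) = (0 : ℝ) := by
      intro i _
      rw [← Int.cast_smul_eq_zsmul ℝ, real_inner_smul_right, hvu i, mul_zero]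
    rw [Finset.sum_eq_zero h1, sub_zero]
  · have h1 : v1 - ∑ i, round (c i) • v i =
        (‖u‖ ^ 2)⁻¹ • u + ∑ i, (c i - round (c i)) • v i := by
      have h2 : ∑ i, (c i - round (c i)) • v i =
          ∑ i, c i • v i - ∑ i, round (c i) • v i := by
        rw [← Finset.sum_sub_distrib]
        apply Finset.sum_congr rfl
        intro i _
        rw [sub_smul, Int.cast_smul_eq_zsmul]
      rw [h2, hc]
      abel
    rw [h1]
    refine (norm_add_le _ _).trans (add_le_add ?_ ?_)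
    · rw [norm_smul, norm_inv, norm_pow, norm_norm]
      apply le_of_eq
      field_simp
    · refine (norm_sum_le _ _).trans ?_
      have h3 : ∀ i ∈ Finset.univ, ‖(c i - round (c i)) • v i‖ ≤ B / 2 := by
        intro i _
        rw [norm_smul, Real.norm_eq_abs]
        have h4 := abs_sub_round (c i)
        have h5 := hvB i
        have h6 : |c i - round (c i)| * ‖v i‖ ≤ 1 / 2 * B :=
          mul_le_mul h4 h5 (norm_nonneg _) (by norm_num)
        linarith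
      refine (Finset.sum_le_sum h3).trans ?_
      rw [Finset.sum_const, Finset.card_univ, Fintype.card_fin, nsmul_eq_mul]

end TrfAux

private theorem trf_step (n : ℕ) (C : ℝ) (hC : 0 < C) (ih : ∀ (E : Type) [NormedAddCommGroup E]
    [InnerProductSpace ℝ E] [FiniteDimensional ℝ E], Module.finrank ℝ E = n →
    ∀ L : AddSubgroup E, span ℝ (L : Set E) = ⊤ →
    span ℝ {u : E | TrfD L u} = ⊤ → ∀ μ : ℝ, 0 < μ →
    (∀ u : E, u ≠ 0 → TrfD L u → μ ≤ ‖u‖) →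
      ∃ v : Fin n → E, LinearIndependent ℝ v ∧ ∀ i, v i ∈ L ∧ ‖v i‖ ≤ C / μ)
    (E : Type) [NormedAddCommGroup E] [InnerProductSpace ℝ E] [FiniteDimensional ℝ E]
    (hfr : Module.finrank ℝ E = n + 1) (L : AddSubgroup E) (hL : span ℝ (L : Set E) = ⊤)
    (hD : span ℝ {u : E | TrfD L u} = ⊤) (μ : ℝ) (hμ : 0 < μ)
    (hm : ∀ u : E, u ≠ 0 → TrfD L u → μ ≤ ‖u‖) :
    ∃ v : Fin (n + 1) → E, LinearIndependent ℝ v ∧ ∀ i, v i ∈ L ∧
      ‖v i‖ ≤ (1 + (n + 2) * C) / μ := by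
  have hex : ∃ u : E, u ≠ 0 ∧ TrfD L u := by
    by_contra hcon
    push Not at hcon
    have h1 : span ℝ {u : E | TrfD L u} = ⊥ := by
      rw [Submodule.span_eq_bot]
      intro x hx
      by_contra h0
      exact hcon x h0 hx
    rw [hD] at h1
    have h2 : Module.finrank ℝ (⊤ : Submodule ℝ E) = 0 := by rw [h1]; exact finrank_bot ℝ E
    rw [finrank_top, hfr] at h2
    omega
  obtain ⟨u, hu, hd, hmin⟩ := trf_min hμ hm hex
  obtain ⟨v1, hv1, huv⟩ := trf_v1 hL hu hd hmin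
  have hun : μ ≤ ‖u‖ := hm u hu hd
  let E' : Submodule ℝ E := (span ℝ {u})ᗮ
  have hE' : ∀ x : E, x ∈ E' ↔ inner ℝ u x = (0 : ℝ) := fun x =>
    Submodule.mem_orthogonal_singleton_iff_inner_right
  have hfact : Fact (Module.finrank ℝ E = n + 1) := ⟨hfr⟩
  have hfr' : Module.finrank ℝ E' = n := finrank_orthogonal_span_singleton hu
  let L' : AddSubgroup E' := L.comap (E'.subtype.toAddMonoidHom)
  have hL'm : ∀ x : E', x ∈ L' ↔ (x : E) ∈ L := fun x => Iff.rfl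
  -- the projection along `v1`
  have hPm : ∀ e : E, e - (inner ℝ u e : ℝ) • v1 ∈ E' := by
    intro e
    rw [hE', inner_sub_right, real_inner_smul_right, huv, mul_one, sub_self]
  let P : E →ₗ[ℝ] E' :=
    { toFun := fun e => ⟨e - (inner ℝ u e : ℝ) • v1, hPm e⟩
      map_add' := by
        intro x y
        apply Subtype.ext
        show x + y - (inner ℝ u (x + y) : ℝ) • v1 =
          (x - (inner ℝ u x : ℝ) • v1) + (y - (inner ℝ u y : ℝ) • v1)
        rw [inner_add_right, add_smul]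
        abel
      map_smul' := by
        intro c x
        apply Subtype.ext
        show c • x - (inner ℝ u (c • x) : ℝ) • v1 = c • (x - (inner ℝ u x : ℝ) • v1)
        rw [real_inner_smul_right, smul_sub, mul_smul] }
  have hP : ∀ e : E, ((P e : E') : E) = e - (inner ℝ u e : ℝ) • v1 := fun e => rfl
  have hPs : Function.Surjective P := by
    intro x
    refine ⟨x.1, Subtype.ext ?_⟩
    rw [hP, (hE' x.1).1 x.2, zero_smul, sub_zero]
  have hL'sp : span ℝ (L' : Set E') = ⊤ := by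
    rw [eq_top_iff]
    have h1 : Submodule.map P (⊤ : Submodule ℝ E) = ⊤ := by
      rw [Submodule.map_top, LinearMap.range_eq_top.2 hPs]
    rw [← h1, ← hL, Submodule.map_span, Submodule.span_le]
    rintro _ ⟨v, hv, rfl⟩
    apply Submodule.subset_span
    show P v ∈ L'
    rw [hL'm, hP]
    obtain ⟨k, hk⟩ := hd v hv
    rw [hk, Int.cast_smul_eq_zsmul]
    exact L.sub_mem hv (L.zsmul_mem hv1 k)
  have hD'sp : span ℝ {w : E' | TrfD L' w} = ⊤ := by
    rw [eq_top_iff]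
    let Q : E →ₗ[ℝ] E' := (E'.orthogonalProjectionOnto : E →L[ℝ] E').toLinearMap
    have hQ : ∀ e, Q e = E'.orthogonalProjectionOnto e := fun e => rfl
    have hQs : Function.Surjective Q := by
      intro x
      refine ⟨x.1, ?_⟩
      rw [hQ]
      exact orthogonalProjectionOnto_mem_subspace_eq_self x
    have h1 : Submodule.map Q (⊤ : Submodule ℝ E) = ⊤ := by
      rw [Submodule.map_top, LinearMap.range_eq_top.2 hQs]
    rw [← h1, ← hD, Submodule.map_span, Submodule.span_le]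
    rintro _ ⟨w, hw, rfl⟩
    apply Submodule.subset_span
    show TrfD L' (Q w)
    intro v hv
    obtain ⟨k, hk⟩ := hw v.1 ((hL'm v).1 hv)
    refine ⟨k, ?_⟩
    rw [hQ, inner_orthogonalProjectionOnto_eq_of_mem_right, hk]
  have hm' : ∀ w : E', w ≠ 0 → TrfD L' w → μ / 2 ≤ ‖w‖ := by
    intro w hw0 hw
    have h1 : ‖u‖ / 2 ≤ ‖(w : E)‖ := by
      apply trf_low hd hv1 huv hmin
      · intro h0
        exact hw0 (Subtype.ext h0)
      · rw [real_inner_comm]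
        exact (hE' w.1).1 w.2
      · intro v hv hv0
        obtain ⟨k, hk⟩ := hw ⟨v, (hE' v).2 hv0⟩ hv
        exact ⟨k, hk⟩
    have h2 : ‖w‖ = ‖(w : E)‖ := rfl
    rw [h2]
    linarith
  obtain ⟨v', hli, hv'⟩ := ih E' hfr' L' hL'sp hD'sp (μ / 2) (by linarith) hm'
  have hli2 : LinearIndependent ℝ (fun i => ((v' i : E') : E)) :=
    hli.map' E'.subtype (LinearMap.ker_eq_bot.2 E'.subtype_injective)
  have hspan : ∀ x : E, inner ℝ u x = (0 : ℝ) →
      ∃ c : Fin n → ℝ, ∑ i, c i • ((v' i : E') : E) = x := by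
    intro x hx
    have h1 := hli.span_eq_top_of_card_eq_finrank' (by rw [Fintype.card_fin, hfr'])
    have h2 : (⟨x, (hE' x).2 hx⟩ : E') ∈ span ℝ (Set.range v') := by rw [h1]; trivial
    obtain ⟨c, hc⟩ := (Submodule.mem_span_range_iff_exists_fun ℝ).1 h2
    refine ⟨c, ?_⟩
    have h3 := congrArg (E'.subtype) hc
    rw [map_sum] at h3
    exact h3
  obtain ⟨x, hxL, hxu, hxn⟩ := trf_last hu hv1 huv (fun i => ((v' i : E') : E))
    (fun i => (hL'm _).1 (hv' i).1) (fun i => (hE' _).1 (v' i).2) (B := C / (μ / 2))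
    (fun i => (hv' i).2) hspan
  refine ⟨Fin.cons x (fun i => ((v' i : E') : E)), ?_, ?_⟩
  · rw [linearIndependent_finCons]
    refine ⟨hli2, fun hx => ?_⟩
    have h1 : span ℝ (Set.range (fun i => ((v' i : E') : E))) ≤ E' := by
      rw [Submodule.span_le]
      rintro _ ⟨i, rfl⟩
      exact (v' i).2
    have h2 := (hE' x).1 (h1 hx)
    rw [hxu] at h2
    exact one_ne_zero h2
  · intro i
    refine Fin.cases ?_ (fun j => ?_) i
    · rw [Fin.cons_zero]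
      refine ⟨hxL, hxn.trans ?_⟩
      have h1 : ‖u‖⁻¹ ≤ μ⁻¹ := inv_anti₀ hμ hun
      have h2 : (1 + (n + 2) * C) / μ = μ⁻¹ + n * (C / (μ / 2) / 2) + 2 * C / μ := by
        field_simp
        ring
      rw [h2]
      have h3 : 0 ≤ 2 * C / μ := by positivity
      linarith
    · rw [Fin.cons_succ]
      refine ⟨(hL'm _).1 (hv' j).1, ?_⟩
      have h1 : ‖((v' j : E') : E)‖ ≤ C / (μ / 2) := (hv' j).2
      refine h1.trans ?_
      have h2 : C / (μ / 2) = (2 * C) / μ := by field_simp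
      rw [h2, div_le_div_iff_of_pos_right hμ]
      have h3 : (0 : ℝ) ≤ n * C := by positivity
      nlinarith

theorem trf (n : ℕ) : ∃ C : ℝ, 0 < C ∧ ∀ (E : Type) [NormedAddCommGroup E] [InnerProductSpace ℝ E]
    [FiniteDimensional ℝ E], Module.finrank ℝ E = n → ∀ L : AddSubgroup E,
    span ℝ (L : Set E) = ⊤ →
    span ℝ {u : E | ∀ v ∈ L, ∃ k : ℤ, inner ℝ u v = (k : ℝ)} = ⊤ → ∀ μ : ℝ, 0 < μ →
    (∀ u : E, u ≠ 0 → (∀ v ∈ L, ∃ k : ℤ, inner ℝ u v = (k : ℝ)) → μ ≤ ‖u‖) →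
      ∃ v : Fin n → E, LinearIndependent ℝ v ∧ ∀ i, v i ∈ L ∧ ‖v i‖ ≤ C / μ := by
  induction n with
  | zero =>
    refine ⟨1, one_pos, fun E _ _ _ _ L _ _ μ _ _ => ?_⟩
    exact ⟨Fin.elim0, linearIndependent_empty_type, fun i => i.elim0⟩
  | succ n ih =>
    obtain ⟨C, hC, h⟩ := ih
    refine ⟨1 + (n + 2) * C, by positivity, fun E _ _ _ hfr L hL hD μ hμ hm => ?_⟩
    exact trf_step n C hC h E hfr L hL hD μ hμ hm

end Pool.Agent.H7.PQ
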