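import Pool.Agent.H7.PQ.Defs
import Pool.Agent.H7.PQ.Trf
import Pool.Agent.H7.PQ.Ext
import Pool.Agent.H7.HP.Rnd

set_option autoImplicit false

/-!
# [H7 PQ TRX] pairs which are not `Bd` are round, 110-180 lines

`V = EuclideanSpace ℝ (Idx 5)`, `E` the subspace of the `w` with `qv w x = qv w y = 0` (real values), `L` the additive subgroup of `E` of the vectors with integral coordinates. `C = C_13 * 13` (`trf 13`) or larger.
* `finrank E = 13`: `E` is the kernel of the linear map `w ↦ (qv w x, qv w y)` to `ℝ × ℝ` (or `Fin 2 → ℝ`), which is onto: by `abf`-like forms (`HP.abf` for `(x,y)` and `(y,x)`; `x` and `y` are nonzero because some minor is not zero), and `Fintype.card (Idx 5) = 15` (`card_Idx5`).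
* `L` spans `E`: `Good`: the products `lm (l b) (l' b')` are integral, vanish at `x` and `y` (`qv_lm`), and `span2` (module `HP.Span`) says that they span `E` (over `ℝ`).
* the dual vectors span `E`: for each index `p` the orthogonal projection to `E` of the unit vector `e_p` is dual (`inner (proj e_p) v = v_p` for `v ∈ E`), and the unit vectors span `V`, so their projections span `E` (`Submodule.map_span`, the projection is surjective).
* hypothesis of `trf` with this `μ`: let `u ∈ E`, `u ≠ 0` be dual, and suppose `‖u‖ < μ`. `N` = the submodule of `Idx 5 → ℤ` of the integral `h` with `qv h x = 0 ∧ qv h y = 0` (integers); it is saturated. `φ h = inner u h` (an integer, choose) is linear on `N`; `ext_fun` gives `J` with `φ h = ∑ J p h p` on `N`.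
The functional `h ↦ ∑ J p h p - ∑ u p h p` vanishes on `N`, which spans `E`; so it vanishes on `E`; `|u p| ≤ ‖u‖ ≤ μ`: this is `Bd μ x y`, contradiction. So `‖u‖ ≥ μ`.
* `trf` gives a basis `v_i` (`i : Fin 13`) of `E` in `L` with `‖v_i‖ ≤ C_13/μ` (independent and the number is the dimension: `basisOfLinearIndependentOfCardEqFinrank`). For `w, v0` as in `Rd`: `w - v0 ∈ E`, `w - v0 = ∑ c_i v_i`, `v = v0 + ∑ round(c_i) v_i` (integral vector), `qv v x = qv v0 x`,
`|w p - v p| ≤ ∑ |c_i - round c_i| |v_i p| ≤ 13 C_13/μ`.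
-/

namespace Pool.Agent.H7.PQ

open Finset Pool.Agent.H7.HP

/-- the two evaluations -/
private noncomputable def TrxPhi (X Y : Fin 5 → ℝ) : EuclideanSpace ℝ (Idx 5) →ₗ[ℝ] ℝ × ℝ where
  toFun w := (qv (fun p => w p) X, qv (fun p => w p) Y)
  map_add' w w' := by
    rw [Prod.mk_add_mk, ← qv_addc, ← qv_addc]
    rfl
  map_smul' t w := by
    rw [RingHom.id_apply, Prod.smul_mk, smul_eq_mul, smul_eq_mul, ← qv_smulc, ← qv_smulc]
    rfl

private noncomputable abbrev TrxE (X Y : Fin 5 → ℝ) : Submodule ℝ (EuclideanSpace ℝ (Idx 5)) :=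
  LinearMap.ker (TrxPhi X Y)

private theorem Trx_mem {X Y : Fin 5 → ℝ} {w : EuclideanSpace ℝ (Idx 5)} :
    w ∈ TrxE X Y ↔ qv (fun p => w p) X = 0 ∧ qv (fun p => w p) Y = 0 := by
  rw [LinearMap.mem_ker]
  exact Prod.mk_eq_zero

/-- vectors with integral coordinates -/
private noncomputable def TrxL (X Y : Fin 5 → ℝ) : AddSubgroup (TrxE X Y) where
  carrier := {e | ∀ p, ∃ k : ℤ, (e : EuclideanSpace ℝ (Idx 5)) p = k}
  zero_mem' := fun p => ⟨0, by simp⟩
  add_mem' := by
    intro a b ha hb p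
    obtain ⟨k, hk⟩ := ha p
    obtain ⟨l, hl⟩ := hb p
    exact ⟨k + l, by push_cast; rw [← hk, ← hl]; rfl⟩
  neg_mem' := by
    intro a ha p
    obtain ⟨k, hk⟩ := ha p
    exact ⟨-k, by push_cast; rw [← hk]; rfl⟩

private theorem Trx_finrank {x y : Fin 5 → ℤ} (hxy : ∃ i j, mn x y i j ≠ 0) :
    Module.finrank ℝ (TrxE (fun i => (x i : ℝ)) (fun i => (y i : ℝ))) = 13 := by
  have hone : ∀ {a b : Fin 5 → ℤ}, (∃ i j, mn a b i j ≠ 0) →
      ∃ w : Idx 5 → ℝ, qv w (fun i => (a i : ℝ)) = 1 ∧ qv w (fun i => (b i : ℝ)) = 0 := by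
    intro a b hab
    have hnz : ∃ i, (1 : ℝ) ≤ |(a i : ℝ)| := by
      obtain ⟨i, j, hij⟩ := hab
      by_contra hcon
      push Not at hcon
      have hz : ∀ i, a i = 0 := by
        intro i
        have h1 := hcon i
        rw [← Int.cast_abs] at h1
        have h2 : |a i| < 1 := by exact_mod_cast h1
        exact Int.abs_lt_one_iff.1 h2
      apply hij
      unfold mn
      rw [hz i, hz j]
      ring
    obtain ⟨w, h1, h2, -⟩ := abf (X := 1) (K := ∑ i, |(b i : ℝ)|) one_pos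
      (Finset.sum_nonneg fun i _ => abs_nonneg _) hab hnz (fun i => by
        rw [mul_one]
        exact Finset.single_le_sum (f := fun i => |(b i : ℝ)|) (fun i _ => abs_nonneg _)
          (Finset.mem_univ i))
    exact ⟨w, h1, h2⟩
  have hyx : ∃ i j, mn y x i j ≠ 0 := by
    obtain ⟨i, j, hij⟩ := hxy
    refine ⟨i, j, fun h => hij ?_⟩
    unfold mn at h ⊢
    linarith
  obtain ⟨w1, h1, h2⟩ := hone hxy
  obtain ⟨w2, h3, h4⟩ := hone hyx
  have hsurj : LinearMap.range (TrxPhi (fun i => (x i : ℝ)) (fun i => (y i : ℝ))) = ⊤ := by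
    rw [LinearMap.range_eq_top]
    rintro ⟨s, t⟩
    refine ⟨WithLp.toLp 2 (fun p => s * w1 p + t * w2 p), ?_⟩
    show (qv (fun p => s * w1 p + t * w2 p) (fun i => (x i : ℝ)),
      qv (fun p => s * w1 p + t * w2 p) (fun i => (y i : ℝ))) = (s, t)
    rw [qv_addc (fun p => s * w1 p) (fun p => t * w2 p), qv_smulc, qv_smulc,
      qv_addc (fun p => s * w1 p) (fun p => t * w2 p), qv_smulc, qv_smulc, h1, h2, h3, h4]
    simp
  have h5 := LinearMap.finrank_range_add_finrank_ker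
    (TrxPhi (fun i => (x i : ℝ)) (fun i => (y i : ℝ)))
  rw [hsurj, finrank_top, finrank_euclideanSpace, card_Idx5, Module.finrank_prod,
    Module.finrank_self] at h5
  change 1 + 1 + Module.finrank ℝ (TrxE (fun i => (x i : ℝ)) (fun i => (y i : ℝ))) = 15 at h5
  omega

private theorem Trx_span {x y : Fin 5 → ℤ} {R : ℝ} (hx : Good R x) (hy : Good R y)
    (hxy : ∃ i j, mn x y i j ≠ 0) :
    Submodule.span ℝ (TrxL (fun i => (x i : ℝ)) (fun i => (y i : ℝ)) :
      Set (TrxE (fun i => (x i : ℝ)) (fun i => (y i : ℝ)))) = ⊤ := by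
  obtain ⟨l, hl, hlx, -⟩ := hx
  obtain ⟨l', hl', hly, -⟩ := hy
  have hlx' : ∀ b, ∑ i, ((l b i : ℤ) : ℝ) * (x i : ℝ) = 0 := by
    intro b
    have := hlx b
    exact_mod_cast this
  have hly' : ∀ b, ∑ i, ((l' b i : ℤ) : ℝ) * (y i : ℝ) = 0 := by
    intro b
    have := hly b
    exact_mod_cast this
  obtain ⟨i, j, hij⟩ := hxy
  have hij' : (x i : ℝ) * (y j : ℝ) - (x j : ℝ) * (y i : ℝ) ≠ 0 := by
    intro h
    apply hij
    unfold mn
    exact_mod_cast h
  rw [eq_top_iff]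
  rintro ⟨e, he⟩ -
  rw [Trx_mem] at he
  obtain ⟨c, hc⟩ := span2 hl hl' hlx' hly' ⟨i, j, hij'⟩ (fun p => e p) he.1 he.2
  have hm : ∀ b b', (WithLp.toLp 2 (lm (fun i => ((l b i : ℤ) : ℝ)) (fun i => ((l' b' i : ℤ) : ℝ)))
      : EuclideanSpace ℝ (Idx 5)) ∈ TrxE (fun i => (x i : ℝ)) (fun i => (y i : ℝ)) := by
    intro b b'
    rw [Trx_mem]
    show qv (lm (fun i => ((l b i : ℤ) : ℝ)) (fun i => ((l' b' i : ℤ) : ℝ))) (fun i => (x i : ℝ)) = 0
      ∧ qv (lm (fun i => ((l b i : ℤ) : ℝ)) (fun i => ((l' b' i : ℤ) : ℝ))) (fun i => (y i : ℝ)) = 0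
    rw [qv_lm, qv_lm, hlx', hly', zero_mul, mul_zero]
    exact ⟨rfl, rfl⟩
  have he2 : (⟨e, Trx_mem.2 he⟩ : TrxE (fun i => (x i : ℝ)) (fun i => (y i : ℝ)))
      = ∑ b, ∑ b', c b b' • ⟨_, hm b b'⟩ := by
    apply Subtype.ext
    rw [Submodule.coe_sum]
    ext p
    have h1 := hc p
    rw [WithLp.ofLp_sum, Finset.sum_apply]
    rw [h1]
    refine Finset.sum_congr rfl fun b _ => ?_
    rw [Submodule.coe_sum, WithLp.ofLp_sum, Finset.sum_apply]
    refine Finset.sum_congr rfl fun b' _ => ?_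
    rfl
  rw [he2]
  refine Submodule.sum_mem _ fun b _ => Submodule.sum_mem _ fun b' _ =>
    Submodule.smul_mem _ _ (Submodule.subset_span ?_)
  intro p
  refine ⟨lm (l b) (l' b') p, ?_⟩
  rw [Rnd_lm_cast]

private theorem Trx_dual (X Y : Fin 5 → ℝ) :
    Submodule.span ℝ {u : TrxE X Y | ∀ v ∈ TrxL X Y, ∃ k : ℤ, inner ℝ u v = (k : ℝ)} = ⊤ := by
  rw [← Submodule.orthogonal_eq_bot_iff, eq_bot_iff]
  intro e he
  rw [Submodule.mem_bot]
  rw [Submodule.mem_orthogonal] at he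
  apply Subtype.ext
  ext p
  set f : StrongDual ℝ (TrxE X Y) :=
    (EuclideanSpace.proj p : EuclideanSpace ℝ (Idx 5) →L[ℝ] ℝ).comp (TrxE X Y).subtypeL with hf
  have hfe : ∀ v : TrxE X Y, f v = (v : EuclideanSpace ℝ (Idx 5)) p := fun v => rfl
  have h1 := he ((InnerProductSpace.toDual ℝ (TrxE X Y)).symm f) (Submodule.subset_span (by
    intro v hv
    obtain ⟨k, hk⟩ := hv p
    refine ⟨k, ?_⟩
    rw [InnerProductSpace.toDual_symm_apply, hfe, hk]))
  rw [InnerProductSpace.toDual_symm_apply, hfe] at h1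
  rw [h1]
  rfl

private theorem Trx_inner (u v : EuclideanSpace ℝ (Idx 5)) : inner ℝ u v = ∑ p, u p * v p := by
  rw [PiLp.inner_apply]
  exact Finset.sum_congr rfl fun p _ => by simp [mul_comm]

private def TrxN (x y : Fin 5 → ℤ) : Submodule ℤ (Idx 5 → ℤ) where
  carrier := {h | qv h x = 0 ∧ qv h y = 0}
  zero_mem' := by
    constructor <;> simp [qv]
  add_mem' := by
    intro a b ha hb
    constructor
    · exact (qv_addc a b x).trans (by rw [ha.1, hb.1, add_zero])
    · exact (qv_addc a b y).trans (by rw [ha.2, hb.2, add_zero])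
  smul_mem' := by
    intro t a ha
    constructor
    · exact (qv_smulc a t x).trans (by rw [ha.1, mul_zero])
    · exact (qv_smulc a t y).trans (by rw [ha.2, mul_zero])

private theorem Trx_mu {x y : Fin 5 → ℤ} {R : ℝ} (hx : Good R x) (hy : Good R y)
    (hxy : ∃ i j, mn x y i j ≠ 0) {μ : ℝ} (hB : ¬ Bd μ x y)
    (u : TrxE (fun i => (x i : ℝ)) (fun i => (y i : ℝ))) (hu : u ≠ 0)
    (hd : ∀ v ∈ TrxL (fun i => (x i : ℝ)) (fun i => (y i : ℝ)), ∃ k : ℤ, inner ℝ u v = (k : ℝ)) :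
    μ ≤ ‖u‖ := by
  by_contra hcon
  rw [not_le] at hcon
  apply hB
  have hk : ∀ h : TrxN x y, ∃ k : ℤ,
      ∑ p, (u : EuclideanSpace ℝ (Idx 5)) p * ((h : Idx 5 → ℤ) p : ℝ) = k := by
    intro h
    have hm : (WithLp.toLp 2 (fun p => (((h : Idx 5 → ℤ) p : ℤ) : ℝ)) : EuclideanSpace ℝ (Idx 5)) ∈
        TrxE (fun i => (x i : ℝ)) (fun i => (y i : ℝ)) := by
      rw [Trx_mem]
      show qv (fun p => (((h : Idx 5 → ℤ) p : ℤ) : ℝ)) (fun i => (x i : ℝ)) = 0 ∧
        qv (fun p => (((h : Idx 5 → ℤ) p : ℤ) : ℝ)) (fun i => (y i : ℝ)) = 0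
      rw [Rnd_cast, Rnd_cast, h.2.1, h.2.2]
      simp
    obtain ⟨k, hk⟩ := hd ⟨_, hm⟩ (fun p => ⟨(h : Idx 5 → ℤ) p, rfl⟩)
    refine ⟨k, ?_⟩
    rw [← hk, Submodule.coe_inner, Trx_inner]
  choose k hk using hk
  let φ : TrxN x y →ₗ[ℤ] ℤ :=
    { toFun := k
      map_add' := by
        intro a b
        have h1 : ((k (a + b) : ℤ) : ℝ) = ((k a + k b : ℤ) : ℝ) := by
          push_cast
          rw [← hk, ← hk, ← hk, ← Finset.sum_add_distrib]
          refine Finset.sum_congr rfl fun p _ => ?_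
          rw [Submodule.coe_add, Pi.add_apply]
          push_cast
          ring
        exact_mod_cast h1
      map_smul' := by
        intro t a
        have h1 : ((k (t • a) : ℤ) : ℝ) = ((t * k a : ℤ) : ℝ) := by
          push_cast
          rw [← hk, ← hk, Finset.mul_sum]
          refine Finset.sum_congr rfl fun p _ => ?_
          rw [Submodule.coe_smul, Pi.smul_apply, smul_eq_mul]
          push_cast
          ring
        exact_mod_cast h1 }
  have hsat : ∀ (t : ℤ) (v : Idx 5 → ℤ), t ≠ 0 → t • v ∈ TrxN x y → v ∈ TrxN x y := by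
    intro t v ht hv
    have h1 : t * qv v x = 0 := (qv_smulc v t x).symm.trans hv.1
    have h2 : t * qv v y = 0 := (qv_smulc v t y).symm.trans hv.2
    exact ⟨(mul_eq_zero.1 h1).resolve_left ht, (mul_eq_zero.1 h2).resolve_left ht⟩
  obtain ⟨J, hJ⟩ := ext_fun (TrxN x y) hsat φ
  refine ⟨J, fun p => (u : EuclideanSpace ℝ (Idx 5)) p, ?_, (Trx_mem.1 u.2).1, (Trx_mem.1 u.2).2,
    ?_, ?_⟩
  · intro h0
    apply hu
    apply Subtype.ext
    ext p
    exact congrFun h0 p
  · intro p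
    have h1 := PiLp.norm_apply_le (u : EuclideanSpace ℝ (Idx 5)) p
    rw [Real.norm_eq_abs] at h1
    exact h1.trans (le_of_lt hcon)
  · let f : TrxE (fun i => (x i : ℝ)) (fun i => (y i : ℝ)) →ₗ[ℝ] ℝ :=
      { toFun := fun e => ∑ p, (J p : ℝ) * (e : EuclideanSpace ℝ (Idx 5)) p
        map_add' := by
          intro a b
          rw [← Finset.sum_add_distrib]
          exact Finset.sum_congr rfl fun p _ => mul_add _ _ _
        map_smul' := by
          intro t a
          rw [RingHom.id_apply, smul_eq_mul, Finset.mul_sum]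
          exact Finset.sum_congr rfl fun p _ => mul_left_comm _ _ _ }
    let g : TrxE (fun i => (x i : ℝ)) (fun i => (y i : ℝ)) →ₗ[ℝ] ℝ :=
      { toFun := fun e => ∑ p, (u : EuclideanSpace ℝ (Idx 5)) p * (e : EuclideanSpace ℝ (Idx 5)) p
        map_add' := by
          intro a b
          rw [← Finset.sum_add_distrib]
          exact Finset.sum_congr rfl fun p _ => mul_add _ _ _
        map_smul' := by
          intro t a
          rw [RingHom.id_apply, smul_eq_mul, Finset.mul_sum]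
          exact Finset.sum_congr rfl fun p _ => mul_left_comm _ _ _ }
    have hfg : f = g := by
      refine LinearMap.ext_on (Trx_span hx hy hxy) ?_
      intro v hv
      choose m hm using hv
      have hmN : m ∈ TrxN x y := by
        have h1 := Trx_mem.1 v.2
        have h2 : (fun p => (v : EuclideanSpace ℝ (Idx 5)) p) = fun p => ((m p : ℤ) : ℝ) :=
          funext hm
        rw [h2, Rnd_cast, Rnd_cast] at h1
        exact ⟨by exact_mod_cast h1.1, by exact_mod_cast h1.2⟩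
      have h1 := hJ ⟨m, hmN⟩
      have h2 := hk ⟨m, hmN⟩
      show ∑ p, (J p : ℝ) * (v : EuclideanSpace ℝ (Idx 5)) p =
        ∑ p, (u : EuclideanSpace ℝ (Idx 5)) p * (v : EuclideanSpace ℝ (Idx 5)) p
      have h3 : ∑ p, (u : EuclideanSpace ℝ (Idx 5)) p * (v : EuclideanSpace ℝ (Idx 5)) p
          = (k ⟨m, hmN⟩ : ℝ) := by
        rw [← h2]
        exact Finset.sum_congr rfl fun p _ => by rw [hm p]
      have h4 : (k ⟨m, hmN⟩ : ℤ) = ∑ i, J i * m i := h1
      rw [h3, h4]
      push_cast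
      exact Finset.sum_congr rfl fun p _ => by rw [hm p]
    intro h hhx hhy
    have h1 : f ⟨WithLp.toLp 2 h, Trx_mem.2 ⟨hhx, hhy⟩⟩ = g ⟨WithLp.toLp 2 h, Trx_mem.2 ⟨hhx, hhy⟩⟩ := by
      rw [hfg]
    exact h1

theorem trx : ∃ C : ℝ, 0 < C ∧ ∀ (x y : Fin 5 → ℤ) (R : ℝ), Good R x → Good R y →
    (∃ i j, mn x y i j ≠ 0) → ∀ μ : ℝ, 0 < μ → ¬ Bd μ x y → Rd (C / μ) x y := by
  obtain ⟨C, hC, htrf⟩ := trf 13
  refine ⟨13 * C, by positivity, fun x y R hx hy hxy μ hμ hB w v0 hwx hwy => ?_⟩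
  obtain ⟨v, hli, hv⟩ := htrf (TrxE (fun i => (x i : ℝ)) (fun i => (y i : ℝ))) (Trx_finrank hxy)
    (TrxL _ _) (Trx_span hx hy hxy) (Trx_dual _ _) μ hμ (Trx_mu hx hy hxy hB)
  have hcard : Fintype.card (Fin 13) =
      Module.finrank ℝ (TrxE (fun i => (x i : ℝ)) (fun i => (y i : ℝ))) := by
    rw [Fintype.card_fin, Trx_finrank hxy]
  have : Nonempty (Fin 13) := ⟨0⟩
  set b := basisOfLinearIndependentOfCardEqFinrank hli hcard with hb
  have hem : (WithLp.toLp 2 (fun p => w p + (-1) * (v0 p : ℝ)) : EuclideanSpace ℝ (Idx 5)) ∈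
      TrxE (fun i => (x i : ℝ)) (fun i => (y i : ℝ)) := by
    rw [Trx_mem]
    show qv (fun p => w p + (-1) * (v0 p : ℝ)) (fun i => (x i : ℝ)) = 0 ∧
      qv (fun p => w p + (-1) * (v0 p : ℝ)) (fun i => (y i : ℝ)) = 0
    rw [qv_addc w (fun p => (-1) * (v0 p : ℝ)), qv_smulc, Rnd_cast, hwx,
      qv_addc w (fun p => (-1) * (v0 p : ℝ)), qv_smulc, Rnd_cast, hwy]
    constructor <;> ring
  set c : Fin 13 → ℝ := fun i => b.repr ⟨_, hem⟩ i with hc
  have hsum : ∀ p, w p - v0 p = ∑ i, c i * (v i : EuclideanSpace ℝ (Idx 5)) p := by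
    intro p
    have h1 := b.sum_repr ⟨_, hem⟩
    have h2 := congrArg (fun e : TrxE (fun i => (x i : ℝ)) (fun i => (y i : ℝ)) =>
      (e : EuclideanSpace ℝ (Idx 5)) p) h1
    simp only [Submodule.coe_sum, WithLp.ofLp_sum, Finset.sum_apply] at h2
    have h3 : ∀ i, b i = v i := fun i => by
      rw [hb, coe_basisOfLinearIndependentOfCardEqFinrank]
    have h4 : w p - v0 p = w p + (-1) * (v0 p : ℝ) := by ring
    rw [h4, ← h2]
    refine Finset.sum_congr rfl fun i _ => ?_
    rw [h3 i]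
    rfl
  have hint : ∀ i p, ∃ k : ℤ, (v i : EuclideanSpace ℝ (Idx 5)) p = k := fun i p => (hv i).1 p
  choose k hk using hint
  have hkx : ∀ i, qv (k i) x = 0 ∧ qv (k i) y = 0 := by
    intro i
    have h1 := Trx_mem.1 (v i).2
    have h2 : (fun p => (v i : EuclideanSpace ℝ (Idx 5)) p) = fun p => ((k i p : ℤ) : ℝ) :=
      funext (hk i)
    rw [h2, Rnd_cast, Rnd_cast] at h1
    exact ⟨by exact_mod_cast h1.1, by exact_mod_cast h1.2⟩
  refine ⟨fun p => v0 p + ∑ i, round (c i) * k i p, ?_, ?_, fun p => ?_⟩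
  · rw [qv_addc v0 (fun p => ∑ i, round (c i) * k i p), Rnd_qv_sum,
      Finset.sum_eq_zero fun i _ => by rw [(hkx i).1, mul_zero], add_zero]
  · rw [qv_addc v0 (fun p => ∑ i, round (c i) * k i p), Rnd_qv_sum,
      Finset.sum_eq_zero fun i _ => by rw [(hkx i).2, mul_zero], add_zero]
  · have h1 : w p - ((v0 p + ∑ i, round (c i) * k i p : ℤ) : ℝ)
        = ∑ i, (c i - round (c i)) * (v i : EuclideanSpace ℝ (Idx 5)) p := by
      have h2 : ∑ i, (c i - round (c i)) * (v i : EuclideanSpace ℝ (Idx 5)) p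
          = (w p - v0 p) - ∑ i, (round (c i) : ℝ) * (k i p : ℝ) := by
        rw [hsum p, ← Finset.sum_sub_distrib]
        refine Finset.sum_congr rfl fun i _ => ?_
        rw [hk i p]
        ring
      rw [h2]
      push_cast
      ring
    rw [h1]
    calc |∑ i, (c i - round (c i)) * (v i : EuclideanSpace ℝ (Idx 5)) p|
        ≤ ∑ i, |(c i - round (c i)) * (v i : EuclideanSpace ℝ (Idx 5)) p| :=
          Finset.abs_sum_le_sum_abs _ _
      _ ≤ ∑ _i : Fin 13, 1 * (C / μ) := by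
          refine Finset.sum_le_sum fun i _ => ?_
          rw [abs_mul]
          have h3 := abs_sub_round (c i)
          have h4 := PiLp.norm_apply_le (v i : EuclideanSpace ℝ (Idx 5)) p
          rw [Real.norm_eq_abs] at h4
          have h5 : ‖(v i : EuclideanSpace ℝ (Idx 5))‖ ≤ C / μ := (hv i).2
          exact mul_le_mul (h3.trans (by norm_num)) (h4.trans h5) (abs_nonneg _) (by norm_num)
      _ = 13 * C / μ := by
          rw [Finset.sum_const, Finset.card_univ, Fintype.card_fin]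
          simp
          ring

end Pool.Agent.H7.PQ
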