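import Pool.Agent.H7.PQ.Defs
import Pool.Agent.H7.HP.Rnd

set_option autoImplicit false

/-!
# [H7 PQ WTB] the elimination, 90-150 lines

* `mj_lm`: `∑_p J p * lm l m p = ∑_i ∑_j l i * M i j * m j` for the symmetric matrix `M` (split the double sum into `i ≤ j` and `j < i`; see the private lemmas at the beginning of `HP/Span.lean` and `HP.qv_lm`).
* `mj_symm`: from `mj_lm` (or directly from the symmetry of `M`).
* `wtb`: let `J, u` be as in `Bd μ x y`, `l` from `Good R x`. `z a = mj J (l a)` (integral). For `a b : Fin 4`: `sp (z a) (m b) = ∑_p J p * lm (l a) (m b) p = ∑_p u p * lm (l a) (m b) p =: W a b` (the form `lm (l a) (m b)` vanishes at `x` and `y`: `qv_lm`; cast to `ℝ`), so `|W a b| ≤ 15 * μ * 2 R^2` (`Rnd_lm_bound`).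
Not all `W a b` vanish: otherwise `u` is orthogonal to all products `lm (l a) (m b)`, which span the forms vanishing at `x` and `y` (`span2`, real vectors `l`, `m` cast; `u` itself is such a form), so `∑ u p ^ 2 = 0`, `u = 0`.
`rep` is a function which gives for every `W : Fin 4 → ℤ` in the image of `z ↦ (sp z (m b))_b` a preimage. `sp (z a - rep (W a)) (m b) = 0` for all `b`: `z a - rep (W a)` is an integral multiple `t a` of `y` (it is orthogonal to the four independent vectors `m b`, so a real multiple of `y` [`y` is orthogonal to them also; dimension 5], and `y` is primitive).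
Symmetry `sp (l b) (z a) = sp (l a) (z b)` (`mj_symm`); put `z a = v a + t a y`, `v a = rep (W a)`: `tt y v l a b c = 0` for all `a b c` (multiply the three symmetry relations by `sp (l c) y`, `sp (l a) y`, `sp (l b) y` and add: `linear_combination`).
If `W a b ≠ 0` then `v a` is not a multiple of `y` (`sp y (m b) = 0`, `sp (v a) (m b) = W a b ≠ 0`), so some minor of `y`, `v a` is not zero (`y ≠ 0`).
-/

namespace Pool.Agent.H7.PQ

open Finset Pool.Agent.H7.HP

private theorem Wtb_split {R : Type*} [CommRing R] {n : ℕ} (F : Fin n → Fin n → R) :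
    (∑ p : Idx n, if p.1.1 = p.1.2 then F p.1.1 p.1.1 else F p.1.1 p.1.2 + F p.1.2 p.1.1) =
      ∑ i, ∑ j, F i j := by
  have h1 : ∑ i, ∑ j, F i j = ∑ p : Fin n × Fin n, F p.1 p.2 := by
    rw [Fintype.sum_prod_type]
  have h2 : ∑ p : Fin n × Fin n, F p.1 p.2 =
      ∑ p ∈ univ.filter (fun p : Fin n × Fin n => p.1 ≤ p.2), F p.1 p.2 +
        ∑ p ∈ univ.filter (fun p : Fin n × Fin n => ¬ p.1 ≤ p.2), F p.1 p.2 :=
    (sum_filter_add_sum_filter_not _ _ _).symm
  have h3 : ∑ p ∈ univ.filter (fun p : Fin n × Fin n => ¬ p.1 ≤ p.2), F p.1 p.2 =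
      ∑ p ∈ univ.filter (fun p : Fin n × Fin n => p.1 ≤ p.2), if p.1 = p.2 then 0 else F p.2 p.1 := by
    rw [← sum_filter_add_sum_filter_not (univ.filter (fun p : Fin n × Fin n => p.1 ≤ p.2))
      (fun p => p.1 = p.2)]
    have e1 : ∑ p ∈ (univ.filter (fun p : Fin n × Fin n => p.1 ≤ p.2)).filter (fun p => p.1 = p.2),
        (if p.1 = p.2 then 0 else F p.2 p.1) = 0 := by
      refine sum_eq_zero fun p hp => ?_
      rw [if_pos (mem_filter.1 hp).2]
    rw [e1, zero_add]
    refine sum_nbij' Prod.swap Prod.swap ?_ ?_ (fun p _ => rfl) (fun p _ => rfl) ?_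
    · intro p hp
      have h := (mem_filter.1 hp).2
      rw [mem_filter, mem_filter]
      refine ⟨⟨mem_univ _, ?_⟩, ?_⟩
      · exact (not_le.1 h).le
      · exact (not_le.1 h).ne
    · intro p hp
      rw [mem_filter, mem_filter] at hp
      rw [mem_filter]
      refine ⟨mem_univ _, ?_⟩
      have h := lt_of_le_of_ne hp.1.2 hp.2
      exact not_le.2 h
    · intro p hp
      have h := (mem_filter.1 hp).2
      have hne : p.swap.1 ≠ p.swap.2 := (not_le.1 h).ne
      rw [if_neg hne]
      rfl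
  rw [h1, h2, h3, ← sum_add_distrib]
  rw [← sum_subtype (univ.filter (fun p : Fin n × Fin n => p.1 ≤ p.2))
    (p := fun p : Fin n × Fin n => p.1 ≤ p.2) (by simp)
    (fun p : Fin n × Fin n => if p.1 = p.2 then F p.1 p.1 else F p.1 p.2 + F p.2 p.1)]
  refine sum_congr rfl fun p _ => ?_
  split_ifs with h
  · rw [h, add_zero]
  · rfl

private theorem Wtb_comm {R : Type*} [CommRing R] (l m : Fin 5 → R) : lm l m = lm m l := by
  funext p
  unfold lm
  split_ifs <;> ring

private theorem Wtb_spc {R : Type*} [CommRing R] (x y : Fin 5 → R) : sp x y = sp y x := by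
  unfold sp
  exact sum_congr rfl fun i _ => mul_comm _ _

theorem mj_lm {R : Type*} [CommRing R] (J : Idx 5 → R) (l m : Fin 5 → R) :
    ∑ p, J p * lm l m p = sp (mj J l) m := by
  have h1 := Wtb_split (fun i j : Fin 5 =>
    (if h : i ≤ j then J ⟨(i, j), h⟩ else J ⟨(j, i), (not_le.1 h).le⟩) * l j * m i)
  have h2 : sp (mj J l) m = ∑ i, ∑ j, (if h : i ≤ j then J ⟨(i, j), h⟩ else
      J ⟨(j, i), (not_le.1 h).le⟩) * l j * m i := by
    unfold sp mj
    refine sum_congr rfl fun i _ => ?_
    rw [sum_mul]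
  rw [h2, ← h1]
  refine sum_congr rfl fun p _ => ?_
  obtain ⟨⟨i, j⟩, hij⟩ := p
  change i ≤ j at hij
  unfold lm
  dsimp only
  by_cases h3 : i = j
  · subst h3
    rw [if_pos rfl, if_pos rfl, dif_pos le_rfl]
    ring
  · rw [if_neg h3, if_neg h3, dif_pos hij, dif_neg (fun h4 => h3 (le_antisymm hij h4))]
    ring

theorem mj_symm {R : Type*} [CommRing R] (J : Idx 5 → R) (l m : Fin 5 → R) :
    sp (mj J l) m = sp (mj J m) l := by
  rw [← mj_lm, ← mj_lm, Wtb_comm]

private theorem Wtb_perp {x : Fin 5 → ℝ} {l : Fin 4 → Fin 5 → ℝ} (hl : LinearIndependent ℝ l)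
    (hlx : ∀ b, ∑ i, l b i * x i = 0) (hx : x ≠ 0) (u : Fin 5 → ℝ) (hu : ∑ i, u i * x i = 0) :
    u ∈ Submodule.span ℝ (Set.range l) := by
  let f : Module.Dual ℝ (Fin 5 → ℝ) := ∑ i, x i • LinearMap.proj i
  have hf : ∀ u, f u = ∑ i, u i * x i := by
    intro u
    change (∑ i, x i • (LinearMap.proj i : (Fin 5 → ℝ) →ₗ[ℝ] ℝ)) u = _
    rw [LinearMap.sum_apply]
    exact sum_congr rfl fun i _ => by
      rw [LinearMap.smul_apply, LinearMap.proj_apply, smul_eq_mul, mul_comm]
  have hf0 : f ≠ 0 := by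
    intro h
    apply hx
    have h1 := hf x
    rw [h, LinearMap.zero_apply] at h1
    have h2 := (sum_eq_zero_iff_of_nonneg (fun i _ => mul_self_nonneg (x i))).1 h1.symm
    funext i
    exact mul_self_eq_zero.1 (h2 i (mem_univ i))
  have hle : Submodule.span ℝ (Set.range l) ≤ LinearMap.ker f := by
    rw [Submodule.span_le]
    rintro _ ⟨b, rfl⟩
    change f (l b) = 0
    rw [hf, hlx]
  have hd1 : Module.finrank ℝ (Submodule.span ℝ (Set.range l)) = 4 := by
    rw [finrank_span_eq_card hl, Fintype.card_fin]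
  have hd2 : Module.finrank ℝ (LinearMap.ker f) + 1 = 5 := by
    have := Module.Dual.finrank_ker_add_one_of_ne_zero hf0
    rw [this]
    simp
  have heq := Submodule.eq_of_le_of_finrank_eq hle (by omega)
  rw [heq]
  change f u = 0
  rw [hf, hu]

/-- a vector orthogonal to the `m b` is parallel to `y` -/
private theorem Wtb_par {y z : Fin 5 → ℤ} {m : Fin 4 → Fin 5 → ℤ} (hy : y ≠ 0)
    (hm : LinearIndependent ℝ (fun b i => (m b i : ℝ))) (hmy : ∀ b, ∑ i, m b i * y i = 0)
    (hz : ∀ b, sp z (m b) = 0) (i j : Fin 5) : y j * z i = y i * z j := by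
  rcases eq_or_ne i j with rfl | hij
  · rfl
  have hyr : (fun i => (y i : ℝ)) ≠ 0 := by
    intro h
    apply hy
    funext i
    have h1 : (y i : ℝ) = 0 := congrFun h i
    rw [Pi.zero_apply]
    exact_mod_cast h1
  have hmy' : ∀ b, ∑ i, (fun b i => (m b i : ℝ)) b i * (fun i => (y i : ℝ)) i = 0 := by
    intro b
    dsimp only
    exact_mod_cast hmy b
  let u : Fin 5 → ℝ := fun k => (y j : ℝ) * (Pi.single i 1 : Fin 5 → ℝ) k -
    (y i : ℝ) * (Pi.single j 1 : Fin 5 → ℝ) k
  have hcomp : ∀ w : Fin 5 → ℝ, ∑ k, u k * w k = y j * w i - y i * w j := by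
    intro w
    have h1 : ∑ k, u k * w k = ∑ k, ((y j : ℝ) * ((Pi.single i 1 : Fin 5 → ℝ) k * w k) -
        (y i : ℝ) * ((Pi.single j 1 : Fin 5 → ℝ) k * w k)) :=
      sum_congr rfl fun k _ => by simp only [u]; ring
    rw [h1, sum_sub_distrib, ← mul_sum, ← mul_sum]
    simp [Pi.single_apply]
  have hu : ∑ k, u k * (fun i => (y i : ℝ)) k = 0 := by
    rw [hcomp]
    ring
  have h2 := Wtb_perp hm hmy' hyr u hu
  let g : (Fin 5 → ℝ) →ₗ[ℝ] ℝ := ∑ k, (z k : ℝ) • LinearMap.proj k
  have hg : ∀ u, g u = ∑ k, u k * (z k : ℝ) := by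
    intro u
    change (∑ k, (z k : ℝ) • (LinearMap.proj k : (Fin 5 → ℝ) →ₗ[ℝ] ℝ)) u = _
    rw [LinearMap.sum_apply]
    exact sum_congr rfl fun k _ => by
      rw [LinearMap.smul_apply, LinearMap.proj_apply, smul_eq_mul, mul_comm]
  have h3 : Submodule.span ℝ (Set.range fun b i => (m b i : ℝ)) ≤ LinearMap.ker g := by
    rw [Submodule.span_le]
    rintro _ ⟨b, rfl⟩
    change g (fun i => (m b i : ℝ)) = 0
    rw [hg]
    have h4 : ∑ k, m b k * z k = 0 := by
      rw [← hz b]
      unfold sp
      exact sum_congr rfl fun k _ => mul_comm _ _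
    exact_mod_cast h4
  have h5 : g u = 0 := h3 h2
  rw [hg, hcomp] at h5
  have h6 : (y j : ℝ) * z i = y i * z j := sub_eq_zero.1 h5
  exact_mod_cast h6

theorem wtb (y : Fin 5 → ℤ) (m : Fin 4 → Fin 5 → ℤ) (R μ : ℝ) (hpy : Prim y)
    (hm : LinearIndependent ℝ (fun b i => (m b i : ℝ))) (hmy : ∀ b, ∑ i, m b i * y i = 0)
    (hmR : ∀ b i, |(m b i : ℝ)| ≤ R) (rep : (Fin 4 → ℤ) → Fin 5 → ℤ)
    (hrep : ∀ z : Fin 5 → ℤ, ∀ b, sp (rep fun b => sp z (m b)) (m b) = sp z (m b))
    (x : Fin 5 → ℤ) (l : Fin 4 → Fin 5 → ℤ)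
    (hl : LinearIndependent ℝ (fun b i => (l b i : ℝ))) (hlx : ∀ b, ∑ i, l b i * x i = 0)
    (hlR : ∀ b i, |(l b i : ℝ)| ≤ R) (hxy : ∃ i j, mn x y i j ≠ 0) (hB : Bd μ x y) :
    ∃ W : Fin 4 → Fin 4 → ℤ, (∀ a b, |(W a b : ℝ)| ≤ 30 * μ * R ^ 2) ∧
      (∀ a b c, tt y (fun a => rep (W a)) l a b c = 0) ∧ ∃ a, ∃ i j, mn y (rep (W a)) i j ≠ 0 := by
  obtain ⟨J, u, hu0, hux, huy, huμ, hJu⟩ := hB
  obtain ⟨n0, hn0⟩ := hpy
  have hy : y ≠ 0 := by
    rintro rfl
    simp at hn0
  have hWu : ∀ a b, ((sp (mj J (l a)) (m b) : ℤ) : ℝ) =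
      ∑ p, u p * lm (fun i => (l a i : ℝ)) (fun i => (m b i : ℝ)) p := by
    intro a b
    rw [← mj_lm]
    push_cast
    simp only [Rnd_lm_cast]
    apply hJu
    · rw [qv_lm]
      have h1 : ∑ i, (l a i : ℝ) * (x i : ℝ) = 0 := by exact_mod_cast hlx a
      rw [h1, zero_mul]
    · rw [qv_lm]
      have h1 : ∑ i, (m b i : ℝ) * (y i : ℝ) = 0 := by exact_mod_cast hmy b
      rw [h1, mul_zero]
  refine ⟨fun a b => sp (mj J (l a)) (m b), ?_, ?_, ?_⟩
  · intro a b
    have hμ0 : 0 ≤ μ := (abs_nonneg _).trans (huμ ⟨(0, 0), le_rfl⟩)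
    dsimp only
    rw [hWu]
    refine (abs_sum_le_sum_abs _ _).trans ?_
    have h1 : ∀ p ∈ (univ : Finset (Idx 5)),
        |u p * lm (fun i => (l a i : ℝ)) (fun i => (m b i : ℝ)) p| ≤ μ * (2 * (R * R)) := by
      intro p _
      rw [abs_mul]
      exact mul_le_mul (huμ p) (Rnd_lm_bound _ _ (hlR a) (hmR b) p) (abs_nonneg _) hμ0
    refine (sum_le_card_nsmul _ _ _ h1).trans (le_of_eq ?_)
    have h2 : (univ : Finset (Idx 5)).card = 15 := by decide
    rw [h2, nsmul_eq_mul]
    push_cast
    ring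
  · -- `z a - rep (W a)` is a multiple of `y`
    have ht : ∀ a, ∃ t : ℤ, ∀ i, mj J (l a) i =
        rep (fun b => sp (mj J (l a)) (m b)) i + t * y i := by
      intro a
      have h1 : ∀ b, sp (fun i => mj J (l a) i - rep (fun b => sp (mj J (l a)) (m b)) i)
          (m b) = 0 := by
        intro b
        have h2 := hrep (mj J (l a)) b
        have h3 : sp (fun i => mj J (l a) i - rep (fun b => sp (mj J (l a)) (m b)) i) (m b) =
            sp (mj J (l a)) (m b) - sp (rep (fun b => sp (mj J (l a)) (m b))) (m b) := by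
          unfold sp
          rw [← sum_sub_distrib]
          exact sum_congr rfl fun i _ => by ring
        rw [h3, h2, sub_self]
      refine ⟨∑ i, n0 i * (mj J (l a) i - rep (fun b => sp (mj J (l a)) (m b)) i), fun j => ?_⟩
      have h4 : (∑ i, n0 i * (mj J (l a) i - rep (fun b => sp (mj J (l a)) (m b)) i)) * y j =
          (∑ i, n0 i * y i) * (mj J (l a) j - rep (fun b => sp (mj J (l a)) (m b)) j) := by
        rw [sum_mul, sum_mul]
        refine sum_congr rfl fun i _ => ?_
        have h5 := Wtb_par hy hm hmy h1 i j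
        linear_combination n0 i * h5
      rw [h4, hn0]
      ring
    choose t ht using ht
    intro a b c
    have hsp : ∀ a b, sp (l b) (mj J (l a)) =
        sp (l b) (rep (fun b => sp (mj J (l a)) (m b))) + t a * sp (l b) y := by
      intro a b
      unfold sp
      rw [mul_sum, ← sum_add_distrib]
      refine sum_congr rfl fun i _ => ?_
      have := ht a i
      unfold sp at this
      rw [this]
      ring
    have hsym : ∀ a b, sp (l b) (mj J (l a)) = sp (l a) (mj J (l b)) := by
      intro a b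
      rw [Wtb_spc (l b), Wtb_spc (l a)]
      exact mj_symm J (l a) (l b)
    have e1 := hsp a b
    have e2 := hsp b a
    have e3 := hsp a c
    have e4 := hsp c a
    have e5 := hsp b c
    have e6 := hsp c b
    have s1 := hsym a b
    have s2 := hsym a c
    have s3 := hsym b c
    unfold tt
    dsimp only
    linear_combination (sp (l a) y) * (e5 - e6 - s3) - (sp (l b) y) * (e3 - e4 - s2) +
      (sp (l c) y) * (e1 - e2 - s1)
  · -- some value is not zero
    have hex : ∃ a b, sp (mj J (l a)) (m b) ≠ 0 := by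
      by_contra hcon
      push Not at hcon
      obtain ⟨i, j, hij⟩ := hxy
      have hij' : (fun i => (x i : ℝ)) i * (fun i => (y i : ℝ)) j -
          (fun i => (x i : ℝ)) j * (fun i => (y i : ℝ)) i ≠ 0 := by
        unfold mn at hij
        dsimp only
        exact_mod_cast hij
      have hlx' : ∀ b, ∑ i, (fun b i => (l b i : ℝ)) b i * (fun i => (x i : ℝ)) i = 0 := by
        intro b
        dsimp only
        exact_mod_cast hlx b
      have hmy' : ∀ b, ∑ i, (fun b i => (m b i : ℝ)) b i * (fun i => (y i : ℝ)) i = 0 := by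
        intro b
        dsimp only
        exact_mod_cast hmy b
      obtain ⟨c, hc⟩ := span2 hl hm hlx' hmy' ⟨i, j, hij'⟩ u hux huy
      have h1 : ∑ p, u p * u p = 0 := by
        have h2 : ∑ p, u p * u p = ∑ a, ∑ b, c a b *
            ∑ p, u p * lm (fun i => (l a i : ℝ)) (fun i => (m b i : ℝ)) p := by
          calc ∑ p, u p * u p
              = ∑ p, ∑ a, ∑ b, c a b * (u p *
                  lm (fun i => (l a i : ℝ)) (fun i => (m b i : ℝ)) p) := by
                refine sum_congr rfl fun p _ => ?_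
                conv_lhs => rw [hc p]
                rw [← hc p, hc p, ← hc p]
                conv_lhs =>
                  arg 2
                  rw [hc p]
                rw [mul_sum]
                refine sum_congr rfl fun a _ => ?_
                rw [mul_sum]
                exact sum_congr rfl fun b _ => by ring
            _ = _ := by
                rw [sum_comm]
                refine sum_congr rfl fun a _ => ?_
                rw [sum_comm]
                refine sum_congr rfl fun b _ => ?_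
                rw [mul_sum]
        rw [h2]
        refine sum_eq_zero fun a _ => sum_eq_zero fun b _ => ?_
        rw [← hWu, hcon a b, Int.cast_zero, mul_zero]
      apply hu0
      have h3 := (sum_eq_zero_iff_of_nonneg (fun p _ => mul_self_nonneg (u p))).1 h1
      funext p
      exact mul_self_eq_zero.1 (h3 p (mem_univ p))
    obtain ⟨a, b, hab⟩ := hex
    refine ⟨a, ?_⟩
    by_contra hcon
    push Not at hcon
    apply hab
    obtain ⟨i, hi⟩ := Function.ne_iff.1 hy
    rw [← hrep (mj J (l a)) b]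
    have h1 : y i * sp (rep fun b => sp (mj J (l a)) (m b)) (m b) =
        (rep fun b => sp (mj J (l a)) (m b)) i * ∑ j, m b j * y j := by
      unfold sp
      rw [mul_sum, mul_sum]
      refine sum_congr rfl fun j _ => ?_
      have h2 := hcon i j
      unfold mn at h2
      unfold sp at h2
      linear_combination m b j * h2
    rw [hmy, mul_zero] at h1
    exact (mul_eq_zero.1 h1).resolve_left hi

end Pool.Agent.H7.PQ
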