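import Pool.Agent.H7.PQ.Wta
import Pool.Agent.H7.PQ.Wtb
import Pool.Agent.H7.PQ.Trx
import Pool.Agent.H7.HP.Mnr

set_option autoImplicit false

/-!
# [H7 PQ WTC] few pairs are not round, 80-130 lines

* `wtc`: `m` from `Good R y`; `rep W` = a preimage of `W` under `z ↦ (sp z (m b))_b` if there is one (choice). For each `x` in the set choose `l` from `Good R x`. `x ↦ l` is injective on the set: `x` is orthogonal to the four independent vectors `l b`, so two such `x` are proportional; both are primitive with `x 1 > 0`, so equal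
(`eq_of_mn` in `HP/Mnr.lean`: all minors vanish, `y = x` or `y = -x`). `wtb` gives `W` and `a`; let `b, c` be two other indices chosen as functions of `a`. So the number of `x` is at most the number of triples `(W, a, l)` with `W a b ∈ [-T, T]`, `T = ⌊30 μ R^2⌋`,
`l ∈ (bx 5 ⌊R⌋)^4`, `tt y (rep ∘ W) l a b c = 0` and a minor of `y`, `rep (W a)` not zero: `(2T+1)^16 * 4 * 3 (2⌊R⌋+1)^19` (`wta`).
* `wtd`: `trx` with `μ = C/ρ`: not round implies `Bd (C/ρ)`.
-/

namespace Pool.Agent.H7.PQ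

open Finset Pool.Agent.H7.HP

private theorem Wtc_perp {x : Fin 5 → ℝ} {l : Fin 4 → Fin 5 → ℝ} (hl : LinearIndependent ℝ l)
    (hlx : ∀ b, ∑ i, l b i * x i = 0) (hx : x ≠ 0) (u : Fin 5 → ℝ) (hu : ∑ i, u i * x i = 0) :
    u ∈ Submodule.span ℝ (Set.range l) := by
  let f : Module.Dual ℝ (Fin 5 → ℝ) := ∑ i, x i • LinearMap.proj i
  have hf : ∀ u, f u = ∑ i, u i * x i := by
    intro u
    change (∑ i, x i • (LinearMap.proj i : (Fin 5 → ℝ) →ₗ[ℝ] ℝ)) u = _
    rw [LinearMap.sum_apply]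
    exact sum_congr rfl fun i _ => by
      rw [LinearMap.smul_apply, LinearMap.proj_apply, smul_eq_mul, mul_comm]
  have hf0 : f ≠ 0 := by
    intro h
    apply hx
    have h1 := hf x
    rw [h, LinearMap.zero_apply] at h1
    have h2 := (sum_eq_zero_iff_of_nonneg (fun i _ => mul_self_nonneg (x i))).1 h1.symm
    funext i
    exact mul_self_eq_zero.1 (h2 i (mem_univ i))
  have hle : Submodule.span ℝ (Set.range l) ≤ LinearMap.ker f := by
    rw [Submodule.span_le]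
    rintro _ ⟨b, rfl⟩
    change f (l b) = 0
    rw [hf, hlx]
  have hd1 : Module.finrank ℝ (Submodule.span ℝ (Set.range l)) = 4 := by
    rw [finrank_span_eq_card hl, Fintype.card_fin]
  have hd2 : Module.finrank ℝ (LinearMap.ker f) + 1 = 5 := by
    have := Module.Dual.finrank_ker_add_one_of_ne_zero hf0
    rw [this]
    simp
  have heq := Submodule.eq_of_le_of_finrank_eq hle (by omega)
  rw [heq]
  change f u = 0
  rw [hf, hu]

private theorem Wtc_mn {l : Fin 4 → Fin 5 → ℤ}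
    (hl : LinearIndependent ℝ (fun b i => (l b i : ℝ))) {x x' : Fin 5 → ℤ}
    (hx : ∀ b, ∑ i, l b i * x i = 0) (hx' : ∀ b, ∑ i, l b i * x' i = 0) (hx0 : x ≠ 0) (i j : Fin 5) :
    mn x x' i j = 0 := by
  have hxR : ∀ b, ∑ i, (l b i : ℝ) * (x i : ℝ) = 0 := by
    intro b
    have := hx b
    exact_mod_cast this
  have hxR' : ∀ b, ∑ i, (l b i : ℝ) * (x' i : ℝ) = 0 := by
    intro b
    have := hx' b
    exact_mod_cast this
  have hx0R : (fun i => (x i : ℝ)) ≠ 0 := by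
    intro h
    apply hx0
    funext i
    have h1 : (x i : ℝ) = 0 := congrFun h i
    exact_mod_cast h1
  let u : Fin 5 → ℝ := (x j : ℝ) • (Pi.single i 1 : Fin 5 → ℝ) - (x i : ℝ) • (Pi.single j 1 : Fin 5 → ℝ)
  have hu : ∀ z : Fin 5 → ℝ, ∑ k, u k * z k = (x j : ℝ) * z i - (x i : ℝ) * z j := by
    intro z
    have h1 : ∀ k, u k * z k = (x j : ℝ) * (if k = i then z k else 0) -
        (x i : ℝ) * (if k = j then z k else 0) := by
      intro k
      show ((x j : ℝ) * (Pi.single i 1 : Fin 5 → ℝ) k - (x i : ℝ) * (Pi.single j 1 : Fin 5 → ℝ) k) *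
        z k = _
      rw [Pi.single_apply, Pi.single_apply]
      split_ifs <;> ring
    rw [Finset.sum_congr rfl (fun k _ => h1 k), Finset.sum_sub_distrib, ← Finset.mul_sum,
      ← Finset.mul_sum, Finset.sum_ite_eq' Finset.univ i, Finset.sum_ite_eq' Finset.univ j]
    simp
  have h2 := Wtc_perp hl hxR hx0R u (by rw [hu]; ring)
  have h3 : ∀ w ∈ Submodule.span ℝ (Set.range (fun b i => (l b i : ℝ))),
      ∑ k, w k * (x' k : ℝ) = 0 := by
    intro w hw
    induction hw using Submodule.span_induction with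
    | mem w hw =>
      obtain ⟨b, rfl⟩ := hw
      exact hxR' b
    | zero => simp
    | add a b _ _ ha hb =>
      have h4 : ∀ k, (a + b) k * (x' k : ℝ) = a k * (x' k : ℝ) + b k * (x' k : ℝ) := by
        intro k
        rw [Pi.add_apply]
        ring
      rw [Finset.sum_congr rfl (fun k _ => h4 k), Finset.sum_add_distrib, ha, hb, add_zero]
    | smul c a _ ha =>
      have h4 : ∀ k, (c • a) k * (x' k : ℝ) = c * (a k * (x' k : ℝ)) := by
        intro k
        rw [Pi.smul_apply, smul_eq_mul]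
        ring
      rw [Finset.sum_congr rfl (fun k _ => h4 k), ← Finset.mul_sum, ha, mul_zero]
  have h5 := h3 u h2
  rw [hu] at h5
  unfold mn
  have h6 : ((x i * x' j - x j * x' i : ℤ) : ℝ) = 0 := by
    push_cast
    linarith
  exact_mod_cast h6

private theorem Wtc_mem {k : ℤ} {B : ℝ} (h : |(k : ℝ)| ≤ B) :
    k ∈ Icc (-((⌊B⌋₊ : ℕ) : ℤ)) ((⌊B⌋₊ : ℕ) : ℤ) := by
  have h1 : ((k.natAbs : ℕ) : ℝ) ≤ B := by
    rw [Nat.cast_natAbs, Int.cast_abs]
    exact h
  have h2 : k.natAbs ≤ ⌊B⌋₊ := Nat.le_floor h1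
  rw [mem_Icc]
  omega

private theorem Wtc_r1 (a b : ℝ) :
    4 * ((a ^ 4) ^ 4 * (3 * b ^ 19)) = 12 * (a ^ 16 * b ^ 19) := by
  ring

private theorem Wtc_r2 (a b c : ℝ) (d : ℝ) :
    12 * ((a * b) ^ 16 * (c * d) ^ 19) = 12 * a ^ 16 * c ^ 19 * b ^ 16 * d ^ 19 := by
  ring

private theorem Wtc_num {t r A B : ℝ} (ht0 : 0 ≤ t) (hr0 : 0 ≤ r) (ht : 2 * t + 1 ≤ A)
    (hr : 2 * r + 1 ≤ B) :
    4 * (((2 * t + 1) ^ 4) ^ 4 * (3 * (2 * r + 1) ^ 19)) ≤ 12 * A ^ 16 * B ^ 19 := by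
  rw [Wtc_r1, mul_assoc]
  have h2 : (2 * t + 1) ^ 16 ≤ A ^ 16 := pow_le_pow_left₀ (by positivity) ht _
  have h3 : (2 * r + 1) ^ 19 ≤ B ^ 19 := pow_le_pow_left₀ (by positivity) hr _
  have h4 : 0 ≤ A := by linarith
  apply mul_le_mul_of_nonneg_left _ (by norm_num)
  exact mul_le_mul h2 h3 (by positivity) (by positivity)

private theorem Wtc_idx (a : Fin 4) : a ≠ a + 1 ∧ a ≠ a + 2 ∧ a + 1 ≠ a + 2 := by
  revert a
  decide

open scoped Classical in
private theorem Wtc_count (y : Fin 5 → ℤ) (rep : (Fin 4 → ℤ) → Fin 5 → ℤ) (T R' : ℕ) :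
    ((univ : Finset (Fin 4)).biUnion fun a =>
      (Fintype.piFinset fun _ : Fin 4 => Fintype.piFinset fun _ : Fin 4 =>
        Icc (-(T : ℤ)) (T : ℤ)).biUnion fun W =>
        (if ∃ i j, mn y (rep (W a)) i j ≠ 0 then
          (Fintype.piFinset fun _ : Fin 4 => bx 5 R').filter
            fun l => tt y (fun a => rep (W a)) l a (a + 1) (a + 2) = 0
        else ∅)).card ≤ 4 * (((2 * T + 1) ^ 4) ^ 4 * (3 * (2 * R' + 1) ^ 19)) := by
  refine (Finset.card_biUnion_le_card_mul _ _ _ (fun a _ => ?_)).trans_eq (by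
    rw [Finset.card_univ, Fintype.card_fin])
  refine (Finset.card_biUnion_le_card_mul _ _ (3 * (2 * R' + 1) ^ 19) (fun W _ => ?_)).trans_eq ?_
  · split_ifs with h
    · obtain ⟨h1, h2, h3⟩ := Wtc_idx a
      exact wta R' y (fun a => rep (W a)) a (a + 1) (a + 2) h1 h2 h3 h
    · rw [Finset.card_empty]
      exact Nat.zero_le _
  · congr 1
    rw [Fintype.card_piFinset, Finset.prod_const, Finset.card_univ, Fintype.card_fin,
      Fintype.card_piFinset, Finset.prod_const, Finset.card_univ, Fintype.card_fin, Int.card_Icc]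
    congr 2
    omega

open scoped Classical in
theorem wtc (y : Fin 5 → ℤ) (S : Finset (Fin 5 → ℤ)) (R μ : ℝ) (hR : 1 ≤ R) (hμ : 0 < μ)
    (hy : Good R y) (hpy : Prim y)
    (hS : ∀ x ∈ S, Good R x ∧ Prim x ∧ 0 < x 1 ∧ ∃ i j, mn x y i j ≠ 0) :
    ((S.filter fun x => Bd μ x y).card : ℝ) ≤
      12 * (60 * μ * R ^ 2 + 1) ^ 16 * (2 * R + 1) ^ 19 := by
  obtain ⟨m, hm, hmy, hmR⟩ := hy
  let rep : (Fin 4 → ℤ) → Fin 5 → ℤ := fun W =>
    if h : ∃ z : Fin 5 → ℤ, ∀ b, sp z (m b) = W b then h.choose else 0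
  have hrep : ∀ z : Fin 5 → ℤ, ∀ b, sp (rep fun b => sp z (m b)) (m b) = sp z (m b) := by
    intro z b
    have hex : ∃ z' : Fin 5 → ℤ, ∀ b, sp z' (m b) = (fun b => sp z (m b)) b :=
      ⟨z, fun b => rfl⟩
    have h1 : rep (fun b => sp z (m b)) = hex.choose := dif_pos hex
    rw [h1]
    exact hex.choose_spec b
  have hA : ∀ x, x ∈ S.filter (fun x => Bd μ x y) →
      ∃ (l : Fin 4 → Fin 5 → ℤ) (W : Fin 4 → Fin 4 → ℤ) (a : Fin 4),
      LinearIndependent ℝ (fun b i => (l b i : ℝ)) ∧ (∀ b, ∑ i, l b i * x i = 0) ∧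
      (∀ b i, |(l b i : ℝ)| ≤ R) ∧ (∀ a b, |(W a b : ℝ)| ≤ 30 * μ * R ^ 2) ∧
      (∀ a b c, tt y (fun a => rep (W a)) l a b c = 0) ∧
      ∃ i j, mn y (rep (W a)) i j ≠ 0 := by
    intro x hx
    rw [Finset.mem_filter] at hx
    obtain ⟨⟨l, hl, hlx, hlR⟩, hpx, hx1, hxy⟩ := hS x hx.1
    obtain ⟨W, hW, htt, a, ha⟩ := wtb y m R μ hpy hm hmy hmR rep hrep x l hl hlx hlR hxy hx.2
    exact ⟨l, W, a, hl, hlx, hlR, hW, htt, ha⟩
  choose! l W a hl hlx hlR hW htt ha using hA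
  have hcard : (S.filter fun x => Bd μ x y).card ≤
      4 * (((2 * ⌊30 * μ * R ^ 2⌋₊ + 1) ^ 4) ^ 4 * (3 * (2 * ⌊R⌋₊ + 1) ^ 19)) := by
    refine (Finset.card_le_card_of_injOn l ?_ ?_).trans
      (Wtc_count y rep ⌊30 * μ * R ^ 2⌋₊ ⌊R⌋₊)
    · intro x hx
      have hx' : x ∈ S.filter (fun x => Bd μ x y) := hx
      rw [Finset.mem_coe, Finset.mem_biUnion]
      refine ⟨a x, Finset.mem_univ _, ?_⟩
      rw [Finset.mem_biUnion]
      refine ⟨W x, ?_, ?_⟩
      · rw [Fintype.mem_piFinset]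
        intro c
        rw [Fintype.mem_piFinset]
        intro b
        exact Wtc_mem (hW x hx' c b)
      · rw [if_pos (ha x hx'), Finset.mem_filter]
        refine ⟨?_, htt x hx' _ _ _⟩
        rw [Fintype.mem_piFinset]
        intro b
        unfold bx
        rw [Fintype.mem_piFinset]
        intro i
        exact Wtc_mem (hlR x hx' b i)
    · intro x hx x' hx' hxx
      have h1 : x ∈ S.filter (fun x => Bd μ x y) := hx
      have h2 : x' ∈ S.filter (fun x => Bd μ x y) := hx'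
      have h3 := hlx x h1
      have h4 := hlx x' h2
      rw [← hxx] at h4
      obtain ⟨-, hpx, hx1, -⟩ := hS x (Finset.mem_filter.1 h1).1
      obtain ⟨-, hpx', hx1', -⟩ := hS x' (Finset.mem_filter.1 h2).1
      have hx0 : x ≠ 0 := by
        intro h
        rw [h] at hx1
        exact lt_irrefl _ hx1
      rcases eq_of_mn hpx hpx' (fun i j => Wtc_mn (hl x h1) h3 h4 hx0 i j) with h5 | h5
      · exact h5.symm
      · have h6 := h5 1
        omega
  have hT : ((⌊30 * μ * R ^ 2⌋₊ : ℕ) : ℝ) ≤ 30 * μ * R ^ 2 := Nat.floor_le (by positivity)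
  have hR' : ((⌊R⌋₊ : ℕ) : ℝ) ≤ R := Nat.floor_le (by linarith)
  have h1 : ((S.filter fun x => Bd μ x y).card : ℝ) ≤
      4 * (((2 * (⌊30 * μ * R ^ 2⌋₊ : ℝ) + 1) ^ 4) ^ 4 * (3 * (2 * (⌊R⌋₊ : ℝ) + 1) ^ 19)) := by
    exact_mod_cast hcard
  exact h1.trans (Wtc_num (Nat.cast_nonneg _) (Nat.cast_nonneg _) (by linarith) (by linarith))

open scoped Classical in
theorem wtd : ∃ C : ℝ, 0 < C ∧ ∀ (y : Fin 5 → ℤ) (S : Finset (Fin 5 → ℤ)) (R rho : ℝ), 1 ≤ R →
    0 < rho → Good R y → Prim y →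
    (∀ x ∈ S, Good R x ∧ Prim x ∧ 0 < x 1 ∧ ∃ i j, mn x y i j ≠ 0) →
      ((S.filter fun x => ¬ Rd rho x y).card : ℝ) ≤ C * (R ^ 2 / rho + 1) ^ 16 * R ^ 19 := by
  obtain ⟨C, hC, htrx⟩ := trx
  refine ⟨12 * (60 * C + 1) ^ 16 * 3 ^ 19, by positivity, fun y S R rho hR hrho hy hpy hS => ?_⟩
  have hμ : 0 < C / rho := div_pos hC hrho
  have hsub : (S.filter fun x => ¬ Rd rho x y) ⊆ S.filter fun x => Bd (C / rho) x y := by
    intro x hx
    rw [Finset.mem_filter] at hx ⊢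
    refine ⟨hx.1, ?_⟩
    by_contra hcon
    apply hx.2
    obtain ⟨hgx, hpx, hx1, hxy⟩ := hS x hx.1
    have h1 := htrx x y R hgx hy hxy (C / rho) hμ hcon
    have h2 : C / (C / rho) = rho := by field_simp
    rw [h2] at h1
    exact h1
  have h1 : ((S.filter fun x => ¬ Rd rho x y).card : ℝ) ≤
      ((S.filter fun x => Bd (C / rho) x y).card : ℝ) := by
    exact_mod_cast Finset.card_le_card hsub
  refine h1.trans ((wtc y S R (C / rho) hR hμ hy hpy hS).trans ?_)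
  have hq : 0 ≤ R ^ 2 / rho := by positivity
  have h2 : (60 * (C / rho) * R ^ 2 + 1) ^ 16 ≤ ((60 * C + 1) * (R ^ 2 / rho + 1)) ^ 16 := by
    apply pow_le_pow_left₀ (by positivity)
    have h3 : 60 * (C / rho) * R ^ 2 = 60 * C * (R ^ 2 / rho) := by ring
    rw [h3]
    nlinarith
  have h4 : (2 * R + 1) ^ 19 ≤ (3 * R) ^ 19 := pow_le_pow_left₀ (by positivity) (by linarith) _
  calc 12 * (60 * (C / rho) * R ^ 2 + 1) ^ 16 * (2 * R + 1) ^ 19
      = 12 * ((60 * (C / rho) * R ^ 2 + 1) ^ 16 * (2 * R + 1) ^ 19) := mul_assoc _ _ _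
    _ ≤ 12 * (((60 * C + 1) * (R ^ 2 / rho + 1)) ^ 16 * (3 * R) ^ 19) := by
        apply mul_le_mul_of_nonneg_left _ (by norm_num)
        exact mul_le_mul h2 h4 (by positivity) (by positivity)
    _ = 12 * (60 * C + 1) ^ 16 * 3 ^ 19 * (R ^ 2 / rho + 1) ^ 16 * R ^ 19 :=
        Wtc_r2 _ _ _ _

end Pool.Agent.H7.PQ
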