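import Pool.Agent.H7.PQ.Smd
import Pool.Agent.H7.PQ.Wtc

set_option autoImplicit false

/-!
# [H7 PQ PSM] sums over pairs of points, 80-120 lines

`S = XS lam B`, `#S ≤ (9B)^5` (`x0_card`), `(gk/(B^2 dl))^2 = B^(-4) (gk/dl)^2`.
* `psm3`: `smd` for each `x`, times `#S B^(-4) ≤ 9^5 B`.
* `psm2`: `psm3` with `ε = 32` (`dl ≤ 32 B^2 ≤ 32 B^2 gk`).
* `psm1`: pairs with `dl ≤ Δ gk`: `smd`: `9^5 B C (1/lam^3 + Δ/B)`; pairs with `dl > Δ gk` which are not round: each term is at most `B^(-4) Δ^(-2)`, and for each `y` the number of `x` is at most `C (R^2/rho + 1)^16 R^19` (`wtd` with `S.erase y`, `R = 600/lam`, `xs_good`, `xs_ne`; swap the order of summation).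
-/

namespace Pool.Agent.H7.PQ

open Finset Pool.Agent.H7.HP

private theorem psm_xscard {B : ℕ} {lam : ℝ} (hB : 1 ≤ B) : ((XS lam B).card : ℝ) ≤ (9 * B) ^ 5 := by
  classical
  have h1 : (XS lam B).card ≤ (X0 B).card := by
    unfold XS
    exact card_filter_le _ _
  have h2 := h1.trans (x0_card hB)
  exact_mod_cast h2

private theorem psm_term {B : ℕ} (x y : Fin 5 → ℤ) :
    ((gk x y : ℝ) / (B ^ 2 * dl x y)) ^ 2 = (1 / (B : ℝ) ^ 4) * ((gk x y : ℝ) / dl x y) ^ 2 := by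
  rw [div_pow, div_pow, mul_pow, ← pow_mul, one_div, div_eq_mul_inv, div_eq_mul_inv, mul_inv]
  ring

open scoped Classical in
theorem psm3 : ∃ C : ℝ, 0 < C ∧ ∀ (B : ℕ) (lam ε : ℝ), 1 ≤ B → 0 < lam → lam ≤ 1 → 0 ≤ ε →
    ∑ x ∈ XS lam B, ∑ y ∈ ((XS lam B).erase x).filter (fun y => (dl x y : ℝ) ≤ ε * B ^ 2 * gk x y),
      ((gk x y : ℝ) / (B ^ 2 * dl x y)) ^ 2 ≤ C * B * (1 / lam ^ 3 + ε * B) := by
  obtain ⟨C, hC, hs⟩ := smd
  refine ⟨9 ^ 5 * C, by positivity, ?_⟩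
  intro B lam ε hB h0 hl hε
  have hB0 : (0 : ℝ) < B := by exact_mod_cast hB
  have h1 : ∀ x ∈ XS lam B, ∑ y ∈ ((XS lam B).erase x).filter
      (fun y => (dl x y : ℝ) ≤ ε * B ^ 2 * gk x y), ((gk x y : ℝ) / (B ^ 2 * dl x y)) ^ 2 ≤
      (1 / (B : ℝ) ^ 4) * (C * (1 / lam ^ 3 + ε * B)) := by
    intro x hx
    have h2 := hs B lam (ε * B ^ 2) hB h0 hl (by positivity) x hx
    rw [sum_congr rfl (fun y _ => psm_term x y), ← mul_sum]
    apply mul_le_mul_of_nonneg_left _ (by positivity)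
    refine h2.trans (le_of_eq ?_)
    field_simp
  refine (sum_le_card_nsmul _ _ _ h1).trans ?_
  rw [nsmul_eq_mul]
  refine (mul_le_mul_of_nonneg_right (psm_xscard hB) (by positivity)).trans (le_of_eq ?_)
  field_simp

theorem psm2 : ∃ C : ℝ, 0 < C ∧ ∀ (B : ℕ) (lam : ℝ), 1 ≤ B → 0 < lam → lam ≤ 1 →
    ∑ x ∈ XS lam B, ∑ y ∈ (XS lam B).erase x,
      ((gk x y : ℝ) / (B ^ 2 * dl x y)) ^ 2 ≤ C * B * (1 / lam ^ 3 + B) := by
  classical
  obtain ⟨C, hC, hs⟩ := psm3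
  refine ⟨32 * C, by positivity, ?_⟩
  intro B lam hB h0 hl
  have hB0 : (0 : ℝ) < B := by exact_mod_cast hB
  have h1 := hs B lam 32 hB h0 hl (by norm_num)
  have h2 : ∀ x ∈ XS lam B, ((XS lam B).erase x).filter
      (fun y => (dl x y : ℝ) ≤ 32 * B ^ 2 * gk x y) = (XS lam B).erase x := by
    intro x hx
    apply filter_true_of_mem
    intro y hy
    rw [mem_erase] at hy
    have h3 : dl x y ≤ 32 * B ^ 2 := dl_le32 hx hy.2
    have h4 : 1 ≤ gk x y := gk_pos (xs_ne hx hy.2 (Ne.symm hy.1))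
    have h5 : (dl x y : ℝ) ≤ 32 * B ^ 2 := by exact_mod_cast h3
    have h6 : (1 : ℝ) ≤ gk x y := by exact_mod_cast h4
    refine h5.trans ?_
    exact le_mul_of_one_le_right (by positivity) h6
  rw [sum_congr rfl (fun x hx => by rw [h2 x hx])] at h1
  refine h1.trans ?_
  have h3 : 0 < 1 / lam ^ 3 := by positivity
  have h4 : 0 < C * B := by positivity
  calc C * B * (1 / lam ^ 3 + 32 * B) ≤ C * B * (32 * (1 / lam ^ 3 + B)) := by
        apply mul_le_mul_of_nonneg_left _ h4.le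
        linarith
    _ = 32 * C * B * (1 / lam ^ 3 + B) := by ring

open scoped Classical in
theorem psm1 : ∃ C : ℝ, 0 < C ∧ ∀ (B : ℕ) (lam rho Δ : ℝ), 1 ≤ B → 0 < lam → lam ≤ 1 →
    0 < rho → 0 < Δ →
    ∑ x ∈ XS lam B, ∑ y ∈ ((XS lam B).erase x).filter (fun y => ¬ Rd rho x y),
      ((gk x y : ℝ) / (B ^ 2 * dl x y)) ^ 2 ≤
        C * B * (1 / lam ^ 3 + Δ / B + (1 / (lam ^ 2 * rho) + 1) ^ 16 / lam ^ 19 / Δ ^ 2) := by
  obtain ⟨C, hC, hs⟩ := smd
  obtain ⟨C', hC', hw⟩ := wtd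
  refine ⟨9 ^ 5 * C + 9 ^ 5 * C' * 360000 ^ 16 * 600 ^ 19, by positivity, ?_⟩
  intro B lam rho Δ hB h0 hl hrho hΔ
  have hB0 : (0 : ℝ) < B := by exact_mod_cast hB
  -- the close pairs
  have h1 : ∀ x ∈ XS lam B, ∑ y ∈ ((XS lam B).erase x).filter
      (fun y => (dl x y : ℝ) ≤ Δ * gk x y), ((gk x y : ℝ) / (B ^ 2 * dl x y)) ^ 2 ≤
      (1 / (B : ℝ) ^ 4) * (C * (1 / lam ^ 3 + Δ / B)) := by
    intro x hx
    have h2 := hs B lam Δ hB h0 hl hΔ.le x hx
    rw [sum_congr rfl (fun y _ => psm_term x y), ← mul_sum]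
    exact mul_le_mul_of_nonneg_left h2 (by positivity)
  have h2 : ∑ x ∈ XS lam B, ∑ y ∈ ((XS lam B).erase x).filter
      (fun y => (dl x y : ℝ) ≤ Δ * gk x y), ((gk x y : ℝ) / (B ^ 2 * dl x y)) ^ 2 ≤
      9 ^ 5 * C * B * (1 / lam ^ 3 + Δ / B) := by
    refine (sum_le_card_nsmul _ _ _ h1).trans ?_
    rw [nsmul_eq_mul]
    refine (mul_le_mul_of_nonneg_right (psm_xscard hB) (by positivity)).trans (le_of_eq ?_)
    field_simp
  -- each other term
  have h3 : ∀ x ∈ XS lam B, ∑ y ∈ ((XS lam B).erase x).filter (fun y => ¬ Rd rho x y),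
      ((gk x y : ℝ) / (B ^ 2 * dl x y)) ^ 2 ≤
      ∑ y ∈ ((XS lam B).erase x).filter (fun y => (dl x y : ℝ) ≤ Δ * gk x y),
        ((gk x y : ℝ) / (B ^ 2 * dl x y)) ^ 2 +
      (1 / (B : ℝ) ^ 4) * (1 / Δ ^ 2) * ∑ y ∈ (XS lam B).erase x, (if ¬ Rd rho x y then (1 : ℝ) else 0) := by
    intro x hx
    rw [← sum_filter_add_sum_filter_not (((XS lam B).erase x).filter (fun y => ¬ Rd rho x y))
      (fun y => (dl x y : ℝ) ≤ Δ * gk x y)]
    apply add_le_add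
    · apply sum_le_sum_of_subset_of_nonneg
      · intro y hy
        rw [mem_filter, mem_filter] at hy
        rw [mem_filter]
        exact ⟨hy.1.1, hy.2⟩
      · intro i _ _
        positivity
    · rw [mul_sum]
      have h4 : ∀ y ∈ (((XS lam B).erase x).filter (fun y => ¬ Rd rho x y)).filter
          (fun y => ¬ (dl x y : ℝ) ≤ Δ * gk x y), ((gk x y : ℝ) / (B ^ 2 * dl x y)) ^ 2 ≤
          (1 / (B : ℝ) ^ 4) * (1 / Δ ^ 2) * (if ¬ Rd rho x y then (1 : ℝ) else 0) := by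
        intro y hy
        rw [mem_filter, mem_filter] at hy
        rw [if_pos hy.1.2, mul_one, psm_term]
        apply mul_le_mul_of_nonneg_left _ (by positivity)
        have h5 : Δ * gk x y < dl x y := not_le.1 hy.2
        have h6 : (0 : ℝ) < dl x y := lt_of_le_of_lt (by positivity) h5
        have h7 : (gk x y : ℝ) / dl x y ≤ 1 / Δ := by
          rw [div_le_div_iff₀ h6 hΔ]
          linarith
        calc ((gk x y : ℝ) / dl x y) ^ 2 ≤ (1 / Δ) ^ 2 := pow_le_pow_left₀ (by positivity) h7 2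
          _ = 1 / Δ ^ 2 := by rw [div_pow, one_pow]
      refine (sum_le_sum h4).trans ?_
      apply sum_le_sum_of_subset_of_nonneg
      · intro y hy
        rw [mem_filter, mem_filter] at hy
        exact hy.1.1
      · intro i _ _
        split_ifs <;> positivity
  refine (sum_le_sum h3).trans ?_
  rw [sum_add_distrib, ← mul_sum]
  -- the number of pairs which are not round
  have h5 : ∑ x ∈ XS lam B, ∑ y ∈ (XS lam B).erase x, (if ¬ Rd rho x y then (1 : ℝ) else 0) =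
      ∑ y ∈ XS lam B, ∑ x ∈ (XS lam B).erase y, (if ¬ Rd rho x y then (1 : ℝ) else 0) := by
    have h6 : ∀ (F : (Fin 5 → ℤ) → (Fin 5 → ℤ) → ℝ), ∑ x ∈ XS lam B, ∑ y ∈ (XS lam B).erase x, F x y =
        ∑ x ∈ XS lam B, ∑ y ∈ XS lam B, (if y ≠ x then F x y else 0) := by
      intro F
      refine sum_congr rfl fun x _ => ?_
      rw [← sum_filter]
      apply sum_congr _ (fun _ _ => rfl)
      ext y
      rw [mem_erase, mem_filter]
      exact and_comm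
    rw [h6, h6 (fun y x => if ¬ Rd rho x y then (1 : ℝ) else 0), sum_comm]
    refine sum_congr rfl fun y _ => sum_congr rfl fun x _ => ?_
    by_cases hxy : y = x
    · rw [if_neg (fun h => h hxy), if_neg (fun h => h hxy.symm)]
    · rw [if_pos hxy, if_pos (Ne.symm hxy)]
  have hR : 1 ≤ 600 / lam := by
    rw [le_div_iff₀ h0]
    linarith
  have h6 : ∀ y ∈ XS lam B, ∑ x ∈ (XS lam B).erase y, (if ¬ Rd rho x y then (1 : ℝ) else 0) ≤
      C' * ((600 / lam) ^ 2 / rho + 1) ^ 16 * (600 / lam) ^ 19 := by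
    intro y hy
    have h7 := hw y ((XS lam B).erase y) (600 / lam) rho hR hrho (xs_good h0 hl hy) (mem_XS.1 hy).1.prim (by
      intro x hx
      rw [mem_erase] at hx
      have hP := (mem_XS.1 hx.2).1
      exact ⟨xs_good h0 hl hx.2, hP.prim, lt_of_le_of_lt (Int.natCast_nonneg B) hP.lo,
        xs_ne hx.2 hy hx.1⟩)
    refine le_trans (le_of_eq ?_) h7
    rw [sum_boole]
  have h7 : ∑ y ∈ XS lam B, ∑ x ∈ (XS lam B).erase y, (if ¬ Rd rho x y then (1 : ℝ) else 0) ≤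
      (9 * B) ^ 5 * (C' * ((600 / lam) ^ 2 / rho + 1) ^ 16 * (600 / lam) ^ 19) := by
    refine (sum_le_card_nsmul _ _ _ h6).trans ?_
    rw [nsmul_eq_mul]
    exact mul_le_mul_of_nonneg_right (psm_xscard hB) (by positivity)
  rw [h5]
  have h8 : ((600 / lam) ^ 2 / rho + 1) ^ 16 ≤ 360000 ^ 16 * (1 / (lam ^ 2 * rho) + 1) ^ 16 := by
    rw [← mul_pow]
    apply pow_le_pow_left₀ (by positivity)
    have h9 : (600 / lam) ^ 2 / rho = 360000 * (1 / (lam ^ 2 * rho)) := by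
      field_simp
      norm_num
    rw [h9]
    linarith
  have h10 : (1 / (B : ℝ) ^ 4) * (1 / Δ ^ 2) *
      ∑ y ∈ XS lam B, ∑ x ∈ (XS lam B).erase y, (if ¬ Rd rho x y then (1 : ℝ) else 0) ≤
      9 ^ 5 * C' * 360000 ^ 16 * 600 ^ 19 * B * ((1 / (lam ^ 2 * rho) + 1) ^ 16 / lam ^ 19 / Δ ^ 2) := by
    calc (1 / (B : ℝ) ^ 4) * (1 / Δ ^ 2) *
        ∑ y ∈ XS lam B, ∑ x ∈ (XS lam B).erase y, (if ¬ Rd rho x y then (1 : ℝ) else 0)
        ≤ (1 / (B : ℝ) ^ 4) * (1 / Δ ^ 2) *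
          ((9 * B) ^ 5 * (C' * ((600 / lam) ^ 2 / rho + 1) ^ 16 * (600 / lam) ^ 19)) :=
          mul_le_mul_of_nonneg_left h7 (by positivity)
      _ ≤ (1 / (B : ℝ) ^ 4) * (1 / Δ ^ 2) *
          ((9 * B) ^ 5 * (C' * (360000 ^ 16 * (1 / (lam ^ 2 * rho) + 1) ^ 16) * (600 / lam) ^ 19)) := by
          apply mul_le_mul_of_nonneg_left _ (by positivity)
          apply mul_le_mul_of_nonneg_left _ (by positivity)
          apply mul_le_mul_of_nonneg_right _ (by positivity)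
          exact mul_le_mul_of_nonneg_left h8 hC'.le
      _ = _ := by
          generalize (1 / (lam ^ 2 * rho) + 1) ^ 16 = Z
          rw [div_pow, mul_pow]
          have e : (1 / (B : ℝ) ^ 4) * (B : ℝ) ^ 5 = B := by
            field_simp
          calc 1 / (B : ℝ) ^ 4 * (1 / Δ ^ 2) * (9 ^ 5 * (B : ℝ) ^ 5 * (C' * (360000 ^ 16 * Z) * (600 ^ 19 / lam ^ 19)))
              = (1 / (B : ℝ) ^ 4 * (B : ℝ) ^ 5) * (9 ^ 5 * C' * 360000 ^ 16 * 600 ^ 19) * (Z / lam ^ 19 / Δ ^ 2) := by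
                generalize (360000 : ℝ) ^ 16 = a
                generalize (600 : ℝ) ^ 19 = b
                ring
            _ = _ := by
                rw [e]
                generalize (360000 : ℝ) ^ 16 = a
                generalize (600 : ℝ) ^ 19 = b
                ring
  refine (add_le_add h2 h10).trans ?_
  have p1 : 0 ≤ 1 / lam ^ 3 + Δ / B := by positivity
  have p2 : 0 ≤ (1 / (lam ^ 2 * rho) + 1) ^ 16 / lam ^ 19 / Δ ^ 2 := by positivity
  generalize hX : 1 / lam ^ 3 + Δ / B = X at p1 ⊢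
  generalize hY : (1 / (lam ^ 2 * rho) + 1) ^ 16 / lam ^ 19 / Δ ^ 2 = Y at p2 ⊢
  have p3 : 0 ≤ 9 ^ 5 * C * B := by positivity
  have p4 : 0 ≤ 9 ^ 5 * C' * 360000 ^ 16 * 600 ^ 19 * B := by positivity
  generalize 9 ^ 5 * C' * 360000 ^ 16 * 600 ^ 19 = k at p4 ⊢
  generalize 9 ^ 5 * C = l at p3 ⊢
  nlinarith [mul_nonneg p3 p2, mul_nonneg p4 p1]

end Pool.Agent.H7.PQ
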