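import Pool.Agent.H7.PQ.Defs

set_option autoImplicit false

/-!
# [H7 PQ SMA] singular intersections of two quadrics and the discriminant of the pencil, 100-160 lines

`pen f g = det (Hm f + X Hm g)` over `R[X]`, `dis f g = resultant (pen f g) (derivative) 5 4` (formal degrees 5, 4).
* `pen_deg`: `natDegree ≤ 5` (`Matrix.natDegree_det_X_add_C_le` or expand), and the coefficient of `X^5` is `det (Hm g)` (`Matrix.coeff_det_X_add_C_card`, `Matrix.det` of `X • B.map C + A.map C`).
* `dis_map`: `resultant_map_map`, `RingHom.map_det`, `Hm_map`, `Polynomial.derivative_map`.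
* `dis_sing` (over `ℂ`, any field of characteristic 0): `x ≠ 0`, `qv f x = qv g x = 0`, the two gradient vectors dependent. The gradient is `Hm f x` (`pl f x e_i = ∑_j Hm f i j x_j`, `pl_Hm`, `pl_comm`, `Hm_symm`), so `λ Hm f x + μ Hm g x = 0`, `(λ, μ) ≠ 0`.
If `det (Hm g) = 0`: `natDegree (pen) ≤ 4`, derivative `≤ 3`: `resultant_eq_zero_of_lt_lt`. Otherwise `λ ≠ 0`, so with `t0 = μ/λ`: `(Hm f + t0 Hm g) x = 0`. Let `C0` be an invertible matrix with column `0` equal to `x`. The matrix `N = C0ᵀ (Hm f + X Hm g) C0` over `ℂ[X]` has `N 0 0 = 2 qv f x + X * 2 qv g x = 0` and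
`N 0 j = xᵀ (Hm f + t0 Hm g) C0 e_j + (X - t0) xᵀ Hm g C0 e_j = (X - t0) * (..)`, the same for `N j 0`. Take the factor `X - t0` out of row `0` and then out of column `0` (the entry `(0,0)` is `0`): `det N = (X - t0)^2 * Q`. So `(det C0)^2 * pen = (X - t0)^2 Q`: `t0` is a root of `pen` and of its derivative, they are not coprime,
and `natDegree pen = 5`, `natDegree pen' = 4`: `resultant_eq_zero_iff`.
* `dis_ne`: the pair `f = ∑ i x_i^2`, `g = ∑ x_i^2` (over `ℤ`): `Hm f`, `Hm g` diagonal, `pen = ∏ (2 i + 2 X)`; over `ℚ` separable of degree 5, so coprime to its derivative, `resultant ≠ 0` (`resultant_eq_zero_iff`, `dis_map` for `ℤ → ℚ`).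
-/

namespace Pool.Agent.H7.PQ

open Finset Pool.Agent.H7.HP Polynomial

/-- the determinant of the pencil -/
noncomputable def pen {R : Type*} [CommRing R] (f g : Idx 5 → R) : R[X] :=
  ((Hm f).map C + (X : R[X]) • (Hm g).map C).det

/-- the discriminant (formal resultant of the determinant and its derivative) -/
noncomputable def dis {R : Type*} [CommRing R] (f g : Idx 5 → R) : R :=
  resultant (pen f g) (derivative (pen f g)) 5 4

theorem dis_map {R S : Type*} [CommRing R] [CommRing S] (φ : R →+* S) (f g : Idx 5 → R) :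
    φ (dis f g) = dis (fun p => φ (f p)) (fun p => φ (g p)) := by
  have hpen : pen (fun p => φ (f p)) (fun p => φ (g p)) = (pen f g).map φ := by
    unfold pen
    rw [Hm_map, Hm_map, ← coe_mapRingHom, RingHom.map_det]
    congr 1
    ext1 i j
    simp [Matrix.map_apply, Matrix.add_apply, Matrix.smul_apply]
  unfold dis
  rw [hpen, derivative_map, resultant_map_map]

private theorem pen_deg {R : Type*} [CommRing R] (f g : Idx 5 → R) : (pen f g).natDegree ≤ 5 := by
  have h := natDegree_det_X_add_C_le (Hm g) (Hm f)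
  rw [add_comm] at h
  simpa [pen] using h

private theorem pen_coeff {R : Type*} [CommRing R] (f g : Idx 5 → R) :
    (pen f g).coeff 5 = (Hm g).det := by
  have h := coeff_det_X_add_C_card (Hm g) (Hm f)
  rw [add_comm] at h
  simpa [pen] using h

private theorem pen_der_deg {R : Type*} [CommRing R] (f g : Idx 5 → R) :
    (derivative (pen f g)).natDegree ≤ 4 := by
  have h := pen_deg f g
  have h2 := natDegree_derivative_le (pen f g)
  omega

private theorem dis_root {f g : Idx 5 → ℂ} {t : ℂ} (h1 : (pen f g).eval t = 0)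
    (h2 : (derivative (pen f g)).eval t = 0) : dis f g = 0 := by
  obtain ⟨p, q, -, -, e⟩ := exists_mul_add_mul_eq_C_resultant (pen f g) (derivative (pen f g))
    (pen_deg f g) (pen_der_deg f g) (Or.inl (by norm_num))
  have h3 := congrArg (eval t) e
  rw [eval_add, eval_mul, eval_mul, h1, h2, eval_C, zero_mul, zero_mul, add_zero] at h3
  exact h3.symm

private theorem grad_eq (f : Idx 5 → ℂ) (x : Fin 5 → ℂ) (i : Fin 5) :
    pl f x (Pi.single i 1) = ∑ j, Hm f i j * x j := by
  rw [pl_Hm]
  refine sum_congr rfl fun j _ => ?_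
  rw [sum_eq_single i]
  · rw [Pi.single_eq_same, mul_one, Hm_symm f j i, mul_comm]
  · intro k _ hk
    rw [Pi.single_eq_of_ne hk, mul_zero]
  · intro h
    exact absurd (mem_univ i) h

private theorem dbl_root (f g : Idx 5 → ℂ) (x : Fin 5 → ℂ) (hx : x ≠ 0) (hg : qv g x = 0) (t : ℂ)
    (hr : ∀ i, ∑ j, Hm f i j * x j + t * ∑ j, Hm g i j * x j = 0) : dis f g = 0 := by
  obtain ⟨k, hk⟩ : ∃ k, x k ≠ 0 := by
    by_contra h
    push Not at h
    exact hx (funext h)
  set r : Fin 5 → ℂ := fun i => ∑ j, Hm g i j * x j with hrdef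
  set M : Matrix (Fin 5) (Fin 5) ℂ[X] := (Hm f).map C + (X : ℂ[X]) • (Hm g).map C with hM
  have hMij : ∀ i j, M i j = C (Hm f i j) + X * C (Hm g i j) := by
    intro i j
    simp [hM, Matrix.add_apply, Matrix.smul_apply, Matrix.map_apply]
  have hMx : ∀ i, ∑ j, C (x j) * M i j = (X - C t) * C (r i) := by
    intro i
    have h1 : ∑ j, C (x j) * M i j = C (∑ j, Hm f i j * x j) + X * C (∑ j, Hm g i j * x j) := by
      rw [map_sum, map_sum, mul_sum, ← sum_add_distrib]
      refine sum_congr rfl fun j _ => ?_
      rw [hMij, C_mul, C_mul]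
      ring
    have h2 : ∑ j, Hm f i j * x j = - (t * r i) := by
      have := hr i
      simp only [hrdef]
      linear_combination this
    rw [h1, h2]
    simp only [hrdef, C_neg, C_mul]
    ring
  have hsym : ∀ i j, M i j = M j i := by
    intro i j
    rw [hMij, hMij, Hm_symm f i j, Hm_symm g i j]
  have e1 : C (x k) * (pen f g) = (X - C t) * (M.updateCol k (fun i => C (r i))).det := by
    have h1 := Matrix.det_updateCol_sum M k (fun j => C (x j))
    have h2 : (fun i => ∑ j, C (x j) • M i j) = (X - C t) • (fun i => C (r i)) := by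
      funext i
      simp only [smul_eq_mul, Pi.smul_apply]
      exact hMx i
    have hpM : pen f g = M.det := rfl
    have h3 : (M.updateCol k (fun i => ∑ j, C (x j) • M i j)).det =
        (X - C t) * (M.updateCol k (fun i => C (r i))).det := by
      rw [h2, Matrix.det_updateCol_smul]
    rw [hpM, ← h3, h1, smul_eq_mul]
  set M2 : Matrix (Fin 5) (Fin 5) ℂ[X] := M.updateCol k (fun i => C (r i)) with hM2
  have hxr : ∑ i, x i * r i = 0 := by
    have h1 := pl_self g x
    rw [hg, mul_zero, pl_Hm] at h1
    rw [← h1]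
    refine sum_congr rfl fun i _ => ?_
    simp only [hrdef]
    rw [mul_sum]
    exact sum_congr rfl fun j _ => by ring
  have e2 : ∃ Q, C (x k) * M2.det = (X - C t) * Q := by
    have h1 := Matrix.det_updateRow_sum M2 k (fun j => C (x j))
    have h2 : (∑ i, C (x i) • M2 i) = (X - C t) • (fun j => if j = k then 0 else C (r j)) := by
      funext j
      rw [Finset.sum_apply]
      simp only [smul_eq_mul, Pi.smul_apply]
      by_cases hj : j = k
      · subst hj
        rw [if_pos rfl, mul_zero]
        have h3 : ∀ i, M2 i j = C (r i) := by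
          intro i
          rw [hM2, Matrix.updateCol_self]
        simp only [h3, ← C_mul]
        rw [← map_sum, hxr, map_zero]
      · rw [if_neg hj, ← hMx j]
        refine sum_congr rfl fun i _ => ?_
        rw [hM2, Matrix.updateCol_ne hj, hsym i j]
    rw [h2, Matrix.det_updateRow_smul, smul_eq_mul] at h1
    exact ⟨_, h1.symm⟩
  obtain ⟨Q, hQ⟩ := e2
  have e3 : C (x k) * (C (x k) * pen f g) = (X - C t) * ((X - C t) * Q) := by
    rw [e1, ← hQ]
    ring
  refine dis_root (t := t) ?_ ?_
  · have h1 := congrArg (eval t) e3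
    simp only [eval_mul, eval_C, eval_sub, eval_X, sub_self, zero_mul] at h1
    have h2 : x k * (x k * (pen f g).eval t) = 0 := h1
    rcases mul_eq_zero.1 h2 with h3 | h3
    · exact absurd h3 hk
    · rcases mul_eq_zero.1 h3 with h4 | h4
      · exact absurd h4 hk
      · exact h4
  · have h1 := congrArg (fun P => eval t (derivative P)) e3
    simp only [derivative_mul, derivative_C, derivative_sub, derivative_X, zero_mul, zero_add,
      eval_add, eval_mul, eval_C, eval_sub, eval_X, sub_self, add_zero, eval_zero, mul_zero,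
      sub_zero] at h1
    have h2 : x k * (x k * (derivative (pen f g)).eval t) = 0 := h1
    rcases mul_eq_zero.1 h2 with h3 | h3
    · exact absurd h3 hk
    · rcases mul_eq_zero.1 h3 with h4 | h4
      · exact absurd h4 hk
      · exact h4

theorem dis_sing (f g : Idx 5 → ℂ) (x : Fin 5 → ℂ) (hx : x ≠ 0) (hf : qv f x = 0)
    (hg : qv g x = 0)
    (h : ¬ LinearIndependent ℂ ![fun i => pl f x (Pi.single i 1), fun i => pl g x (Pi.single i 1)]) :
    dis f g = 0 := by
  rw [LinearIndependent.pair_iff] at h
  push Not at h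
  obtain ⟨s, t, hst, hne⟩ := h
  have hst' : ∀ i, s * (∑ j, Hm f i j * x j) + t * (∑ j, Hm g i j * x j) = 0 := by
    intro i
    have h1 := congrFun hst i
    simp only [Pi.add_apply, Pi.smul_apply, smul_eq_mul, Pi.zero_apply] at h1
    rw [grad_eq, grad_eq] at h1
    exact h1
  by_cases hs : s = 0
  · have ht : t ≠ 0 := hne hs
    have h1 : (Hm g).det = 0 := by
      rw [← Matrix.exists_mulVec_eq_zero_iff]
      refine ⟨x, hx, ?_⟩
      funext i
      have h2 := hst' i
      rw [hs, zero_mul, zero_add] at h2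
      rcases mul_eq_zero.1 h2 with h3 | h3
      · exact absurd h3 ht
      · exact h3
    have h2 : (pen f g).natDegree < 5 := by
      refine lt_of_le_of_ne (pen_deg f g) fun h3 => ?_
      have h4 : (pen f g).leadingCoeff = 0 := by
        rw [leadingCoeff, h3, pen_coeff, h1]
      rw [leadingCoeff_eq_zero.1 h4, natDegree_zero] at h3
      omega
    have h3 : (derivative (pen f g)).natDegree < 4 := by
      have := natDegree_derivative_le (pen f g)
      omega
    exact resultant_eq_zero_of_lt_lt _ _ _ _ h2 h3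
  · refine dbl_root f g x hx hg (t / s) fun i => ?_
    have h1 := hst' i
    have h2 : s * (∑ j, Hm f i j * x j + t / s * ∑ j, Hm g i j * x j) = 0 := by
      rw [mul_add, ← mul_assoc s (t / s), mul_div_cancel₀ t hs]
      exact h1
    rcases mul_eq_zero.1 h2 with h3 | h3
    · exact absurd h3 hs
    · exact h3

private def fd : Idx 5 → ℤ := fun p => if p.1.1 = p.1.2 then ((p.1.1 : ℕ) : ℤ) else 0

private def gd : Idx 5 → ℤ := fun p => if p.1.1 = p.1.2 then 1 else 0

private theorem Hm_fd : Hm fd = Matrix.diagonal (fun i : Fin 5 => 2 * ((i : ℕ) : ℤ)) := by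
  decide +kernel

private theorem Hm_gd : Hm gd = Matrix.diagonal (fun _ : Fin 5 => (2 : ℤ)) := by
  decide +kernel

theorem dis_ne : ∃ f g : Idx 5 → ℤ, dis f g ≠ 0 := by
  refine ⟨fd, gd, fun h0 => ?_⟩
  have h1 := dis_map (Int.castRingHom ℚ) fd gd
  rw [h0, map_zero] at h1
  have hpen : pen (fun p => Int.castRingHom ℚ (fd p)) (fun p => Int.castRingHom ℚ (gd p)) =
      C 32 * ∏ i : Fin 5, (X - C (-((i : ℕ) : ℚ))) := by
    unfold pen
    rw [Hm_map, Hm_map, Hm_fd, Hm_gd]
    have h2 : ((Matrix.diagonal (fun i : Fin 5 => 2 * ((i : ℕ) : ℤ))).map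
          (Int.castRingHom ℚ)).map C +
        (X : ℚ[X]) • ((Matrix.diagonal (fun _ : Fin 5 => (2 : ℤ))).map (Int.castRingHom ℚ)).map C =
        Matrix.diagonal (fun i : Fin 5 => C 2 * (X - C (-((i : ℕ) : ℚ)))) := by
      ext1 i j
      by_cases hij : i = j
      · subst hij
        simp only [Matrix.add_apply, Matrix.smul_apply, Matrix.map_apply,
          Matrix.diagonal_apply_eq, smul_eq_mul, map_mul, map_neg]
        simp only [eq_intCast, Int.cast_ofNat, Int.cast_natCast]
        ring
      · simp [Matrix.add_apply, Matrix.smul_apply, Matrix.map_apply,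
          Matrix.diagonal_apply_ne _ hij]
    rw [h2, Matrix.det_diagonal, Finset.prod_mul_distrib, Finset.prod_const, Finset.card_univ,
      Fintype.card_fin, ← C_pow]
    norm_num
  set P : ℚ[X] := ∏ i : Fin 5, (X - C (-((i : ℕ) : ℚ))) with hP
  have hsep : P.Separable := by
    rw [hP, separable_prod_X_sub_C_iff]
    intro i j hij
    have h2 : ((i : ℕ) : ℚ) = ((j : ℕ) : ℚ) := neg_injective hij
    exact Fin.ext (by exact_mod_cast h2)
  have h32 : IsUnit (C (32 : ℚ)) := isUnit_C.2 (by norm_num)
  have hcop : IsCoprime (C 32 * P) (derivative (C 32 * P)) := by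
    rw [derivative_C_mul, isCoprime_mul_unit_left h32]
    exact hsep
  have hPdeg : P.natDegree = 5 := by
    rw [hP, natDegree_finsetProd_X_sub_C_eq_card]
    simp
  have hdeg : (C 32 * P).natDegree = 5 := by
    rw [natDegree_C_mul (by norm_num), hPdeg]
  have hdeg' : (derivative (C 32 * P)).natDegree = 4 := by
    rw [natDegree_derivative, hdeg]
  unfold dis at h1
  rw [hpen] at h1
  have h3 := (resultant_eq_zero_iff (f := C 32 * P) (g := derivative (C 32 * P))).1
    (by rw [hdeg, hdeg']; exact h1.symm)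
  exact h3.2 hcop

end Pool.Agent.H7.PQ
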