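import Pool.Agent.H7.PQ.Sma

set_option autoImplicit false

/-!
# [H7 PQ SMB] 100 per cent of the pairs are smooth, 60-100 lines

`D = dis F G` in `MvPolynomial (Idx 5 ⊕ Idx 5) ℤ` for the generic forms `F p = X (inl p)`, `G p = X (inr p)`. `D` evaluated at `(f, g)` is `dis f g` (`dis_map` for `MvPolynomial.eval`), so `D ≠ 0` (`dis_ne`). If `(f, g)` is not smooth then `dis f g = 0` in `ℂ` (`dis_sing`), so in `ℤ` (`dis_map` for `ℤ → ℂ`, injective).
Schwartz-Zippel (`MvPolynomial.schwartz_zippel_totalDegree` after `MvPolynomial.rename` along `Idx 5 ⊕ Idx 5 ≃ Fin 30`, `S = Icc (-A) A`): at most `(totalDegree D) (2A+1)^29` pairs with `D(f,g) = 0`.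
-/

namespace Pool.Agent.H7.PQ

open Finset Pool.Agent.H7.HP

/-- the variety `f = g = 0` in `P^4` is a smooth complete intersection -/
def Smo (f g : Idx 5 → ℤ) : Prop := ∀ x : Fin 5 → ℂ, x ≠ 0 → qv (fun p => (f p : ℂ)) x = 0 →
  qv (fun p => (g p : ℂ)) x = 0 → LinearIndependent ℂ
    ![fun i => pl (fun p => (f p : ℂ)) x (Pi.single i 1),
      fun i => pl (fun p => (g p : ℂ)) x (Pi.single i 1)]

private noncomputable def smb_e : Idx 5 ⊕ Idx 5 ≃ Fin 30 :=
  Fintype.equivFinOfCardEq (by rw [Fintype.card_sum, card_Idx5])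

private theorem smb_dis (f g : Idx 5 → ℤ) (h : ¬ Smo f g) : dis f g = 0 := by
  unfold Smo at h
  push Not at h
  obtain ⟨x, hx, hf, hg, hl⟩ := h
  have h1 := dis_sing (fun p => (f p : ℂ)) (fun p => (g p : ℂ)) x hx hf hg hl
  have h2 := dis_map (Int.castRingHom ℂ) f g
  simp only [eq_intCast] at h2
  rw [h1] at h2
  exact_mod_cast h2

private theorem smb_D : ∃ D : MvPolynomial (Fin 30) ℤ, D ≠ 0 ∧
    ∀ f g : Idx 5 → ℤ, MvPolynomial.eval (fun k => Sum.elim f g (smb_e.symm k)) D = dis f g := by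
  have key : ∀ f g : Idx 5 → ℤ, MvPolynomial.eval (fun k => Sum.elim f g (smb_e.symm k))
      (dis (fun p : Idx 5 => (MvPolynomial.X (smb_e (Sum.inl p)) : MvPolynomial (Fin 30) ℤ))
        (fun p : Idx 5 => (MvPolynomial.X (smb_e (Sum.inr p)) : MvPolynomial (Fin 30) ℤ))) =
      dis f g := by
    intro f g
    rw [dis_map]
    congr 1
    · funext p
      simp
    · funext p
      simp
  refine ⟨_, ?_, key⟩
  intro h
  obtain ⟨f, g, hfg⟩ := dis_ne
  apply hfg
  rw [← key f g, h, map_zero]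

open scoped Classical in
theorem smb (δ : ℝ) (hδ : 0 < δ) : ∃ A0 : ℕ, ∀ A ≥ A0,
    (((bf 5 A ×ˢ bf 5 A).filter fun q => ¬ Smo q.1 q.2).card : ℝ) ≤ δ * (2 * A + 1) ^ 30 := by
  obtain ⟨D, hD, hDe⟩ := smb_D
  set T : ℕ := D.totalDegree with hT
  refine ⟨⌈(T : ℝ) / δ⌉₊, fun A hA => ?_⟩
  have hA1 : (T : ℝ) ≤ δ * (2 * A + 1) := by
    have h1 : (T : ℝ) / δ ≤ A := (Nat.le_ceil _).trans (by exact_mod_cast hA)
    rw [div_le_iff₀ hδ] at h1
    have h2 : (0 : ℝ) ≤ A := Nat.cast_nonneg A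
    nlinarith
  set S : Finset ℤ := Icc (-(A : ℤ)) A with hS
  have hScard : S.card = 2 * A + 1 := by
    rw [hS, Int.card_Icc]
    omega
  -- Schwartz Zippel
  have hsz := MvPolynomial.schwartz_zippel_totalDegree hD S
  have hsz' : (((Fintype.piFinset fun _ : Fin 30 => S).filter
      fun v => MvPolynomial.eval v D = 0).card : ℝ) ≤ T * (2 * A + 1) ^ 29 := by
    have h1 : ((((Fintype.piFinset fun _ : Fin 30 => S).filter
        fun v => MvPolynomial.eval v D = 0).card / (S.card ^ 30 : ℚ≥0) : ℚ≥0) : ℝ) ≤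
        ((D.totalDegree / S.card : ℚ≥0) : ℝ) := by
      exact_mod_cast hsz
    push_cast at h1
    rw [hScard, ← hT] at h1
    push_cast at h1
    have h2 : (0 : ℝ) < 2 * A + 1 := by positivity
    rw [div_le_div_iff₀ (by positivity) h2] at h1
    have h3 : (T : ℝ) * (2 * A + 1) ^ 30 = T * (2 * A + 1) ^ 29 * (2 * A + 1) := by ring
    rw [h3] at h1
    exact le_of_mul_le_mul_right h1 h2
  have hle : ((bf 5 A ×ˢ bf 5 A).filter fun q => ¬ Smo q.1 q.2).card ≤
      ((Fintype.piFinset fun _ : Fin 30 => S).filter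
        fun v => MvPolynomial.eval v D = 0).card := by
    refine card_le_card_of_injOn (fun q => fun k => Sum.elim q.1 q.2 (smb_e.symm k)) ?_ ?_
    · intro q hq
      obtain ⟨h1, h2⟩ := mem_filter.1 (mem_coe.1 hq)
      obtain ⟨h3, h4⟩ := mem_product.1 h1
      refine mem_coe.2 (mem_filter.2 ⟨?_, ?_⟩)
      · rw [Fintype.mem_piFinset]
        intro k
        rw [mem_bf] at h3 h4
        rw [hS, mem_Icc, ← abs_le]
        show |Sum.elim q.1 q.2 (smb_e.symm k)| ≤ A
        rcases smb_e.symm k with p | p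
        · exact h3 p
        · exact h4 p
      · show MvPolynomial.eval (fun k => Sum.elim q.1 q.2 (smb_e.symm k)) D = 0
        rw [hDe]
        exact smb_dis _ _ h2
    · intro q _ q' _ h
      have h1 : ∀ s : Idx 5 ⊕ Idx 5, Sum.elim q.1 q.2 s = Sum.elim q'.1 q'.2 s := by
        intro s
        have := congrFun h (smb_e s)
        simpa using this
      refine Prod.ext (funext fun p => ?_) (funext fun p => ?_)
      · exact h1 (Sum.inl p)
      · exact h1 (Sum.inr p)
  have hle' : (((bf 5 A ×ˢ bf 5 A).filter fun q => ¬ Smo q.1 q.2).card : ℝ) ≤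
      (((Fintype.piFinset fun _ : Fin 30 => S).filter
        fun v => MvPolynomial.eval v D = 0).card : ℝ) := by exact_mod_cast hle
  refine (hle'.trans hsz').trans ?_
  calc (T : ℝ) * (2 * A + 1) ^ 29 ≤ δ * (2 * A + 1) * (2 * A + 1) ^ 29 :=
        mul_le_mul_of_nonneg_right hA1 (by positivity)
    _ = δ * (2 * A + 1) ^ 30 := by ring

end Pool.Agent.H7.PQ
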