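import Pool.Agent.H7.PQ.Xsf

set_option autoImplicit false

/-!
# [H7 PQ SMD] the sum over the second point, 130-200 lines

`x ∈ XS lam B`. Fix `m` with `∑ m_i x_i = 1`. For `y ∈ XS lam B`, `y ≠ x`: `k = gk x y ≥ 1`, `c = ∑ m_i y_i`, `y_i - c x_i = ∑_j m_j (x_j y_i - x_i y_j)` is divisible by `k`: `y = c x + k w`, `∑ m_i w_i = 0`, `k * mn x w i j = mn x y i j`, so `w ≠ 0`, `k * dl x w = dl x y`, `D := dl x w ≥ 1`.
`y` is determined by `(w, k, c)`. `k D = dl x y ≤ 32 B^2` (`dl_le32`), so for given `w` at most `32 B^2 / D` values of `k`; given `w`, `k` there are at most 5 values `c` (in fact one): `y_1 = c x_1 + k w_1 ∈ (B, 2B]` and `x_1 > B`. `(gk/dl) = 1/D`, the condition is `D ≤ Δ`, and `lam x_1 k ≤ dl x y` (`xs_sep`), so `D ≥ lam x_1 ≥ lam B`.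
So the sum is at most `∑_w 5 * (32 B^2/D) * D^(-2)`, over the set `Wset` of the `w` which occur.
COUNT: for real or natural `T`: the number of `w` with `∑ m_i w_i = 0`, `dl x w ≤ T` is at most `x_1 (2T/x_1 + 1)^4 ≤ 2B (2T/B + 1)^4`: map `w ↦ w - ⌊w_1/x_1⌋ x` is injective on them (apply `∑ m_i ·`: it gives `-⌊w_1/x_1⌋`), the image `w'` has `0 ≤ w'_1 < x_1`, `dl x w' = dl x w ≤ T`, `|x_1 w'_i - x_i w'_1| ≤ T`: for given `w'_1` each of the
other four coordinates lies in an interval of length `2T/x_1`.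
`D ≤ B`: at most `2B * 3^4 = 162 B` vectors `w`, each term at most `160 B^2 (lam B)^(-3)`: sum `≤ C lam^(-3)`. `B < D ≤ Δ`: put `2^i B < D ≤ 2^(i+1) B`: at most `2B (2^(i+2) + 1)^4 ≤ 2B * 5^4 * 16^i` vectors, each term at most `160 B^2 (2^i B)^(-3)`: sum over `i` with `2^i B < Δ`: `≤ C ∑ 2^i ≤ 2 C Δ/B`.
(Dyadic classes: e.g. `i = Nat.log 2 (D / B)` with natural division, or partial summation.)
-/

namespace Pool.Agent.H7.PQ

open Finset Pool.Agent.H7.HP

private theorem smd_dyad {ι : Type*} (W : Finset ι) (D : ι → ℕ) (B : ℕ) (hB : 1 ≤ B) (M : ℝ) (hM : 0 ≤ M)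
    (h : ∀ i : ℕ, ((W.filter (fun v => D v ≤ 2 ^ i * B)).card : ℝ) ≤ M * 16 ^ i) (n : ℕ) :
    ∑ v ∈ W.filter (fun v => B < D v ∧ D v ≤ 2 ^ n * B), 1 / (D v : ℝ) ^ 3 ≤ 16 * M / B ^ 3 * 2 ^ n := by
  have hB0 : (0 : ℝ) < B := by exact_mod_cast hB
  induction n with
  | zero =>
    have he : W.filter (fun v => B < D v ∧ D v ≤ 2 ^ 0 * B) = ∅ := by
      apply filter_eq_empty_iff.2
      intro v _ hv
      rw [pow_zero, one_mul] at hv
      omega
    rw [he, sum_empty]
    positivity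
  | succ n ih =>
    rw [← sum_filter_add_sum_filter_not (W.filter (fun v => B < D v ∧ D v ≤ 2 ^ (n + 1) * B))
      (fun v => D v ≤ 2 ^ n * B)]
    have h1 : ∑ v ∈ (W.filter (fun v => B < D v ∧ D v ≤ 2 ^ (n + 1) * B)).filter (fun v => D v ≤ 2 ^ n * B),
        1 / (D v : ℝ) ^ 3 ≤ 16 * M / B ^ 3 * 2 ^ n := by
      refine le_trans (sum_le_sum_of_subset_of_nonneg ?_ (fun i _ _ => by positivity)) ih
      intro v hv
      rw [mem_filter, mem_filter] at hv
      rw [mem_filter]
      exact ⟨hv.1.1, hv.1.2.1, hv.2⟩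
    have h2 : ∑ v ∈ (W.filter (fun v => B < D v ∧ D v ≤ 2 ^ (n + 1) * B)).filter (fun v => ¬ D v ≤ 2 ^ n * B),
        1 / (D v : ℝ) ^ 3 ≤ 16 * M / B ^ 3 * 2 ^ n := by
      have h3 : ∀ v ∈ (W.filter (fun v => B < D v ∧ D v ≤ 2 ^ (n + 1) * B)).filter (fun v => ¬ D v ≤ 2 ^ n * B),
          1 / (D v : ℝ) ^ 3 ≤ 1 / (2 ^ n * (B : ℝ)) ^ 3 := by
        intro v hv
        rw [mem_filter] at hv
        have h4 : 2 ^ n * B < D v := not_le.1 hv.2
        have h5 : (2 : ℝ) ^ n * B ≤ D v := by exact_mod_cast h4.le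
        apply one_div_le_one_div_of_le (by positivity)
        exact pow_le_pow_left₀ (by positivity) h5 3
      refine (sum_le_card_nsmul _ _ _ h3).trans ?_
      rw [nsmul_eq_mul]
      have h6 : (((W.filter (fun v => B < D v ∧ D v ≤ 2 ^ (n + 1) * B)).filter
          (fun v => ¬ D v ≤ 2 ^ n * B)).card : ℝ) ≤ M * 16 ^ (n + 1) := by
        refine le_trans ?_ (h (n + 1))
        have : ((W.filter (fun v => B < D v ∧ D v ≤ 2 ^ (n + 1) * B)).filter
          (fun v => ¬ D v ≤ 2 ^ n * B)).card ≤ (W.filter (fun v => D v ≤ 2 ^ (n + 1) * B)).card := by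
          apply card_le_card
          intro v hv
          rw [mem_filter, mem_filter] at hv
          rw [mem_filter]
          exact ⟨hv.1.1, hv.1.2.2⟩
        exact_mod_cast this
      refine (mul_le_mul_of_nonneg_right h6 (by positivity)).trans (le_of_eq ?_)
      have h7 : (16 : ℝ) ^ n = 2 ^ n * (2 ^ n) ^ 3 := by
        rw [← pow_succ', ← pow_mul, mul_comm n (3 + 1), pow_mul]
        norm_num
      rw [pow_succ, h7]
      field_simp
    have h9 : 16 * M / (B : ℝ) ^ 3 * 2 ^ (n + 1) = 2 * (16 * M / (B : ℝ) ^ 3 * 2 ^ n) := by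
      rw [pow_succ]
      ring
    rw [h9]
    linarith

private theorem smd_mn {x y w : Fin 5 → ℤ} {c k : ℤ} (h : ∀ i, y i = c * x i + k * w i) (i j : Fin 5) :
    mn x y i j = k * mn x w i j := by
  unfold mn
  rw [h i, h j]
  ring

private theorem smd_count {B : ℕ} {x m : Fin 5 → ℤ} (hB : 1 ≤ B) (hx : IsP B x) (hm : ∑ i, m i * x i = 1)
    (W : Finset (Fin 5 → ℤ)) (T : ℕ) (hW : ∀ w ∈ W, ∑ i, m i * w i = 0 ∧ dl x w ≤ T) :
    (W.card : ℝ) ≤ 2 * B * (2 * T / B + 1) ^ 4 := by
  classical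
  have hx1 : 0 < x 1 := lt_of_le_of_lt (Int.natCast_nonneg B) hx.lo
  have hB0 : (0 : ℝ) < B := by exact_mod_cast hB
  set φ : (Fin 5 → ℤ) → (Fin 5 → ℤ) := fun w i => w i - (w 1 / x 1) * x i with hφ
  have hmφ : ∀ w, ∑ i, m i * w i = 0 → ∑ i, m i * φ w i = -(w 1 / x 1) := by
    intro w hw
    have : ∀ i, m i * φ w i = m i * w i - (w 1 / x 1) * (m i * x i) := by
      intro i
      rw [hφ]
      ring
    rw [sum_congr rfl (fun i _ => this i), sum_sub_distrib, ← mul_sum, hw, hm]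
    ring
  have hinj : Set.InjOn φ W := by
    intro w hw v hv he
    have h1 := hmφ w (hW w hw).1
    have h2 := hmφ v (hW v hv).1
    rw [he, h2] at h1
    have h3 : w 1 / x 1 = v 1 / x 1 := by linarith
    funext i
    have h4 := congrFun he i
    simp only [hφ] at h4
    rw [h3] at h4
    linarith
  set J : Fin 5 → ℤ → Finset ℤ := fun i t => Icc (-((T - x i * t) / x 1)) ((x i * t + T) / x 1) with hJ
  have hJc : ∀ i t, ((J i t).card : ℝ) ≤ 2 * T / B + 1 := by
    intro i t
    have h1 : (J i t).card = ((x i * t + T) / x 1 + 1 - (-((T - x i * t) / x 1))).toNat := by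
      rw [hJ]
      exact Int.card_Icc _ _
    have h2 : ((x i * t + T) / x 1) * x 1 ≤ x i * t + T := Int.ediv_mul_le _ hx1.ne'
    have h3 : ((T - x i * t) / x 1) * x 1 ≤ T - x i * t := Int.ediv_mul_le _ hx1.ne'
    have h4 : (((J i t).card : ℤ) : ℝ) ≤ 2 * T / B + 1 := by
      have h5 : ((J i t).card : ℤ) ≤ 2 * T / x 1 + 1 ∨ (J i t).card = 0 := by
        by_cases h6 : (J i t).card = 0
        · exact Or.inr h6
        · left
          rw [h1] at h6 ⊢
          have h7 : 0 < (x i * t + T) / x 1 + 1 - (-((T - x i * t) / x 1)) := by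
            by_contra hcon
            exact h6 (Int.toNat_of_nonpos (not_lt.1 hcon))
          rw [Int.toNat_of_nonneg h7.le]
          have h8 : (x i * t + T) / x 1 + (T - x i * t) / x 1 ≤ 2 * T / x 1 := by
            rw [Int.le_ediv_iff_mul_le hx1]
            linarith
          linarith
      rcases h5 with h5 | h5
      · have h6 : (2 * (T : ℤ) / x 1) * x 1 ≤ 2 * T := Int.ediv_mul_le _ hx1.ne'
        have h7 : ((2 * (T : ℤ) / x 1 : ℤ) : ℝ) * (x 1 : ℝ) ≤ 2 * T := by exact_mod_cast h6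
        have h8 : 0 ≤ 2 * (T : ℤ) / x 1 := Int.ediv_nonneg (by positivity) hx1.le
        have h9 : (0 : ℝ) ≤ ((2 * (T : ℤ) / x 1 : ℤ) : ℝ) := by exact_mod_cast h8
        have h10 : (B : ℝ) ≤ x 1 := by exact_mod_cast hx.lo.le
        have h11 : ((2 * (T : ℤ) / x 1 : ℤ) : ℝ) ≤ 2 * T / B := by
          rw [le_div_iff₀ hB0]
          exact (mul_le_mul_of_nonneg_left h10 h9).trans h7
        have h12 : (((J i t).card : ℤ) : ℝ) ≤ ((2 * (T : ℤ) / x 1 + 1 : ℤ) : ℝ) := by exact_mod_cast h5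
        rw [Int.cast_add, Int.cast_one] at h12
        linarith
      · rw [h5]
        simp only [Nat.cast_zero, Int.cast_zero]
        positivity
    exact_mod_cast h4
  have hsub : W.image φ ⊆ (Ico (0 : ℤ) (x 1)).biUnion
      (fun t => Fintype.piFinset (fun i => if i = 1 then {t} else J i t)) := by
    intro v hv
    rw [mem_image] at hv
    obtain ⟨w, hw, rfl⟩ := hv
    rw [mem_biUnion]
    have h1 : φ w 1 = w 1 % x 1 := by
      simp only [hφ]
      have := Int.emod_add_mul_ediv (w 1) (x 1)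
      linarith
    refine ⟨φ w 1, ?_, ?_⟩
    · rw [mem_Ico, h1]
      exact ⟨Int.emod_nonneg _ hx1.ne', Int.emod_lt_of_pos _ hx1⟩
    · rw [Fintype.mem_piFinset]
      intro i
      by_cases hi : i = 1
      · rw [if_pos hi, mem_singleton, hi]
      · rw [if_neg hi]
        have h2 : |mn x w 1 i| ≤ (T : ℤ) := (le_dl x w 1 i).trans (by exact_mod_cast (hW w hw).2)
        have h3 : mn x w 1 i = x 1 * φ w i - x i * φ w 1 := by
          simp only [hφ]
          unfold mn
          ring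
        rw [h3, abs_le] at h2
        rw [hJ, mem_Icc]
        constructor
        · have : -(φ w i) ≤ (T - x i * φ w 1) / x 1 := by
            rw [Int.le_ediv_iff_mul_le hx1]
            linarith [h2.1]
          linarith
        · rw [Int.le_ediv_iff_mul_le hx1]
          linarith [h2.2]
  have h1 : (W.card : ℝ) ≤ ∑ t ∈ Ico (0 : ℤ) (x 1), (2 * (T : ℝ) / B + 1) ^ 4 := by
    have h2 : W.card ≤ ∑ t ∈ Ico (0 : ℤ) (x 1),
        (Fintype.piFinset (fun i => if i = 1 then {t} else J i t)).card := by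
      rw [← card_image_of_injOn hinj]
      exact (card_le_card hsub).trans card_biUnion_le
    have h3 : (W.card : ℝ) ≤ ∑ t ∈ Ico (0 : ℤ) (x 1),
        ((Fintype.piFinset (fun i => if i = 1 then {t} else J i t)).card : ℝ) := by exact_mod_cast h2
    refine h3.trans (sum_le_sum fun t _ => ?_)
    rw [Fintype.card_piFinset, Fin.prod_univ_five]
    have e0 : ((0 : Fin 5) = 1) = False := by decide
    have e2 : ((2 : Fin 5) = 1) = False := by decide
    have e3 : ((3 : Fin 5) = 1) = False := by decide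
    have e4 : ((4 : Fin 5) = 1) = False := by decide
    simp only [e0, e2, e3, e4, if_true, if_false, card_singleton, mul_one]
    push_cast
    have p0 : (0 : ℝ) ≤ 2 * T / B + 1 := by positivity
    have q0 := hJc 0 t
    have q2 := hJc 2 t
    have q3 := hJc 3 t
    have q4 := hJc 4 t
    calc ((J 0 t).card : ℝ) * (J 2 t).card * (J 3 t).card * (J 4 t).card
        ≤ (2 * T / B + 1) * (2 * T / B + 1) * (2 * T / B + 1) * (2 * T / B + 1) := by
          gcongr
      _ = _ := by ring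
  refine h1.trans ?_
  rw [sum_const, nsmul_eq_mul, Int.card_Ico, sub_zero]
  have h4 : (((x 1).toNat : ℕ) : ℝ) ≤ 2 * B := by
    have h5 : (((x 1).toNat : ℕ) : ℤ) = x 1 := Int.toNat_of_nonneg hx1.le
    have h6 : (((x 1).toNat : ℕ) : ℤ) ≤ 2 * B := by rw [h5]; exact hx.hi
    exact_mod_cast h6
  exact mul_le_mul_of_nonneg_right h4 (by positivity)

open scoped Classical in
theorem smd : ∃ C : ℝ, 0 < C ∧ ∀ (B : ℕ) (lam Δ : ℝ), 1 ≤ B → 0 < lam → lam ≤ 1 → 0 ≤ Δ →
    ∀ x ∈ XS lam B, ∑ y ∈ ((XS lam B).erase x).filter (fun y => (dl x y : ℝ) ≤ Δ * gk x y),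
      ((gk x y : ℝ) / dl x y) ^ 2 ≤ C * (1 / lam ^ 3 + Δ / B) := by
  refine ⟨165888, by norm_num, ?_⟩
  intro B lam Δ hB h0 hl hΔ x hx
  have hxP : IsP B x := (mem_XS.1 hx).1
  have hB0 : (0 : ℝ) < B := by exact_mod_cast hB
  have hx1 : 0 < x 1 := lt_of_le_of_lt (Int.natCast_nonneg B) hxP.lo
  have hx1B : (B : ℝ) ≤ x 1 := by exact_mod_cast hxP.lo.le
  obtain ⟨m, hm⟩ := hxP.prim
  have hex : ∀ y : Fin 5 → ℤ, ∃ (c : ℤ) (w : Fin 5 → ℤ), (∀ i, y i = c * x i + gk x y * w i) ∧
      ∑ i, m i * w i = 0 := by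
    intro y
    obtain ⟨c, w, hw⟩ := scal hxP.prim y
    refine ⟨c + gk x y * ∑ i, m i * w i, fun i => w i - (∑ j, m j * w j) * x i, fun i => ?_, ?_⟩
    · rw [hw i]
      ring
    · have : ∀ i, m i * (w i - (∑ j, m j * w j) * x i) = m i * w i - (∑ j, m j * w j) * (m i * x i) := by
        intro i
        ring
      rw [sum_congr rfl (fun i _ => this i), sum_sub_distrib, ← mul_sum, hm]
      ring
  choose c w hw hmw using hex
  set S := ((XS lam B).erase x).filter (fun y => (dl x y : ℝ) ≤ Δ * gk x y) with hS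
  have hSm : ∀ y ∈ S, y ∈ XS lam B ∧ (∃ i j, mn x y i j ≠ 0) ∧ (dl x y : ℝ) ≤ Δ * gk x y := by
    intro y hy
    rw [hS, mem_filter, mem_erase] at hy
    exact ⟨hy.1.2, xs_ne hx hy.1.2 (Ne.symm hy.1.1), hy.2⟩
  have hD : ∀ y ∈ S, dl x y = gk x y * dl x (w y) := by
    intro y hy
    obtain ⟨h1, h2, h3⟩ := hSm y hy
    have hmn : ∀ i j, mn x y i j = gk x y * mn x (w y) i j := fun i j => smd_mn (hw y) i j
    apply le_antisymm
    · apply dl_le
      intro i j
      rw [hmn, abs_mul, Nat.abs_cast]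
      push_cast
      exact mul_le_mul_of_nonneg_left (le_dl x (w y) i j) (Int.natCast_nonneg _)
    · obtain ⟨i, j, hij⟩ := h2
      have h4 : ∃ i j, mn x (w y) i j ≠ 0 := ⟨i, j, fun e => hij (by rw [hmn, e, mul_zero])⟩
      obtain ⟨i', j', h5⟩ := dl_att h4
      have h6 := le_dl x y i' j'
      rw [hmn, abs_mul, Nat.abs_cast, h5] at h6
      exact_mod_cast h6
  have hg0 : ∀ y ∈ S, 0 < gk x y := fun y hy => gk_pos (hSm y hy).2.1
  have hlam : ∀ y ∈ S, lam * B ≤ dl x (w y) := by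
    intro y hy
    obtain ⟨h1, h2, h3⟩ := hSm y hy
    have h4 := xs_sep h0 hl hx h2
    rw [hD y hy] at h4
    push_cast at h4
    have h5 : (0 : ℝ) < gk x y := by exact_mod_cast hg0 y hy
    have h6 : lam * x 1 ≤ dl x (w y) := by
      by_contra hcon
      have h7 := mul_lt_mul_of_pos_right (not_le.1 hcon) h5
      linarith
    exact (mul_le_mul_of_nonneg_left hx1B h0.le).trans h6
  have hΔw : ∀ y ∈ S, (dl x (w y) : ℝ) ≤ Δ := by
    intro y hy
    obtain ⟨h1, h2, h3⟩ := hSm y hy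
    rw [hD y hy] at h3
    push_cast at h3
    have h5 : (0 : ℝ) < gk x y := by exact_mod_cast hg0 y hy
    by_contra hcon
    have h7 := mul_lt_mul_of_pos_right (not_le.1 hcon) h5
    linarith
  have hDpos : ∀ y ∈ S, (0 : ℝ) < dl x (w y) := fun y hy => (mul_pos h0 hB0).trans_le (hlam y hy)
  have hsum1 : ∑ y ∈ S, ((gk x y : ℝ) / dl x y) ^ 2 = ∑ y ∈ S, 1 / (dl x (w y) : ℝ) ^ 2 := by
    refine sum_congr rfl fun y hy => ?_
    have h1 := hDpos y hy
    have h2 : (0 : ℝ) < gk x y := by exact_mod_cast hg0 y hy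
    rw [hD y hy]
    push_cast
    field_simp
  rw [hsum1, sum_comp (fun v => 1 / (dl x v : ℝ) ^ 2) w]
  have hfib : ∀ v ∈ S.image w, ((S.filter (fun y => w y = v)).card : ℝ) ≤ 32 * (B : ℝ) ^ 2 / dl x v := by
    intro v hv
    rw [mem_image] at hv
    obtain ⟨y0, hy0, rfl⟩ := hv
    have hDp := hDpos y0 hy0
    have hDn : 0 < dl x (w y0) := by exact_mod_cast hDp
    have h1 : (S.filter (fun y => w y = w y0)).card ≤ (Icc 1 (32 * B ^ 2 / dl x (w y0))).card := by
      apply card_le_card_of_injOn (fun y => gk x y)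
      · intro y hy
        have hy' := mem_filter.1 (mem_coe.1 hy)
        have h2 := hD y hy'.1
        rw [hy'.2] at h2
        have h3 := dl_le32 hx (hSm y hy'.1).1
        refine mem_coe.2 (mem_Icc.2 ⟨hg0 y hy'.1, ?_⟩)
        rw [Nat.le_div_iff_mul_le hDn, ← h2]
        exact h3
      · intro y hy y' hy' he
        have hy1 := mem_filter.1 (mem_coe.1 hy)
        have hy2 := mem_filter.1 (mem_coe.1 hy')
        have he' : gk x y = gk x y' := he
        have hP1 := (mem_XS.1 (hSm y hy1.1).1).1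
        have hP2 := (mem_XS.1 (hSm y' hy2.1).1).1
        have e1 := hw y
        have e2 := hw y'
        rw [hy1.2] at e1
        rw [hy2.2, ← he'] at e2
        have h4 : y 1 - y' 1 = (c y - c y') * x 1 := by
          rw [e1 1, e2 1]
          ring
        have h5 : c y = c y' := by
          by_contra hne
          have l1 := hP1.lo
          have l2 := hP2.lo
          have u1 := hP1.hi
          have u2 := hP2.hi
          have l3 := hxP.lo
          rcases lt_or_gt_of_ne hne with hlt | hlt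
          · have h6 : c y - c y' ≤ -1 := by linarith
            have h7 : (c y - c y') * x 1 ≤ -1 * x 1 := mul_le_mul_of_nonneg_right h6 hx1.le
            linarith
          · have h6 : 1 ≤ c y - c y' := by linarith
            have h7 : 1 * x 1 ≤ (c y - c y') * x 1 := mul_le_mul_of_nonneg_right h6 hx1.le
            linarith
        funext i
        rw [e1 i, e2 i, h5]
    rw [Nat.card_Icc, Nat.add_sub_cancel] at h1
    have h8 : ((S.filter (fun y => w y = w y0)).card : ℝ) ≤ ((32 * B ^ 2 / dl x (w y0) : ℕ) : ℝ) := by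
      exact_mod_cast h1
    refine h8.trans (Nat.cast_div_le.trans (le_of_eq ?_))
    push_cast
    rfl
  have hW0 : ∀ v ∈ S.image w, ∑ i, m i * v i = 0 ∧ lam * B ≤ dl x v ∧ (dl x v : ℝ) ≤ Δ := by
    intro v hv
    rw [mem_image] at hv
    obtain ⟨y, hy, rfl⟩ := hv
    exact ⟨hmw y, hlam y hy, hΔw y hy⟩
  have hcnt : ∀ T : ℕ, (((S.image w).filter (fun v => dl x v ≤ T)).card : ℝ) ≤ 2 * B * (2 * T / B + 1) ^ 4 := by
    intro T
    apply smd_count hB hxP hm
    intro v hv
    rw [mem_filter] at hv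
    exact ⟨(hW0 v hv.1).1, hv.2⟩
  have hstep : ∑ v ∈ S.image w, (S.filter (fun y => w y = v)).card • (1 / (dl x v : ℝ) ^ 2) ≤
      32 * (B : ℝ) ^ 2 * ∑ v ∈ S.image w, 1 / (dl x v : ℝ) ^ 3 := by
    rw [mul_sum]
    refine sum_le_sum fun v hv => ?_
    rw [nsmul_eq_mul]
    have h1 : (0 : ℝ) < dl x v := (mul_pos h0 hB0).trans_le (hW0 v hv).2.1
    refine (mul_le_mul_of_nonneg_right (hfib v hv) (by positivity)).trans (le_of_eq ?_)
    field_simp
  refine hstep.trans ?_
  rw [← sum_filter_add_sum_filter_not (S.image w) (fun v => dl x v ≤ B)]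
  have hp1 : ∑ v ∈ (S.image w).filter (fun v => dl x v ≤ B), 1 / (dl x v : ℝ) ^ 3 ≤
      162 * B * (1 / (lam * B) ^ 3) := by
    have h1 : ∀ v ∈ (S.image w).filter (fun v => dl x v ≤ B), 1 / (dl x v : ℝ) ^ 3 ≤ 1 / (lam * B) ^ 3 := by
      intro v hv
      rw [mem_filter] at hv
      apply one_div_le_one_div_of_le (by positivity)
      exact pow_le_pow_left₀ (by positivity) (hW0 v hv.1).2.1 3
    refine (sum_le_card_nsmul _ _ _ h1).trans ?_
    rw [nsmul_eq_mul]
    refine mul_le_mul_of_nonneg_right ((hcnt B).trans (le_of_eq ?_)) (by positivity)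
    field_simp
    ring
  have hp2 : ∑ v ∈ (S.image w).filter (fun v => ¬ dl x v ≤ B), 1 / (dl x v : ℝ) ^ 3 ≤
      16 * (162 * B) / B ^ 3 * (2 * Δ / B) := by
    by_cases hΔB : Δ < B
    · have he : (S.image w).filter (fun v => ¬ dl x v ≤ B) = ∅ := by
        apply filter_eq_empty_iff.2
        intro v hv hcon
        apply hcon
        have h1 := (hW0 v hv).2.2
        have h2 : (dl x v : ℝ) ≤ B := by linarith
        exact_mod_cast h2
      rw [he, sum_empty]
      positivity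
    · have hΔB' : (B : ℝ) ≤ Δ := not_lt.1 hΔB
      have h1 : 1 ≤ Δ / B := by
        rw [le_div_iff₀ hB0, one_mul]
        exact hΔB'
      obtain ⟨n, hn1, hn2⟩ := exists_nat_pow_near h1 (one_lt_two)
      have h2 := smd_dyad (S.image w) (fun v => dl x v) B hB (162 * B) (by positivity) (by
        intro i
        refine (hcnt (2 ^ i * B)).trans ?_
        push_cast
        have h3 : 2 * ((2 : ℝ) ^ i * B) / B + 1 ≤ 3 * 2 ^ i := by
          have h4 : (1 : ℝ) ≤ 2 ^ i := one_le_pow₀ (by norm_num)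
          have h5 : 2 * ((2 : ℝ) ^ i * B) / B = 2 * 2 ^ i := by
            field_simp
          rw [h5]
          linarith
        have h6 : (2 * ((2 : ℝ) ^ i * B) / B + 1) ^ 4 ≤ (3 * 2 ^ i) ^ 4 :=
          pow_le_pow_left₀ (by positivity) h3 4
        refine (mul_le_mul_of_nonneg_left h6 (by positivity)).trans (le_of_eq ?_)
        have h7 : (16 : ℝ) ^ i = (2 ^ i) ^ 4 := by
          rw [← pow_mul, mul_comm i 4, pow_mul]
          norm_num
        rw [h7]
        ring) (n + 1)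
      refine le_trans ?_ (h2.trans ?_)
      · apply sum_le_sum_of_subset_of_nonneg
        · intro v hv
          rw [mem_filter] at hv
          rw [mem_filter]
          refine ⟨hv.1, not_le.1 hv.2, ?_⟩
          have h3 := (hW0 v hv.1).2.2
          have h4 : Δ < 2 ^ (n + 1) * B := by
            rw [div_lt_iff₀ hB0] at hn2
            exact hn2
          have h5 : (dl x v : ℝ) ≤ ((2 ^ (n + 1) * B : ℕ) : ℝ) := by
            push_cast
            linarith
          exact_mod_cast h5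
        · intro i _ _
          positivity
      · apply mul_le_mul_of_nonneg_left _ (by positivity)
        rw [pow_succ, mul_comm, mul_div_assoc]
        linarith
  have hfin : 32 * (B : ℝ) ^ 2 * (162 * B * (1 / (lam * B) ^ 3) + 16 * (162 * B) / B ^ 3 * (2 * Δ / B)) =
      5184 / lam ^ 3 + 165888 * (Δ / B) := by
    field_simp
    ring
  calc 32 * (B : ℝ) ^ 2 * (∑ v ∈ (S.image w).filter (fun v => dl x v ≤ B), 1 / (dl x v : ℝ) ^ 3 +
        ∑ v ∈ (S.image w).filter (fun v => ¬ dl x v ≤ B), 1 / (dl x v : ℝ) ^ 3)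
      ≤ 32 * (B : ℝ) ^ 2 * (162 * B * (1 / (lam * B) ^ 3) + 16 * (162 * B) / B ^ 3 * (2 * Δ / B)) :=
        mul_le_mul_of_nonneg_left (add_le_add hp1 hp2) (by positivity)
    _ = 5184 / lam ^ 3 + 165888 * (Δ / B) := hfin
    _ ≤ 165888 * (1 / lam ^ 3 + Δ / B) := by
        have h1 : 0 < 1 / lam ^ 3 := by positivity
        have h2 : 5184 / lam ^ 3 = 5184 * (1 / lam ^ 3) := by ring
        rw [h2]
        linarith

end Pool.Agent.H7.PQ
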