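import Pool.Agent.H7.PQ.Defs

/-!
# [H7 PQ UWR] pairs of almost parallel vectors, 110-170 lines

`u i = m i + c i`, `w i = n i + d i`. A real interval of length `l` contains at most `l + 1` integers.
Case 1: some `|u i| ≥ 1`. Let `i` be an index with `|u i|` maximal (sum over the 4 possible `i`). Given `m i` (at most `2A + 1` values) with `1 ≤ |u i|`: each of the three other `m j` has `|u j| ≤ |u i|`: at most `2 |u i| + 1 ≤ 3 |u i|` values; `n i`: `2A + 1` values; for `j ≠ i`: `|u i w j - u j w i| ≤ K η A^2`, so `w j` lies in an interval of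
length `2 K η A^2/|u i|`: at most `2 K η A^2/|u i| + 1` values of `n j`. The product of the three factors `3 |u i| (2 K η A^2/|u i| + 1) = 6 K η A^2 + 3 |u i|`, and `|u i| ≤ A + K A ≤ (1 + K) η A^2` (`η A ≥ 1`), is at most `((9 K + 3) η A^2)^3`.
So case 1 gives at most `4 (2A+1)^2 ((9K+3) η A^2)^3 ≤ C η^3 (2A+1)^8`.
Case 2: all `|u i| < 1`: at most `2^4` (crude `3^4`) vectors `m`, `(2A+1)^4` vectors `n`; `η^3 (2A+1)^8 ≥ η^3 A^3 (2A+1)^5 ≥ (2A+1)^4`.
Formal suggestion: bound the number of `(m, n)` with pivot `i` by `∑_{m i} ∑_{(m j)_{j ≠ i}} ∑_{n i} ∏_{j ≠ i} #{n j}`, e.g. by a general lemma on `Fintype.piFinset` or by fibres; `Fin.insertNthEquiv` or `Function.update`.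
-/

set_option autoImplicit false

namespace Pool.Agent.H7.PQ

open Finset Pool.Agent.H7.HP

private theorem uwr_icc (a b : ℝ) (h : a ≤ b) :
    ((Finset.Icc ⌈a⌉ ⌊b⌋).card : ℝ) ≤ b - a + 1 := by
  rw [Int.card_Icc]
  rcases le_total (⌊b⌋ + 1 - ⌈a⌉) 0 with h1 | h1
  · rw [Int.toNat_of_nonpos h1, Nat.cast_zero]
    linarith
  · have h2 : (((⌊b⌋ + 1 - ⌈a⌉).toNat : ℤ) : ℝ) = ((⌊b⌋ + 1 - ⌈a⌉ : ℤ) : ℝ) := by
      rw [Int.toNat_of_nonneg h1]
    have h3 : (((⌊b⌋ + 1 - ⌈a⌉).toNat : ℕ) : ℝ) = ((⌊b⌋ + 1 - ⌈a⌉ : ℤ) : ℝ) := by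
      rw [← h2]
      norm_cast
    rw [h3]
    push_cast
    linarith [Int.floor_le b, Int.le_ceil a]

open scoped Classical in
private theorem uwr_fib (i : Fin 4) (S : Finset (Fin 4 → ℤ)) (T : Finset ℤ) (g : ℤ → ℝ)
    (hg : ∀ t, 0 ≤ g t) (b : ℤ → ℝ) (_hb : ∀ t, 0 ≤ b t) (R : ℤ → Fin 4 → Finset ℤ)
    (hR : ∀ t ∈ T, ∀ j, ((R t j).card : ℝ) ≤ b t)
    (hS : ∀ f ∈ S, f i ∈ T ∧ ∀ j, j ≠ i → f j ∈ R (f i) j) :
    ∑ f ∈ S, g (f i) ≤ ∑ t ∈ T, g t * (b t) ^ 3 := by
  have h1 : ∑ f ∈ S, g (f i) = ∑ t ∈ T, ∑ f ∈ S.filter (fun f => f i = t), g (f i) :=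
    (sum_fiberwise_of_maps_to (fun f hf => (hS f hf).1) _).symm
  rw [h1]
  refine sum_le_sum fun t ht => ?_
  have h2 : ∑ f ∈ S.filter (fun f => f i = t), g (f i) =
      ((S.filter (fun f => f i = t)).card : ℝ) * g t := by
    rw [sum_congr rfl (fun f hf => by rw [(mem_filter.1 hf).2] : ∀ f ∈ S.filter
      (fun f => f i = t), g (f i) = g t), sum_const, nsmul_eq_mul]
  rw [h2, mul_comm]
  refine mul_le_mul_of_nonneg_left ?_ (hg t)
  have h3 : S.filter (fun f => f i = t) ⊆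
      Fintype.piFinset (fun j => if j = i then {t} else R t j) := by
    intro f hf
    obtain ⟨hf1, hf2⟩ := mem_filter.1 hf
    rw [Fintype.mem_piFinset]
    intro j
    by_cases hj : j = i
    · rw [if_pos hj, mem_singleton, hj, hf2]
    · rw [if_neg hj, ← hf2]
      exact (hS f hf1).2 j hj
  have h4 : ((S.filter (fun f => f i = t)).card : ℝ) ≤
      ∏ j, (((if j = i then {t} else R t j : Finset ℤ)).card : ℝ) := by
    have h5 := card_le_card h3
    rw [Fintype.card_piFinset] at h5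
    exact_mod_cast h5
  refine h4.trans ?_
  calc ∏ j, (((if j = i then {t} else R t j : Finset ℤ)).card : ℝ)
      ≤ ∏ j, (if j = i then 1 else b t) := by
        refine prod_le_prod (fun j _ => Nat.cast_nonneg _) fun j _ => ?_
        split_ifs with hj
        · simp
        · exact hR t ht j
    _ = b t ^ 3 := by
        fin_cases i <;> simp [Fin.prod_univ_four] <;> ring

open scoped Classical in
theorem uwr (K : ℝ) (hK : 1 ≤ K) : ∃ C : ℝ, 0 < C ∧ ∀ (η : ℝ) (A : ℕ), 0 < η → η ≤ 1 →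
    1 ≤ η * A → ∀ c d : Fin 4 → ℝ, (∀ i, |c i| ≤ K * A) →
      (((Fintype.piFinset fun _ : Fin 4 => Icc (-(A : ℤ)) A) ×ˢ
        (Fintype.piFinset fun _ : Fin 4 => Icc (-(A : ℤ)) A)).filter fun q =>
          ∀ i j, |((q.1 i : ℝ) + c i) * (q.2 j + d j) - (q.1 j + c j) * (q.2 i + d i)| ≤
            K * η * A ^ 2).card ≤ C * η ^ 3 * (2 * A + 1) ^ 8 := by
  refine ⟨4 * (9 * K + 3) ^ 3 + 81, by positivity, ?_⟩
  intro η A hη hη1 hηA c d hc
  set T : Finset ℤ := Icc (-(A : ℤ)) A with hT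
  set BX : Finset (Fin 4 → ℤ) := Fintype.piFinset fun _ : Fin 4 => T with hBX
  set L : ℝ := K * η * A ^ 2 with hL
  have hA0 : (0 : ℝ) ≤ A := Nat.cast_nonneg A
  have hL0 : 0 ≤ L := by positivity
  set F := (BX ×ˢ BX).filter fun q =>
    ∀ i j, |((q.1 i : ℝ) + c i) * (q.2 j + d j) - (q.1 j + c j) * (q.2 i + d i)| ≤ L with hF
  have hTc : (T.card : ℝ) = 2 * A + 1 := by
    rw [hT, Int.card_Icc]
    have h1 : ((A : ℤ) + 1 - -(A : ℤ)).toNat = 2 * A + 1 := by omega
    rw [h1]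
    push_cast
    ring
  -- the cases
  let S : Fin 4 → Finset ((Fin 4 → ℤ) × (Fin 4 → ℤ)) := fun i => F.filter fun q =>
    1 ≤ |(q.1 i : ℝ) + c i| ∧ ∀ j, |(q.1 j : ℝ) + c j| ≤ |(q.1 i : ℝ) + c i|
  let S0 : Finset ((Fin 4 → ℤ) × (Fin 4 → ℤ)) := F.filter fun q =>
    ∀ j, |(q.1 j : ℝ) + c j| ≤ 1
  have hcov : F ⊆ (univ.biUnion S) ∪ S0 := by
    intro q hq
    obtain ⟨i, _, hi⟩ := exists_max_image (univ : Finset (Fin 4))
      (fun j => |(q.1 j : ℝ) + c j|) ⟨0, mem_univ _⟩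
    by_cases h1 : 1 ≤ |(q.1 i : ℝ) + c i|
    · exact mem_union_left _ (mem_biUnion.2 ⟨i, mem_univ _, mem_filter.2
        ⟨hq, h1, fun j => hi j (mem_univ _)⟩⟩)
    · exact mem_union_right _ (mem_filter.2 ⟨hq, fun j =>
        (hi j (mem_univ _)).trans (not_le.1 h1).le⟩)
  have hSi : ∀ i, ((S i).card : ℝ) ≤ (9 * K + 3) ^ 3 * η ^ 3 * (2 * A + 1) ^ 8 := by
    intro i
    let M : Finset (Fin 4 → ℤ) := BX.filter fun m =>
      1 ≤ |(m i : ℝ) + c i| ∧ ∀ j, |(m j : ℝ) + c j| ≤ |(m i : ℝ) + c i|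
    have h1 : (S i).card = ∑ m ∈ M, ((S i).filter fun q => q.1 = m).card := by
      refine card_eq_sum_card_fiberwise fun q hq => ?_
      obtain ⟨h2, h3, h4⟩ := mem_filter.1 (mem_coe.1 hq)
      obtain ⟨h5, _⟩ := mem_filter.1 h2
      exact mem_coe.2 (mem_filter.2 ⟨(mem_product.1 h5).1, h3, h4⟩)
    have h2 : ∀ m ∈ M, (((S i).filter fun q => q.1 = m).card : ℝ) ≤
        (2 * A + 1) * (2 * L / |(m i : ℝ) + c i| + 1) ^ 3 := by
      intro m hm
      obtain ⟨hm1, hm2, hm3⟩ := mem_filter.1 hm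
      have hu : 0 < |(m i : ℝ) + c i| := by linarith
      have hu0 : (m i : ℝ) + c i ≠ 0 := abs_pos.1 hu
      let Nn : Finset (Fin 4 → ℤ) := BX.filter fun n =>
        ∀ j, |((m i : ℝ) + c i) * (n j + d j) - (m j + c j) * (n i + d i)| ≤ L
      have h3 : ((S i).filter fun q => q.1 = m).card ≤ Nn.card := by
        refine card_le_card_of_injOn Prod.snd ?_ ?_
        · intro q hq
          obtain ⟨h4, h5⟩ := mem_filter.1 (mem_coe.1 hq)
          obtain ⟨h6, _⟩ := mem_filter.1 h4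
          obtain ⟨h7, h8⟩ := mem_filter.1 h6
          refine mem_coe.2 (mem_filter.2 ⟨(mem_product.1 h7).2, fun j => ?_⟩)
          rw [← h5]
          exact h8 i j
        · intro q hq q' hq' he
          exact Prod.ext ((mem_filter.1 (mem_coe.1 hq)).2.trans
            (mem_filter.1 (mem_coe.1 hq')).2.symm) he
      have h4 := uwr_fib i Nn T (fun _ => 1) (fun _ => zero_le_one)
        (fun _ => 2 * L / |(m i : ℝ) + c i| + 1) (fun _ => by positivity)
        (fun t j => Icc ⌈(((m j : ℝ) + c j) * (t + d i) / (m i + c i) - d j) -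
            L / |(m i : ℝ) + c i|⌉
          ⌊(((m j : ℝ) + c j) * (t + d i) / (m i + c i) - d j) + L / |(m i : ℝ) + c i|⌋)
        (fun t _ j => by
          have h5 : 0 ≤ L / |(m i : ℝ) + c i| := by positivity
          refine (uwr_icc _ _ (by linarith)).trans (le_of_eq ?_)
          ring)
        (fun n hn => by
          obtain ⟨h6, h7⟩ := mem_filter.1 hn
          refine ⟨Fintype.mem_piFinset.1 h6 i, fun j _ => ?_⟩
          have h8 := h7 j
          have h9 : |((n j : ℝ) + d j) - ((m j : ℝ) + c j) * (n i + d i) / (m i + c i)| ≤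
              L / |(m i : ℝ) + c i| := by
            rw [le_div_iff₀ hu, ← abs_mul]
            have h10 : (((n j : ℝ) + d j) - ((m j : ℝ) + c j) * (n i + d i) / (m i + c i)) *
                ((m i : ℝ) + c i) =
                ((m i : ℝ) + c i) * (n j + d j) - (m j + c j) * (n i + d i) := by
              field_simp
            rw [h10]
            exact h8
          rw [abs_le] at h9
          rw [mem_Icc, Int.ceil_le, Int.le_floor]
          constructor <;> linarith [h9.1, h9.2])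
      rw [sum_const, sum_const, nsmul_eq_mul, nsmul_eq_mul, mul_one, hTc, one_mul] at h4
      exact (Nat.cast_le.2 h3).trans h4
    have h3 : ((S i).card : ℝ) ≤ ∑ m ∈ M,
        (2 * A + 1) * (2 * L / |(m i : ℝ) + c i| + 1) ^ 3 := by
      rw [h1]
      push_cast
      exact sum_le_sum h2
    have h4 := uwr_fib i M (T.filter fun t : ℤ => 1 ≤ |(t : ℝ) + c i|)
      (fun t => (2 * A + 1) * (2 * L / |(t : ℝ) + c i| + 1) ^ 3) (fun t => by positivity)
      (fun t => 2 * |(t : ℝ) + c i| + 1) (fun t => by positivity)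
      (fun t j => Icc ⌈-|(t : ℝ) + c i| - c j⌉ ⌊|(t : ℝ) + c i| - c j⌋)
      (fun t _ j => by
        have h5 : 0 ≤ |(t : ℝ) + c i| := abs_nonneg _
        refine (uwr_icc _ _ (by linarith)).trans (le_of_eq ?_)
        ring)
      (fun m hm => by
        obtain ⟨hm1, hm2, hm3⟩ := mem_filter.1 hm
        refine ⟨mem_filter.2 ⟨Fintype.mem_piFinset.1 hm1 i, hm2⟩, fun j _ => ?_⟩
        have h5 := hm3 j
        rw [abs_le] at h5
        rw [mem_Icc, Int.ceil_le, Int.le_floor]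
        constructor <;> linarith [h5.1, h5.2])
    refine h3.trans (h4.trans ?_)
    have h5 : ∀ t ∈ T.filter (fun t : ℤ => 1 ≤ |(t : ℝ) + c i|),
        (2 * A + 1) * (2 * L / |(t : ℝ) + c i| + 1) ^ 3 * (2 * |(t : ℝ) + c i| + 1) ^ 3 ≤
        (2 * A + 1) * ((9 * K + 3) * η * A ^ 2) ^ 3 := by
      intro t ht
      obtain ⟨ht1, ht2⟩ := mem_filter.1 ht
      rw [hT, mem_Icc] at ht1
      set s := |(t : ℝ) + c i| with hs
      have hs0 : 0 < s := by linarith
      have hsA : s ≤ (1 + K) * A := by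
        have h6 : |(t : ℝ)| ≤ A := by
          rw [abs_le]
          constructor
          · have := ht1.1
            have h7 : ((-(A : ℤ) : ℤ) : ℝ) ≤ t := by exact_mod_cast this
            push_cast at h7
            exact h7
          · exact_mod_cast ht1.2
        calc s ≤ |(t : ℝ)| + |c i| := abs_add_le _ _
          _ ≤ A + K * A := add_le_add h6 (hc i)
          _ = (1 + K) * A := by ring
      have hA1 : (A : ℝ) ≤ η * A ^ 2 := by nlinarith
      have h8 : (2 * L / s + 1) * (2 * s + 1) ≤ (9 * K + 3) * η * A ^ 2 := by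
        calc (2 * L / s + 1) * (2 * s + 1) ≤ (2 * L / s + 1) * (3 * s) := by
              have : 0 ≤ 2 * L / s + 1 := by positivity
              gcongr
              linarith
          _ = 6 * L + 3 * s := by field_simp; ring
          _ ≤ 6 * L + 3 * ((1 + K) * (η * A ^ 2)) := by
              have h9 : (1 + K) * (A : ℝ) ≤ (1 + K) * (η * A ^ 2) := by gcongr
              linarith
          _ = (9 * K + 3) * η * A ^ 2 := by rw [hL]; ring
      calc (2 * (A : ℝ) + 1) * (2 * L / s + 1) ^ 3 * (2 * s + 1) ^ 3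
          = (2 * A + 1) * ((2 * L / s + 1) * (2 * s + 1)) ^ 3 := by ring
        _ ≤ (2 * A + 1) * ((9 * K + 3) * η * A ^ 2) ^ 3 := by gcongr
    refine (sum_le_sum h5).trans ?_
    rw [sum_const, nsmul_eq_mul]
    have h6 : ((T.filter fun t : ℤ => 1 ≤ |(t : ℝ) + c i|).card : ℝ) ≤ 2 * A + 1 := by
      rw [← hTc]
      exact_mod_cast card_filter_le _ _
    have hAle : (A : ℝ) ≤ 2 * A + 1 := by linarith
    calc ((T.filter fun t : ℤ => 1 ≤ |(t : ℝ) + c i|).card : ℝ) *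
          ((2 * A + 1) * ((9 * K + 3) * η * A ^ 2) ^ 3)
        ≤ (2 * A + 1) * ((2 * A + 1) * ((9 * K + 3) * η * (2 * A + 1) ^ 2) ^ 3) := by
          gcongr
      _ = (9 * K + 3) ^ 3 * η ^ 3 * (2 * A + 1) ^ 8 := by ring
  have hS0 : (S0.card : ℝ) ≤ 81 * η ^ 3 * (2 * A + 1) ^ 8 := by
    have h1 : S0 ⊆ (Fintype.piFinset fun j : Fin 4 => Icc ⌈-1 - c j⌉ ⌊1 - c j⌋) ×ˢ BX := by
      intro q hq
      obtain ⟨h2, h3⟩ := mem_filter.1 hq
      obtain ⟨h4, _⟩ := mem_filter.1 h2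
      refine mem_product.2 ⟨Fintype.mem_piFinset.2 fun j => ?_, (mem_product.1 h4).2⟩
      have h5 := h3 j
      rw [abs_le] at h5
      rw [mem_Icc, Int.ceil_le, Int.le_floor]
      constructor <;> linarith [h5.1, h5.2]
    have h2 := card_le_card h1
    rw [card_product, Fintype.card_piFinset, hBX, Fintype.card_piFinset] at h2
    have h3 : (S0.card : ℝ) ≤ (∏ j : Fin 4, ((Icc ⌈-1 - c j⌉ ⌊1 - c j⌋).card : ℝ)) *
        ∏ _j : Fin 4, (T.card : ℝ) := by exact_mod_cast h2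
    have h4 : (∏ j : Fin 4, ((Icc ⌈-1 - c j⌉ ⌊1 - c j⌋).card : ℝ)) ≤ ∏ _j : Fin 4, (3 : ℝ) := by
      refine prod_le_prod (fun j _ => Nat.cast_nonneg _) fun j _ => ?_
      refine (uwr_icc _ _ (by linarith)).trans (le_of_eq ?_)
      ring
    rw [prod_const, card_univ, Fintype.card_fin] at h4
    rw [prod_const, card_univ, Fintype.card_fin, hTc] at h3
    have h5 : (1 : ℝ) ≤ η ^ 3 * (2 * A + 1) ^ 4 := by
      have h6 : (1 : ℝ) ≤ η * (2 * A + 1) := by nlinarith
      have h7 : (1 : ℝ) ≤ (η * (2 * A + 1)) ^ 3 := one_le_pow₀ h6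
      have h8 : (1 : ℝ) ≤ 2 * A + 1 := by linarith
      calc (1 : ℝ) ≤ (η * (2 * A + 1)) ^ 3 * (2 * A + 1) := by nlinarith
        _ = η ^ 3 * (2 * A + 1) ^ 4 := by ring
    calc (S0.card : ℝ) ≤ _ := h3
      _ ≤ 3 ^ 4 * (2 * (A : ℝ) + 1) ^ 4 := by gcongr
      _ ≤ 3 ^ 4 * (2 * (A : ℝ) + 1) ^ 4 * (η ^ 3 * (2 * A + 1) ^ 4) :=
          le_mul_of_one_le_right (by positivity) h5
      _ = 81 * η ^ 3 * (2 * A + 1) ^ 8 := by ring
  have hfin : (F.card : ℝ) ≤ ∑ i, ((S i).card : ℝ) + S0.card := by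
    have h1 := (card_le_card hcov).trans (card_union_le _ _)
    have h2 : (univ.biUnion S).card ≤ ∑ i, (S i).card := card_biUnion_le
    have h3 : F.card ≤ ∑ i, (S i).card + S0.card := by omega
    exact_mod_cast h3
  calc (F.card : ℝ) ≤ _ := hfin
    _ ≤ ∑ _i : Fin 4, (9 * K + 3) ^ 3 * η ^ 3 * (2 * A + 1) ^ 8 +
        81 * η ^ 3 * (2 * A + 1) ^ 8 := add_le_add (sum_le_sum fun i _ => hSi i) hS0
    _ = (4 * (9 * K + 3) ^ 3 + 81) * η ^ 3 * (2 * A + 1) ^ 8 := by
        rw [sum_const, card_univ, Fintype.card_fin, nsmul_eq_mul]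
        push_cast
        ring

end Pool.Agent.H7.PQ
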