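import Pool.Agent.H7.PQ.Cn2
import Pool.Agent.H7.HP.Var

set_option autoImplicit false

/-!
# [H7 PQ VR2] the variance for pairs of forms, 180-260 lines (an adaptation of HP/Var.lean)

Copy the private lemmas on `phV`, `iV` from `HP/Var.lean` (`Φ = phV A`, `iV α x g` the indicator of `qv g x = α`). `3A`-boxes as there.
`N α β = ∑_{f ∈ bf 5 (3A)} Φ f * (iV α x f * iV β y f)` (for a fixed pair `x, y`). `rr S f g J J' = ∑_{x ∈ S} iV J x f * iV J' x g`.
`∑_{f,g ∈ bf 5 A} (rr 0 0 - rr J J')^2 ≤ ∑_{f,g ∈ bf 5 (3A)} Φ f Φ g (..)^2 = ∑_{x,y ∈ S} V x y`,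
`V x y = ∑_{f,g} Φ f Φ g (iV 0 x f iV 0 x g - iV J x f iV J' x g) (iV 0 y f iV 0 y g - iV J y f iV J' y g) = N 0 0 * N 0 0 - N 0 J * N 0 J' - N J 0 * N J' 0 + N J J * N J' J'`.
* `x = y`: `V ≤ 4 * 4 * (max_α #{f ∈ bf 5 (3A) : f x = α})^2` or a similar bound (`Φ ≤ 2`, `(a - b)^2 ≤ a + b` for `a, b ∈ {0, 1}`), `cnt1` with `A' = 3A`, `200 R ≤ A'`.
* `x ≠ y`, `Rd rho x y`: `0 ≤ N α β ≤ 2 M`, `M = C2 (3A)^13 gk/(X^2 dl)` (`cnt2r` with `A' = 3A`). Trivial bound `V ≤ N00^2 + N JJ N J'J' ≤ 8 M^2`. If `gk ∣ J` and `gk ∣ J'`: `shift2r` gives `v` (for `J`) and `v'` (for `J'`), sizes `≤ T = 2K(|J| + |J'|)/dl + rho`. If `T ≤ A` then, as in `v_shift`,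
`|N 0 β - N J β| ≤ (T/A) M'`, `|N 0 β - N J' β| ≤ (T/A) M'` for all `β` (`M'` a bound for `#{f ∈ bf 5 (3A) : f x = 0, f y = β}`, also `≤ M`), so
`V = (N00 - N J0) N00 + N J0 (N00 - N J'0) + (N JJ - N 0J) N J'J' + N 0J (N J'J' - N 0J') ≤ 8 (T/A) M^2`. (`min 1 (C z) ≤ C min 1 z`.)
* `x ≠ y`, not `Rd`: `rd_good`: `Rd (16 R^2) x y`; `cnt2r` for `16 R^2` and `A'' = ⌈(16 C2 + 3) R^2⌉₊ ≥ 3A` (`A ≤ R^2`); monotone in the box; `A'' ≤ (16 C2 + 4) R^2`; `V ≤ 8 M''^2`, `M'' ≤ C (R^2)^13 gk/(X^2 dl)`.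
-/

namespace Pool.Agent.H7.PQ

open Finset Pool.Agent.H7.HP

open scoped Classical in
/-- the weight of a pair in the variance -/
noncomputable def om2 (A : ℕ) (R rho : ℝ) (J J' : ℤ) (x y : Fin 5 → ℤ) : ℝ :=
  if Rd rho x y then (if (gk x y : ℤ) ∣ J ∧ (gk x y : ℤ) ∣ J' then
    min 1 (((|(J : ℝ)| + |(J' : ℝ)|) / dl x y + rho) / A) else 1) * (A : ℝ) ^ 26
  else R ^ 52

private theorem v_mem_bf {n T : ℕ} {g : Idx n → ℤ} : g ∈ bf n T ↔ ∀ p, |(g p : ℝ)| ≤ T := by
  unfold bf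
  rw [Fintype.mem_piFinset]
  refine forall_congr' fun p => ?_
  rw [mem_Icc, ← abs_le]
  constructor
  · intro h
    have : ((|g p| : ℤ) : ℝ) ≤ ((T : ℤ) : ℝ) := by exact_mod_cast h
    simpa using this
  · intro h
    have : ((|g p| : ℤ) : ℝ) ≤ ((T : ℤ) : ℝ) := by simpa using h
    exact_mod_cast this

private noncomputable def phV (A : ℕ) (g : Idx 5 → ℤ) : ℝ :=
  max 0 (2 - ‖fun p => (g p : ℝ)‖ / A)

private noncomputable def iV (α : ℤ) (x : Fin 5 → ℤ) (g : Idx 5 → ℤ) : ℝ :=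
  if qv g x = α then 1 else 0

private theorem phV_nonneg (A : ℕ) (g : Idx 5 → ℤ) : 0 ≤ phV A g := le_max_left _ _

private theorem phV_le (A : ℕ) (g : Idx 5 → ℤ) : phV A g ≤ 2 := by
  refine max_le (by norm_num) ?_
  have : 0 ≤ ‖fun p => (g p : ℝ)‖ / A := by positivity
  linarith

private theorem phV_one (A : ℕ) (hA : 0 < A) (g : Idx 5 → ℤ) (hg : g ∈ bf 5 A) : 1 ≤ phV A g := by
  refine le_max_of_le_right ?_
  have hA' : (0 : ℝ) < A := by exact_mod_cast hA
  have h1 : ‖fun p => (g p : ℝ)‖ ≤ A :=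
    (pi_norm_le_iff_of_nonneg hA'.le).2 fun p => by simpa using v_mem_bf.1 hg p
  have h2 : ‖fun p => (g p : ℝ)‖ / A ≤ 1 := (div_le_one hA').2 h1
  linarith

private theorem phV_supp (A : ℕ) (hA : 0 < A) (g : Idx 5 → ℤ) (hg : phV A g ≠ 0) :
    ‖fun p => (g p : ℝ)‖ ≤ 2 * A := by
  have hA' : (0 : ℝ) < A := by exact_mod_cast hA
  by_contra hlt
  push Not at hlt
  apply hg
  refine max_eq_left ?_
  have : 2 ≤ ‖fun p => (g p : ℝ)‖ / A := (le_div_iff₀ hA').2 hlt.le
  linarith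

private theorem phV_lip (A : ℕ) (hA : 0 < A) (g v : Idx 5 → ℤ) :
    |phV A g - phV A (g + v)| ≤ ‖fun p => (v p : ℝ)‖ / A := by
  have hA' : (0 : ℝ) < A := by exact_mod_cast hA
  unfold phV
  have h1 := abs_max_sub_max_le_abs (2 - ‖fun p => (g p : ℝ)‖ / A)
    (2 - ‖fun p => ((g + v) p : ℝ)‖ / A) 0
  rw [max_comm 0, max_comm 0]
  refine h1.trans ?_
  have e : (2 - ‖fun p => (g p : ℝ)‖ / A) - (2 - ‖fun p => ((g + v) p : ℝ)‖ / A) =
      (‖fun p => ((g + v) p : ℝ)‖ - ‖fun p => (g p : ℝ)‖) / A := by ring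
  rw [e, abs_div, abs_of_pos hA']
  refine div_le_div_of_nonneg_right ?_ hA'.le
  refine (abs_norm_sub_norm_le _ _).trans (le_of_eq ?_)
  congr 1
  funext p
  simp

private theorem iV_nonneg (α : ℤ) (x : Fin 5 → ℤ) (g : Idx 5 → ℤ) : 0 ≤ iV α x g := by
  unfold iV
  split_ifs <;> norm_num

private theorem iV_le (α : ℤ) (x : Fin 5 → ℤ) (g : Idx 5 → ℤ) : iV α x g ≤ 1 := by
  unfold iV
  split_ifs <;> norm_num

private theorem v_qv_add {n : ℕ} (g v : Idx n → ℤ) (x : Fin n → ℤ) :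
    qv (g + v) x = qv g x + qv v x := by
  unfold qv
  rw [← sum_add_distrib]
  exact sum_congr rfl fun p _ => by rw [Pi.add_apply]; ring

private theorem v_card1 (T : ℕ) (x : Fin 5 → ℤ) (α : ℤ) :
    ∑ g ∈ bf 5 T, iV α x g = (((bf 5 T).filter fun g => qv g x = α).card : ℝ) := by
  unfold iV
  rw [card_filter]
  push_cast
  exact sum_congr rfl fun x _ => by split_ifs <;> rfl

private theorem v_card2 (T : ℕ) (x y : Fin 5 → ℤ) (α β : ℤ) :
    ∑ g ∈ bf 5 T, iV α x g * iV β y g =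
      (((bf 5 T).filter fun g => qv g x = α ∧ qv g y = β).card : ℝ) := by
  unfold iV
  rw [card_filter]
  push_cast
  refine sum_congr rfl fun g _ => ?_
  by_cases h1 : qv g x = α <;> by_cases h2 : qv g y = β <;> simp [h1, h2]

private theorem v_rr (S : Finset (Fin 5 → ℤ)) (f g : Idx 5 → ℤ) (J J' : ℤ) :
    (rr S f g J J' : ℝ) = ∑ x ∈ S, iV J x f * iV J' x g := by
  unfold rr iV
  rw [card_filter]
  push_cast
  refine sum_congr rfl fun x _ => ?_
  by_cases h1 : qv f x = J <;> by_cases h2 : qv g x = J' <;> simp [h1, h2]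

/-- weighted number of forms with values `α`, `β` at `x`, `y` -/
private noncomputable def nV (A : ℕ) (x y : Fin 5 → ℤ) (α β : ℤ) : ℝ :=
  ∑ f ∈ bf 5 (3 * A), phV A f * (iV α x f * iV β y f)

private noncomputable def vV (A : ℕ) (J J' : ℤ) (x y : Fin 5 → ℤ) : ℝ :=
  nV A x y 0 0 * nV A x y 0 0 - nV A x y 0 J * nV A x y 0 J' - nV A x y J 0 * nV A x y J' 0 +
    nV A x y J J * nV A x y J' J'

private theorem nV_nonneg (A : ℕ) (x y : Fin 5 → ℤ) (α β : ℤ) : 0 ≤ nV A x y α β :=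
  sum_nonneg fun f _ => mul_nonneg (phV_nonneg A f) (mul_nonneg (iV_nonneg _ _ _) (iV_nonneg _ _ _))

private theorem nV_le (A : ℕ) (x y : Fin 5 → ℤ) (M : ℝ)
    (hM : ∀ α β : ℤ,
      (((bf 5 (3 * A)).filter fun g => qv g x = α ∧ qv g y = β).card : ℝ) ≤ M) (α β : ℤ) :
    nV A x y α β ≤ 2 * M := by
  unfold nV
  calc _ ≤ ∑ f ∈ bf 5 (3 * A), 2 * (iV α x f * iV β y f) :=
        sum_le_sum fun f _ => mul_le_mul_of_nonneg_right (phV_le A f)
          (mul_nonneg (iV_nonneg _ _ _) (iV_nonneg _ _ _))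
    _ ≤ 2 * M := by
        rw [← mul_sum, v_card2]
        linarith [hM α β]

private theorem vV_triv (A : ℕ) (J J' : ℤ) (x y : Fin 5 → ℤ) (M : ℝ)
    (hM : ∀ α β : ℤ,
      (((bf 5 (3 * A)).filter fun g => qv g x = α ∧ qv g y = β).card : ℝ) ≤ M) :
    vV A J J' x y ≤ 8 * M ^ 2 := by
  have h0 := nV_nonneg A x y
  have h1 := nV_le A x y M hM
  have a1 : nV A x y 0 0 * nV A x y 0 0 ≤ (2 * M) * (2 * M) :=
    mul_le_mul (h1 _ _) (h1 _ _) (h0 _ _) ((h0 _ _).trans (h1 0 0))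
  have a2 : nV A x y J J * nV A x y J' J' ≤ (2 * M) * (2 * M) :=
    mul_le_mul (h1 _ _) (h1 _ _) (h0 _ _) ((h0 _ _).trans (h1 0 0))
  have a3 : 0 ≤ nV A x y 0 J * nV A x y 0 J' := mul_nonneg (h0 _ _) (h0 _ _)
  have a4 : 0 ≤ nV A x y J 0 * nV A x y J' 0 := mul_nonneg (h0 _ _) (h0 _ _)
  unfold vV
  nlinarith

/-- the bound by translation -/
private theorem nV_shift (A : ℕ) (hA : 0 < A) (J : ℤ) (x y : Fin 5 → ℤ) (v : Idx 5 → ℤ)
    (hvx : qv v x = J) (hvy : qv v y = 0) (T : ℝ) (hT : 0 ≤ T) (hTA : T ≤ A)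
    (hv : ∀ p, |(v p : ℝ)| ≤ T) (M : ℝ)
    (hM : ∀ α β : ℤ,
      (((bf 5 (3 * A)).filter fun g => qv g x = α ∧ qv g y = β).card : ℝ) ≤ M) (β : ℤ) :
    |nV A x y 0 β - nV A x y J β| ≤ T / A * M := by
  have hA' : (0 : ℝ) < A := by exact_mod_cast hA
  have hvn : ‖fun p => (v p : ℝ)‖ ≤ T := (pi_norm_le_iff_of_nonneg hT).2 fun p => by
    simpa using hv p
  let F : (Idx 5 → ℤ) → ℝ := fun g => phV A g * (iV J x g * iV β y g)
  have hF1 : Function.support F ⊆ (bf 5 (3 * A) : Set (Idx 5 → ℤ)) := by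
    intro g hg
    have h0 : phV A g ≠ 0 := fun h => hg (by simp [F, h])
    rw [mem_coe, v_mem_bf]
    intro p
    have h1 := phV_supp A hA g h0
    have h2 := (norm_le_pi_norm (fun p => (g p : ℝ)) p)
    rw [Real.norm_eq_abs] at h2
    push_cast
    linarith
  have hF2 : Function.support (fun g => F (g + v)) ⊆ (bf 5 (3 * A) : Set (Idx 5 → ℤ)) := by
    intro g hg
    have h0 : phV A (g + v) ≠ 0 := fun h => hg (by simp [F, h])
    rw [mem_coe, v_mem_bf]
    intro p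
    have h1 := phV_supp A hA (g + v) h0
    have h2 := (norm_le_pi_norm (fun p => ((g + v) p : ℝ)) p)
    rw [Real.norm_eq_abs] at h2
    have h3 : |(g p : ℝ)| ≤ |((g + v) p : ℝ)| + |(v p : ℝ)| := by
      have : (g p : ℝ) = ((g + v) p : ℝ) - (v p : ℝ) := by simp
      rw [this]
      exact abs_sub _ _
    have h4 := hv p
    push_cast
    linarith
  have hFe : ∑ g ∈ bf 5 (3 * A), F g = ∑ g ∈ bf 5 (3 * A), F (g + v) := by
    rw [← finsum_eq_sum_of_support_subset F hF1,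
      ← finsum_eq_sum_of_support_subset (fun g => F (g + v)) hF2]
    exact (finsum_comp_equiv (Equiv.addRight v) (f := F)).symm
  have hI : ∀ g, F (g + v) = phV A (g + v) * (iV 0 x g * iV β y g) := by
    intro g
    have e1 : iV J x (g + v) = iV 0 x g := by
      unfold iV
      rw [v_qv_add, hvx]
      by_cases h : qv g x = 0
      · simp [h]
      · rw [if_neg h, if_neg]
        intro h'
        exact h (by linarith)
    have e2 : iV β y (g + v) = iV β y g := by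
      unfold iV
      rw [v_qv_add, hvy, add_zero]
    simp only [F]
    rw [e1, e2]
  have e : nV A x y 0 β - nV A x y J β =
      ∑ g ∈ bf 5 (3 * A), (phV A g - phV A (g + v)) * (iV 0 x g * iV β y g) := by
    have e3 : nV A x y J β = ∑ g ∈ bf 5 (3 * A), phV A (g + v) * (iV 0 x g * iV β y g) := by
      unfold nV
      rw [← sum_congr rfl fun g _ => hI g, ← hFe]
    rw [e3]
    unfold nV
    rw [← sum_sub_distrib]
    exact sum_congr rfl fun g _ => by ring
  rw [e]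
  refine (abs_sum_le_sum_abs _ _).trans ?_
  have h1 : ∀ g ∈ bf 5 (3 * A),
      |(phV A g - phV A (g + v)) * (iV 0 x g * iV β y g)| ≤ T / A * (iV 0 x g * iV β y g) := by
    intro g _
    have a1 : 0 ≤ iV 0 x g * iV β y g := mul_nonneg (iV_nonneg 0 x g) (iV_nonneg β y g)
    have a5 : |phV A g - phV A (g + v)| ≤ T / A :=
      (phV_lip A hA g v).trans (div_le_div_of_nonneg_right hvn hA'.le)
    rw [abs_mul, abs_of_nonneg a1]
    exact mul_le_mul_of_nonneg_right a5 a1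
  refine (sum_le_sum h1).trans ?_
  rw [← mul_sum, v_card2]
  exact mul_le_mul_of_nonneg_left (hM 0 β) (by positivity)

private theorem vV_shift (A : ℕ) (J J' : ℤ) (x y : Fin 5 → ℤ) (M τ : ℝ) (hτ : 0 ≤ τ)
    (hM : ∀ α β : ℤ,
      (((bf 5 (3 * A)).filter fun g => qv g x = α ∧ qv g y = β).card : ℝ) ≤ M)
    (h1 : ∀ β, |nV A x y 0 β - nV A x y J β| ≤ τ * M)
    (h2 : ∀ β, |nV A x y 0 β - nV A x y J' β| ≤ τ * M) :
    vV A J J' x y ≤ 8 * τ * M ^ 2 := by
  have h0 := nV_nonneg A x y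
  have h3 := nV_le A x y M hM
  have hM0 : 0 ≤ M := by linarith [h0 0 0, h3 0 0]
  have e : vV A J J' x y = (nV A x y 0 0 - nV A x y J 0) * nV A x y 0 0 +
      nV A x y J 0 * (nV A x y 0 0 - nV A x y J' 0) +
      -((nV A x y 0 J - nV A x y J J) * nV A x y J' J') +
      -(nV A x y 0 J * (nV A x y 0 J' - nV A x y J' J')) := by
    unfold vV
    ring
  have b1 : (nV A x y 0 0 - nV A x y J 0) * nV A x y 0 0 ≤ (τ * M) * (2 * M) :=
    mul_le_mul ((le_abs_self _).trans (h1 0)) (h3 _ _) (h0 _ _) (by positivity)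
  have b2 : nV A x y J 0 * (nV A x y 0 0 - nV A x y J' 0) ≤ (2 * M) * (τ * M) := by
    calc _ ≤ nV A x y J 0 * (τ * M) :=
          mul_le_mul_of_nonneg_left ((le_abs_self _).trans (h2 0)) (h0 _ _)
      _ ≤ _ := mul_le_mul_of_nonneg_right (h3 _ _) (by positivity)
  have b3 : -((nV A x y 0 J - nV A x y J J) * nV A x y J' J') ≤ (τ * M) * (2 * M) := by
    rw [← neg_mul]
    exact mul_le_mul ((neg_le_abs _).trans (h1 J)) (h3 _ _) (h0 _ _) (by positivity)
  have b4 : -(nV A x y 0 J * (nV A x y 0 J' - nV A x y J' J')) ≤ (2 * M) * (τ * M) := by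
    rw [← mul_neg]
    calc _ ≤ nV A x y 0 J * (τ * M) :=
          mul_le_mul_of_nonneg_left ((neg_le_abs _).trans (h2 J')) (h0 _ _)
      _ ≤ _ := mul_le_mul_of_nonneg_right (h3 _ _) (by positivity)
  rw [e]
  nlinarith

private theorem vV_eq (A : ℕ) (J J' : ℤ) (x y : Fin 5 → ℤ) :
    ∑ f ∈ bf 5 (3 * A), ∑ g ∈ bf 5 (3 * A), phV A f * phV A g *
      ((iV 0 x f * iV 0 x g - iV J x f * iV J' x g) *
        (iV 0 y f * iV 0 y g - iV J y f * iV J' y g)) = vV A J J' x y := by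
  unfold vV nV
  rw [sum_mul_sum, sum_mul_sum, sum_mul_sum, sum_mul_sum, ← sum_sub_distrib, ← sum_sub_distrib,
    ← sum_add_distrib]
  refine sum_congr rfl fun f _ => ?_
  rw [← sum_sub_distrib, ← sum_sub_distrib, ← sum_add_distrib]
  exact sum_congr rfl fun g _ => by ring

theorem variance2 (K : ℝ) (hK : 1 ≤ K) : ∃ C : ℝ, 0 < C ∧
    ∀ (X R rho : ℝ) (A : ℕ) (S : Finset (Fin 5 → ℤ)), 1 ≤ R → 1 ≤ rho → 0 < X → C * R ≤ A →
    A ≤ R ^ 2 → C * rho ≤ A →
    (∀ x ∈ S, Good R x ∧ Prim x ∧ (∀ i, |(x i : ℝ)| ≤ K * X) ∧ ∃ i, X ≤ |(x i : ℝ)|) →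
    (∀ x ∈ S, ∀ y ∈ S, x ≠ y → ∃ i j, mn x y i j ≠ 0) → ∀ J J' : ℤ,
      ∑ f ∈ bf 5 A, ∑ g ∈ bf 5 A, ((rr S f g 0 0 : ℝ) - rr S f g J J') ^ 2 ≤
        C * ((S.card : ℝ) * (A ^ 14 / X ^ 2) ^ 2 + ∑ x ∈ S, ∑ y ∈ S.erase x,
          om2 A R rho J J' x y * (gk x y / (X ^ 2 * dl x y)) ^ 2) := by
  obtain ⟨C1, hC1, h1⟩ := cnt1
  obtain ⟨C2, hC2, h2⟩ := cnt2r K hK
  have hK0 : (0 : ℝ) < K := by linarith
  refine ⟨8 * C1 ^ 2 * 3 ^ 28 + 16 * K * C2 ^ 2 * 3 ^ 26 + 8 * C2 ^ 2 * (16 * C2 + 4) ^ 26 + C2 +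
    200, by positivity, ?_⟩
  intro X R rho A S hR hrho hX hCA hAR hCr hS hSS J J'
  set C := 8 * C1 ^ 2 * 3 ^ 28 + 16 * K * C2 ^ 2 * 3 ^ 26 + 8 * C2 ^ 2 * (16 * C2 + 4) ^ 26 + C2 +
    200 with hCdef
  have hp1 : 0 < 8 * C1 ^ 2 * 3 ^ 28 := by positivity
  have hp2 : 0 < 16 * K * C2 ^ 2 * 3 ^ 26 := by positivity
  have hp3 : 0 < 8 * C2 ^ 2 * (16 * C2 + 4) ^ 26 := by positivity
  have hA200 : 200 * R ≤ A :=
    (mul_le_mul_of_nonneg_right (by linarith) (by positivity)).trans hCA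
  have hAC2 : C2 * rho ≤ A :=
    (mul_le_mul_of_nonneg_right (by linarith) (by positivity)).trans hCr
  have hA' : (0 : ℝ) < A := by linarith
  have hA : 0 < A := by exact_mod_cast hA'
  have hX2 : 0 < X ^ 2 := by positivity
  have hmono : ∀ T T' : ℕ, T ≤ T' → bf 5 T ⊆ bf 5 T' := by
    intro T T' hT g hg
    rw [v_mem_bf] at hg ⊢
    intro p
    have : (T : ℝ) ≤ T' := by exact_mod_cast hT
    linarith [hg p]
  have hm := hmono A (3 * A) (by omega)
  -- step 1
  have s1 : ∑ f ∈ bf 5 A, ∑ g ∈ bf 5 A, ((rr S f g 0 0 : ℝ) - rr S f g J J') ^ 2 ≤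
      ∑ f ∈ bf 5 (3 * A), ∑ g ∈ bf 5 (3 * A),
        phV A f * phV A g * ((rr S f g 0 0 : ℝ) - rr S f g J J') ^ 2 := by
    have hnn : ∀ f g, 0 ≤ phV A f * phV A g * ((rr S f g 0 0 : ℝ) - rr S f g J J') ^ 2 :=
      fun f g => mul_nonneg (mul_nonneg (phV_nonneg A f) (phV_nonneg A g)) (sq_nonneg _)
    calc ∑ f ∈ bf 5 A, ∑ g ∈ bf 5 A, ((rr S f g 0 0 : ℝ) - rr S f g J J') ^ 2 ≤
        ∑ f ∈ bf 5 A, ∑ g ∈ bf 5 A,
          phV A f * phV A g * ((rr S f g 0 0 : ℝ) - rr S f g J J') ^ 2 :=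
          sum_le_sum fun f hf => sum_le_sum fun g hg => le_mul_of_one_le_left (sq_nonneg _) (by
            have a1 := phV_one A hA f hf
            have a2 := phV_one A hA g hg
            nlinarith)
      _ ≤ ∑ f ∈ bf 5 A, ∑ g ∈ bf 5 (3 * A),
          phV A f * phV A g * ((rr S f g 0 0 : ℝ) - rr S f g J J') ^ 2 :=
          sum_le_sum fun f _ => sum_le_sum_of_subset_of_nonneg hm fun g _ _ => hnn f g
      _ ≤ _ := sum_le_sum_of_subset_of_nonneg hm fun f _ _ => sum_nonneg fun g _ => hnn f g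
  -- step 2
  have s2 : ∑ f ∈ bf 5 (3 * A), ∑ g ∈ bf 5 (3 * A),
        phV A f * phV A g * ((rr S f g 0 0 : ℝ) - rr S f g J J') ^ 2 =
      ∑ x ∈ S, ∑ y ∈ S, vV A J J' x y := by
    have : ∀ f ∈ bf 5 (3 * A), ∀ g ∈ bf 5 (3 * A),
        phV A f * phV A g * ((rr S f g 0 0 : ℝ) - rr S f g J J') ^ 2 =
        ∑ x ∈ S, ∑ y ∈ S, phV A f * phV A g *
          ((iV 0 x f * iV 0 x g - iV J x f * iV J' x g) *
            (iV 0 y f * iV 0 y g - iV J y f * iV J' y g)) := by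
      intro f _ g _
      rw [v_rr, v_rr, ← sum_sub_distrib, sq, sum_mul_sum, mul_sum]
      exact sum_congr rfl fun x _ => by rw [mul_sum]
    rw [sum_congr rfl fun f hf => sum_congr rfl fun g hg => this f hf g hg]
    have e1 : ∀ f ∈ bf 5 (3 * A), ∑ g ∈ bf 5 (3 * A), ∑ x ∈ S, ∑ y ∈ S, phV A f * phV A g *
          ((iV 0 x f * iV 0 x g - iV J x f * iV J' x g) *
            (iV 0 y f * iV 0 y g - iV J y f * iV J' y g)) =
        ∑ x ∈ S, ∑ y ∈ S, ∑ g ∈ bf 5 (3 * A), phV A f * phV A g *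
          ((iV 0 x f * iV 0 x g - iV J x f * iV J' x g) *
            (iV 0 y f * iV 0 y g - iV J y f * iV J' y g)) := by
      intro f _
      rw [sum_comm]
      exact sum_congr rfl fun x _ => by rw [sum_comm]
    rw [sum_congr rfl e1, sum_comm]
    refine sum_congr rfl fun x _ => ?_
    rw [sum_comm]
    exact sum_congr rfl fun y _ => vV_eq A J J' x y
  refine s1.trans (s2.le.trans ?_)
  -- the bound of the terms
  have hd : ∀ x ∈ S, vV A J J' x x ≤ C * ((A : ℝ) ^ 14 / X ^ 2) ^ 2 := by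
    intro x hx
    obtain ⟨hg, hp, hxK, hxX⟩ := hS x hx
    have hM : ∀ α β : ℤ,
        (((bf 5 (3 * A)).filter fun g => qv g x = α ∧ qv g x = β).card : ℝ) ≤
        C1 * ((3 * A : ℕ) : ℝ) ^ 14 / X ^ 2 := by
      intro α β
      refine le_trans ?_ (h1 x R X (3 * A) (by linarith) (by omega) hg hp hX hxX
        (by push_cast; linarith) α)
      exact_mod_cast card_le_card fun g hg => by
        rw [mem_filter] at hg ⊢
        exact ⟨hg.1, hg.2.1⟩
    refine (vV_triv A J J' x x _ hM).trans ?_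
    push_cast
    calc 8 * (C1 * (3 * (A : ℝ)) ^ 14 / X ^ 2) ^ 2 =
          (8 * C1 ^ 2 * 3 ^ 28) * ((A : ℝ) ^ 14 / X ^ 2) ^ 2 := by
          rw [mul_pow (3 : ℝ), show (3 : ℝ) ^ 28 = (3 ^ 14) ^ 2 by norm_num]; ring
      _ ≤ C * ((A : ℝ) ^ 14 / X ^ 2) ^ 2 := by
          refine mul_le_mul_of_nonneg_right ?_ (by positivity)
          linarith
  have ho : ∀ x ∈ S, ∀ y ∈ S.erase x, vV A J J' x y ≤
        C * (om2 A R rho J J' x y * (gk x y / (X ^ 2 * dl x y)) ^ 2) := by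
    intro x hx y hy
    obtain ⟨hyx, hyS⟩ := mem_erase.1 hy
    obtain ⟨hg, hp, hxK, hxX⟩ := hS x hx
    obtain ⟨hg', hp', hyK, hyX⟩ := hS y hyS
    have hxy := hSS x hx y hyS hyx.symm
    set P : ℝ := gk x y / (X ^ 2 * dl x y) with hPdef
    have hP : 0 ≤ P := by positivity
    by_cases hrd : Rd rho x y
    · have hM : ∀ α β : ℤ,
          (((bf 5 (3 * A)).filter fun g => qv g x = α ∧ qv g y = β).card : ℝ) ≤
            C2 * ((3 * A : ℕ) : ℝ) ^ 13 * gk x y / (X ^ 2 * dl x y) := fun α β =>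
        h2 x y rho X (3 * A) hrho hrd hp hp' hxy hX hxK hyK hxX hyX
          (by push_cast; linarith) α β
      set M := C2 * ((3 * A : ℕ) : ℝ) ^ 13 * gk x y / (X ^ 2 * dl x y) with hMdef
      have hMP : M = C2 * 3 ^ 13 * ((A : ℝ) ^ 13 * P) := by
        rw [hMdef, hPdef]
        push_cast
        rw [mul_pow]
        ring
      have hM0 : 0 ≤ M := by rw [hMP]; positivity
      have hM2 : M ^ 2 = C2 ^ 2 * 3 ^ 26 * ((A : ℝ) ^ 26 * P ^ 2) := by
        rw [hMP, show (3 : ℝ) ^ 26 = (3 ^ 13) ^ 2 by norm_num]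
        ring
      have htr := vV_triv A J J' x y M hM
      have key : vV A J J' x y ≤ 16 * K * (if (gk x y : ℤ) ∣ J ∧ (gk x y : ℤ) ∣ J' then
          min 1 (((|(J : ℝ)| + |(J' : ℝ)|) / dl x y + rho) / A) else 1) * M ^ 2 := by
        split_ifs with hJ
        · obtain ⟨v, hvx, hvy, hv⟩ := shift2r K hK x y rho X hrd hp hxy hX hyK hxX J hJ.1
          obtain ⟨v', hvx', hvy', hv'⟩ := shift2r K hK x y rho X hrd hp hxy hX hyK hxX J' hJ.2
          set T := 2 * K * (|(J : ℝ)| + |(J' : ℝ)|) / dl x y + rho with hT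
          set z := ((|(J : ℝ)| + |(J' : ℝ)|) / dl x y + rho) / A with hz
          have hz0 : 0 ≤ z := by positivity
          have hT0 : 0 ≤ T := by positivity
          have hvT : ∀ p, |(v p : ℝ)| ≤ T := fun p => (hv p).trans (by
            rw [hT]
            have : 2 * K * |(J : ℝ)| / dl x y ≤ 2 * K * (|(J : ℝ)| + |(J' : ℝ)|) / dl x y := by
              refine div_le_div_of_nonneg_right ?_ (by positivity)
              refine mul_le_mul_of_nonneg_left ?_ (by positivity)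
              linarith [abs_nonneg (J' : ℝ)]
            linarith)
          have hvT' : ∀ p, |(v' p : ℝ)| ≤ T := fun p => (hv' p).trans (by
            rw [hT]
            have : 2 * K * |(J' : ℝ)| / dl x y ≤ 2 * K * (|(J : ℝ)| + |(J' : ℝ)|) / dl x y := by
              refine div_le_div_of_nonneg_right ?_ (by positivity)
              refine mul_le_mul_of_nonneg_left ?_ (by positivity)
              linarith [abs_nonneg (J : ℝ)]
            linarith)
          have hTz : T / A ≤ (2 * K) * z := by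
            rw [hz, hT, ← mul_div_assoc]
            refine div_le_div_of_nonneg_right ?_ hA'.le
            have q2 : 2 * K * (|(J : ℝ)| + |(J' : ℝ)|) / dl x y =
                2 * K * ((|(J : ℝ)| + |(J' : ℝ)|) / dl x y) := by ring
            rw [q2]
            nlinarith
          have hmin : min 1 ((2 * K) * z) ≤ (2 * K) * min 1 z := by
            rcases le_total 1 z with h | h
            · rw [min_eq_left h]
              exact (min_le_left _ _).trans (by linarith)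
            · rw [min_eq_right h]
              exact min_le_right _ _
          have hmm : min 1 (T / A) ≤ (2 * K) * min 1 z :=
            (min_le_min_left 1 hTz).trans hmin
          rcases le_total T A with hTA | hTA
          · have hs := vV_shift A J J' x y M (T / A) (by positivity) hM
              (nV_shift A hA J x y v hvx hvy T hT0 hTA hvT M hM)
              (nV_shift A hA J' x y v' hvx' hvy' T hT0 hTA hvT' M hM)
            have h1T : T / A ≤ 1 := (div_le_one hA').2 hTA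
            rw [min_eq_right h1T] at hmm
            calc _ ≤ 8 * (T / A) * M ^ 2 := hs
              _ ≤ 8 * ((2 * K) * min 1 z) * M ^ 2 := by
                  refine mul_le_mul_of_nonneg_right ?_ (by positivity)
                  linarith
              _ = _ := by ring
          · have h1T : 1 ≤ T / A := (one_le_div hA').2 hTA
            rw [min_eq_left h1T] at hmm
            calc _ ≤ 8 * M ^ 2 := htr
              _ = 8 * 1 * M ^ 2 := by ring
              _ ≤ 8 * ((2 * K) * min 1 z) * M ^ 2 := by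
                  refine mul_le_mul_of_nonneg_right ?_ (by positivity)
                  linarith
              _ = _ := by ring
        · calc _ ≤ 8 * M ^ 2 := htr
            _ ≤ 16 * K * 1 * M ^ 2 := by
                refine mul_le_mul_of_nonneg_right ?_ (by positivity)
                linarith
      refine key.trans ?_
      unfold om2
      rw [if_pos hrd, hM2]
      set w : ℝ := (if (gk x y : ℤ) ∣ J ∧ (gk x y : ℤ) ∣ J' then
          min 1 (((|(J : ℝ)| + |(J' : ℝ)|) / dl x y + rho) / A) else 1) with hw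
      have hw0 : 0 ≤ w := by
        rw [hw]
        split_ifs
        · positivity
        · norm_num
      calc 16 * K * w * (C2 ^ 2 * 3 ^ 26 * ((A : ℝ) ^ 26 * P ^ 2)) =
            (16 * K * C2 ^ 2 * 3 ^ 26) * (w * (A : ℝ) ^ 26 * P ^ 2) := by ring
        _ ≤ C * (w * (A : ℝ) ^ 26 * P ^ 2) := by
            refine mul_le_mul_of_nonneg_right ?_ (by positivity)
            linarith
    · have hR2 : 1 ≤ R ^ 2 := one_le_pow₀ hR
      set B : ℕ := ⌈(16 * C2 + 3) * R ^ 2⌉₊ with hB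
      have hB1 : (16 * C2 + 3) * R ^ 2 ≤ B := Nat.le_ceil _
      have hB2 : (B : ℝ) ≤ (16 * C2 + 4) * R ^ 2 := by
        have := (Nat.ceil_lt_add_one (by positivity : 0 ≤ (16 * C2 + 3) * R ^ 2)).le
        rw [← hB] at this
        linarith
      have hAB : 3 * A ≤ B := by
        have : (3 : ℝ) * A ≤ B := by nlinarith
        exact_mod_cast this
      have hM : ∀ α β : ℤ,
          (((bf 5 (3 * A)).filter fun g => qv g x = α ∧ qv g y = β).card : ℝ) ≤
            C2 * (B : ℝ) ^ 13 * gk x y / (X ^ 2 * dl x y) := by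
        intro α β
        refine le_trans ?_ (h2 x y (16 * R ^ 2) X B (by linarith)
          (rd_good (by linarith) hg hg' hxy) hp hp' hxy hX hxK hyK hxX hyX (by nlinarith) α β)
        exact_mod_cast card_le_card (filter_subset_filter _ (hmono _ _ hAB))
      refine (vV_triv A J J' x y _ hM).trans ?_
      unfold om2
      rw [if_neg hrd]
      have hBp : (B : ℝ) ^ 13 ≤ ((16 * C2 + 4) * R ^ 2) ^ 13 :=
        pow_le_pow_left₀ (by positivity) hB2 13
      have hM3 : C2 * (B : ℝ) ^ 13 * gk x y / (X ^ 2 * dl x y) ≤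
          C2 * ((16 * C2 + 4) * R ^ 2) ^ 13 * P := by
        rw [hPdef, ← mul_div_assoc]
        refine div_le_div_of_nonneg_right ?_ (by positivity)
        refine mul_le_mul_of_nonneg_right ?_ (by positivity)
        exact mul_le_mul_of_nonneg_left hBp hC2.le
      have hM4 : 0 ≤ C2 * (B : ℝ) ^ 13 * gk x y / (X ^ 2 * dl x y) := by positivity
      calc 8 * (C2 * (B : ℝ) ^ 13 * gk x y / (X ^ 2 * dl x y)) ^ 2 ≤
            8 * (C2 * ((16 * C2 + 4) * R ^ 2) ^ 13 * P) ^ 2 := by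
            have := pow_le_pow_left₀ hM4 hM3 2
            linarith
        _ = (8 * C2 ^ 2 * (16 * C2 + 4) ^ 26) * (R ^ 52 * P ^ 2) := by
            rw [mul_pow (16 * C2 + 4), ← pow_mul]
            ring
        _ ≤ C * (R ^ 52 * P ^ 2) := by
            refine mul_le_mul_of_nonneg_right ?_ (by positivity)
            linarith
  calc _ = ∑ x ∈ S, (vV A J J' x x + ∑ y ∈ S.erase x, vV A J J' x y) :=
        sum_congr rfl fun x hx => (add_sum_erase S _ hx).symm
    _ ≤ ∑ x ∈ S, (C * ((A : ℝ) ^ 14 / X ^ 2) ^ 2 + ∑ y ∈ S.erase x,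
          C * (om2 A R rho J J' x y * (gk x y / (X ^ 2 * dl x y)) ^ 2)) :=
        sum_le_sum fun x hx => add_le_add (hd x hx) (sum_le_sum fun y hy => ho x hx y hy)
    _ = _ := by
        rw [sum_add_distrib, sum_const, nsmul_eq_mul, mul_add, mul_sum]
        congr 1
        · ring
        · exact sum_congr rfl fun x _ => by rw [mul_sum]

end Pool.Agent.H7.PQ
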