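import Pool.Agent.H7.PQ.Vr2
import Pool.Agent.H7.PQ.Psm
import Pool.Agent.H7.PQ.Par

set_option autoImplicit false

/-!
# [H7 PQ VSM] the variance is small, 110-160 lines

`S = XT τ A = XS lam B`, `B = Bt τ A`, `lam = lmt τ A`, `R = 600/lam`, `rho = A^(1-τ)`, `X = B`, `K = 4` in `variance2` (conditions: `par1`, `xs_good`, `xs_bd`, `xs_ne`, `mem_XS`). First term: `#S (A^14/B^2)^2 ≤ (9B)^5 A^28/B^4 = 9^5 B A^28 ≤ ε A^26 B^2` (`x0_card`, `par2`).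
* `vsm_all` (`om2 ≤ A^26` for round pairs, `= R^52` otherwise): second term `≤ A^26 psm2 + R^52 psm1 ≤ C A^26 B (1/lam^3 + B) + R^52 C B (..) ≤ C' A^26 B^2` (`par2`, `par3` with the `Δ` of `par3`).
* `vsm`: round pairs with `dl ≤ ε B^2 gk`: `om2 ≤ A^26`, sum `≤ A^26 C B (1/lam^3 + ε B) ≤ 2 C ε A^26 B^2` (`psm3`, `par2` with `K = 1/ε`). Round pairs with `dl > ε B^2 gk`: `gk ≤ 32/ε ≤ N` (`dl_le32`), so `gk ∣ N! ∣ J, J'`, and `(|J| + |J'|)/dl ≤ 2 κ A B^2/(ε B^2) = 2 κ A/ε ≤ 2 ε A` (`gk ≥ 1`), so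
`om2 ≤ (2 ε + rho/A) A^26 ≤ 3 ε A^26` (`par2`): sum `≤ 3 ε A^26 psm2 ≤ C ε A^26 B^2`. Not round: `R^52 psm1 ≤ ε A^26 B^2` (`par3` with large `K`).
-/

namespace Pool.Agent.H7.PQ

open Finset Pool.Agent.H7.HP

/-- the weights -/
private noncomputable def Vsm_W (B : ℕ) (x y : Fin 5 → ℤ) : ℝ :=
  ((gk x y : ℝ) / ((B : ℝ) ^ 2 * dl x y)) ^ 2

private theorem Vsm_W_nn (B : ℕ) (x y : Fin 5 → ℤ) : 0 ≤ Vsm_W B x y := by
  unfold Vsm_W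
  positivity

private theorem Vsm_base (τ : ℝ) (hτ : 0 < τ) (hτ' : τ ≤ 1 / 1000) : ∃ C : ℝ, 0 < C ∧ ∃ A0 : ℕ,
    ∀ A ≥ A0, ∀ J J' : ℤ,
      ∑ f ∈ bf 5 A, ∑ g ∈ bf 5 A, ((rr (XT τ A) f g 0 0 : ℝ) - rr (XT τ A) f g J J') ^ 2 ≤
        C * (((XT τ A).card : ℝ) * ((A : ℝ) ^ 14 / (Bt τ A : ℝ) ^ 2) ^ 2 +
          ∑ x ∈ XT τ A, ∑ y ∈ (XT τ A).erase x,
            om2 A (600 / lmt τ A) ((A : ℝ) ^ (1 - τ)) J J' x y * Vsm_W (Bt τ A) x y) := by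
  obtain ⟨C, hC, hV⟩ := variance2 4 (by norm_num)
  obtain ⟨A0, hA0⟩ := par1 τ hτ hτ' C hC
  refine ⟨C, hC, A0, fun A hA J J' => ?_⟩
  obtain ⟨h1, h2, h3, h4, h5, h6⟩ := hA0 A hA
  obtain ⟨p1, -, -, p4, p5⟩ := par0 τ hτ A h1
  have hb : (0 : ℝ) < (Bt τ A : ℝ) := by
    have : (1 : ℝ) ≤ (Bt τ A : ℝ) := by exact_mod_cast p1
    linarith
  exact hV (Bt τ A) (600 / lmt τ A) ((A : ℝ) ^ (1 - τ)) A (XT τ A) h2 h5 hb h3 h4 h6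
    (fun x hx => ⟨xs_good p4 p5 hx, (mem_XS.1 hx).1.prim, (xs_bd hx).1, (xs_bd hx).2⟩)
    (fun x hx y hy hxy => xs_ne hx hy hxy) J J'

private theorem Vsm_card (τ : ℝ) (A : ℕ) (h1 : 1 ≤ Bt τ A) :
    ((XT τ A).card : ℝ) ≤ 9 ^ 5 * (Bt τ A : ℝ) ^ 5 := by
  have h2 : (XT τ A).card ≤ (9 * Bt τ A) ^ 5 := by
    refine le_trans (card_le_card ?_) (x0_card h1)
    intro x hx
    exact mem_X0.2 (mem_XS.1 hx).1
  have h3 : ((XT τ A).card : ℝ) ≤ (((9 * Bt τ A) ^ 5 : ℕ) : ℝ) := by exact_mod_cast h2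
  push_cast at h3
  rw [mul_pow] at h3
  exact h3

/-- the diagonal term -/
private theorem Vsm_diag (τ : ℝ) (A : ℕ) (h1 : 1 ≤ Bt τ A) {e : ℝ} (he : 0 < e)
    (h2 : 1 / e * (A : ℝ) ^ 2 ≤ Bt τ A) :
    ((XT τ A).card : ℝ) * ((A : ℝ) ^ 14 / (Bt τ A : ℝ) ^ 2) ^ 2 ≤
      9 ^ 5 * e * ((A : ℝ) ^ 26 * (Bt τ A : ℝ) ^ 2) := by
  have hb1 : (1 : ℝ) ≤ (Bt τ A : ℝ) := by exact_mod_cast h1
  have hb : (0 : ℝ) < (Bt τ A : ℝ) := by linarith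
  have h3 := Vsm_card τ A h1
  have h4 : (A : ℝ) ^ 2 ≤ e * Bt τ A := by
    rw [div_mul_eq_mul_div, one_mul, div_le_iff₀ he] at h2
    linarith
  generalize ((XT τ A).card : ℝ) = s at h3 ⊢
  generalize (Bt τ A : ℝ) = b at *
  generalize (A : ℝ) = a at *
  have ha : 0 ≤ a ^ 26 := by positivity
  calc s * (a ^ 14 / b ^ 2) ^ 2 ≤ (9 ^ 5 * b ^ 5) * (a ^ 14 / b ^ 2) ^ 2 :=
        mul_le_mul_of_nonneg_right h3 (by positivity)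
    _ = 9 ^ 5 * (a ^ 26 * b) * a ^ 2 := by
        field_simp
    _ ≤ 9 ^ 5 * (a ^ 26 * b) * (e * b) := mul_le_mul_of_nonneg_left h4 (by positivity)
    _ = 9 ^ 5 * e * (a ^ 26 * b ^ 2) := by ring

/-- the sum over pairs -/
private theorem Vsm_split (S : Finset (Fin 5 → ℤ)) (B : ℕ) (om : (Fin 5 → ℤ) → (Fin 5 → ℤ) → ℝ)
    (D E : (Fin 5 → ℤ) → (Fin 5 → ℤ) → Prop) [∀ x y, Decidable (D x y)]
    [∀ x y, Decidable (E x y)] (p q r : ℝ)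
    (h : ∀ x ∈ S, ∀ y ∈ S.erase x,
      om x y ≤ p + (if D x y then q else 0) + (if E x y then r else 0)) :
    ∑ x ∈ S, ∑ y ∈ S.erase x, om x y * Vsm_W B x y ≤
      p * ∑ x ∈ S, ∑ y ∈ S.erase x, Vsm_W B x y +
      q * ∑ x ∈ S, ∑ y ∈ (S.erase x).filter (fun y => D x y), Vsm_W B x y +
      r * ∑ x ∈ S, ∑ y ∈ (S.erase x).filter (fun y => E x y), Vsm_W B x y := by
  rw [mul_sum, mul_sum, mul_sum, ← sum_add_distrib, ← sum_add_distrib]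
  refine sum_le_sum fun x hx => ?_
  rw [mul_sum, mul_sum, mul_sum, sum_filter, sum_filter, ← sum_add_distrib, ← sum_add_distrib]
  refine sum_le_sum fun y hy => ?_
  have h1 := mul_le_mul_of_nonneg_right (h x hx y hy) (Vsm_W_nn B x y)
  refine h1.trans (le_of_eq ?_)
  rw [add_mul, add_mul]
  split_ifs <;> ring

/-- the bound for the pairs which are not round -/
private theorem Vsm_bad {C a b l R L3 D T e : ℝ} (hC : 0 < C) (hb : 0 < b) (he : 0 < e)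
    (hR : 0 ≤ R)
    (h1 : D ≤ C * b * (L3 + T))
    (h2 : 1 / e * (R ^ 52 * (L3 + T)) ≤ a ^ 26 * b) :
    R ^ 52 * D ≤ C * e * (a ^ 26 * b ^ 2) := by
  have h3 : R ^ 52 * (L3 + T) ≤ e * (a ^ 26 * b) := by
    rw [div_mul_eq_mul_div, one_mul, div_le_iff₀ he] at h2
    linarith
  calc R ^ 52 * D ≤ R ^ 52 * (C * b * (L3 + T)) := mul_le_mul_of_nonneg_left h1 (by positivity)
    _ = C * b * (R ^ 52 * (L3 + T)) := by ring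
    _ ≤ C * b * (e * (a ^ 26 * b)) := mul_le_mul_of_nonneg_left h3 (by positivity)
    _ = C * e * (a ^ 26 * b ^ 2) := by ring

private theorem Vsm_om_round {A : ℕ} {R rho : ℝ} {J J' : ℤ} {x y : Fin 5 → ℤ}
    (h : Rd rho x y) : om2 A R rho J J' x y ≤ (A : ℝ) ^ 26 := by
  unfold om2
  rw [if_pos h]
  have h1 : (if (gk x y : ℤ) ∣ J ∧ (gk x y : ℤ) ∣ J' then
    min 1 (((|(J : ℝ)| + |(J' : ℝ)|) / dl x y + rho) / A) else 1) ≤ (1 : ℝ) := by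
    split_ifs
    · exact min_le_left _ _
    · exact le_rfl
  calc _ ≤ 1 * (A : ℝ) ^ 26 := mul_le_mul_of_nonneg_right h1 (by positivity)
    _ = (A : ℝ) ^ 26 := one_mul _

private theorem Vsm_om_bad {A : ℕ} {R rho : ℝ} {J J' : ℤ} {x y : Fin 5 → ℤ}
    (h : ¬ Rd rho x y) : om2 A R rho J J' x y = R ^ 52 := by
  unfold om2
  rw [if_neg h]

private theorem Vsm_om_small {A N B : ℕ} {R rho κ e : ℝ} {J J' : ℤ} {x y : Fin 5 → ℤ}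
    (hA : 1 ≤ A) (hB : 1 ≤ B) (he : 0 < e) (hκ : 0 < κ) (hκ' : κ ≤ e ^ 2) (hN : 32 / e ≤ N)
    (hJ : ((N.factorial : ℕ) : ℤ) ∣ J) (hJ' : ((N.factorial : ℕ) : ℤ) ∣ J')
    (bJ : |(J : ℝ)| ≤ κ * A * (B : ℝ) ^ 2) (bJ' : |(J' : ℝ)| ≤ κ * A * (B : ℝ) ^ 2)
    (hrho : 1 / e * (rho / A) ≤ 1) (hg : 0 < gk x y) (hd : dl x y ≤ 32 * B ^ 2)
    (h : Rd rho x y) (hbig : e * (B : ℝ) ^ 2 * gk x y < dl x y) :
    om2 A R rho J J' x y ≤ 3 * e * (A : ℝ) ^ 26 := by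
  have hb1 : (1 : ℝ) ≤ (B : ℝ) := by exact_mod_cast hB
  have ha1 : (1 : ℝ) ≤ (A : ℝ) := by exact_mod_cast hA
  have hg1 : (1 : ℝ) ≤ (gk x y : ℝ) := by exact_mod_cast hg
  have hd1 : (dl x y : ℝ) ≤ 32 * (B : ℝ) ^ 2 := by exact_mod_cast hd
  have hb2 : (0 : ℝ) < (B : ℝ) ^ 2 := by positivity
  have hgN : gk x y ≤ N := by
    have h1 : e * (gk x y : ℝ) < 32 := by
      by_contra hcon
      push Not at hcon
      have h2 : 32 * (B : ℝ) ^ 2 ≤ e * (B : ℝ) ^ 2 * gk x y := by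
        calc 32 * (B : ℝ) ^ 2 ≤ (e * (gk x y : ℝ)) * (B : ℝ) ^ 2 :=
              mul_le_mul_of_nonneg_right hcon hb2.le
          _ = e * (B : ℝ) ^ 2 * gk x y := by ring
      linarith
    have h2 : (gk x y : ℝ) ≤ 32 / e := by
      rw [le_div_iff₀ he]
      linarith
    exact_mod_cast h2.trans hN
  have hgf : (gk x y : ℤ) ∣ ((N.factorial : ℕ) : ℤ) :=
    Int.natCast_dvd_natCast.2 (Nat.dvd_factorial hg hgN)
  unfold om2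
  rw [if_pos h, if_pos ⟨hgf.trans hJ, hgf.trans hJ'⟩]
  have hdl : e * (B : ℝ) ^ 2 < dl x y := by
    have h3 : e * (B : ℝ) ^ 2 * 1 ≤ e * (B : ℝ) ^ 2 * gk x y :=
      mul_le_mul_of_nonneg_left hg1 (by positivity)
    linarith
  have hdl0 : (0 : ℝ) < dl x y := lt_trans (by positivity) hdl
  have h4 : (|(J : ℝ)| + |(J' : ℝ)|) / dl x y ≤ 2 * e * A := by
    rw [div_le_iff₀ hdl0]
    have h5 : κ * A * (B : ℝ) ^ 2 ≤ e ^ 2 * A * (B : ℝ) ^ 2 := by gcongr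
    have h6 : 2 * e * A * (e * (B : ℝ) ^ 2) ≤ 2 * e * A * dl x y :=
      mul_le_mul_of_nonneg_left hdl.le (by positivity)
    nlinarith
  have h7 : rho ≤ e * A := by
    have h8 : rho / A ≤ e := by
      rw [div_mul_eq_mul_div, one_mul, div_le_iff₀ he] at hrho
      linarith
    rwa [div_le_iff₀ (by linarith)] at h8
  have h9 : ((|(J : ℝ)| + |(J' : ℝ)|) / dl x y + rho) / A ≤ 3 * e := by
    rw [div_le_iff₀ (by linarith)]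
    nlinarith
  exact mul_le_mul_of_nonneg_right ((min_le_right _ _).trans h9) (by positivity)

theorem vsm_all (τ : ℝ) (hτ : 0 < τ) (hτ' : τ ≤ 1 / 1000) : ∃ C : ℝ, 0 < C ∧ ∃ A0 : ℕ,
    ∀ A ≥ A0, ∀ J J' : ℤ,
      ∑ f ∈ bf 5 A, ∑ g ∈ bf 5 A, ((rr (XT τ A) f g 0 0 : ℝ) - rr (XT τ A) f g J J') ^ 2 ≤
        C * (A : ℝ) ^ 26 * (Bt τ A : ℝ) ^ 2 := by
  classical
  obtain ⟨Cv, hCv, A1, hV⟩ := Vsm_base τ hτ hτ'
  obtain ⟨C1, hC1, hp1⟩ := psm1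
  obtain ⟨C2, hC2, hp2⟩ := psm2
  obtain ⟨A2, hA2⟩ := par2 τ hτ hτ' (1 / 1) (by norm_num)
  obtain ⟨A3, hA3⟩ := par3 τ hτ hτ' (1 / 1) (by norm_num)
  refine ⟨Cv * (9 ^ 5 + 2 * C2 + C1), by positivity, max (max A1 A2) (max A3 1),
    fun A hA J J' => ?_⟩
  have hA1' : A1 ≤ A := le_trans (le_trans (le_max_left _ _) (le_max_left _ _)) hA
  have hA2' : A2 ≤ A := le_trans (le_trans (le_max_right _ _) (le_max_left _ _)) hA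
  have hA3' : A3 ≤ A := le_trans (le_trans (le_max_left _ _) (le_max_right _ _)) hA
  have hA4' : 1 ≤ A := le_trans (le_trans (le_max_right _ _) (le_max_right _ _)) hA
  obtain ⟨p1, -, -, p4, p5⟩ := par0 τ hτ A hA4'
  obtain ⟨q1, q2, -, -, -⟩ := hA2 A hA2'
  obtain ⟨Δ, hΔ, q6⟩ := hA3 A hA3'
  have hb1 : (1 : ℝ) ≤ (Bt τ A : ℝ) := by exact_mod_cast p1
  have hb : (0 : ℝ) < (Bt τ A : ℝ) := by linarith
  have ha1 : (1 : ℝ) ≤ (A : ℝ) := by exact_mod_cast hA4'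
  have hrho : (0 : ℝ) < (A : ℝ) ^ (1 - τ) := Real.rpow_pos_of_pos (by linarith) _
  refine (hV A hA1' J J').trans ?_
  have h1 := Vsm_diag τ A p1 one_pos q1
  have h2 := Vsm_split (XT τ A) (Bt τ A)
    (om2 A (600 / lmt τ A) ((A : ℝ) ^ (1 - τ)) J J') (fun _ _ => False)
    (fun x y => ¬ Rd ((A : ℝ) ^ (1 - τ)) x y) ((A : ℝ) ^ 26) 0 ((600 / lmt τ A) ^ 52) (by
      intro x hx y hy
      rw [if_neg not_false, add_zero]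
      by_cases h : Rd ((A : ℝ) ^ (1 - τ)) x y
      · rw [if_neg (not_not.2 h), add_zero]
        exact Vsm_om_round h
      · rw [if_pos h, Vsm_om_bad h]
        have : (0 : ℝ) ≤ (A : ℝ) ^ 26 := by positivity
        linarith)
  have h3 := hp2 (Bt τ A) (lmt τ A) p1 p4 p5
  have h4 := hp1 (Bt τ A) (lmt τ A) ((A : ℝ) ^ (1 - τ)) Δ p1 p4 p5 hrho hΔ
  have h5 := Vsm_bad (R := 600 / lmt τ A) (a := A) (b := Bt τ A) (l := 0) hC1 hb one_pos (by positivity)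
    (L3 := 1 / lmt τ A ^ 3 + Δ / Bt τ A) (T := (1 / (lmt τ A ^ 2 * (A : ℝ) ^ (1 - τ)) + 1) ^ 16 /
      lmt τ A ^ 19 / Δ ^ 2) h4 q6
  have h6 : ∑ x ∈ XT τ A, ∑ y ∈ (XT τ A).erase x, Vsm_W (Bt τ A) x y ≤
      2 * C2 * (Bt τ A : ℝ) ^ 2 := by
    refine le_trans h3 ?_
    have h7 : 1 / lmt τ A ^ 3 ≤ Bt τ A := by
      rw [one_div_one, one_mul] at q2
      exact q2
    have h8 : C2 * (Bt τ A : ℝ) * (1 / lmt τ A ^ 3 + Bt τ A) ≤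
        C2 * (Bt τ A : ℝ) * (Bt τ A + Bt τ A) := by
      apply mul_le_mul_of_nonneg_left _ (by positivity)
      linarith
    linarith
  have h9 := mul_le_mul_of_nonneg_left h6 (show (0 : ℝ) ≤ (A : ℝ) ^ 26 by positivity)
  have h10 : Cv * (((XT τ A).card : ℝ) * ((A : ℝ) ^ 14 / (Bt τ A : ℝ) ^ 2) ^ 2 +
      ∑ x ∈ XT τ A, ∑ y ∈ (XT τ A).erase x,
        om2 A (600 / lmt τ A) ((A : ℝ) ^ (1 - τ)) J J' x y * Vsm_W (Bt τ A) x y) ≤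
      Cv * ((9 ^ 5 + 2 * C2 + C1) * ((A : ℝ) ^ 26 * (Bt τ A : ℝ) ^ 2)) := by
    apply mul_le_mul_of_nonneg_left _ hCv.le
    rw [zero_mul, add_zero] at h2
    have h11 : (600 / lmt τ A) ^ 52 * ∑ x ∈ XT τ A, ∑ y ∈ ((XT τ A).erase x).filter
        (fun y => ¬ Rd ((A : ℝ) ^ (1 - τ)) x y), Vsm_W (Bt τ A) x y ≤
        C1 * 1 * ((A : ℝ) ^ 26 * (Bt τ A : ℝ) ^ 2) := h5
    linarith
  refine h10.trans (le_of_eq ?_)
  ring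

theorem vsm (τ : ℝ) (hτ : 0 < τ) (hτ' : τ ≤ 1 / 1000) : ∃ C : ℝ, 0 < C ∧
    ∀ ε : ℝ, 0 < ε → ε ≤ 1 → ∀ κ : ℝ, 0 < κ → κ ≤ ε ^ 2 → ∀ N : ℕ, 32 / ε ≤ N →
    ∃ A0 : ℕ, ∀ A ≥ A0, ∀ J J' : ℤ, ((N.factorial : ℕ) : ℤ) ∣ J → ((N.factorial : ℕ) : ℤ) ∣ J' →
    |(J : ℝ)| ≤ κ * A * (Bt τ A : ℝ) ^ 2 → |(J' : ℝ)| ≤ κ * A * (Bt τ A : ℝ) ^ 2 →
      ∑ f ∈ bf 5 A, ∑ g ∈ bf 5 A, ((rr (XT τ A) f g 0 0 : ℝ) - rr (XT τ A) f g J J') ^ 2 ≤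
        C * ε * (A : ℝ) ^ 26 * (Bt τ A : ℝ) ^ 2 := by
  classical
  obtain ⟨Cv, hCv, A1, hV⟩ := Vsm_base τ hτ hτ'
  obtain ⟨C1, hC1, hp1⟩ := psm1
  obtain ⟨C2, hC2, hp2⟩ := psm2
  obtain ⟨C3, hC3, hp3⟩ := psm3
  refine ⟨Cv * (9 ^ 5 + 6 * C2 + 2 * C3 + C1), by positivity, fun ε hε hε1 κ hκ hκε N hN => ?_⟩
  have hinv : (0 : ℝ) < 1 / ε := by positivity
  obtain ⟨A2, hA2⟩ := par2 τ hτ hτ' (1 / ε) hinv
  obtain ⟨A3, hA3⟩ := par3 τ hτ hτ' (1 / ε) hinv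
  refine ⟨max (max A1 A2) (max A3 1), fun A hA J J' hJ hJ' bJ bJ' => ?_⟩
  have hA1' : A1 ≤ A := le_trans (le_trans (le_max_left _ _) (le_max_left _ _)) hA
  have hA2' : A2 ≤ A := le_trans (le_trans (le_max_right _ _) (le_max_left _ _)) hA
  have hA3' : A3 ≤ A := le_trans (le_trans (le_max_left _ _) (le_max_right _ _)) hA
  have hA4' : 1 ≤ A := le_trans (le_trans (le_max_right _ _) (le_max_right _ _)) hA
  obtain ⟨p1, -, -, p4, p5⟩ := par0 τ hτ A hA4'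
  obtain ⟨q1, q2, -, -, q5⟩ := hA2 A hA2'
  obtain ⟨Δ, hΔ, q6⟩ := hA3 A hA3'
  have hb1 : (1 : ℝ) ≤ (Bt τ A : ℝ) := by exact_mod_cast p1
  have hb : (0 : ℝ) < (Bt τ A : ℝ) := by linarith
  have ha1 : (1 : ℝ) ≤ (A : ℝ) := by exact_mod_cast hA4'
  have hrho : (0 : ℝ) < (A : ℝ) ^ (1 - τ) := Real.rpow_pos_of_pos (by linarith) _
  refine (hV A hA1' J J').trans ?_
  have h1 := Vsm_diag τ A p1 hε q1
  have h2 := Vsm_split (XT τ A) (Bt τ A)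
    (om2 A (600 / lmt τ A) ((A : ℝ) ^ (1 - τ)) J J')
    (fun x y => (dl x y : ℝ) ≤ ε * (Bt τ A : ℝ) ^ 2 * gk x y)
    (fun x y => ¬ Rd ((A : ℝ) ^ (1 - τ)) x y) (3 * ε * (A : ℝ) ^ 26) ((A : ℝ) ^ 26)
    ((600 / lmt τ A) ^ 52) (by
      intro x hx y hy
      have hy' := mem_erase.1 hy
      have h0 : (0 : ℝ) ≤ (A : ℝ) ^ 26 := by positivity
      have h00 : (0 : ℝ) ≤ 3 * ε * (A : ℝ) ^ 26 := by positivity
      by_cases h : Rd ((A : ℝ) ^ (1 - τ)) x y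
      · rw [if_neg (not_not.2 h), add_zero]
        by_cases h' : (dl x y : ℝ) ≤ ε * (Bt τ A : ℝ) ^ 2 * gk x y
        · rw [if_pos h']
          have := Vsm_om_round (A := A) (R := 600 / lmt τ A) (J := J) (J' := J') h
          linarith
        · rw [if_neg h', add_zero]
          push Not at h'
          exact Vsm_om_small hA4' p1 hε hκ hκε hN hJ hJ' bJ bJ' q5
            (gk_pos (xs_ne hx hy'.2 hy'.1.symm)) (dl_le32 hx hy'.2) h h'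
      · rw [if_pos h, Vsm_om_bad h]
        have h3 : (0 : ℝ) ≤ (if (dl x y : ℝ) ≤ ε * (Bt τ A : ℝ) ^ 2 * gk x y then
          (A : ℝ) ^ 26 else 0) := by
          split_ifs
          · exact h0
          · exact le_rfl
        linarith)
  have h3 := hp2 (Bt τ A) (lmt τ A) p1 p4 p5
  have h3' := hp3 (Bt τ A) (lmt τ A) ε p1 p4 p5 hε.le
  have h4 := hp1 (Bt τ A) (lmt τ A) ((A : ℝ) ^ (1 - τ)) Δ p1 p4 p5 hrho hΔ
  have h5 := Vsm_bad (R := 600 / lmt τ A) (a := A) (b := Bt τ A) (l := 0) hC1 hb hε (by positivity)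
    (L3 := 1 / lmt τ A ^ 3 + Δ / Bt τ A) (T := (1 / (lmt τ A ^ 2 * (A : ℝ) ^ (1 - τ)) + 1) ^ 16 /
      lmt τ A ^ 19 / Δ ^ 2) h4 q6
  have h7 : 1 / lmt τ A ^ 3 ≤ ε * Bt τ A := by
    rw [div_mul_eq_mul_div, one_mul, div_le_iff₀ hε] at q2
    linarith
  have h7' : 1 / lmt τ A ^ 3 ≤ Bt τ A := by nlinarith
  have h6 : ∑ x ∈ XT τ A, ∑ y ∈ (XT τ A).erase x, Vsm_W (Bt τ A) x y ≤
      2 * C2 * (Bt τ A : ℝ) ^ 2 := by
    refine le_trans h3 ?_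
    have h8 : C2 * (Bt τ A : ℝ) * (1 / lmt τ A ^ 3 + Bt τ A) ≤
        C2 * (Bt τ A : ℝ) * (Bt τ A + Bt τ A) := by
      apply mul_le_mul_of_nonneg_left _ (by positivity)
      linarith
    linarith
  have h6' : ∑ x ∈ XT τ A, ∑ y ∈ ((XT τ A).erase x).filter
      (fun y => (dl x y : ℝ) ≤ ε * (Bt τ A : ℝ) ^ 2 * gk x y), Vsm_W (Bt τ A) x y ≤
      2 * C3 * ε * (Bt τ A : ℝ) ^ 2 := by
    refine le_trans h3' ?_
    have h8 : C3 * (Bt τ A : ℝ) * (1 / lmt τ A ^ 3 + ε * Bt τ A) ≤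
        C3 * (Bt τ A : ℝ) * (ε * Bt τ A + ε * Bt τ A) := by
      apply mul_le_mul_of_nonneg_left _ (by positivity)
      linarith
    linarith
  have h9 := mul_le_mul_of_nonneg_left h6 (show (0 : ℝ) ≤ 3 * ε * (A : ℝ) ^ 26 by positivity)
  have h9' := mul_le_mul_of_nonneg_left h6' (show (0 : ℝ) ≤ (A : ℝ) ^ 26 by positivity)
  have h10 : Cv * (((XT τ A).card : ℝ) * ((A : ℝ) ^ 14 / (Bt τ A : ℝ) ^ 2) ^ 2 +
      ∑ x ∈ XT τ A, ∑ y ∈ (XT τ A).erase x,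
        om2 A (600 / lmt τ A) ((A : ℝ) ^ (1 - τ)) J J' x y * Vsm_W (Bt τ A) x y) ≤
      Cv * ((9 ^ 5 + 6 * C2 + 2 * C3 + C1) * ε * ((A : ℝ) ^ 26 * (Bt τ A : ℝ) ^ 2)) := by
    apply mul_le_mul_of_nonneg_left _ hCv.le
    have h11 : (600 / lmt τ A) ^ 52 * ∑ x ∈ XT τ A, ∑ y ∈ ((XT τ A).erase x).filter
        (fun y => ¬ Rd ((A : ℝ) ^ (1 - τ)) x y), Vsm_W (Bt τ A) x y ≤
        C1 * ε * ((A : ℝ) ^ 26 * (Bt τ A : ℝ) ^ 2) := h5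
    linarith
  refine h10.trans (le_of_eq ?_)
  ring

end Pool.Agent.H7.PQ
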