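import Pool.Agent.H7.PQ.Defs

set_option autoImplicit false

/-!
# [H7 PQ WTA] zeros of the elimination polynomial, 90-150 lines

`n = 2R + 1`, so `bx 5 R` has `n^5` elements. A linear equation `∑ q_i t_i = e` (integers) with `q ≠ 0` has at most `n^4` solutions `t ∈ bx 5 R` (the coordinate `i` with `q_i ≠ 0` is determined by the others): first lemma.
`tt y v l a b c = sp q (l a) + c0` with `q i = sp (l c) y * v b i + y i * (sp (l b) (v c) - sp (l c) (v b)) - sp (l b) y * v c i` and
`c0 = sp (l b) y * sp (l c) (v a) - sp (l c) y * sp (l b) (v a) = sp (l c) z`, `z i = sp (l b) y * v a i - sp (l b) (v a) * y i` (`ring` after unfolding `sp` with `Fin.sum_univ_five`).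
The quadruples with `tt = 0` lie in the union of three sets: (i) `c0 ≠ 0`: then `q ≠ 0` and `l a` is in a set of at most `n^4` elements depending on the other three: at most `n^15 n^4`.
(ii) `c0 = 0`, `z ≠ 0`: `l c` is in a set of at most `n^4` elements depending on `l b`: `n^19`. (iii) `z = 0`: then `sp (l b) y = 0` (if it is not zero then all minors of `y`, `v a` vanish: `sp (l b) y * v a i = sp (l b) (v a) * y i`), and `y ≠ 0` (a minor is not zero), so `l b` is in a set of `n^4` elements: `n^19`.
Suggestion for the count: for a set `S` of quadruples such that for each `l` the set of `t` with `Function.update l a t ∈ S` has at most `n^4` elements: `#S ≤ n^15 n^4` (fibres of the restriction to the indices `≠ a`, e.g. of the map `l ↦ Function.update l a 0`).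
-/

namespace Pool.Agent.H7.PQ

open Finset Pool.Agent.H7.HP

private theorem wta_box_card (n R : ℕ) : (bx n R).card = (2 * R + 1) ^ n := by
  unfold bx
  rw [Fintype.card_piFinset, Finset.prod_const, Finset.card_univ, Fintype.card_fin, Int.card_Icc]
  congr 1
  omega

/-- a nontrivial linear equation has at most `n ^ 4` solutions -/
private theorem wta_lin (R : ℕ) (q : Fin 5 → ℤ) (hq : q ≠ 0) (e : ℤ) :
    ((bx 5 R).filter fun t => ∑ i, q i * t i = e).card ≤ (2 * R + 1) ^ 4 := by
  obtain ⟨i, hi⟩ := Function.ne_iff.1 hq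
  rw [← wta_box_card 4 R]
  refine Finset.card_le_card_of_injOn (fun t j => t (i.succAbove j)) ?_ ?_
  · intro t ht
    have h1 := (Finset.mem_filter.1 (Finset.mem_coe.1 ht)).1
    refine Finset.mem_coe.2 (Fintype.mem_piFinset.2 fun j => ?_)
    exact Fintype.mem_piFinset.1 h1 (i.succAbove j)
  · intro t ht t' ht' htt
    have h1 := (Finset.mem_filter.1 (Finset.mem_coe.1 ht)).2
    have h2 := (Finset.mem_filter.1 (Finset.mem_coe.1 ht')).2
    have h3 : ∀ j, t (i.succAbove j) = t' (i.succAbove j) := fun j => congrFun htt j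
    rw [Fin.sum_univ_succAbove _ i] at h1 h2
    have h4 : ∑ j : Fin 4, q (i.succAbove j) * t (i.succAbove j) =
        ∑ j : Fin 4, q (i.succAbove j) * t' (i.succAbove j) :=
      Finset.sum_congr rfl fun j _ => by rw [h3 j]
    have h5 : q i * t i = q i * t' i := by linarith
    have h6 : t i = t' i := mul_left_cancel₀ hi h5
    funext j
    rcases eq_or_ne j i with rfl | hj
    · exact h6
    · obtain ⟨k, rfl⟩ := Fin.exists_succAbove_eq hj
      exact h3 k

/-- fibres over the other coordinates -/
private theorem wta_fib (R : ℕ) (S : Finset (Fin 4 → Fin 5 → ℤ))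
    (hS : S ⊆ Fintype.piFinset fun _ : Fin 4 => bx 5 R) (a : Fin 4)
    (h : ∀ l ∈ S, ((bx 5 R).filter fun t => Function.update l a t ∈ S).card ≤
      (2 * R + 1) ^ 4) : S.card ≤ (2 * R + 1) ^ 19 := by
  have hmaps : ∀ l ∈ S, (fun j : Fin 3 => l (a.succAbove j)) ∈
      (Fintype.piFinset fun _ : Fin 3 => bx 5 R) := by
    intro l hl
    exact Fintype.mem_piFinset.2 fun j => Fintype.mem_piFinset.1 (hS hl) _
  have h1 := Finset.card_le_mul_card_image_of_maps_to hmaps ((2 * R + 1) ^ 4) (by
    intro b _
    rcases (S.filter fun l => (fun j : Fin 3 => l (a.succAbove j)) = b).eq_empty_or_nonempty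
      with h2 | ⟨l₀, hl₀⟩
    · rw [h2, Finset.card_empty]
      exact Nat.zero_le _
    · rw [Finset.mem_filter] at hl₀
      refine le_trans ?_ (h l₀ hl₀.1)
      have hup : ∀ l ∈ S.filter fun l => (fun j : Fin 3 => l (a.succAbove j)) = b,
          Function.update l₀ a (l a) = l := by
        intro l hl
        rw [Finset.mem_filter] at hl
        funext j
        rcases eq_or_ne j a with rfl | hj
        · rw [Function.update_self]
        · rw [Function.update_of_ne hj]
          obtain ⟨k, rfl⟩ := Fin.exists_succAbove_eq hj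
          exact (congrFun hl₀.2 k).trans (congrFun hl.2 k).symm
      refine Finset.card_le_card_of_injOn (fun l => l a) ?_ ?_
      · intro l hl
        have hl' := Finset.mem_coe.1 hl
        refine Finset.mem_coe.2 (Finset.mem_filter.2 ⟨?_, ?_⟩)
        · exact Fintype.mem_piFinset.1 (hS (Finset.mem_filter.1 hl').1) a
        · change Function.update l₀ a (l a) ∈ S
          rw [hup l hl']
          exact (Finset.mem_filter.1 hl').1
      · intro l hl l' hl' hll
        have e1 := hup l (Finset.mem_coe.1 hl)
        have e2 := hup l' (Finset.mem_coe.1 hl')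
        have e3 : l a = l' a := hll
        rw [← e1, ← e2, e3])
  rw [Fintype.card_piFinset, Finset.prod_const, Finset.card_univ, Fintype.card_fin,
    wta_box_card] at h1
  refine h1.trans (le_of_eq ?_)
  ring

theorem wta (R : ℕ) (y : Fin 5 → ℤ) (v : Fin 4 → Fin 5 → ℤ) (a b c : Fin 4) (hab : a ≠ b)
    (hac : a ≠ c) (hbc : b ≠ c) (hv : ∃ i j, mn y (v a) i j ≠ 0) :
    ((Fintype.piFinset fun _ : Fin 4 => bx 5 R).filter fun l => tt y v l a b c = 0).card ≤
      3 * (2 * R + 1) ^ 19 := by
  classical
  -- the coefficients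
  let z : (Fin 4 → Fin 5 → ℤ) → Fin 5 → ℤ := fun l i =>
    sp (l b) y * v a i - sp (l b) (v a) * y i
  let q : (Fin 4 → Fin 5 → ℤ) → Fin 5 → ℤ := fun l i =>
    sp (l c) y * v b i + y i * (sp (l b) (v c) - sp (l c) (v b)) - sp (l b) y * v c i
  let c0 : (Fin 4 → Fin 5 → ℤ) → ℤ := fun l =>
    sp (l b) y * sp (l c) (v a) - sp (l c) y * sp (l b) (v a)
  have htt : ∀ l, tt y v l a b c = (∑ i, q l i * l a i) + c0 l := by
    intro l
    simp only [tt, q, c0, sp, Fin.sum_univ_five]
    ring
  have hc0 : ∀ l, c0 l = ∑ i, z l i * l c i := by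
    intro l
    simp only [z, c0, sp, Fin.sum_univ_five]
    ring
  have hy : y ≠ 0 := by
    rintro rfl
    obtain ⟨i, j, h⟩ := hv
    apply h
    simp [mn]
  have hz0 : ∀ l, z l = 0 → sp (l b) y = 0 := by
    intro l hl
    by_contra hne
    obtain ⟨i, j, h⟩ := hv
    apply h
    have h1 : ∀ i, sp (l b) y * v a i = sp (l b) (v a) * y i := fun i =>
      sub_eq_zero.1 (congrFun hl i)
    have h2 : sp (l b) y * mn y (v a) i j = 0 := by
      unfold mn
      linear_combination y i * h1 j - y j * h1 i
    exact (mul_eq_zero.1 h2).resolve_left hne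
  set P := Fintype.piFinset fun _ : Fin 4 => bx 5 R with hP
  have hsub : (P.filter fun l => tt y v l a b c = 0) ⊆
      (P.filter fun l => tt y v l a b c = 0 ∧ c0 l ≠ 0) ∪
        ((P.filter fun l => c0 l = 0 ∧ z l ≠ 0) ∪ (P.filter fun l => z l = 0)) := by
    intro l hl
    rw [Finset.mem_filter] at hl
    rw [Finset.mem_union, Finset.mem_union, Finset.mem_filter, Finset.mem_filter,
      Finset.mem_filter]
    by_cases h1 : c0 l = 0
    · by_cases h2 : z l = 0
      · exact Or.inr (Or.inr ⟨hl.1, h2⟩)
      · exact Or.inr (Or.inl ⟨hl.1, h1, h2⟩)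
    · exact Or.inl ⟨hl.1, hl.2, h1⟩
  have hb1 : (P.filter fun l => tt y v l a b c = 0 ∧ c0 l ≠ 0).card ≤ (2 * R + 1) ^ 19 := by
    refine wta_fib R _ (Finset.filter_subset _ _) a fun l hl => ?_
    rw [Finset.mem_filter] at hl
    have hq : q l ≠ 0 := by
      intro h1
      have h2 := hl.2.1
      rw [htt, h1] at h2
      simp only [Pi.zero_apply, zero_mul, Finset.sum_const_zero, zero_add] at h2
      exact hl.2.2 h2
    refine le_trans (Finset.card_le_card ?_) (wta_lin R (q l) hq (-c0 l))
    intro t ht
    rw [Finset.mem_filter] at ht ⊢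
    refine ⟨ht.1, ?_⟩
    have h1 := (Finset.mem_filter.1 ht.2).2.1
    rw [htt] at h1
    have e1 : q (Function.update l a t) = q l := by
      funext i
      simp only [q, Function.update_of_ne hab.symm, Function.update_of_ne hac.symm]
    have e2 : c0 (Function.update l a t) = c0 l := by
      simp only [c0, Function.update_of_ne hab.symm, Function.update_of_ne hac.symm]
    rw [e1, e2, Function.update_self] at h1
    linarith
  have hb2 : (P.filter fun l => c0 l = 0 ∧ z l ≠ 0).card ≤ (2 * R + 1) ^ 19 := by
    refine wta_fib R _ (Finset.filter_subset _ _) c fun l hl => ?_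
    rw [Finset.mem_filter] at hl
    refine le_trans (Finset.card_le_card ?_) (wta_lin R (z l) hl.2.2 0)
    intro t ht
    rw [Finset.mem_filter] at ht ⊢
    refine ⟨ht.1, ?_⟩
    have h1 := (Finset.mem_filter.1 ht.2).2.1
    rw [hc0] at h1
    have e1 : z (Function.update l c t) = z l := by
      funext i
      simp only [z, Function.update_of_ne hbc]
    rw [e1, Function.update_self] at h1
    exact h1
  have hb3 : (P.filter fun l => z l = 0).card ≤ (2 * R + 1) ^ 19 := by
    refine wta_fib R _ (Finset.filter_subset _ _) b fun l hl => ?_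
    refine le_trans (Finset.card_le_card ?_) (wta_lin R y hy 0)
    intro t ht
    rw [Finset.mem_filter] at ht ⊢
    refine ⟨ht.1, ?_⟩
    have h1 := hz0 _ (Finset.mem_filter.1 ht.2).2
    rw [Function.update_self] at h1
    rw [← h1]
    unfold sp
    exact Finset.sum_congr rfl fun i _ => mul_comm _ _
  refine (Finset.card_le_card hsub).trans ?_
  refine (Finset.card_union_le _ _).trans ?_
  have h4 := Finset.card_union_le (P.filter fun l => c0 l = 0 ∧ z l ≠ 0)
    (P.filter fun l => z l = 0)
  omega

end Pool.Agent.H7.PQ
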